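import Pool.Agent.TH535.SM.A10
import Pool.Agent.W184.MV
import Pool.Agent.W182.KO.Fin1

set_option autoImplicit false

/-! The Dirichlet polynomial of the divisor function: tails and mean values. -/

namespace Pool.Agent.TH535.SM

open Complex MeasureTheory Filter Topology Set
open scoped FourierTransform ComplexConjugate

noncomputable section

/-- the divisor function as a real sequence -/
def dr (k n : ℕ) : ℝ := (W182.KO.dk k n : ℝ)

lemma dr_nonneg (k n : ℕ) : 0 ≤ dr k n := Nat.cast_nonneg _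

/-- the Dirichlet polynomial -/
def DN (k N : ℕ) (s : ℂ) : ℂ := W184.DS (dr k) N s

lemma dser (k : ℕ) {s : ℂ} (hs : 1 < s.re) :
    HasSum (LSeries.term (fun n => ((dr k n : ℝ) : ℂ)) s) (riemannZeta s ^ k) := by
  have h := W182.KO.tau_hasSum k (fun _ => (0:ℝ)) s hs
  rw [W182.KO.ZP_zero] at h
  have e : (W182.KO.tau (fun _ : Fin k => -(((0:ℝ):ℂ) * I))) = fun n => ((dr k n : ℝ) : ℂ) := by
    funext n
    rw [W182.KO.tau_neg_zero]
    unfold dr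
    push_cast
    rfl
  rw [e] at h
  exact h

lemma DN_eq (k N : ℕ) (s : ℂ) : DN k N s =
    ∑ n ∈ Finset.range (N + 1), LSeries.term (fun n => ((dr k n : ℝ) : ℂ)) s n := by
  unfold DN W184.DS
  have e : Finset.range (N + 1) = insert 0 (Finset.Icc 1 N) := by
    ext n; simp only [Finset.mem_range, Finset.mem_insert, Finset.mem_Icc]; omega
  rw [e, Finset.sum_insert (by simp), LSeries.term_zero, zero_add]
  refine Finset.sum_congr rfl fun n hn => ?_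
  rw [Finset.mem_Icc] at hn
  rw [LSeries.term_of_ne_zero (by omega), Complex.cpow_neg]
  rfl

/-- the tail on the line `Re s ≥ 3/2 + v` -/
lemma tail_bd (k : ℕ) : ∃ Z : ℝ, 1 ≤ Z ∧ ∀ (N v : ℕ) (Y : ℝ), 1 ≤ Y → Y ≤ N + 1 → ∀ s : ℂ,
    3 / 2 + (v : ℝ) ≤ s.re → ‖riemannZeta s ^ k - DN k N s‖ ≤ Z * (Y ^ v)⁻¹ := by
  have h0 : Summable (fun n => ‖LSeries.term (fun n => ((dr k n : ℝ) : ℂ)) ((3 / 2 : ℝ) : ℂ) n‖) :=
    (dser k (s := ((3 / 2 : ℝ) : ℂ)) (by rw [ofReal_re]; norm_num)).summable.norm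
  refine ⟨max 1 (∑' n, ‖LSeries.term (fun n => ((dr k n : ℝ) : ℂ)) ((3 / 2 : ℝ) : ℂ) n‖),
    le_max_left _ _, fun N v Y hY hN s hs => ?_⟩
  have hv : (0:ℝ) ≤ v := Nat.cast_nonneg v
  have h1 := dser k (s := s) (by linarith)
  have h2 : HasSum (fun n => if n ∈ Finset.range (N + 1) then
      LSeries.term (fun n => ((dr k n : ℝ) : ℂ)) s n else 0) (DN k N s) := by
    rw [DN_eq]
    have h5 : HasSum (fun n => if n ∈ Finset.range (N + 1) then
      LSeries.term (fun n => ((dr k n : ℝ) : ℂ)) s n else 0) (∑ n ∈ Finset.range (N + 1),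
        if n ∈ Finset.range (N + 1) then LSeries.term (fun n => ((dr k n : ℝ) : ℂ)) s n else 0) :=
      hasSum_sum_of_ne_finset_zero fun b hb => if_neg hb
    rwa [Finset.sum_congr rfl fun n hn => if_pos hn] at h5
  have h3 := h1.sub h2
  rw [← h3.tsum_eq]
  have h4 : ∀ n, ‖LSeries.term (fun n => ((dr k n : ℝ) : ℂ)) s n -
      (if n ∈ Finset.range (N + 1) then LSeries.term (fun n => ((dr k n : ℝ) : ℂ)) s n else 0)‖ ≤
      (Y ^ v)⁻¹ * ‖LSeries.term (fun n => ((dr k n : ℝ) : ℂ)) ((3 / 2 : ℝ) : ℂ) n‖ := by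
    intro n
    split_ifs with hn
    · rw [sub_self, norm_zero]; positivity
    rw [sub_zero]
    rw [Finset.mem_range, not_lt] at hn
    have hn0 : n ≠ 0 := by omega
    rw [LSeries.norm_term_eq, LSeries.norm_term_eq, if_neg hn0, if_neg hn0, ofReal_re]
    have hnR : (N + 1 : ℝ) ≤ n := by exact_mod_cast hn
    have hnp : (0:ℝ) < n := by linarith
    have h5 : Y ^ v * (n : ℝ) ^ (3 / 2 : ℝ) ≤ (n : ℝ) ^ s.re := by
      calc Y ^ v * (n : ℝ) ^ (3 / 2 : ℝ) ≤ (n : ℝ) ^ v * (n : ℝ) ^ (3 / 2 : ℝ) := by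
            gcongr
            linarith
        _ = (n : ℝ) ^ ((3 / 2 : ℝ) + v) := by
            rw [Real.rpow_add hnp, Real.rpow_natCast]; ring
        _ ≤ _ := Real.rpow_le_rpow_of_exponent_le (by linarith) hs
    calc ‖((dr k n : ℝ) : ℂ)‖ / (n : ℝ) ^ s.re ≤ ‖((dr k n : ℝ) : ℂ)‖ / (Y ^ v * (n : ℝ) ^ (3 / 2 : ℝ)) := by
          gcongr
      _ = _ := by rw [mul_comm (Y ^ v), ← div_div]; field_simp
  refine (tsum_of_norm_bounded (h0.hasSum.mul_left _) h4).trans ?_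
  rw [mul_comm]
  have : 0 ≤ (Y ^ v)⁻¹ := by positivity
  gcongr
  exact le_max_right _ _

/-- the diagonal sum -/
def SN (k N : ℕ) : ℝ := ∑ n ∈ Finset.Icc 1 N, dr k n ^ 2 / n

lemma SN_nonneg (k N : ℕ) : 0 ≤ SN k N := Finset.sum_nonneg fun n _ => by positivity

lemma dr_le (k : ℕ) {κ : ℝ} (hκ : 0 < κ) : ∃ D : ℝ, 1 ≤ D ∧ ∀ n : ℕ, dr k n ≤ D * (n : ℝ) ^ κ := by
  obtain ⟨D, hD, h⟩ := W182.KO.tau_ptw k hκ
  refine ⟨max 1 D, le_max_left _ _, fun n => ?_⟩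
  have h1 := h (fun _ => (0:ℝ)) n
  rw [W182.KO.tau_neg_zero] at h1
  have h2 : ‖((W182.KO.dk k n : ℕ) : ℂ)‖ = dr k n := by
    unfold dr
    rw [Complex.norm_natCast]
  rw [h2] at h1
  refine h1.trans ?_
  gcongr
  exact le_max_right _ _

lemma mv_DN (k : ℕ) {κ : ℝ} (hκ : 0 < κ) : ∃ D : ℝ, 1 ≤ D ∧ ∀ (N : ℕ), 1 ≤ N → ∀ T : ℝ, 0 ≤ T →
    ∫ t in (0:ℝ)..T, ‖DN k N (((1 / 2 : ℝ) : ℂ) + t * I)‖ ^ 2 ≤
      T * SN k N + D * (N : ℝ) ^ (1 + 2 * κ) * (1 + Real.log N) := by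
  obtain ⟨D, hD, hd⟩ := dr_le k hκ
  refine ⟨6 * D ^ 2, by nlinarith, fun N hN T hT => ?_⟩
  have hN1 : (1:ℝ) ≤ N := by exact_mod_cast hN
  have hN0 : (0:ℝ) < N := by linarith
  set c : ℝ := D * (N : ℝ) ^ κ with hc
  have hc0 : 0 < c := by positivity
  set g : ℕ → ℝ := fun n => if n ≤ N then dr k n / c else 0 with hg
  have hg0 : ∀ n, 0 ≤ g n := by
    intro n
    simp only [hg]
    split_ifs
    · exact div_nonneg (dr_nonneg k n) hc0.le
    · exact le_rfl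
  have hg1 : ∀ n, g n ≤ 1 := by
    intro n
    simp only [hg]
    split_ifs with h
    · rw [div_le_one hc0]
      refine (hd n).trans ?_
      rw [hc]
      have : (n:ℝ) ≤ N := by exact_mod_cast h
      gcongr
    · exact zero_le_one
  have h := W184.mv_DS hg0 hg1 (σ := 1 / 2) le_rfl N 0 T
  have e1 : ∀ t : ℝ, ‖DN k N (((1 / 2 : ℝ) : ℂ) + t * I)‖ ^ 2 =
      c ^ 2 * ‖W184.DS g N (((1 / 2 : ℝ) : ℂ) + t * I)‖ ^ 2 := by
    intro t
    have : DN k N (((1 / 2 : ℝ) : ℂ) + t * I) = (c : ℂ) * W184.DS g N (((1 / 2 : ℝ) : ℂ) + t * I) := by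
      unfold DN W184.DS
      rw [Finset.mul_sum]
      refine Finset.sum_congr rfl fun n hn => ?_
      rw [Finset.mem_Icc] at hn
      simp only [hg]
      rw [if_pos hn.2, ← mul_assoc]
      congr 1
      rw [← ofReal_mul]
      congr 1
      field_simp
    rw [this, norm_mul, mul_pow, Complex.norm_real, Real.norm_of_nonneg hc0.le]
  have e2 : c ^ 2 * ∑ n ∈ Finset.Icc 1 N, g n ^ 2 * (n : ℝ) ^ (-(2 * (1 / 2 : ℝ))) = SN k N := by
    unfold SN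
    rw [Finset.mul_sum]
    refine Finset.sum_congr rfl fun n hn => ?_
    rw [Finset.mem_Icc] at hn
    have hn0 : (0:ℝ) < n := by exact_mod_cast hn.1
    simp only [hg]
    rw [if_pos hn.2]
    have : -(2 * (1 / 2 : ℝ)) = -1 := by norm_num
    rw [this, Real.rpow_neg_one]
    field_simp
  simp_rw [e1]
  rw [intervalIntegral.integral_const_mul, ← e2]
  have h1 := (abs_le.1 h).2
  have e3 : 6 * D ^ 2 * (N : ℝ) ^ (1 + 2 * κ) * (1 + Real.log N) = c ^ 2 * (6 * N * (1 + Real.log N)) := by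
    rw [hc, mul_pow, ← Real.rpow_natCast ((N:ℝ) ^ κ), ← Real.rpow_mul hN0.le, Real.rpow_add hN0,
      Real.rpow_one]
    have : κ * ((2:ℕ):ℝ) = 2 * κ := by push_cast; ring
    rw [this]; ring
  rw [e3]
  have h2 : c ^ 2 * (∫ t in (0:ℝ)..T, ‖W184.DS g N (((1 / 2 : ℝ) : ℂ) + t * I)‖ ^ 2) ≤
      c ^ 2 * ((T - 0) * (∑ n ∈ Finset.Icc 1 N, g n ^ 2 * (n : ℝ) ^ (-(2 * (1 / 2 : ℝ)))) +
        6 * N * (1 + Real.log N)) := by
    refine mul_le_mul_of_nonneg_left ?_ (sq_nonneg c)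
    linarith
  refine h2.trans (le_of_eq ?_)
  ring

/-- the pointwise bound -/
lemma DN_sup (k N : ℕ) (t : ℝ) : ‖DN k N (((1 / 2 : ℝ) : ℂ) + t * I)‖ ^ 2 ≤ N * SN k N := by
  have h1 : ‖DN k N (((1 / 2 : ℝ) : ℂ) + t * I)‖ ≤ ∑ n ∈ Finset.Icc 1 N, dr k n * (n : ℝ) ^ (-(1 / 2 : ℝ)) := by
    unfold DN W184.DS
    refine (norm_sum_le _ _).trans (Finset.sum_le_sum fun n hn => ?_)
    rw [Finset.mem_Icc] at hn
    have hn0 : (0:ℝ) < n := by exact_mod_cast hn.1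
    rw [norm_mul, Complex.norm_real, Real.norm_of_nonneg (dr_nonneg k n)]
    have e : (n : ℂ) = ((n : ℝ) : ℂ) := by push_cast; rfl
    rw [e, Complex.norm_cpow_eq_rpow_re_of_pos hn0]
    simp
  have h2 := sq_sum_le_card_mul_sum_sq (s := Finset.Icc 1 N)
    (f := fun n => dr k n * (n : ℝ) ^ (-(1 / 2 : ℝ)))
  rw [Nat.card_Icc, Nat.add_sub_cancel] at h2
  calc ‖DN k N (((1 / 2 : ℝ) : ℂ) + t * I)‖ ^ 2 ≤
        (∑ n ∈ Finset.Icc 1 N, dr k n * (n : ℝ) ^ (-(1 / 2 : ℝ))) ^ 2 := by gcongr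
    _ ≤ N * ∑ n ∈ Finset.Icc 1 N, (dr k n * (n : ℝ) ^ (-(1 / 2 : ℝ))) ^ 2 := h2
    _ = N * SN k N := by
        unfold SN
        congr 1
        refine Finset.sum_congr rfl fun n hn => ?_
        rw [Finset.mem_Icc] at hn
        have hn0 : (0:ℝ) < n := by exact_mod_cast hn.1
        rw [mul_pow, ← Real.rpow_natCast ((n:ℝ) ^ (-(1 / 2 : ℝ))), ← Real.rpow_mul hn0.le]
        have : -(1 / 2 : ℝ) * ((2:ℕ):ℝ) = -1 := by push_cast; norm_num
        rw [this, Real.rpow_neg_one]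
        field_simp

lemma DN_cont (k N : ℕ) : Continuous (fun t : ℝ => DN k N (((1 / 2 : ℝ) : ℂ) + t * I)) := by
  unfold DN W184.DS
  refine continuous_finsetSum _ fun n hn => ?_
  rw [Finset.mem_Icc] at hn
  have hn0 : (n : ℂ) ≠ 0 := by
    have : n ≠ 0 := by omega
    exact_mod_cast this
  refine Continuous.mul continuous_const ?_
  exact Continuous.const_cpow (by fun_prop) (Or.inl hn0)

/-- the smoothed mean value -/
lemma mv_v (k : ℕ) {κ : ℝ} (hκ : 0 < κ) : ∃ D : ℝ, 1 ≤ D ∧ ∀ (N : ℕ), 1 ≤ N → ∀ T : ℝ, 1 ≤ T →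
    ∫ t, v T t ^ 2 * ‖DN k N (((1 / 2 : ℝ) : ℂ) + t * I)‖ ^ 2 ≤
      (T + 16 * N) * SN k N + D * (N : ℝ) ^ (1 + 2 * κ) * (1 + Real.log N) := by
  obtain ⟨D, hD, h⟩ := mv_DN k hκ
  refine ⟨D, hD, fun N hN T hT => ?_⟩
  have hT0 : 0 ≤ T := by linarith
  have hc : Continuous (fun t : ℝ => ‖DN k N (((1 / 2 : ℝ) : ℂ) + t * I)‖ ^ 2) := (DN_cont k N).norm.pow 2
  have hS := SN_nonneg k N
  have hb : ∀ t, v T t ^ 2 * ‖DN k N (((1 / 2 : ℝ) : ℂ) + t * I)‖ ^ 2 ≤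
      ind T t * ‖DN k N (((1 / 2 : ℝ) : ℂ) + t * I)‖ ^ 2 +
        (2 * (N * SN k N)) * (Real.exp (-t ^ 2 / 4) + Real.exp (-(t - T) ^ 2 / 4)) := by
    intro t
    have hv0 := v_nonneg hT0 t
    have hv1 := v_le_one hT0 t
    have hv2 : v T t ^ 2 ≤ v T t := by nlinarith
    have hsup := DN_sup k N t
    have hNS : 0 ≤ N * SN k N := by positivity
    have hE1 := Real.exp_pos (-t ^ 2 / 4)
    have hE2 := Real.exp_pos (-(t - T) ^ 2 / 4)
    have hs2 : √2 ≤ 2 := by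
      rw [Real.sqrt_le_left (by norm_num)]; norm_num
    by_cases h1 : t ∈ Icc 0 T
    · rw [ind_mem h1, one_mul]
      have : v T t ^ 2 * ‖DN k N (((1 / 2 : ℝ) : ℂ) + t * I)‖ ^ 2 ≤
          1 * ‖DN k N (((1 / 2 : ℝ) : ℂ) + t * I)‖ ^ 2 := by
        refine mul_le_mul_of_nonneg_right (by linarith) (by positivity)
      have : 0 ≤ (2 * (N * SN k N)) * (Real.exp (-t ^ 2 / 4) + Real.exp (-(t - T) ^ 2 / 4)) := by
        positivity
      linarith
    · rw [ind_not h1, zero_mul, zero_add]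
      have h3 : v T t ^ 2 ≤ 2 * (Real.exp (-t ^ 2 / 4) + Real.exp (-(t - T) ^ 2 / 4)) := by
        rw [mem_Icc, not_and_or, not_le, not_le] at h1
        rcases h1 with h1 | h1
        · have h4 := v_neg hT0 h1.le
          have h5 : Real.exp (-t ^ 2 / 2) ≤ Real.exp (-t ^ 2 / 4) :=
            Real.exp_le_exp.2 (by nlinarith [sq_nonneg t])
          nlinarith [Real.exp_pos (-t ^ 2 / 2)]
        · have h4 := v_gt hT0 h1.le
          have h5 : Real.exp (-(t - T) ^ 2 / 2) ≤ Real.exp (-(t - T) ^ 2 / 4) :=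
            Real.exp_le_exp.2 (by nlinarith [sq_nonneg (t - T)])
          nlinarith [Real.exp_pos (-(t - T) ^ 2 / 2)]
      calc v T t ^ 2 * ‖DN k N (((1 / 2 : ℝ) : ℂ) + t * I)‖ ^ 2 ≤
            (2 * (Real.exp (-t ^ 2 / 4) + Real.exp (-(t - T) ^ 2 / 4))) * (N * SN k N) :=
            mul_le_mul h3 hsup (by positivity) (by positivity)
        _ = _ := by ring
  have hE : Integrable (fun t : ℝ => Real.exp (-t ^ 2 / 4) + Real.exp (-(t - T) ^ 2 / 4)) :=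
    g_int4.add (g_int4.comp_sub_right T)
  have hEv : ∫ t : ℝ, (Real.exp (-t ^ 2 / 4) + Real.exp (-(t - T) ^ 2 / 4)) ≤ 8 := by
    rw [integral_add g_int4 (g_int4.comp_sub_right T)]
    have := integral_sub_right_eq_self (fun t : ℝ => Real.exp (-t ^ 2 / 4)) (μ := volume) T
    rw [this]
    linarith [g_val4]
  have hI : Integrable (fun t => ind T t * ‖DN k N (((1 / 2 : ℝ) : ℂ) + t * I)‖ ^ 2 +
        (2 * (N * SN k N)) * (Real.exp (-t ^ 2 / 4) + Real.exp (-(t - T) ^ 2 / 4))) :=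
    (ind_bd hc).add (hE.const_mul _)
  calc ∫ t, v T t ^ 2 * ‖DN k N (((1 / 2 : ℝ) : ℂ) + t * I)‖ ^ 2 ≤
        ∫ t, (ind T t * ‖DN k N (((1 / 2 : ℝ) : ℂ) + t * I)‖ ^ 2 +
        (2 * (N * SN k N)) * (Real.exp (-t ^ 2 / 4) + Real.exp (-(t - T) ^ 2 / 4))) :=
        integral_mono_of_nonneg (Eventually.of_forall fun t => by positivity) hI
          (Eventually.of_forall hb)
    _ = (∫ t in (0:ℝ)..T, ‖DN k N (((1 / 2 : ℝ) : ℂ) + t * I)‖ ^ 2) +
        (2 * (N * SN k N)) * ∫ t : ℝ, (Real.exp (-t ^ 2 / 4) + Real.exp (-(t - T) ^ 2 / 4)) := by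
        rw [integral_add (ind_bd hc) (hE.const_mul _), ind_val hT0, integral_const_mul]
    _ ≤ (T * SN k N + D * (N : ℝ) ^ (1 + 2 * κ) * (1 + Real.log N)) + (2 * (N * SN k N)) * 8 := by
        gcongr
        exact h N hN T hT0
    _ = _ := by ring

end

end Pool.Agent.TH535.SM
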