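import Pool.Agent.CG3.Planch

set_option autoImplicit false

/-! Functions with quadratic decay on the line: Plancherel, translations, spectral mass. -/

namespace Pool.Agent.TH535.SM

open Complex MeasureTheory Filter Topology Set
open scoped FourierTransform

noncomputable section

lemma inv_sq_int : Integrable (fun y : ℝ => ((1 + |y|) ^ 2)⁻¹) := by
  have h := integrable_one_add_norm (E := ℝ) (μ := volume) (r := 2) (by simp)
  refine h.congr (Eventually.of_forall fun y => ?_)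
  simp only [Real.norm_eq_abs]
  rw [Real.rpow_neg (by positivity)]
  norm_cast

/-- continuous with quadratic decay -/
structure Dec (F : ℝ → ℂ) : Prop where
  cont : Continuous F
  bd : ∃ B : ℝ, 0 ≤ B ∧ ∀ t, ‖F t‖ ≤ B * ((1 + |t|) ^ 2)⁻¹

lemma Dec.int {F : ℝ → ℂ} (h : Dec F) : Integrable F := by
  obtain ⟨B, hB, hb⟩ := h.bd
  exact (inv_sq_int.const_mul B).mono' h.cont.aestronglyMeasurable (Eventually.of_forall hb)

lemma Dec.sq {F : ℝ → ℂ} (h : Dec F) : Integrable (fun t => ‖F t‖ ^ 2) := by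
  obtain ⟨B, hB, hb⟩ := h.bd
  refine (inv_sq_int.const_mul (B ^ 2)).mono' (h.cont.norm.pow 2).aestronglyMeasurable
    (Eventually.of_forall fun t => ?_)
  rw [Real.norm_of_nonneg (by positivity)]
  have h1 : (1 + |t|) ^ 2 ≥ 1 := one_le_pow₀ (by have := abs_nonneg t; linarith)
  have h2 : ((1 + |t|) ^ 2)⁻¹ ≤ 1 := inv_le_one_of_one_le₀ h1
  have h3 : 0 ≤ ((1 + |t|) ^ 2)⁻¹ := by positivity
  calc ‖F t‖ ^ 2 ≤ (B * ((1 + |t|) ^ 2)⁻¹) ^ 2 := by gcongr; exact hb t
    _ = B ^ 2 * (((1 + |t|) ^ 2)⁻¹ * ((1 + |t|) ^ 2)⁻¹) := by ring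
    _ ≤ B ^ 2 * (1 * ((1 + |t|) ^ 2)⁻¹) := by gcongr
    _ = _ := by ring

lemma Dec.add {F G : ℝ → ℂ} (hF : Dec F) (hG : Dec G) : Dec (fun t => F t + G t) := by
  obtain ⟨B, hB, hb⟩ := hF.bd
  obtain ⟨C, hC, hc⟩ := hG.bd
  refine ⟨hF.cont.add hG.cont, B + C, by positivity, fun t => ?_⟩
  refine (norm_add_le _ _).trans ?_
  rw [add_mul]
  exact add_le_add (hb t) (hc t)

lemma Dec.smul {F : ℝ → ℂ} (hF : Dec F) (c : ℂ) : Dec (fun t => c * F t) := by
  obtain ⟨B, hB, hb⟩ := hF.bd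
  refine ⟨continuous_const.mul hF.cont, ‖c‖ * B, by positivity, fun t => ?_⟩
  rw [norm_mul, mul_assoc]
  exact mul_le_mul_of_nonneg_left (hb t) (norm_nonneg _)

lemma Dec.sub {F G : ℝ → ℂ} (hF : Dec F) (hG : Dec G) : Dec (fun t => F t - G t) := by
  have := hF.add (hG.smul (-1))
  have e : (fun t => F t + -1 * G t) = fun t => F t - G t := by
    funext t; ring
  rwa [e] at this

lemma one_add_abs_le (t a : ℝ) : 1 + |t| ≤ (1 + |t + a|) * (1 + |a|) := by
  have h1 : |t| ≤ |t + a| + |a| := by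
    have := abs_sub (t + a) a
    simpa using this
  have h2 := mul_nonneg (abs_nonneg (t + a)) (abs_nonneg a)
  nlinarith

lemma Dec.shift {F : ℝ → ℂ} (hF : Dec F) (a : ℝ) : Dec (fun t => F (t + a)) := by
  obtain ⟨B, hB, hb⟩ := hF.bd
  refine ⟨hF.cont.comp (by fun_prop), B * (1 + |a|) ^ 2, by positivity, fun t => ?_⟩
  refine (hb (t + a)).trans ?_
  rw [mul_assoc]
  refine mul_le_mul_of_nonneg_left ?_ hB
  have h0 : 0 < (1 + |t + a|) ^ 2 := by positivity
  have h1 : 0 < (1 + |t|) ^ 2 := by positivity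
  rw [← div_eq_mul_inv, le_div_iff₀ h1, inv_mul_le_iff₀ h0, ← mul_pow]
  have := one_add_abs_le t a
  gcongr

/-- Plancherel for functions with decay -/
lemma planch {F : ℝ → ℂ} (hF : Dec F) :
    Integrable (fun w => ‖𝓕 F w‖ ^ 2) ∧ ∫ w, ‖𝓕 F w‖ ^ 2 = ∫ t, ‖F t‖ ^ 2 := by
  have h2 : MemLp F 2 := (memLp_two_iff_integrable_sq_norm hF.cont.aestronglyMeasurable).2 hF.sq
  have hp := CG3.aux_plancherel F hF.int h2
  have hc : Continuous (𝓕 F) :=
    VectorFourier.fourierIntegral_continuous Real.continuous_fourierChar continuous_inner hF.int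
  have e : ∀ z : ℂ, ‖z‖ₑ ^ 2 = ENNReal.ofReal (‖z‖ ^ 2) := by
    intro z
    rw [ENNReal.ofReal_pow (norm_nonneg _), ofReal_norm]
  simp only [e] at hp
  have hfin : ∫⁻ w, ENNReal.ofReal (‖𝓕 F w‖ ^ 2) < ⊤ := by
    rw [hp, ← ofReal_integral_eq_lintegral_ofReal hF.sq (Eventually.of_forall fun t => by positivity)]
    exact ENNReal.ofReal_lt_top
  have hI : Integrable (fun w => ‖𝓕 F w‖ ^ 2) := by
    refine ⟨(hc.norm.pow 2).aestronglyMeasurable, ?_⟩
    rw [hasFiniteIntegral_iff_ofReal (Eventually.of_forall fun t => by positivity)]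
    exact hfin
  refine ⟨hI, ?_⟩
  have g1 := integral_eq_lintegral_of_nonneg_ae (μ := volume) (f := fun w => ‖𝓕 F w‖ ^ 2)
    (Eventually.of_forall fun t => by positivity) (hc.norm.pow 2).aestronglyMeasurable
  have g2 := integral_eq_lintegral_of_nonneg_ae (μ := volume) (f := fun w => ‖F w‖ ^ 2)
    (Eventually.of_forall fun t => by positivity) (hF.cont.norm.pow 2).aestronglyMeasurable
  rw [g1, g2, hp]

lemma ft_eq (F : ℝ → ℂ) (w : ℝ) : 𝓕 F w = ∫ t : ℝ, cexp (-(2 * Real.pi * w * t * I)) * F t := by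
  rw [Real.fourier_eq']
  refine integral_congr_ae (Eventually.of_forall fun t => ?_)
  simp only [smul_eq_mul]
  congr 2
  simp
  ring

lemma ft_cont {F : ℝ → ℂ} (hF : Dec F) : Continuous (𝓕 F) :=
  VectorFourier.fourierIntegral_continuous Real.continuous_fourierChar continuous_inner hF.int

lemma ft_shift (F : ℝ → ℂ) (a w : ℝ) :
    𝓕 (fun t => F (t + a)) w = cexp (2 * Real.pi * w * a * I) * 𝓕 F w := by
  rw [ft_eq, ft_eq, ← integral_const_mul]
  have h := integral_add_right_eq_self (μ := volume)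
    (fun t : ℝ => cexp (2 * Real.pi * w * a * I) * (cexp (-(2 * Real.pi * w * t * I)) * F t)) a
  rw [← h]
  refine integral_congr_ae (Eventually.of_forall fun t => ?_)
  simp only
  rw [← mul_assoc, ← Complex.exp_add]
  congr 2
  push_cast
  ring

lemma ft_add {F G : ℝ → ℂ} (hF : Dec F) (hG : Dec G) (w : ℝ) :
    𝓕 (fun t => F t + G t) w = 𝓕 F w + 𝓕 G w := by
  have h : ∀ {H : ℝ → ℂ}, Dec H →
      Integrable (fun t : ℝ => cexp (-(2 * Real.pi * w * t * I)) * H t) := by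
    intro H hH
    refine hH.int.norm.mono' ((by fun_prop : Continuous fun t : ℝ =>
      cexp (-(2 * Real.pi * w * t * I))).mul hH.cont).aestronglyMeasurable
      (Eventually.of_forall fun t => ?_)
    rw [norm_mul, Complex.norm_exp]
    simp
  rw [ft_eq, ft_eq, ft_eq, ← integral_add (h hF) (h hG)]
  refine integral_congr_ae (Eventually.of_forall fun t => ?_)
  simp only
  ring

lemma ft_smul (F : ℝ → ℂ) (c : ℂ) (w : ℝ) : 𝓕 (fun t => c * F t) w = c * 𝓕 F w := by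
  rw [ft_eq, ft_eq, ← integral_const_mul]
  refine integral_congr_ae (Eventually.of_forall fun t => ?_)
  simp only
  ring

/-- the operator `F ↦ F(· + a) + e^{-iκ} F(· - a)` -/
def U (a κ : ℝ) (F : ℝ → ℂ) (t : ℝ) : ℂ := F (t + a) + cexp (-(κ * I)) * F (t + -a)

lemma U_dec {F : ℝ → ℂ} (hF : Dec F) (a κ : ℝ) : Dec (U a κ F) :=
  (hF.shift a).add ((hF.shift (-a)).smul _)

/-- the multiplier of `U`, squared -/
def mu (a κ w : ℝ) : ℝ := 2 + 2 * Real.cos (4 * Real.pi * a * w + κ)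

lemma mu_nonneg (a κ w : ℝ) : 0 ≤ mu a κ w := by
  have := Real.neg_one_le_cos (4 * Real.pi * a * w + κ)
  unfold mu; linarith

lemma mu_le (a κ w : ℝ) : mu a κ w ≤ 4 := by
  have := Real.cos_le_one (4 * Real.pi * a * w + κ)
  unfold mu; linarith

lemma mult_norm (a κ w : ℝ) :
    ‖cexp (2 * Real.pi * w * a * I) + cexp (-(κ * I)) * cexp (2 * Real.pi * w * (-a : ℝ) * I)‖ ^ 2 =
      mu a κ w := by
  have e : cexp (2 * Real.pi * w * a * I) + cexp (-(κ * I)) * cexp (2 * Real.pi * w * (-a : ℝ) * I) =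
      cexp (((-(κ / 2) : ℝ) : ℂ) * I) * ((2 * Real.cos (2 * Real.pi * w * a + κ / 2) : ℝ) : ℂ) := by
    push_cast
    rw [Complex.cos, mul_div_cancel₀ _ (by norm_num : (2:ℂ) ≠ 0), mul_add, ← Complex.exp_add,
      ← Complex.exp_add, ← Complex.exp_add]
    congr 2 <;> ring
  rw [e, norm_mul, Complex.norm_exp_ofReal_mul_I, one_mul, Complex.norm_real, Real.norm_eq_abs,
    sq_abs]
  unfold mu
  have : Real.cos (4 * Real.pi * a * w + κ) = 2 * Real.cos (2 * Real.pi * w * a + κ / 2) ^ 2 - 1 := by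
    rw [← Real.cos_two_mul]
    congr 1; ring
  rw [this]
  ring

lemma U_ft {F : ℝ → ℂ} (hF : Dec F) (a κ w : ℝ) :
    ‖𝓕 (U a κ F) w‖ ^ 2 = mu a κ w * ‖𝓕 F w‖ ^ 2 := by
  have : 𝓕 (U a κ F) w = (cexp (2 * Real.pi * w * a * I) +
      cexp (-(κ * I)) * cexp (2 * Real.pi * w * (-a : ℝ) * I)) * 𝓕 F w := by
    unfold U
    rw [ft_add (hF.shift a) ((hF.shift (-a)).smul _), ft_smul, ft_shift, ft_shift]
    ring
  rw [this, norm_mul, mul_pow, mult_norm]

lemma U_norm {F : ℝ → ℂ} (hF : Dec F) (a κ : ℝ) :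
    ∫ t, ‖U a κ F t‖ ^ 2 = ∫ w, mu a κ w * ‖𝓕 F w‖ ^ 2 := by
  rw [← (planch (U_dec hF a κ)).2]
  exact integral_congr_ae (Eventually.of_forall fun w => U_ft hF a κ w)

/-- spectral mass of a set -/
def ms (F : ℝ → ℂ) (A : Set ℝ) : ℝ := ∫ w in A, ‖𝓕 F w‖ ^ 2

lemma ms_nonneg (F : ℝ → ℂ) (A : Set ℝ) : 0 ≤ ms F A :=
  integral_nonneg fun _ => by positivity

lemma mu_int {F : ℝ → ℂ} (hF : Dec F) (a κ : ℝ) :
    Integrable (fun w => mu a κ w * ‖𝓕 F w‖ ^ 2) := by
  refine ((planch hF).1.const_mul 4).mono' ?_ (Eventually.of_forall fun w => ?_)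
  · have : Continuous (fun w => mu a κ w * ‖𝓕 F w‖ ^ 2) := by
      have := ft_cont hF
      unfold mu
      fun_prop
    exact this.aestronglyMeasurable
  · rw [Real.norm_of_nonneg (mul_nonneg (mu_nonneg a κ w) (by positivity))]
    exact mul_le_mul_of_nonneg_right (mu_le a κ w) (by positivity)

/-- lower bound from the multiplier on a set -/
lemma lower_set {F : ℝ → ℂ} (hF : Dec F) (a κ : ℝ) {A : Set ℝ} (hA : MeasurableSet A) {m0 : ℝ}
    (hm : ∀ w ∈ A, m0 ≤ mu a κ w) :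
    m0 * ((∫ t, ‖F t‖ ^ 2) - ms F Aᶜ) ≤ ∫ t, ‖U a κ F t‖ ^ 2 := by
  have hI := (planch hF).1
  rw [← (planch hF).2, U_norm hF, ← integral_add_compl hA hI]
  unfold ms
  rw [add_sub_cancel_right, ← integral_const_mul]
  calc ∫ w in A, m0 * ‖𝓕 F w‖ ^ 2 ≤ ∫ w in A, mu a κ w * ‖𝓕 F w‖ ^ 2 := by
        refine setIntegral_mono_on (hI.integrableOn.const_mul m0) (mu_int hF a κ).integrableOn hA
          fun w hw => ?_
        exact mul_le_mul_of_nonneg_right (hm w hw) (by positivity)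
    _ ≤ ∫ w, mu a κ w * ‖𝓕 F w‖ ^ 2 :=
        setIntegral_le_integral (mu_int hF a κ) (Eventually.of_forall fun w =>
          mul_nonneg (mu_nonneg a κ w) (by positivity))

/-- the mass of a half line through a shifted function -/
lemma ms_le_of_shift {F G : ℝ → ℂ} (hF : Dec F) (hG : Dec G) {u : ℝ}
    (he : ∀ w : ℝ, 𝓕 F w = cexp (-(2 * Real.pi * w * u : ℝ)) * 𝓕 G w) {A : Set ℝ}
    (hA : MeasurableSet A) {E : ℝ} (hE : ∀ w ∈ A, -(4 * Real.pi * w * u) ≤ E) :
    ms F A ≤ Real.exp E * ∫ t, ‖G t‖ ^ 2 := by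
  unfold ms
  rw [← (planch hG).2, ← integral_const_mul]
  calc ∫ w in A, ‖𝓕 F w‖ ^ 2 ≤ ∫ w in A, Real.exp E * ‖𝓕 G w‖ ^ 2 := by
        refine setIntegral_mono_on (planch hF).1.integrableOn
          ((planch hG).1.integrableOn.const_mul _) hA fun w hw => ?_
        rw [he w, norm_mul, mul_pow, Complex.norm_exp]
        refine mul_le_mul_of_nonneg_right ?_ (by positivity)
        rw [← Real.exp_nat_mul]
        refine Real.exp_le_exp.2 ?_
        have := hE w hw
        rw [← Complex.ofReal_neg, Complex.ofReal_re]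
        push_cast
        linarith
    _ ≤ _ := setIntegral_le_integral ((planch hG).1.const_mul _)
        (Eventually.of_forall fun w => by positivity)

end

end Pool.Agent.TH535.SM
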