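import Pool.Agent.TH535.SM.A9

set_option autoImplicit false

/-! The comparison theorem outside a small exceptional set. -/

namespace Pool.Agent.TH535.SM

open Complex MeasureTheory Filter Topology Set
open scoped FourierTransform ComplexConjugate

noncomputable section

variable {z : ℝ → ℂ} {K : ℕ}

theorem stage1e (hz : ∀ u : ℕ, 1 ≤ u → ∃ G, Dat z G u K) {α : ℝ} (hα : |α| * K < Real.pi)
    {ε : ℝ} (hε : 0 < ε) : ∃ C X0 : ℝ, 0 ≤ C ∧ 1 ≤ X0 ∧ ∀ X : ℝ, X0 ≤ X → ∃ E : Set ℝ,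
      MeasurableSet E ∧ E ⊆ Icc X (2 * X) ∧ (volume : Measure ℝ).real E ≤ C * Real.log X ^ 2 ∧
      ∀ T ∈ Icc X (2 * X), T ∉ E →
        (Real.cos (K * α) - ε) * M z T - C ≤
          (cexp ((K * α : ℝ) * I) * Cor z (α / Real.log T) T).re := by
  obtain ⟨C, T0, hC, hT0, h1⟩ := stage1 hz hα (ε := min (ε / 2) (1 / 2)) (by positivity)
    (lt_of_le_of_lt (min_le_right _ _) (by norm_num))
  obtain ⟨G, D⟩ := hz 1 le_rfl
  obtain ⟨C2, X0, hC2, hX0, h2⟩ := exc D (ε := min (ε / (2 * (C + 1))) 1) (by positivity)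
    (min_le_right _ _)
  refine ⟨max C2 (3 * C), max X0 T0, le_max_of_le_left hC2, le_max_of_le_left hX0, fun X hX => ?_⟩
  obtain ⟨E, hE1, hE2, hE3, hE4⟩ := h2 X ((le_max_left _ _).trans hX)
  refine ⟨E, hE1, hE2, hE3.trans ?_, fun T hT hTE => ?_⟩
  · exact mul_le_mul_of_nonneg_right (le_max_left _ _) (sq_nonneg _)
  have hTX : T0 ≤ T := ((le_max_right _ _).trans hX).trans hT.1
  have hM : 0 ≤ M z T := M_nonneg z (by linarith)
  have a1 := h1 T hTX
  have a2 := hE4 T hT hTE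
  have b1 : min (ε / 2) (1 / 2) ≤ ε / 2 := min_le_left _ _
  have b2 : C * min (ε / (2 * (C + 1))) 1 ≤ ε / 2 := by
    have : min (ε / (2 * (C + 1))) 1 ≤ ε / (2 * (C + 1)) := min_le_left _ _
    calc C * min (ε / (2 * (C + 1))) 1 ≤ C * (ε / (2 * (C + 1))) := by gcongr
      _ = ε / 2 * (C / (C + 1)) := by field_simp
      _ ≤ ε / 2 * 1 := by
          have : C / (C + 1) ≤ 1 := by rw [div_le_one (by linarith)]; linarith
          gcongr
      _ = _ := mul_one _
  have b3 : C * (1 + B z T) ≤ ε / 2 * M z T + 3 * C := by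
    calc C * (1 + B z T) ≤ C * (1 + (min (ε / (2 * (C + 1))) 1 * M z T + 2)) := by gcongr
      _ = (C * min (ε / (2 * (C + 1))) 1) * M z T + 3 * C := by ring
      _ ≤ _ := by gcongr
  have b4 : 3 * C ≤ max C2 (3 * C) := le_max_right _ _
  have b5 : min (ε / 2) (1 / 2) * M z T ≤ ε / 2 * M z T := by gcongr
  linarith

end

end Pool.Agent.TH535.SM
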