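import Pool.Agent.TH535.SM.A1
import Pool.Agent.Helper148.Fourier

set_option autoImplicit false

/-! The smoothed indicator of `[0, T]` and its entire extension. -/

namespace Pool.Agent.TH535.SM

open Complex MeasureTheory Filter Topology Set
open scoped FourierTransform

noncomputable section

/-- the smoothed indicator of `[0, T]` -/
def v (T t : ℝ) : ℝ := (√Real.pi)⁻¹ * ∫ y in (0:ℝ)..T, Real.exp (-(t - y) ^ 2)

/-- its entire extension (in the variable `s = 1/2 + it`) -/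
def V (T : ℝ) (s : ℂ) : ℂ := ∫ x in (0:ℝ)..1, ((T * (√Real.pi)⁻¹ : ℝ) : ℂ) *
  cexp ((s - 1 / 2 - T * x * I) ^ 2)

lemma V_diff (T : ℝ) : Differentiable ℂ (V T) := by
  unfold V
  refine Helper148.PM.holo_param (fun x s => ((T * (√Real.pi)⁻¹ : ℝ) : ℂ) *
    cexp ((s - 1 / 2 - T * x * I) ^ 2)) (by fun_prop) (fun x => by fun_prop)

lemma v_eq (T t : ℝ) : v T t = ∫ x in (0:ℝ)..1, T * (√Real.pi)⁻¹ * Real.exp (-(t - T * x) ^ 2) := by
  have h := intervalIntegral.mul_integral_comp_mul_left (a := 0) (b := 1)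
    (f := fun y : ℝ => Real.exp (-(t - y) ^ 2)) T
  simp only [mul_zero, mul_one] at h
  unfold v
  rw [← h, intervalIntegral.integral_const_mul]
  ring

lemma V_line (T t : ℝ) : V T (1 / 2 + t * I) = (v T t : ℂ) := by
  rw [v_eq, V, ← intervalIntegral.integral_ofReal]
  refine intervalIntegral.integral_congr fun x _ => ?_
  push_cast
  congr 2
  have : (1 / 2 + (t : ℂ) * I - 1 / 2 - T * x * I) ^ 2 = (t - T * x) ^ 2 * I ^ 2 := by ring
  rw [this, I_sq]
  ring

lemma V_norm {T : ℝ} (hT : 0 ≤ T) (s : ℂ) :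
    ‖V T s‖ ≤ Real.exp ((s.re - 1 / 2) ^ 2) * v T s.im := by
  rw [v_eq, V]
  refine (intervalIntegral.norm_integral_le_integral_norm (by norm_num)).trans (le_of_eq ?_)
  rw [← intervalIntegral.integral_const_mul]
  refine intervalIntegral.integral_congr fun x _ => ?_
  rw [norm_mul, Complex.norm_real, Real.norm_of_nonneg (by positivity), Complex.norm_exp]
  have : ((s - 1 / 2 - T * x * I) ^ 2).re = (s.re - 1 / 2) ^ 2 + -(s.im - T * x) ^ 2 := by
    simp [pow_two]
    ring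
  rw [this, Real.exp_add]
  ring

lemma g_int : Integrable (fun z : ℝ => Real.exp (-z ^ 2)) := by
  have := integrable_exp_neg_mul_sq (b := 1) (by norm_num)
  simpa using this

lemma g_int2 : Integrable (fun z : ℝ => Real.exp (-z ^ 2 / 2)) := by
  have := integrable_exp_neg_mul_sq (b := 1 / 2) (by norm_num)
  refine this.congr (Eventually.of_forall fun z => ?_)
  simp only
  congr 1; ring

lemma g_val : ∫ z : ℝ, Real.exp (-z ^ 2) = √Real.pi := by
  have := integral_gaussian 1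
  simpa using this

lemma g_val2 : ∫ z : ℝ, Real.exp (-z ^ 2 / 2) = √(2 * Real.pi) := by
  have h := integral_gaussian (1 / 2)
  rw [show Real.pi / (1 / 2) = 2 * Real.pi by ring] at h
  rw [← h]
  refine integral_congr_ae (Eventually.of_forall fun z => ?_)
  simp only
  congr 1; ring

lemma gtail {S : Set ℝ} (hS : MeasurableSet S) {d : ℝ} (hd : 0 ≤ d) (h : ∀ z ∈ S, d ≤ |z|) :
    (√Real.pi)⁻¹ * ∫ z in S, Real.exp (-z ^ 2) ≤ √2 * Real.exp (-d ^ 2 / 2) := by
  have h1 : ∫ z in S, Real.exp (-z ^ 2) ≤ ∫ z in S, Real.exp (-d ^ 2 / 2) * Real.exp (-z ^ 2 / 2) := by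
    refine setIntegral_mono_on g_int.integrableOn (g_int2.integrableOn.const_mul _) hS
      fun z hz => ?_
    rw [← Real.exp_add]
    refine Real.exp_le_exp.2 ?_
    have : d ^ 2 ≤ z ^ 2 := by
      rw [← sq_abs z]
      have := h z hz
      gcongr
    linarith
  have h2 : ∫ z in S, Real.exp (-d ^ 2 / 2) * Real.exp (-z ^ 2 / 2) ≤
      Real.exp (-d ^ 2 / 2) * √(2 * Real.pi) := by
    rw [integral_const_mul, ← g_val2]
    refine mul_le_mul_of_nonneg_left ?_ (by positivity)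
    exact setIntegral_le_integral g_int2 (Eventually.of_forall fun z => by positivity)
  have hp : 0 < √Real.pi := Real.sqrt_pos.2 Real.pi_pos
  rw [inv_mul_le_iff₀ hp]
  refine (h1.trans h2).trans (le_of_eq ?_)
  rw [Real.sqrt_mul (by norm_num)]
  ring

lemma v_ioc {T : ℝ} (hT : 0 ≤ T) (t : ℝ) :
    v T t = (√Real.pi)⁻¹ * ∫ z in Ioc (t - T) t, Real.exp (-z ^ 2) := by
  unfold v
  rw [intervalIntegral.integral_comp_sub_left (fun z => Real.exp (-z ^ 2)) t, sub_zero,
    intervalIntegral.integral_of_le (by linarith)]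

lemma v_nonneg {T : ℝ} (hT : 0 ≤ T) (t : ℝ) : 0 ≤ v T t := by
  rw [v_ioc hT]
  have : 0 ≤ ∫ z in Ioc (t - T) t, Real.exp (-z ^ 2) := integral_nonneg fun z => by positivity
  positivity

lemma v_le_one {T : ℝ} (hT : 0 ≤ T) (t : ℝ) : v T t ≤ 1 := by
  rw [v_ioc hT]
  have hp : 0 < √Real.pi := Real.sqrt_pos.2 Real.pi_pos
  rw [inv_mul_le_iff₀ hp, mul_one, ← g_val]
  exact setIntegral_le_integral g_int (Eventually.of_forall fun z => by positivity)

lemma v_neg {T t : ℝ} (hT : 0 ≤ T) (ht : t ≤ 0) : v T t ≤ √2 * Real.exp (-t ^ 2 / 2) := by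
  rw [v_ioc hT]
  have h := gtail (S := Ioc (t - T) t) measurableSet_Ioc (d := -t) (by linarith) (fun z hz => by
    rw [abs_of_nonpos (by linarith [hz.2])]; linarith [hz.2])
  simpa using h

lemma v_gt {T t : ℝ} (hT : 0 ≤ T) (ht : T ≤ t) : v T t ≤ √2 * Real.exp (-(t - T) ^ 2 / 2) := by
  rw [v_ioc hT]
  exact gtail (S := Ioc (t - T) t) measurableSet_Ioc (d := t - T) (by linarith) (fun z hz => by
    rw [abs_of_nonneg (by linarith [hz.1])]; linarith [hz.1])

lemma v_mid {T t : ℝ} (hT : 0 ≤ T) (h0 : 0 ≤ t) (h1 : t ≤ T) :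
    1 - v T t ≤ √2 * (Real.exp (-t ^ 2 / 2) + Real.exp (-(t - T) ^ 2 / 2)) := by
  have hp : 0 < √Real.pi := Real.sqrt_pos.2 Real.pi_pos
  have e1 : ∫ z : ℝ, Real.exp (-z ^ 2) = (∫ z in Ioc (t - T) t, Real.exp (-z ^ 2)) +
      ∫ z in (Ioc (t - T) t)ᶜ, Real.exp (-z ^ 2) := (integral_add_compl measurableSet_Ioc g_int).symm
  have e2 : (Ioc (t - T) t)ᶜ = Iic (t - T) ∪ Ioi t := by
    ext z
    simp only [mem_compl_iff, mem_Ioc, mem_union, mem_Iic, mem_Ioi, not_and_or, not_lt, not_le]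
  have hdisj : Disjoint (Iic (t - T)) (Ioi t) := by
    rw [Set.disjoint_left]
    intro z hz hz'
    simp only [mem_Iic, mem_Ioi] at hz hz'
    linarith
  rw [e2, setIntegral_union hdisj measurableSet_Ioi g_int.integrableOn g_int.integrableOn,
    g_val] at e1
  have h2 := gtail (S := Iic (t - T)) measurableSet_Iic (d := T - t) (by linarith) (fun z hz => by
    have : z ≤ t - T := hz
    rw [abs_of_nonpos (by linarith)]; linarith)
  have h3 := gtail (S := Ioi t) measurableSet_Ioi (d := t) h0 (fun z hz => by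
    have : t < z := hz
    rw [abs_of_nonneg (by linarith)]; linarith)
  have e4 : (T - t) ^ 2 = (t - T) ^ 2 := by ring
  rw [e4] at h2
  rw [v_ioc hT]
  have e5 : 1 - (√Real.pi)⁻¹ * ∫ z in Ioc (t - T) t, Real.exp (-z ^ 2) =
      (√Real.pi)⁻¹ * (∫ z in Iic (t - T), Real.exp (-z ^ 2)) +
      (√Real.pi)⁻¹ * ∫ z in Ioi t, Real.exp (-z ^ 2) := by
    have : (1:ℝ) = (√Real.pi)⁻¹ * √Real.pi := by rw [inv_mul_cancel₀ hp.ne']
    nth_rewrite 1 [this]
    rw [e1]
    ring
  rw [e5]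
  linarith

/-- comparison with the sharp cut-off -/
lemma v_close {T : ℝ} (hT : 0 ≤ T) (t : ℝ) :
    |(Icc (0:ℝ) T).indicator (fun _ => (1:ℝ)) t - v T t| ≤
      √2 * (Real.exp (-t ^ 2 / 2) + Real.exp (-(t - T) ^ 2 / 2)) := by
  have hp1 := Real.exp_pos (-t ^ 2 / 2)
  have hp2 := Real.exp_pos (-(t - T) ^ 2 / 2)
  have h2 : 0 < √2 := by positivity
  have m1 := mul_pos h2 hp1
  have m2 := mul_pos h2 hp2
  by_cases ht : t ∈ Icc 0 T
  · rw [indicator_of_mem ht, abs_of_nonneg (by linarith [v_le_one hT t])]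
    exact v_mid hT ht.1 ht.2
  · rw [indicator_of_notMem ht, zero_sub, abs_neg, abs_of_nonneg (v_nonneg hT t), mul_add]
    rw [mem_Icc, not_and_or, not_le, not_le] at ht
    rcases ht with h | h
    · have := v_neg hT h.le
      linarith
    · have := v_gt hT h.le
      linarith

/-- the majorant -/
def gm (T t : ℝ) : ℝ := (Icc (0:ℝ) T).indicator (fun _ => (1:ℝ)) t + Real.exp (-t ^ 2 / 4) +
  Real.exp (-(t - T) ^ 2 / 4)

lemma poly_exp (p : ℕ) {d : ℝ} (hd : 0 ≤ d) :
    (1 + d) ^ p * Real.exp (-d ^ 2 / 2) ≤ p.factorial * Real.exp (3 / 2) := by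
  have h1 := Real.pow_div_factorial_le_exp (1 + d) (by linarith) p
  have hf : (0:ℝ) < p.factorial := by exact_mod_cast Nat.factorial_pos p
  rw [div_le_iff₀ hf] at h1
  calc (1 + d) ^ p * Real.exp (-d ^ 2 / 2) ≤ (Real.exp (1 + d) * p.factorial) * Real.exp (-d ^ 2 / 2) := by
        gcongr
    _ = p.factorial * Real.exp (1 + d + -d ^ 2 / 2) := by rw [Real.exp_add (1 + d)]; ring
    _ ≤ _ := by
        refine mul_le_mul_of_nonneg_left (Real.exp_le_exp.2 ?_) hf.le
        nlinarith [sq_nonneg (d - 1)]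

lemma v_poly (p : ℕ) : ∃ C : ℝ, 1 ≤ C ∧ ∀ T : ℝ, 1 ≤ T → ∀ t : ℝ,
    v T t ^ 2 * (1 + |t|) ^ p ≤ C * T ^ p * gm T t := by
  refine ⟨2 * 2 ^ p * (p.factorial * Real.exp (3 / 2)), ?_, fun T hT t => ?_⟩
  · have h1 : (1:ℝ) ≤ 2 ^ p := one_le_pow₀ (by norm_num)
    have h2 : (1:ℝ) ≤ p.factorial := by exact_mod_cast Nat.succ_le_of_lt (Nat.factorial_pos p)
    have h3 : (1:ℝ) ≤ Real.exp (3 / 2) := Real.one_le_exp (by norm_num)
    have h4 : (1:ℝ) ≤ p.factorial * Real.exp (3 / 2) := one_le_mul_of_one_le_of_one_le h2 h3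
    nlinarith [mul_le_mul h1 h4 (by norm_num) (by positivity)]
  have hT0 : 0 ≤ T := by linarith
  have hf1 : (1:ℝ) ≤ p.factorial := by exact_mod_cast Nat.succ_le_of_lt (Nat.factorial_pos p)
  have hK : (1:ℝ) ≤ p.factorial * Real.exp (3 / 2) :=
    one_le_mul_of_one_le_of_one_le hf1 (Real.one_le_exp (by norm_num))
  have hind : 0 ≤ (Icc (0:ℝ) T).indicator (fun _ => (1:ℝ)) t :=
    indicator_nonneg (fun _ _ => by norm_num) t
  have key : ∀ d : ℝ, 0 ≤ d → v T t ≤ √2 * Real.exp (-d ^ 2 / 2) → 1 + |t| ≤ (2 * T) * (1 + d) →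
      v T t ^ 2 * (1 + |t|) ^ p ≤ 2 * 2 ^ p * (p.factorial * Real.exp (3 / 2)) * T ^ p *
        Real.exp (-d ^ 2 / 4) := by
    intro d hd h1 h2
    have h3 : v T t ^ 2 ≤ 2 * Real.exp (-d ^ 2) := by
      calc v T t ^ 2 ≤ (√2 * Real.exp (-d ^ 2 / 2)) ^ 2 := by
            gcongr
            exact v_nonneg hT0 t
        _ = 2 * Real.exp (-d ^ 2) := by
            rw [mul_pow, Real.sq_sqrt (by norm_num), ← Real.exp_nat_mul]
            congr 2; push_cast; ring
    have h4 := poly_exp p hd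
    calc v T t ^ 2 * (1 + |t|) ^ p ≤ (2 * Real.exp (-d ^ 2)) * ((2 * T) * (1 + d)) ^ p := by gcongr
      _ = 2 * 2 ^ p * T ^ p * ((1 + d) ^ p * Real.exp (-d ^ 2 / 2)) * Real.exp (-d ^ 2 / 2) := by
          have : Real.exp (-d ^ 2) = Real.exp (-d ^ 2 / 2) * Real.exp (-d ^ 2 / 2) := by
            rw [← Real.exp_add]; congr 1; ring
          rw [this, mul_pow, mul_pow]
          ring
      _ ≤ 2 * 2 ^ p * T ^ p * (p.factorial * Real.exp (3 / 2)) * Real.exp (-d ^ 2 / 4) := by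
          have h5 : Real.exp (-d ^ 2 / 2) ≤ Real.exp (-d ^ 2 / 4) :=
            Real.exp_le_exp.2 (by nlinarith [sq_nonneg d])
          gcongr
      _ = _ := by ring
  have habs := abs_nonneg t
  have hcoef : 0 ≤ 2 * 2 ^ p * (p.factorial * Real.exp (3 / 2)) * T ^ p := by positivity
  unfold gm
  by_cases ht : t ∈ Icc 0 T
  · rw [indicator_of_mem ht]
    have h1 : v T t ^ 2 ≤ 1 := pow_le_one₀ (v_nonneg hT0 t) (v_le_one hT0 t)
    have h2 : (1 + |t|) ^ p ≤ (2 * T) ^ p := by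
      rw [abs_of_nonneg ht.1]
      have := ht.2
      gcongr
      · linarith [ht.1]
      · linarith
    have h3 : (1:ℝ) ≤ 1 + Real.exp (-t ^ 2 / 4) + Real.exp (-(t - T) ^ 2 / 4) := by
      have := Real.exp_pos (-t ^ 2 / 4)
      have := Real.exp_pos (-(t - T) ^ 2 / 4)
      linarith
    calc v T t ^ 2 * (1 + |t|) ^ p ≤ 1 * (2 * T) ^ p := by gcongr
      _ = 1 * 2 ^ p * 1 * T ^ p * 1 := by rw [mul_pow]; ring
      _ ≤ 2 * 2 ^ p * (p.factorial * Real.exp (3 / 2)) * T ^ p *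
          (1 + Real.exp (-t ^ 2 / 4) + Real.exp (-(t - T) ^ 2 / 4)) := by
          gcongr
          norm_num
  · rw [indicator_of_notMem ht]
    rw [mem_Icc, not_and_or, not_le, not_le] at ht
    rcases ht with h | h
    · have h1 := key (-t) (by linarith) (by
        have := v_neg hT0 h.le
        simpa using this) (by
        rw [abs_of_neg h]; nlinarith)
      have e : (-t) ^ 2 = t ^ 2 := by ring
      rw [e] at h1
      refine h1.trans (mul_le_mul_of_nonneg_left ?_ hcoef)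
      have := Real.exp_pos (-(t - T) ^ 2 / 4)
      linarith
    · have h1 := key (t - T) (by linarith) (v_gt hT0 h.le) (by
        rw [abs_of_pos (by linarith)]; nlinarith)
      refine h1.trans (mul_le_mul_of_nonneg_left ?_ hcoef)
      have := Real.exp_pos (-t ^ 2 / 4)
      linarith

lemma g_int4 : Integrable (fun z : ℝ => Real.exp (-z ^ 2 / 4)) := by
  have := integrable_exp_neg_mul_sq (b := 1 / 4) (by norm_num)
  refine this.congr (Eventually.of_forall fun z => ?_)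
  simp only
  congr 1; ring

lemma g_val4 : ∫ z : ℝ, Real.exp (-z ^ 2 / 4) ≤ 4 := by
  have h := integral_gaussian (1 / 4)
  have e : ∫ z : ℝ, Real.exp (-z ^ 2 / 4) = √(Real.pi / (1 / 4)) := by
    rw [← h]
    refine integral_congr_ae (Eventually.of_forall fun z => ?_)
    simp only
    congr 1; ring
  rw [e]
  rw [Real.sqrt_le_left (by norm_num)]
  have := Real.pi_le_four
  linarith

lemma gm_int (T : ℝ) : Integrable (gm T) := by
  unfold gm
  refine Integrable.add (Integrable.add ?_ g_int4) (g_int4.comp_sub_right T)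
  exact (integrable_indicator_iff measurableSet_Icc).2 (by simp)

lemma gm_val {T : ℝ} (hT : 1 ≤ T) : ∫ t, gm T t ≤ 9 * T := by
  unfold gm
  have i1 : Integrable (fun t : ℝ => (Icc (0:ℝ) T).indicator (fun _ => (1:ℝ)) t) :=
    (integrable_indicator_iff measurableSet_Icc).2 (by simp)
  have i3 : Integrable (fun t : ℝ => Real.exp (-(t - T) ^ 2 / 4)) := g_int4.comp_sub_right T
  have e1 : ∫ t : ℝ, ((Icc (0:ℝ) T).indicator (fun _ => (1:ℝ)) t + Real.exp (-t ^ 2 / 4) +
      Real.exp (-(t - T) ^ 2 / 4)) = (∫ t : ℝ, ((Icc (0:ℝ) T).indicator (fun _ => (1:ℝ)) t +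
        Real.exp (-t ^ 2 / 4))) + ∫ t : ℝ, Real.exp (-(t - T) ^ 2 / 4) := integral_add (i1.add g_int4) i3
  rw [e1, integral_add i1 g_int4,
    integral_sub_right_eq_self (fun t : ℝ => Real.exp (-t ^ 2 / 4)) T,
    integral_indicator measurableSet_Icc]
  have := g_val4
  simp only [integral_const, MeasurableSet.univ, measureReal_restrict_apply, univ_inter,
    Real.volume_real_Icc, sub_zero, smul_eq_mul, mul_one]
  rw [max_eq_left (by linarith)]
  linarith

end

end Pool.Agent.TH535.SM
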