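import Pool.Agent.TH535.SM.A2
import Pool.Agent.W182.KO.Strip
import Pool.Agent.H448R2.GC.X2

set_option autoImplicit false

/-! The function `((s-1) ζ(s) / (s+2u+1))^k` and its bounds on vertical lines. -/

namespace Pool.Agent.TH535.SM

open Complex MeasureTheory Filter Topology Set
open scoped FourierTransform

noncomputable section

/-- `(s-1) ζ(s)` -/
def Y : ℂ → ℂ := Function.update (fun w : ℂ => (w - 1) * riemannZeta w) 1 1

lemma Y_diff : Differentiable ℂ Y := H448R2.GC.zeta_one_entire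

lemma Y_eq {s : ℂ} (h : s ≠ 1) : Y s = (s - 1) * riemannZeta s := by
  unfold Y
  rw [Function.update_of_ne h]

/-- the function -/
def H (k u : ℕ) (s : ℂ) : ℂ := (Y s / (s + (2 * u + 1 : ℕ))) ^ k

lemma den_re (u : ℕ) (s : ℂ) : (s + (2 * u + 1 : ℕ)).re = s.re + (2 * u + 1) := by
  rw [add_re, natCast_re]; push_cast; ring

lemma den_im (u : ℕ) (s : ℂ) : (s + (2 * u + 1 : ℕ)).im = s.im := by
  rw [add_im, natCast_im]; ring

lemma den_ne {u : ℕ} {s : ℂ} (h : -(2 * u + 1 : ℝ) < s.re) : s + (2 * u + 1 : ℕ) ≠ 0 := by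
  intro h0
  have := congrArg Complex.re h0
  rw [den_re, zero_re] at this
  linarith

lemma H_diff (k : ℕ) {u : ℕ} {s : ℂ} (h : -(2 * u + 1 : ℝ) < s.re) : DifferentiableAt ℂ (H k u) s := by
  unfold H
  have h1 := den_ne h
  exact ((Y_diff s).div (by fun_prop) h1).pow k

lemma den_norm {u : ℕ} {s : ℂ} (h : 1 / 2 - (u : ℝ) ≤ s.re) : 1 ≤ ‖s + (2 * u + 1 : ℕ)‖ := by
  have h1 := Complex.abs_re_le_norm (s + (2 * u + 1 : ℕ))
  rw [den_re] at h1
  have h0 : (0:ℝ) ≤ u := Nat.cast_nonneg u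
  have h2 := le_abs_self (s.re + (2 * u + 1))
  linarith

lemma ratio_le {u : ℕ} {s : ℂ} (h1 : 1 / 2 - (u : ℝ) ≤ s.re) : ‖s - 1‖ ≤ ‖s + (2 * u + 1 : ℕ)‖ := by
  have h0 : (0:ℝ) ≤ u := Nat.cast_nonneg u
  have h2 : ‖s - 1‖ ^ 2 ≤ ‖s + (2 * u + 1 : ℕ)‖ ^ 2 := by
    rw [Complex.sq_norm, Complex.sq_norm, Complex.normSq_apply, Complex.normSq_apply, den_re, den_im,
      sub_re, sub_im, one_re, one_im]
    nlinarith
  exact (sq_le_sq₀ (norm_nonneg _) (norm_nonneg _)).1 h2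

lemma H_le {k u : ℕ} {s : ℂ} (h1 : 1 / 2 - (u : ℝ) ≤ s.re) (hs : s ≠ 1) :
    ‖H k u s‖ ≤ ‖riemannZeta s‖ ^ k := by
  unfold H
  rw [norm_pow, norm_div, Y_eq hs, norm_mul]
  have h2 := den_norm h1
  have h3 := ratio_le h1
  refine pow_le_pow_left₀ (by positivity) ?_ k
  rw [div_le_iff₀ (by linarith), mul_comm]
  gcongr

/-- bound for zeta on `Re ≥ 3/2` -/
lemma zeta_right : ∃ Z : ℝ, 1 ≤ Z ∧ ∀ s : ℂ, 3 / 2 ≤ s.re → ‖riemannZeta s‖ ≤ Z := by
  have hsum : Summable (fun n : ℕ => 1 / ((n : ℝ) + 1) ^ (3 / 2 : ℝ)) := by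
    have := (summable_nat_add_iff 1).2 (Real.summable_one_div_nat_rpow.2 (by norm_num : (1:ℝ) < 3 / 2))
    simpa using this
  refine ⟨max 1 (∑' n : ℕ, 1 / ((n : ℝ) + 1) ^ (3 / 2 : ℝ)), le_max_left _ _, fun s hs => ?_⟩
  refine le_trans ?_ (le_max_right _ _)
  rw [zeta_eq_tsum_one_div_nat_add_one_cpow (by linarith)]
  have hb : ∀ n : ℕ, ‖1 / ((n : ℂ) + 1) ^ s‖ ≤ 1 / ((n : ℝ) + 1) ^ (3 / 2 : ℝ) := by
    intro n
    have e : ((n : ℂ) + 1) = (((n : ℝ) + 1 : ℝ) : ℂ) := by push_cast; ring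
    have hn : (1:ℝ) ≤ (n : ℝ) + 1 := by have := Nat.cast_nonneg (α := ℝ) n; linarith
    rw [norm_div, norm_one, e, Complex.norm_cpow_eq_rpow_re_of_pos (by linarith)]
    refine one_div_le_one_div_of_le (by positivity) ?_
    exact Real.rpow_le_rpow_of_exponent_le hn hs
  exact tsum_of_norm_bounded hsum.hasSum hb

/-- bounded on the right line -/
lemma H_right (k : ℕ) {u : ℕ} (hu : 1 ≤ u) : ∃ C : ℝ, 1 ≤ C ∧ ∀ t : ℝ,
    ‖H k u (((1 / 2 + u : ℝ) : ℂ) + t * I)‖ ≤ C := by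
  obtain ⟨Z, hZ, hz⟩ := zeta_right
  have hu1 : (1:ℝ) ≤ u := by exact_mod_cast hu
  refine ⟨Z ^ k, one_le_pow₀ hZ, fun t => ?_⟩
  have hre : (((1 / 2 + u : ℝ) : ℂ) + t * I).re = 1 / 2 + u := by simp
  refine (H_le (by rw [hre]; linarith) ?_).trans ?_
  · intro h
    have := congrArg Complex.re h
    rw [hre, one_re] at this
    linarith
  · have := hz (((1 / 2 + u : ℝ) : ℂ) + t * I) (by rw [hre]; linarith)
    gcongr

/-- polynomial growth on the left line, with the exact exponent -/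
lemma H_left (k : ℕ) {u : ℕ} (hu : 1 ≤ u) : ∃ C : ℝ, 1 ≤ C ∧ ∀ t : ℝ,
    ‖H k u (((1 / 2 - u : ℝ) : ℂ) + t * I)‖ ≤ C * (1 + |t|) ^ (u * k) := by
  obtain ⟨Z, hZ, hz⟩ := zeta_right
  have hu1 : (1:ℝ) ≤ u := by exact_mod_cast hu
  obtain ⟨K, hK, hX⟩ := W182.KO.XX_bound (c := 1 / 2 + u) (by linarith)
  refine ⟨(K * Z) ^ k, one_le_pow₀ (by nlinarith), fun t => ?_⟩
  set s : ℂ := ((1 / 2 - u : ℝ) : ℂ) + t * I with hs
  have hre : s.re = 1 / 2 - u := by simp [hs]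
  have hne : s ≠ 1 := by
    intro h
    have := congrArg Complex.re h
    rw [hre, one_re] at this
    linarith
  refine (H_le (by rw [hre]) hne).trans ?_
  set w : ℂ := ((1 / 2 + u : ℝ) : ℂ) + (-t : ℝ) * I with hw
  have e : s = 1 - w := by
    rw [hs, hw]; push_cast; ring
  have hwre : w.re = 1 / 2 + u := by simp [hw]
  have hw1 : w ≠ 1 := by
    intro h
    have := congrArg Complex.re h
    rw [hwre, one_re] at this
    linarith
  rw [e, W182.KO.zeta_XX (by rw [hwre]; linarith) hw1, norm_mul]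
  have h1 := hX (1 / 2 + u) (-t) (by linarith) le_rfl
  rw [← hw, abs_neg] at h1
  have h2 := hz w (by rw [hwre]; linarith)
  have e2 : (1 / 2 + (u:ℝ) - 1 / 2) = (u : ℕ) := by ring
  rw [e2, Real.rpow_natCast] at h1
  calc (‖W182.KO.XX w‖ * ‖riemannZeta w‖) ^ k ≤ ((K * (1 + |t|) ^ u) * Z) ^ k := by gcongr
    _ = (K * Z) ^ k * (1 + |t|) ^ (u * k) := by
        rw [pow_mul, ← mul_pow]
        congr 1; ring

/-- polynomial growth in the strip -/
lemma H_strip (k : ℕ) {u : ℕ} (hu : 1 ≤ u) : ∃ (C : ℝ) (M : ℕ), 1 ≤ C ∧ ∀ s : ℂ,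
    1 / 2 - (u : ℝ) ≤ s.re → s.re ≤ 1 / 2 + u → ‖H k u s‖ ≤ C * (1 + |s.im|) ^ M := by
  have hu1 : (1:ℝ) ≤ u := by exact_mod_cast hu
  obtain ⟨K, B, hK, hb⟩ := W182.KO.zeta_refl_bound (c := 1 / 2 + u) (by linarith)
  have hcomp : IsCompact (Icc (1 / 2 - u : ℝ) (1 / 2 + u) ×ℂ Icc (-1 : ℝ) 1) :=
    isCompact_Icc.reProdIm isCompact_Icc
  obtain ⟨K2, hK2⟩ := hcomp.exists_bound_of_continuousOn (f := H k u) (by
    intro s hs
    refine (H_diff k ?_).continuousAt.continuousWithinAt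
    have := hs.1.1
    linarith)
  -- zeta at height ≥ 1
  have hz : ∀ s : ℂ, 1 / 2 - (u : ℝ) ≤ s.re → s.re ≤ 1 / 2 + u → 1 ≤ |s.im| →
      ‖riemannZeta s‖ ≤ (K + 6 * (u + 3) ^ 2) * (1 + |s.im|) ^ (B + 2) := by
    intro s h1 h2 h3
    have him : 1 ≤ 1 + |s.im| := by have := abs_nonneg s.im; linarith
    rcases le_total (1 / 2) s.re with h | h
    · have h4 := H306R2.zeta_norm_le (s := s) h (by
        have := Complex.abs_im_le_norm (s - 1)
        simp at this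
        linarith)
      have h5 : ‖s‖ + 1 ≤ (u + 3) * (1 + |s.im|) := by
        have := Complex.norm_le_abs_re_add_abs_im s
        rw [abs_of_nonneg (by linarith : 0 ≤ s.re)] at this
        nlinarith
      calc ‖riemannZeta s‖ ≤ 6 * ((u + 3) * (1 + |s.im|)) ^ 2 := h4.trans (by gcongr)
        _ = 6 * (u + 3) ^ 2 * (1 + |s.im|) ^ 2 := by ring
        _ ≤ (K + 6 * (u + 3) ^ 2) * (1 + |s.im|) ^ (B + 2) := by
            have h6 : (1 + |s.im|) ^ 2 ≤ (1 + |s.im|) ^ (B + 2) :=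
              pow_le_pow_right₀ him (by omega)
            gcongr
            linarith
    · have h4 := hb (1 - s) (by simp; linarith) (by simp; linarith)
      have e1 : 1 - (1 - s) = s := by ring
      have e2 : (1 - s).im = -s.im := by simp
      rw [e1, e2, abs_neg] at h4
      refine h4.trans ?_
      have h6 : (1 + |s.im|) ^ B ≤ (1 + |s.im|) ^ (B + 2) :=
        pow_le_pow_right₀ him (by omega)
      gcongr
      nlinarith
  refine ⟨max 1 (max K2 ((K + 6 * (u + 3) ^ 2) ^ k)), (B + 2) * k, le_max_left _ _,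
    fun s h1 h2 => ?_⟩
  have him : 1 ≤ 1 + |s.im| := by have := abs_nonneg s.im; linarith
  rcases le_total |s.im| 1 with h3 | h3
  · have h4 := hK2 s ⟨⟨h1, h2⟩, abs_le.1 h3⟩
    calc ‖H k u s‖ ≤ K2 := h4
      _ ≤ max 1 (max K2 ((K + 6 * (u + 3) ^ 2) ^ k)) * 1 := by
          rw [mul_one]; exact (le_max_left _ _).trans (le_max_right _ _)
      _ ≤ _ := by
          have : (1:ℝ) ≤ (1 + |s.im|) ^ ((B + 2) * k) := one_le_pow₀ him
          gcongr
  · have hne : s ≠ 1 := by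
      rintro rfl
      norm_num at h3
    calc ‖H k u s‖ ≤ ‖riemannZeta s‖ ^ k := H_le h1 hne
      _ ≤ ((K + 6 * (u + 3) ^ 2) * (1 + |s.im|) ^ (B + 2)) ^ k := by
          have := hz s h1 h2 h3
          gcongr
      _ = (K + 6 * (u + 3) ^ 2) ^ k * (1 + |s.im|) ^ ((B + 2) * k) := by
          rw [mul_pow, ← pow_mul]
      _ ≤ _ := by
          gcongr
          exact (le_max_right _ _).trans (le_max_right _ _)

/-- the critical line -/
lemma H_line {k u : ℕ} (t : ℝ) : ‖H k u (1 / 2 + t * I)‖ ≤ ‖riemannZeta (1 / 2 + t * I)‖ ^ k := by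
  refine H_le ?_ ?_
  · simp
  · intro h
    have := congrArg Complex.re h
    simp at this

lemma pow_sub_one_le {b : ℂ} (hb : ‖b‖ ≤ 1) (k : ℕ) : ‖b ^ k - 1‖ ≤ k * ‖b - 1‖ := by
  induction k with
  | zero => simp
  | succ n ih =>
    have e : b ^ (n + 1) - 1 = b ^ n * (b - 1) + (b ^ n - 1) := by ring
    rw [e]
    refine (norm_add_le _ _).trans ?_
    rw [norm_mul, norm_pow]
    have h1 : ‖b‖ ^ n ≤ 1 := pow_le_one₀ (norm_nonneg _) hb
    have h2 : ‖b‖ ^ n * ‖b - 1‖ ≤ 1 * ‖b - 1‖ := by gcongr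
    push_cast
    linarith

lemma H_line_close (k u : ℕ) : ∃ C : ℝ, 0 ≤ C ∧ ∀ t : ℝ,
    ‖H k u (1 / 2 + t * I) - riemannZeta (1 / 2 + t * I) ^ k‖ ≤
      C / (1 + |t|) * ‖riemannZeta (1 / 2 + t * I)‖ ^ k := by
  refine ⟨k * (2 * (2 * u + 2)), by positivity, fun t => ?_⟩
  set s : ℂ := 1 / 2 + t * I with hs
  have hre : s.re = 1 / 2 := by simp [hs]
  have him : s.im = t := by simp [hs]
  have hne : s ≠ 1 := by
    intro h
    have := congrArg Complex.re h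
    rw [hre, one_re] at this
    norm_num at this
  have h0 : (0:ℝ) ≤ u := Nat.cast_nonneg u
  have hd1 := den_norm (u := u) (s := s) (by rw [hre]; linarith)
  have hd0 : s + (2 * u + 1 : ℕ) ≠ 0 := norm_pos_iff.1 (by linarith)
  set b : ℂ := (s - 1) / (s + (2 * u + 1 : ℕ)) with hb
  have e : H k u s = b ^ k * riemannZeta s ^ k := by
    unfold H
    rw [Y_eq hne, hb, ← mul_pow]
    congr 1; ring
  have hb1 : ‖b‖ ≤ 1 := by
    rw [hb, norm_div, div_le_one (by linarith)]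
    exact ratio_le (by rw [hre]; linarith)
  have hb2 : ‖b - 1‖ ≤ 2 * (2 * u + 2) / (1 + |t|) := by
    have e3 : b - 1 = -((2 * u + 2 : ℕ) : ℂ) / (s + (2 * u + 1 : ℕ)) := by
      rw [hb, div_sub_one hd0]
      congr 1
      push_cast; ring
    rw [e3, norm_div, norm_neg, Complex.norm_natCast]
    have h4 : (1 + |t|) / 2 ≤ ‖s + (2 * u + 1 : ℕ)‖ := by
      have h5 := Complex.abs_im_le_norm (s + (2 * u + 1 : ℕ))
      rw [den_im, him] at h5
      linarith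
    have e5 : ((2 * u + 2 : ℕ) : ℝ) = 2 * u + 2 := by push_cast; ring
    rw [e5, div_le_div_iff₀ (by linarith) (by positivity)]
    nlinarith [mul_le_mul_of_nonneg_left h4 (by linarith : (0:ℝ) ≤ 2 * u + 2)]
  rw [e, ← sub_one_mul, norm_mul, norm_pow]
  refine mul_le_mul_of_nonneg_right ?_ (by positivity)
  refine (pow_sub_one_le hb1 k).trans ?_
  rw [mul_div_assoc]
  gcongr

end

end Pool.Agent.TH535.SM
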