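import Pool.Agent.TH535.SM.A3

set_option autoImplicit false

/-! Shifting the line for functions `V_T · G`, `G` of polynomial growth; spectral mass of half lines. -/

namespace Pool.Agent.TH535.SM

open Complex MeasureTheory Filter Topology Set
open scoped FourierTransform

noncomputable section

/-- analytic with polynomial growth in the strip `|Re s - 1/2| ≤ u` -/
structure PG (G : ℂ → ℂ) (u : ℕ) : Prop where
  diff : ∀ s : ℂ, 1 / 2 - (u : ℝ) ≤ s.re → s.re ≤ 1 / 2 + u → DifferentiableAt ℂ G s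
  bd : ∃ (C : ℝ) (M : ℕ), 0 ≤ C ∧ ∀ s : ℂ, 1 / 2 - (u : ℝ) ≤ s.re → s.re ≤ 1 / 2 + u →
    ‖G s‖ ≤ C * (1 + |s.im|) ^ M

lemma PG.add {G1 G2 : ℂ → ℂ} {u : ℕ} (h1 : PG G1 u) (h2 : PG G2 u) :
    PG (fun s => G1 s + G2 s) u := by
  refine ⟨fun s a b => (h1.diff s a b).add (h2.diff s a b), ?_⟩
  obtain ⟨C1, M1, hC1, hb1⟩ := h1.bd
  obtain ⟨C2, M2, hC2, hb2⟩ := h2.bd
  refine ⟨C1 + C2, M1 + M2, by positivity, fun s a b => ?_⟩
  have him : 1 ≤ 1 + |s.im| := by have := abs_nonneg s.im; linarith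
  have e1 : (1 + |s.im|) ^ M1 ≤ (1 + |s.im|) ^ (M1 + M2) := pow_le_pow_right₀ him (by omega)
  have e2 : (1 + |s.im|) ^ M2 ≤ (1 + |s.im|) ^ (M1 + M2) := pow_le_pow_right₀ him (by omega)
  calc _ ≤ ‖G1 s‖ + ‖G2 s‖ := norm_add_le _ _
    _ ≤ C1 * (1 + |s.im|) ^ M1 + C2 * (1 + |s.im|) ^ M2 := add_le_add (hb1 s a b) (hb2 s a b)
    _ ≤ C1 * (1 + |s.im|) ^ (M1 + M2) + C2 * (1 + |s.im|) ^ (M1 + M2) := by gcongr
    _ = _ := by ring

lemma PG.smul {G : ℂ → ℂ} {u : ℕ} (h : PG G u) (c : ℂ) : PG (fun s => c * G s) u := by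
  refine ⟨fun s a b => (h.diff s a b).const_mul c, ?_⟩
  obtain ⟨C, M, hC, hb⟩ := h.bd
  refine ⟨‖c‖ * C, M, by positivity, fun s a b => ?_⟩
  rw [norm_mul, mul_assoc]
  exact mul_le_mul_of_nonneg_left (hb s a b) (norm_nonneg _)

lemma H_PG (k : ℕ) {u : ℕ} (hu : 1 ≤ u) : PG (H k u) u := by
  obtain ⟨C, M, hC, hb⟩ := H_strip k hu
  refine ⟨fun s h1 h2 => H_diff k ?_, C, M, by linarith, hb⟩
  have : (1:ℝ) ≤ u := by exact_mod_cast hu
  linarith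

lemma VG_bd {G : ℂ → ℂ} {u : ℕ} (hG : PG G u) {T : ℝ} (hT : 1 ≤ T) : ∃ B : ℝ, 0 ≤ B ∧ ∀ s : ℂ,
    1 / 2 - (u : ℝ) ≤ s.re → s.re ≤ 1 / 2 + u → ‖V T s * G s‖ ≤ B * ((1 + |s.im|) ^ 2)⁻¹ := by
  obtain ⟨C, M, hC, hb⟩ := hG.bd
  obtain ⟨D, hD, hv⟩ := v_poly (2 * (M + 2))
  have hT0 : 0 ≤ T := by linarith
  set B1 : ℝ := √(D * T ^ (2 * (M + 2)) * 3) with hB1
  refine ⟨Real.exp ((u:ℝ) ^ 2) * C * B1, by positivity, fun s h1 h2 => ?_⟩
  have habs := abs_nonneg s.im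
  have hgm : gm T s.im ≤ 3 := by
    unfold gm
    have a1 : (Icc (0:ℝ) T).indicator (fun _ => (1:ℝ)) s.im ≤ 1 :=
      indicator_le_self' (fun _ _ => by norm_num) s.im
    have a2 : Real.exp (-s.im ^ 2 / 4) ≤ 1 := Real.exp_le_one_iff.2 (by nlinarith [sq_nonneg s.im])
    have a3 : Real.exp (-(s.im - T) ^ 2 / 4) ≤ 1 :=
      Real.exp_le_one_iff.2 (by nlinarith [sq_nonneg (s.im - T)])
    linarith
  have h3 : v T s.im * (1 + |s.im|) ^ (M + 2) ≤ B1 := by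
    rw [hB1]
    refine Real.le_sqrt_of_sq_le ?_
    calc (v T s.im * (1 + |s.im|) ^ (M + 2)) ^ 2 = v T s.im ^ 2 * (1 + |s.im|) ^ (2 * (M + 2)) := by
          rw [mul_pow, ← pow_mul, mul_comm (M + 2) 2]
      _ ≤ D * T ^ (2 * (M + 2)) * gm T s.im := hv T hT s.im
      _ ≤ _ := by gcongr
  have h4 := V_norm hT0 s
  have h5 : Real.exp ((s.re - 1 / 2) ^ 2) ≤ Real.exp ((u:ℝ) ^ 2) := by
    refine Real.exp_le_exp.2 ?_
    have : |s.re - 1 / 2| ≤ u := abs_le.2 ⟨by linarith, by linarith⟩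
    rw [← sq_abs (s.re - 1 / 2)]
    gcongr
  have hpos : 0 < (1 + |s.im|) ^ 2 := by positivity
  have hv0 := v_nonneg hT0 s.im
  rw [norm_mul, ← div_eq_mul_inv, le_div_iff₀ hpos]
  calc ‖V T s‖ * ‖G s‖ * (1 + |s.im|) ^ 2 ≤
        (Real.exp ((u:ℝ) ^ 2) * v T s.im) * (C * (1 + |s.im|) ^ M) * (1 + |s.im|) ^ 2 := by
        gcongr
        · exact h4.trans (by gcongr)
        · exact hb s h1 h2
    _ = Real.exp ((u:ℝ) ^ 2) * C * (v T s.im * (1 + |s.im|) ^ (M + 2)) := by ring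
    _ ≤ _ := by gcongr

/-- the function on the line `Re s = 1/2 + r` -/
def Fn (G : ℂ → ℂ) (T r t : ℝ) : ℂ := V T (((1 / 2 + r : ℝ) : ℂ) + t * I) *
  G (((1 / 2 + r : ℝ) : ℂ) + t * I)

lemma Fn_dec {G : ℂ → ℂ} {u : ℕ} (hG : PG G u) {T : ℝ} (hT : 1 ≤ T) {r : ℝ} (h1 : -(u:ℝ) ≤ r)
    (h2 : r ≤ u) : Dec (Fn G T r) := by
  have hre : ∀ t : ℝ, (((1 / 2 + r : ℝ) : ℂ) + t * I).re = 1 / 2 + r := fun t => by simp
  have him : ∀ t : ℝ, (((1 / 2 + r : ℝ) : ℂ) + t * I).im = t := fun t => by simp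
  refine ⟨?_, ?_⟩
  · rw [continuous_iff_continuousAt]
    intro t
    have hd : ContinuousAt (fun s : ℂ => V T s * G s) (((1 / 2 + r : ℝ) : ℂ) + t * I) :=
      ((V_diff T _).mul (hG.diff _ (by rw [hre]; linarith) (by rw [hre]; linarith))).continuousAt
    exact ContinuousAt.comp (f := fun t : ℝ => (((1 / 2 + r : ℝ) : ℂ) + t * I)) hd (by fun_prop)
  · obtain ⟨B, hB, hb⟩ := VG_bd hG hT
    refine ⟨B, hB, fun t => ?_⟩
    have := hb (((1 / 2 + r : ℝ) : ℂ) + t * I) (by rw [hre]; linarith) (by rw [hre]; linarith)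
    rwa [him] at this

lemma Fn_shift {G : ℂ → ℂ} {u : ℕ} (hG : PG G u) {T : ℝ} (hT : 1 ≤ T) {r1 r2 : ℝ}
    (h1 : -(u:ℝ) ≤ r1) (h12 : r1 ≤ r2) (h2 : r2 ≤ u) (w : ℝ) :
    cexp (-(2 * Real.pi * w * r1 : ℝ)) * 𝓕 (Fn G T r1) w =
      cexp (-(2 * Real.pi * w * r2 : ℝ)) * 𝓕 (Fn G T r2) w := by
  obtain ⟨B, hB, hb⟩ := VG_bd hG hT
  set f : ℂ → ℂ := fun s => cexp (-(2 * Real.pi * w * (s - 1 / 2))) * (V T s * G s) with hf
  have hline : ∀ r : ℝ, ∫ y : ℝ, f (((1 / 2 + r : ℝ) : ℂ) + y * I) =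
      cexp (-(2 * Real.pi * w * r : ℝ)) * 𝓕 (Fn G T r) w := by
    intro r
    rw [ft_eq, ← integral_const_mul]
    refine integral_congr_ae (Eventually.of_forall fun y => ?_)
    simp only [hf, Fn]
    have e : cexp (-(2 * Real.pi * w * ((((1 / 2 + r : ℝ) : ℂ) + y * I) - 1 / 2))) =
        cexp (-(2 * Real.pi * w * r : ℝ)) * cexp (-(2 * Real.pi * w * y * I)) := by
      rw [← Complex.exp_add]
      congr 1
      push_cast
      ring
    rw [e]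
    ring
  rw [← hline, ← hline]
  refine W182.KO.strip_shift (B := Real.exp (2 * Real.pi * |w| * u) * B) (by linarith)
    (by positivity) ?_ ?_
  · intro s a b
    refine DifferentiableAt.mul (by fun_prop) ?_
    exact (V_diff T _).mul (hG.diff s (by linarith) (by linarith))
  · intro s a b
    have h3 := hb s (by linarith) (by linarith)
    rw [hf]
    simp only
    have h7 : ‖cexp (-(2 * (Real.pi:ℂ) * w * (s - 1 / 2)))‖ ≤ Real.exp (2 * Real.pi * |w| * u) := by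
      rw [Complex.norm_exp]
      refine Real.exp_le_exp.2 ?_
      have e1 : (-(2 * (Real.pi:ℂ) * w * (s - 1 / 2))).re = -(2 * Real.pi * w * (s.re - 1 / 2)) := by
        have : (-(2 * (Real.pi:ℂ) * w * (s - 1 / 2))) = ((-(2 * Real.pi * w) : ℝ) : ℂ) * (s - 1 / 2) := by
          push_cast; ring
        rw [this, Complex.re_ofReal_mul]
        simp
      rw [e1]
      have h4 : |s.re - 1 / 2| ≤ u := abs_le.2 ⟨by linarith, by linarith⟩
      have h5 : |w * (s.re - 1 / 2)| ≤ |w| * u := by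
        rw [abs_mul]; gcongr
      have h6 := neg_abs_le (w * (s.re - 1 / 2))
      have hp := Real.pi_pos
      nlinarith [mul_le_mul_of_nonneg_left h5 hp.le, mul_le_mul_of_nonneg_left h6 hp.le]
    calc ‖cexp (-(2 * (Real.pi:ℂ) * w * (s - 1 / 2))) * (V T s * G s)‖ =
          ‖cexp (-(2 * (Real.pi:ℂ) * w * (s - 1 / 2)))‖ * ‖V T s * G s‖ := norm_mul _ _
      _ ≤ Real.exp (2 * Real.pi * |w| * u) * (B * ((1 + |s.im|) ^ 2)⁻¹) :=
          mul_le_mul h7 h3 (norm_nonneg _) (Real.exp_pos _).le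
      _ = _ := by rw [div_eq_mul_inv]; ring

lemma Fn_zero (G : ℂ → ℂ) (T t : ℝ) : Fn G T 0 t = (v T t : ℂ) * G (1 / 2 + t * I) := by
  unfold Fn
  have e : (((1 / 2 + 0 : ℝ) : ℂ) + t * I) = 1 / 2 + t * I := by push_cast; ring
  rw [e, V_line]

lemma Fn_norm {G : ℂ → ℂ} {T : ℝ} (hT : 1 ≤ T) (r t : ℝ) :
    ‖Fn G T r t‖ ≤ Real.exp (r ^ 2) * v T t * ‖G (((1 / 2 + r : ℝ) : ℂ) + t * I)‖ := by
  unfold Fn
  rw [norm_mul]
  have h := V_norm (T := T) (by linarith) (((1 / 2 + r : ℝ) : ℂ) + t * I)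
  have hre : (((1 / 2 + r : ℝ) : ℂ) + t * I).re = 1 / 2 + r := by simp
  have him : (((1 / 2 + r : ℝ) : ℂ) + t * I).im = t := by simp
  rw [hre, him, add_sub_cancel_left] at h
  gcongr

/-- square integral on a line where `G` has a polynomial bound -/
lemma Fn_sq (p : ℕ) : ∃ D : ℝ, 1 ≤ D ∧ ∀ (G : ℂ → ℂ) (u : ℕ), PG G u → ∀ T : ℝ, 1 ≤ T → ∀ r : ℝ,
    -(u:ℝ) ≤ r → r ≤ u → ∀ C : ℝ, 0 ≤ C →
    (∀ t : ℝ, ‖G (((1 / 2 + r : ℝ) : ℂ) + t * I)‖ ≤ C * (1 + |t|) ^ p) →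
    ∫ t, ‖Fn G T r t‖ ^ 2 ≤ D * Real.exp (2 * r ^ 2) * C ^ 2 * T ^ (2 * p + 1) := by
  obtain ⟨D, hD, hv⟩ := v_poly (2 * p)
  refine ⟨9 * D, by linarith, fun G u hG T hT r h1 h2 C hC hb => ?_⟩
  have hT0 : 0 ≤ T := by linarith
  have hle : ∀ t, ‖Fn G T r t‖ ^ 2 ≤ Real.exp (2 * r ^ 2) * C ^ 2 * D * T ^ (2 * p) * gm T t := by
    intro t
    have habs := abs_nonneg t
    have hv0 := v_nonneg hT0 t
    calc ‖Fn G T r t‖ ^ 2 ≤ (Real.exp (r ^ 2) * v T t * (C * (1 + |t|) ^ p)) ^ 2 := by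
          gcongr
          exact (Fn_norm hT r t).trans (by gcongr; exact hb t)
      _ = Real.exp (2 * r ^ 2) * C ^ 2 * (v T t ^ 2 * (1 + |t|) ^ (2 * p)) := by
          have e1 : Real.exp (2 * r ^ 2) = Real.exp (r ^ 2) ^ 2 := by
            rw [← Real.exp_nat_mul]; congr 1
          rw [e1, mul_comm 2 p, pow_mul]
          ring
      _ ≤ Real.exp (2 * r ^ 2) * C ^ 2 * (D * T ^ (2 * p) * gm T t) :=
          mul_le_mul_of_nonneg_left (hv T hT t) (by positivity)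
      _ = _ := by ring
  calc ∫ t, ‖Fn G T r t‖ ^ 2 ≤ ∫ t, Real.exp (2 * r ^ 2) * C ^ 2 * D * T ^ (2 * p) * gm T t :=
        integral_mono (Fn_dec hG hT h1 h2).sq ((gm_int T).const_mul _) hle
    _ = Real.exp (2 * r ^ 2) * C ^ 2 * D * T ^ (2 * p) * ∫ t, gm T t := integral_const_mul _ _
    _ ≤ Real.exp (2 * r ^ 2) * C ^ 2 * D * T ^ (2 * p) * (9 * T) := by
        gcongr
        exact gm_val hT
    _ = _ := by ring

/-- mass on the right: `w ≥ y` -/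
lemma mass_right {G : ℂ → ℂ} {u : ℕ} (hG : PG G u) {T : ℝ} (hT : 1 ≤ T) (y : ℝ) :
    ms (Fn G T 0) (Ici y) ≤ Real.exp (-(4 * Real.pi * y * u)) * ∫ t, ‖Fn G T u t‖ ^ 2 := by
  have hu : (0:ℝ) ≤ u := Nat.cast_nonneg u
  refine ms_le_of_shift (u := u) (Fn_dec hG hT (by linarith) hu) (Fn_dec hG hT (by linarith) le_rfl)
    (fun w => ?_) measurableSet_Ici (fun w hw => ?_)
  · have h := Fn_shift hG hT (r1 := 0) (r2 := u) (by linarith) hu le_rfl w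
    rw [mul_zero] at h
    simpa using h
  · have : y ≤ w := hw
    have hp := Real.pi_pos
    have := mul_le_mul_of_nonneg_right (mul_le_mul_of_nonneg_left this (by positivity : 0 ≤ 4 * Real.pi)) hu
    linarith

/-- mass on the left: `w ≤ y` -/
lemma mass_left {G : ℂ → ℂ} {u : ℕ} (hG : PG G u) {T : ℝ} (hT : 1 ≤ T) (y : ℝ) :
    ms (Fn G T 0) (Iic y) ≤ Real.exp (4 * Real.pi * y * u) * ∫ t, ‖Fn G T (-u) t‖ ^ 2 := by
  have hu : (0:ℝ) ≤ u := Nat.cast_nonneg u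
  refine ms_le_of_shift (u := -u) (Fn_dec hG hT (by linarith) hu) (Fn_dec hG hT le_rfl (by linarith))
    (fun w => ?_) measurableSet_Iic (fun w hw => ?_)
  · have h := Fn_shift hG hT (r1 := -u) (r2 := 0) le_rfl (by linarith) hu w
    rw [mul_zero] at h
    simpa using h.symm
  · have : w ≤ y := hw
    have hp := Real.pi_pos
    have := mul_le_mul_of_nonneg_right (mul_le_mul_of_nonneg_left this (by positivity : 0 ≤ 4 * Real.pi)) hu
    linarith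

end

end Pool.Agent.TH535.SM
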