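import Pool.Agent.TH535.SM.A4

set_option autoImplicit false

/-! Comparison of the smoothed function with the sharp cut-off. -/

namespace Pool.Agent.TH535.SM

open Complex MeasureTheory Filter Topology Set
open scoped FourierTransform

noncomputable section

/-- A function on the line with an analytic companion in the strip `|Re s - 1/2| ≤ u`. -/
structure Dat (z : ℝ → ℂ) (G : ℂ → ℂ) (u K : ℕ) : Prop where
  zc : Continuous z
  zb : ∃ (C : ℝ) (p : ℕ), 1 ≤ C ∧ ∀ t : ℝ, ‖z t‖ ^ 2 ≤ C * (1 + |t|) ^ p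
  pg : PG G u
  cl : ∃ C : ℝ, 0 ≤ C ∧ ∀ t : ℝ, ‖G (1 / 2 + t * I) - z t‖ ≤ C / (1 + |t|) * ‖z t‖
  rt : ∃ C : ℝ, 1 ≤ C ∧ ∀ t : ℝ, ‖G (((1 / 2 + u : ℝ) : ℂ) + t * I)‖ ≤ C
  lt : ∃ C : ℝ, 1 ≤ C ∧ ∀ t : ℝ, ‖G (((1 / 2 - u : ℝ) : ℂ) + t * I)‖ ≤ C * (1 + |t|) ^ (u * K)

/-- the unshifted moment -/
def M (z : ℝ → ℂ) (T : ℝ) : ℝ := ∫ t in (0:ℝ)..T, ‖z t‖ ^ 2

/-- the local moment at height `T` -/
def B (z : ℝ → ℂ) (T : ℝ) : ℝ := ∫ t : ℝ, Real.exp (-(t - T) ^ 2 / 4) * ‖z t‖ ^ 2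

lemma poly_exp8 (p : ℕ) {d : ℝ} (hd : 0 ≤ d) :
    (1 + d) ^ p * Real.exp (-d ^ 2 / 4) ≤ (p.factorial * Real.exp 3) * Real.exp (-d ^ 2 / 8) := by
  have h1 := Real.pow_div_factorial_le_exp (1 + d) (by linarith) p
  have hf : (0:ℝ) < p.factorial := by exact_mod_cast Nat.factorial_pos p
  rw [div_le_iff₀ hf] at h1
  calc (1 + d) ^ p * Real.exp (-d ^ 2 / 4) ≤ (Real.exp (1 + d) * p.factorial) * Real.exp (-d ^ 2 / 4) := by
        gcongr
    _ = p.factorial * Real.exp (1 + d + -d ^ 2 / 4) := by rw [Real.exp_add (1 + d)]; ring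
    _ ≤ p.factorial * Real.exp (3 + -d ^ 2 / 8) := by
        refine mul_le_mul_of_nonneg_left (Real.exp_le_exp.2 ?_) hf.le
        nlinarith [sq_nonneg (d - 4)]
    _ = _ := by rw [Real.exp_add 3]; ring

lemma g_int8 : Integrable (fun z : ℝ => Real.exp (-z ^ 2 / 8)) := by
  have := integrable_exp_neg_mul_sq (b := 1 / 8) (by norm_num)
  refine this.congr (Eventually.of_forall fun z => ?_)
  simp only
  congr 1; ring

lemma gp_int (p : ℕ) (T : ℝ) : Integrable (fun t : ℝ => Real.exp (-(t - T) ^ 2 / 4) * (1 + |t|) ^ p) := by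
  refine ((g_int8.comp_sub_right T).const_mul ((1 + |T|) ^ p * (p.factorial * Real.exp 3))).mono'
    (by fun_prop : Continuous _).aestronglyMeasurable (Eventually.of_forall fun t => ?_)
  rw [Real.norm_of_nonneg (by positivity)]
  have h1 : 1 + |t| ≤ (1 + |t - T|) * (1 + |T|) := by
    have := one_add_abs_le t (-T)
    rw [abs_neg] at this
    rwa [← sub_eq_add_neg] at this
  have h2 := poly_exp8 p (abs_nonneg (t - T))
  rw [sq_abs] at h2
  calc Real.exp (-(t - T) ^ 2 / 4) * (1 + |t|) ^ p ≤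
        Real.exp (-(t - T) ^ 2 / 4) * ((1 + |t - T|) * (1 + |T|)) ^ p := by gcongr
    _ = (1 + |T|) ^ p * ((1 + |t - T|) ^ p * Real.exp (-(t - T) ^ 2 / 4)) := by
        rw [mul_pow]; ring
    _ ≤ (1 + |T|) ^ p * ((p.factorial * Real.exp 3) * Real.exp (-(t - T) ^ 2 / 8)) := by gcongr
    _ = _ := by ring

variable {z : ℝ → ℂ} {G : ℂ → ℂ} {u K : ℕ}

lemma B_int (D : Dat z G u K) (T : ℝ) : Integrable (fun t : ℝ => Real.exp (-(t - T) ^ 2 / 4) * ‖z t‖ ^ 2) := by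
  obtain ⟨C, p, hC, hb⟩ := D.zb
  refine ((gp_int p T).const_mul C).mono'
    (((by fun_prop : Continuous fun t : ℝ => Real.exp (-(t - T) ^ 2 / 4))).mul
      (D.zc.norm.pow 2)).aestronglyMeasurable (Eventually.of_forall fun t => ?_)
  rw [Real.norm_of_nonneg (by positivity)]
  calc _ ≤ Real.exp (-(t - T) ^ 2 / 4) * (C * (1 + |t|) ^ p) := by gcongr; exact hb t
    _ = _ := by ring

lemma B_nonneg (z : ℝ → ℂ) (T : ℝ) : 0 ≤ B z T := integral_nonneg fun t => by positivity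

/-- the sharp indicator -/
def ind (T t : ℝ) : ℝ := (Icc (0:ℝ) T).indicator (fun _ => (1:ℝ)) t

lemma ind_nonneg (T t : ℝ) : 0 ≤ ind T t := indicator_nonneg (fun _ _ => by norm_num) t

lemma ind_le (T t : ℝ) : ind T t ≤ 1 := indicator_le_self' (fun _ _ => by norm_num) t

lemma ind_mem {T t : ℝ} (h : t ∈ Icc 0 T) : ind T t = 1 := indicator_of_mem h _

lemma ind_not {T t : ℝ} (h : t ∉ Icc 0 T) : ind T t = 0 := indicator_of_notMem h _

/-- the error weight -/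
def Wq (T t : ℝ) : ℝ := Real.exp (-t ^ 2 / 4) + Real.exp (-(t - T) ^ 2 / 4) + ind T t * ((1 + |t|) ^ 2)⁻¹

lemma Wq_nonneg (T t : ℝ) : 0 ≤ Wq T t := by
  have := ind_nonneg T t
  unfold Wq; positivity

lemma ind_diff {T t a : ℝ} (ha : |a| ≤ 1) :
    (ind T (t + a) - ind T t) ^ 2 ≤ 2 * (Real.exp (-(t + a) ^ 2 / 4) +
      Real.exp (-(t + a - T) ^ 2 / 4)) := by
  have key : ∀ x : ℝ, |x| ≤ 1 → 1 ≤ 2 * Real.exp (-x ^ 2 / 4) := by
    intro x hx
    have h1 : x ^ 2 ≤ 1 := by rw [← sq_abs]; exact pow_le_one₀ (abs_nonneg x) hx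
    have h2 := Real.add_one_le_exp (-x ^ 2 / 4)
    nlinarith
  have p1 := Real.exp_pos (-(t + a) ^ 2 / 4)
  have p2 := Real.exp_pos (-(t + a - T) ^ 2 / 4)
  rw [abs_le] at ha
  by_cases h1 : t + a ∈ Icc 0 T <;> by_cases h2 : t ∈ Icc 0 T
  · rw [ind_mem h1, ind_mem h2]; simp; positivity
  · rw [ind_mem h1, ind_not h2]
    have : |t + a| ≤ 1 ∨ |t + a - T| ≤ 1 := by
      rw [mem_Icc, not_and_or, not_le, not_le] at h2
      rcases h2 with h | h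
      · left; rw [abs_le]; constructor <;> linarith [h1.1, h1.2]
      · right; rw [abs_le]; constructor <;> linarith [h1.1, h1.2]
    rcases this with h | h
    · have := key _ h; nlinarith
    · have := key _ h; nlinarith
  · rw [ind_not h1, ind_mem h2]
    have : |t + a| ≤ 1 ∨ |t + a - T| ≤ 1 := by
      rw [mem_Icc, not_and_or, not_le, not_le] at h1
      rcases h1 with h | h
      · left; rw [abs_le]; constructor <;> linarith [h2.1, h2.2]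
      · right; rw [abs_le]; constructor <;> linarith [h2.1, h2.2]
    rcases this with h | h
    · have := key _ h; nlinarith
    · have := key _ h; nlinarith
  · rw [ind_not h1, ind_not h2]; simp; positivity

/-- pointwise comparison -/
lemma close (E : Dat z G u K) : ∃ C : ℝ, 1 ≤ C ∧ ∀ T : ℝ, 1 ≤ T → ∀ t a : ℝ, |a| ≤ 1 →
    ‖Fn G T 0 (t + a) - ind T t * z (t + a)‖ ^ 2 ≤
      C * (Wq T (t + a) * ‖z (t + a)‖ ^ 2) := by
  obtain ⟨C1, hC1, h1⟩ := E.cl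
  obtain ⟨D, hD, hv⟩ := v_poly 0
  refine ⟨3 * (4 + 2 + D * C1 ^ 2), by nlinarith [sq_nonneg C1], fun T hT t a ha => ?_⟩
  have hT0 : 0 ≤ T := by linarith
  obtain ⟨x, hx⟩ : ∃ x, x = t + a := ⟨_, rfl⟩
  have hd := ind_diff (T := T) (t := t) ha
  rw [← hx] at hd ⊢
  rw [Fn_zero]
  have hc : ‖G (1 / 2 + x * I) - z x‖ ≤ C1 / (1 + |x|) * ‖z x‖ := by
    exact h1 x
  have e : (v T x : ℂ) * G (1 / 2 + x * I) - (ind T t : ℂ) * z x =
      (((v T x - ind T x : ℝ) : ℂ) * z x + ((ind T x - ind T t : ℝ) : ℂ) * z x) +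
        (v T x : ℂ) * (G (1 / 2 + x * I) - z x) := by
    push_cast; ring
  have hv0 := v_nonneg hT0 x
  have hn1 : ‖(v T x : ℂ) * G (1 / 2 + x * I) - (ind T t : ℂ) * z x‖ ≤
      |v T x - ind T x| * ‖z x‖ + |ind T x - ind T t| * ‖z x‖ +
        v T x * (C1 / (1 + |x|)) * ‖z x‖ := by
    rw [e]
    refine (norm_add_le _ _).trans (add_le_add ((norm_add_le _ _).trans (le_of_eq ?_)) ?_)
    · rw [norm_mul, norm_mul, Complex.norm_real, Complex.norm_real, Real.norm_eq_abs,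
        Real.norm_eq_abs]
    · rw [norm_mul, Complex.norm_real, Real.norm_of_nonneg hv0, mul_assoc]
      gcongr
  set A1 := |v T x - ind T x| with hA1
  set A2 := |ind T x - ind T t| with hA2
  set A3 := v T x * (C1 / (1 + |x|)) with hA3
  have b1 : A1 ^ 2 ≤ 4 * (Real.exp (-x ^ 2 / 4) + Real.exp (-(x - T) ^ 2 / 4)) := by
    have h2 : A1 ≤ √2 * (Real.exp (-x ^ 2 / 2) + Real.exp (-(x - T) ^ 2 / 2)) := by
      rw [hA1, abs_sub_comm]; exact v_close hT0 x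
    have h3 : Real.exp (-x ^ 2 / 2) ^ 2 ≤ Real.exp (-x ^ 2 / 4) := by
      rw [← Real.exp_nat_mul]; refine Real.exp_le_exp.2 ?_
      push_cast; nlinarith [sq_nonneg x]
    have h4 : Real.exp (-(x - T) ^ 2 / 2) ^ 2 ≤ Real.exp (-(x - T) ^ 2 / 4) := by
      rw [← Real.exp_nat_mul]; refine Real.exp_le_exp.2 ?_
      push_cast; nlinarith [sq_nonneg (x - T)]
    calc A1 ^ 2 ≤ (√2 * (Real.exp (-x ^ 2 / 2) + Real.exp (-(x - T) ^ 2 / 2))) ^ 2 := by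
          gcongr
      _ = 2 * (Real.exp (-x ^ 2 / 2) + Real.exp (-(x - T) ^ 2 / 2)) ^ 2 := by
          rw [mul_pow, Real.sq_sqrt (by norm_num)]
      _ ≤ 2 * (2 * (Real.exp (-x ^ 2 / 2) ^ 2 + Real.exp (-(x - T) ^ 2 / 2) ^ 2)) := by
          nlinarith [sq_nonneg (Real.exp (-x ^ 2 / 2) - Real.exp (-(x - T) ^ 2 / 2))]
      _ ≤ _ := by linarith
  have b2 : A2 ^ 2 ≤ 2 * (Real.exp (-x ^ 2 / 4) + Real.exp (-(x - T) ^ 2 / 4)) := by
    rw [hA2, sq_abs]; exact hd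
  have hinv : ((1 + |x|) ^ 2)⁻¹ ≤ 1 := by
    refine inv_le_one_of_one_le₀ (one_le_pow₀ ?_)
    have := abs_nonneg x
    linarith
  have hinv0 : 0 ≤ ((1 + |x|) ^ 2)⁻¹ := by positivity
  have b3 : A3 ^ 2 ≤ D * C1 ^ 2 * Wq T x := by
    have h5 := hv T hT x
    rw [pow_zero, pow_zero, mul_one, mul_one] at h5
    have h6 : gm T x * ((1 + |x|) ^ 2)⁻¹ ≤ Wq T x := by
      unfold gm Wq ind
      have p1 := Real.exp_pos (-x ^ 2 / 4)
      have p2 := Real.exp_pos (-(x - T) ^ 2 / 4)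
      nlinarith [mul_le_mul_of_nonneg_left hinv p1.le, mul_le_mul_of_nonneg_left hinv p2.le]
    calc A3 ^ 2 = v T x ^ 2 * (C1 ^ 2 * ((1 + |x|) ^ 2)⁻¹) := by
          rw [hA3, mul_pow, div_pow, div_eq_mul_inv]
      _ ≤ (D * gm T x) * (C1 ^ 2 * ((1 + |x|) ^ 2)⁻¹) := by gcongr
      _ = D * C1 ^ 2 * (gm T x * ((1 + |x|) ^ 2)⁻¹) := by ring
      _ ≤ _ := by gcongr
  have b12 : Real.exp (-x ^ 2 / 4) + Real.exp (-(x - T) ^ 2 / 4) ≤ Wq T x := by
    unfold Wq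
    have := mul_nonneg (ind_nonneg T x) hinv0
    linarith
  have hz := sq_nonneg ‖z x‖
  have hA10 : 0 ≤ A1 := abs_nonneg _
  have hA20 : 0 ≤ A2 := abs_nonneg _
  have hA30 : 0 ≤ A3 := by positivity
  calc ‖(v T x : ℂ) * G (1 / 2 + x * I) - (ind T t : ℂ) * z x‖ ^ 2 ≤
        (A1 * ‖z x‖ + A2 * ‖z x‖ + A3 * ‖z x‖) ^ 2 := by gcongr
    _ = (A1 + A2 + A3) ^ 2 * ‖z x‖ ^ 2 := by ring
    _ ≤ (3 * (A1 ^ 2 + A2 ^ 2 + A3 ^ 2)) * ‖z x‖ ^ 2 := by
        gcongr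
        nlinarith [sq_nonneg (A1 - A2), sq_nonneg (A1 - A3), sq_nonneg (A2 - A3)]
    _ ≤ (3 * (4 * Wq T x + 2 * Wq T x + D * C1 ^ 2 * Wq T x)) * ‖z x‖ ^ 2 := by
        gcongr
        · linarith
        · linarith
    _ = _ := by ring

end

end Pool.Agent.TH535.SM
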