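import Pool.Agent.TH535.SM.A5

set_option autoImplicit false

/-! Integrated comparison of the smoothed function with the sharp cut-off. -/

namespace Pool.Agent.TH535.SM

open Complex MeasureTheory Filter Topology Set
open scoped FourierTransform ComplexConjugate

noncomputable section

lemma iadd {f g : ℝ → ℝ} (hf : Integrable f) (hg : Integrable g) :
    Integrable (fun t => f t + g t) := hf.add hg

lemma ind_meas (T : ℝ) : Measurable (ind T) := measurable_const.indicator measurableSet_Icc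

lemma ind_bd {T : ℝ} {g : ℝ → ℝ} (hg : Continuous g) : Integrable (fun t => ind T t * g t) := by
  have h : Integrable ((Icc (0:ℝ) T).indicator g) :=
    (integrable_indicator_iff measurableSet_Icc).2 (hg.continuousOn.integrableOn_Icc)
  refine h.congr (Eventually.of_forall fun t => ?_)
  simp only
  by_cases ht : t ∈ Icc 0 T
  · rw [indicator_of_mem ht, ind_mem ht, one_mul]
  · rw [indicator_of_notMem ht, ind_not ht, zero_mul]

lemma ind_val {T : ℝ} (hT : 0 ≤ T) (g : ℝ → ℝ) : ∫ t, ind T t * g t = ∫ t in (0:ℝ)..T, g t := by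
  rw [intervalIntegral.integral_of_le hT, ← integral_Icc_eq_integral_Ioc,
    ← integral_indicator measurableSet_Icc]
  refine integral_congr_ae (Eventually.of_forall fun t => ?_)
  simp only
  by_cases ht : t ∈ Icc 0 T
  · rw [indicator_of_mem ht, ind_mem ht, one_mul]
  · rw [indicator_of_notMem ht, ind_not ht, zero_mul]

variable {z : ℝ → ℂ} {G : ℂ → ℂ} {u K : ℕ}

lemma Dat.sc (D : Dat z G u K) : Continuous (fun t => ‖z t‖ ^ 2) := D.zc.norm.pow 2

lemma B0_eq (z : ℝ → ℂ) : B z 0 = ∫ t : ℝ, Real.exp (-t ^ 2 / 4) * ‖z t‖ ^ 2 := by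
  unfold B
  simp only [sub_zero]

lemma B0_int (D : Dat z G u K) : Integrable (fun t : ℝ => Real.exp (-t ^ 2 / 4) * ‖z t‖ ^ 2) := by
  have := B_int D 0
  simpa only [sub_zero] using this

/-- the error integral -/
def Om (z : ℝ → ℂ) (T : ℝ) : ℝ := ∫ t, Wq T t * ‖z t‖ ^ 2

lemma Om_int (D : Dat z G u K) (T : ℝ) : Integrable (fun t => Wq T t * ‖z t‖ ^ 2) := by
  have h3 : Integrable (fun t => ind T t * (((1 + |t|) ^ 2)⁻¹ * ‖z t‖ ^ 2)) := by
    refine ind_bd ?_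
    refine Continuous.mul ?_ D.sc
    refine Continuous.inv₀ (by fun_prop) (fun t => ?_)
    have := abs_nonneg t
    positivity
  refine (((B0_int D).add (B_int D T)).add h3).congr (Eventually.of_forall fun t => ?_)
  simp only [Pi.add_apply]
  unfold Wq
  ring

lemma M_mono (D : Dat z G u K) {S T : ℝ} (h : S ≤ T) : M z S ≤ M z T := by
  unfold M
  rw [← intervalIntegral.integral_add_adjacent_intervals (a := 0) (b := S) (c := T)
    (D.sc.intervalIntegrable _ _) (D.sc.intervalIntegrable _ _)]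
  have : 0 ≤ ∫ t in S..T, ‖z t‖ ^ 2 := intervalIntegral.integral_nonneg h fun t _ => by positivity
  linarith

lemma M_nonneg (z : ℝ → ℂ) {T : ℝ} (hT : 0 ≤ T) : 0 ≤ M z T :=
  intervalIntegral.integral_nonneg hT fun t _ => by positivity

lemma Om_le (D : Dat z G u K) {ε : ℝ} (hε : 0 < ε) : ∃ C T0 : ℝ, 0 ≤ C ∧ 1 ≤ T0 ∧ ∀ T : ℝ, T0 ≤ T →
    Om z T ≤ ε * M z T + C + B z T := by
  obtain ⟨S, hS⟩ := exists_nat_gt (ε⁻¹)
  have hS0 : (0:ℝ) < S := lt_trans (by positivity) hS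
  have hS1 : (1:ℝ) ≤ S := by
    have : 0 < S := by exact_mod_cast hS0
    exact_mod_cast this
  refine ⟨B z 0 + M z S, S, add_nonneg (B_nonneg z 0) (M_nonneg z hS0.le), hS1, fun T hT => ?_⟩
  have hT0 : 0 ≤ T := by linarith
  have hc3 : Continuous (fun t : ℝ => ((1 + |t|) ^ 2)⁻¹ * ‖z t‖ ^ 2) := by
    refine Continuous.mul ?_ D.sc
    refine Continuous.inv₀ (by fun_prop) (fun t => ?_)
    have := abs_nonneg t
    positivity
  have e : Om z T = B z 0 + B z T + ∫ t in (0:ℝ)..T, ((1 + |t|) ^ 2)⁻¹ * ‖z t‖ ^ 2 := by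
    rw [B0_eq]
    unfold Om B
    rw [← ind_val hT0, ← integral_add (B0_int D) (B_int D T), ← integral_add
      (iadd (B0_int D) (B_int D T)) (ind_bd hc3)]
    refine integral_congr_ae (Eventually.of_forall fun t => ?_)
    simp only
    unfold Wq
    ring
  rw [e]
  have h3 : ∫ t in (0:ℝ)..T, ((1 + |t|) ^ 2)⁻¹ * ‖z t‖ ^ 2 ≤ M z S + ε * M z T := by
    rw [← intervalIntegral.integral_add_adjacent_intervals (a := 0) (b := (S:ℝ)) (c := T)
      (hc3.intervalIntegrable _ _) (hc3.intervalIntegrable _ _)]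
    have h4 : ∫ t in (0:ℝ)..S, ((1 + |t|) ^ 2)⁻¹ * ‖z t‖ ^ 2 ≤ M z S := by
      refine intervalIntegral.integral_mono_on hS0.le (hc3.intervalIntegrable _ _)
        (D.sc.intervalIntegrable _ _) fun t _ => ?_
      have : ((1 + |t|) ^ 2)⁻¹ ≤ 1 := by
        refine inv_le_one_of_one_le₀ (one_le_pow₀ ?_)
        have := abs_nonneg t
        linarith
      have h0 : 0 ≤ ‖z t‖ ^ 2 := by positivity
      nlinarith
    have h5 : ∫ t in (S:ℝ)..T, ((1 + |t|) ^ 2)⁻¹ * ‖z t‖ ^ 2 ≤ ∫ t in (S:ℝ)..T, ε * ‖z t‖ ^ 2 := by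
      refine intervalIntegral.integral_mono_on hT (hc3.intervalIntegrable _ _)
        ((D.sc.const_mul ε |>.intervalIntegrable _ _)) fun t ht => ?_
      have h6 : ((1 + |t|) ^ 2)⁻¹ ≤ ε := by
        rw [inv_le_comm₀ (by positivity) hε]
        have h7 : (S:ℝ) ≤ |t| := ht.1.trans (le_abs_self t)
        nlinarith
      gcongr
    rw [intervalIntegral.integral_const_mul] at h5
    have h8 : ∫ t in (S:ℝ)..T, ‖z t‖ ^ 2 ≤ M z T := by
      unfold M
      rw [← intervalIntegral.integral_add_adjacent_intervals (a := 0) (b := (S:ℝ)) (c := T)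
        (D.sc.intervalIntegrable _ _) (D.sc.intervalIntegrable _ _)]
      have : 0 ≤ ∫ t in (0:ℝ)..S, ‖z t‖ ^ 2 :=
        intervalIntegral.integral_nonneg hS0.le fun t _ => by positivity
      linarith
    have h9 := mul_le_mul_of_nonneg_left h8 hε.le
    linarith
  linarith

lemma sq_split {x y : ℂ} {ε : ℝ} (hε : 0 < ε) :
    ‖x‖ ^ 2 ≤ (1 + ε) * ‖y‖ ^ 2 + (1 + ε⁻¹) * ‖x - y‖ ^ 2 := by
  have h1 : ‖x‖ ≤ ‖y‖ + ‖x - y‖ := by
    have := norm_add_le y (x - y)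
    simpa using this
  have h2 : ‖x‖ ^ 2 ≤ (‖y‖ + ‖x - y‖) ^ 2 := by gcongr
  have h3 : 2 * ‖y‖ * ‖x - y‖ ≤ ε * ‖y‖ ^ 2 + ε⁻¹ * ‖x - y‖ ^ 2 := by
    have h4 : 0 ≤ (ε * ‖y‖ - ‖x - y‖) ^ 2 * ε⁻¹ := by positivity
    have h5 : (ε * ‖y‖ - ‖x - y‖) ^ 2 * ε⁻¹ = ε * ‖y‖ ^ 2 + ε⁻¹ * ‖x - y‖ ^ 2 - 2 * ‖y‖ * ‖x - y‖ := by
      field_simp
      ring
    linarith
  nlinarith

lemma ind_sq (T t : ℝ) (w : ℂ) : ‖(ind T t : ℂ) * w‖ ^ 2 = ind T t * ‖w‖ ^ 2 := by
  rw [norm_mul, mul_pow, Complex.norm_real, Real.norm_of_nonneg (ind_nonneg T t)]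
  by_cases ht : t ∈ Icc 0 T
  · rw [ind_mem ht]; ring
  · rw [ind_not ht]; ring

/-- lower bound for the norm of the smoothed function -/
lemma norm_lower (D : Dat z G u K) {ε : ℝ} (hε : 0 < ε) (hε1 : ε < 1) :
    ∃ C T0 : ℝ, 0 ≤ C ∧ 1 ≤ T0 ∧ ∀ T : ℝ, T0 ≤ T →
      (1 - ε) * M z T - C * (1 + B z T) ≤ ∫ t, ‖Fn G T 0 t‖ ^ 2 := by
  obtain ⟨C1, hC1, hcl⟩ := close D
  set δ : ℝ := ε / 2 with hδ
  have hδ0 : 0 < δ := by positivity
  have hK : 0 < (1 + δ⁻¹) * C1 := by positivity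
  obtain ⟨C2, T0, hC2, hT0, hOm⟩ := Om_le D (ε := δ / ((1 + δ⁻¹) * C1)) (by positivity)
  refine ⟨(1 + δ⁻¹) * C1 * (C2 + 1), T0, by positivity, hT0, fun T hT => ?_⟩
  have hT1 : 1 ≤ T := hT0.trans hT
  have hTn : 0 ≤ T := by linarith
  have hdec := Fn_dec D.pg hT1 (r := 0) (by simp) (by positivity)
  have h1 : M z T ≤ (1 + δ) * (∫ t, ‖Fn G T 0 t‖ ^ 2) + (1 + δ⁻¹) * C1 * Om z T := by
    unfold M Om
    rw [← ind_val hTn, ← integral_const_mul, ← integral_const_mul, ← integral_add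
      (hdec.sq.const_mul _) ((Om_int D T).const_mul _)]
    refine integral_mono (ind_bd D.sc) ((hdec.sq.const_mul _).add ((Om_int D T).const_mul _))
      fun t => ?_
    have h2 := hcl T hT1 t 0 (by simp)
    rw [add_zero] at h2
    have h3 := sq_split (x := (ind T t : ℂ) * z t) (y := Fn G T 0 t) hδ0
    rw [ind_sq, norm_sub_rev] at h3
    simp only
    calc ind T t * ‖z t‖ ^ 2 ≤ (1 + δ) * ‖Fn G T 0 t‖ ^ 2 +
          (1 + δ⁻¹) * ‖Fn G T 0 t - ind T t * z t‖ ^ 2 := h3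
      _ ≤ (1 + δ) * ‖Fn G T 0 t‖ ^ 2 + (1 + δ⁻¹) * (C1 * (Wq T t * ‖z t‖ ^ 2)) := by gcongr
      _ = _ := by ring
  have h4 := mul_le_mul_of_nonneg_left (hOm T hT) hK.le
  have e5 : (1 + δ⁻¹) * C1 * (δ / ((1 + δ⁻¹) * C1) * M z T + C2 + B z T) =
      δ * M z T + (1 + δ⁻¹) * C1 * (C2 + B z T) := by
    field_simp
    ring
  rw [e5] at h4
  have hM := M_nonneg z hTn
  have hB := B_nonneg z T
  have hI : 0 ≤ ∫ t, ‖Fn G T 0 t‖ ^ 2 := integral_nonneg fun t => by positivity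
  -- (1-δ) M ≤ (1+δ) I + K (C2 + B)
  have h6 : (1 - δ) * M z T ≤ (1 + δ) * (∫ t, ‖Fn G T 0 t‖ ^ 2) + (1 + δ⁻¹) * C1 * (C2 + B z T) := by
    linarith
  have h7 : (1 + δ⁻¹) * C1 * (C2 + B z T) ≤ (1 + δ⁻¹) * C1 * (C2 + 1) * (1 + B z T) := by
    rw [mul_assoc ((1 + δ⁻¹) * C1) (C2 + 1)]
    refine mul_le_mul_of_nonneg_left ?_ hK.le
    nlinarith [mul_nonneg hC2 hB]
  have h8 : (1 - ε) * (1 + δ) * M z T ≤ (1 - δ) * M z T := by
    refine mul_le_mul_of_nonneg_right ?_ hM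
    have : ε = 2 * δ := by rw [hδ]; ring
    nlinarith
  set K := (1 + δ⁻¹) * C1 * (C2 + 1) * (1 + B z T) with hKd
  have hK0 : 0 ≤ K := by positivity
  have h9 : (1 + δ) * ((1 - ε) * M z T - K) ≤ (1 + δ) * ∫ t, ‖Fn G T 0 t‖ ^ 2 := by
    nlinarith
  exact le_of_mul_le_mul_left h9 (by linarith)

/-- the shifted correlation with the sharp cut-off -/
def Cor (z : ℝ → ℂ) (a T : ℝ) : ℂ := ∫ t in (0:ℝ)..T, z (t + a) * conj (z (t + -a))

lemma Uz_sq (z : ℝ → ℂ) (a κ t : ℝ) : ‖U a κ z t‖ ^ 2 = ‖z (t + a)‖ ^ 2 + ‖z (t + -a)‖ ^ 2 +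
    2 * (cexp (κ * I) * (z (t + a) * conj (z (t + -a)))).re := by
  unfold U
  rw [Complex.sq_norm, Complex.normSq_add, ← Complex.sq_norm, ← Complex.sq_norm]
  have e1 : ‖cexp (-(κ * I)) * z (t + -a)‖ = ‖z (t + -a)‖ := by
    rw [norm_mul, Complex.norm_exp]
    simp
  have e2 : conj (cexp (-((κ : ℂ) * I)) * z (t + -a)) = cexp (κ * I) * conj (z (t + -a)) := by
    rw [map_mul, ← Complex.exp_conj]
    congr 2
    simp
  rw [e1, e2]
  congr 2
  congr 1
  ring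

lemma shift_le (D : Dat z G u K) {T a : ℝ} (hT : 0 ≤ T) (ha : |a| ≤ 1) :
    ∫ t in (0:ℝ)..T, ‖z (t + a)‖ ^ 2 ≤ M z T + 2 * (B z 0 + B z T) := by
  have hc : Continuous (fun t => ‖z (t + a)‖ ^ 2) := D.sc.comp (by fun_prop)
  have e1 : M z T + 2 * (B z 0 + B z T) = ∫ t, (ind T (t + a) * ‖z (t + a)‖ ^ 2 +
      2 * (Real.exp (-(t + a) ^ 2 / 4) * ‖z (t + a)‖ ^ 2 +
        Real.exp (-(t + a - T) ^ 2 / 4) * ‖z (t + a)‖ ^ 2)) := by
    have h := integral_add_right_eq_self (μ := volume) (fun t : ℝ => ind T t * ‖z t‖ ^ 2 +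
      2 * (Real.exp (-t ^ 2 / 4) * ‖z t‖ ^ 2 + Real.exp (-(t - T) ^ 2 / 4) * ‖z t‖ ^ 2)) a
    rw [h, integral_add (ind_bd D.sc) ((iadd (B0_int D) (B_int D T)).const_mul 2),
      integral_const_mul, integral_add (B0_int D) (B_int D T), ind_val hT, B0_eq]
    rfl
  rw [e1, ← ind_val hT]
  refine integral_mono (ind_bd hc) ?_ fun t => ?_
  · have h := ((ind_bd (T := T) D.sc).add (((B0_int D).add (B_int D T)).const_mul 2)).comp_add_right a
    exact h
  · have hd := ind_diff (T := T) (t := t) ha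
    have h0 := ind_nonneg T t
    have h1 := ind_le T t
    have h2 := ind_nonneg T (t + a)
    have h3 : ind T t ≤ ind T (t + a) + (ind T (t + a) - ind T t) ^ 2 := by
      by_cases hx : t ∈ Icc 0 T
      · rw [ind_mem hx]
        by_cases hy : t + a ∈ Icc 0 T
        · rw [ind_mem hy]; norm_num
        · rw [ind_not hy]; norm_num
      · rw [ind_not hx]
        positivity
    have h4 : 0 ≤ ‖z (t + a)‖ ^ 2 := by positivity
    simp only
    nlinarith [mul_le_mul_of_nonneg_right (h3.trans (add_le_add_right hd _)) h4]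

/-- upper bound for the norm of `U f` -/
lemma norm_upper (D : Dat z G u K) {ε : ℝ} (hε : 0 < ε) (hε1 : ε < 1) :
    ∃ C T0 : ℝ, 0 ≤ C ∧ 1 ≤ T0 ∧ ∀ T : ℝ, T0 ≤ T → ∀ a κ : ℝ, |a| ≤ 1 →
      ∫ t, ‖U a κ (Fn G T 0) t‖ ^ 2 ≤
        (1 + ε) * (2 * M z T + 2 * (cexp (κ * I) * Cor z a T).re) + ε * M z T + C * (1 + B z T) := by
  obtain ⟨C1, hC1, hcl⟩ := close D
  have hK : 0 < (1 + ε⁻¹) * (4 * C1) := by positivity
  obtain ⟨C2, T0, hC2, hT0, hOm⟩ := Om_le D (ε := ε / ((1 + ε⁻¹) * (4 * C1))) (by positivity)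
  have hB00 := B_nonneg z 0
  refine ⟨(1 + ε⁻¹) * (4 * C1) * (C2 + 1) + 8 * (B z 0 + 1), T0, by positivity, hT0,
    fun T hT a κ ha => ?_⟩
  have hT1 : 1 ≤ T := hT0.trans hT
  have hTn : 0 ≤ T := by linarith
  have hdec := Fn_dec D.pg hT1 (r := 0) (by simp) (by positivity)
  have hUd := U_dec hdec a κ
  have hUc : Continuous (U a κ z) := by
    unfold U
    have := D.zc
    fun_prop
  have hUs : Continuous (fun t => ‖U a κ z t‖ ^ 2) := hUc.norm.pow 2
  have i1 := (Om_int D T).comp_add_right a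
  have i2 := (Om_int D T).comp_add_right (-a)
  have h1 : ∫ t, ‖U a κ (Fn G T 0) t‖ ^ 2 ≤ (1 + ε) * (∫ t in (0:ℝ)..T, ‖U a κ z t‖ ^ 2) +
      (1 + ε⁻¹) * (4 * C1) * Om z T := by
    have e1 : (1 + ε⁻¹) * (4 * C1) * Om z T = ∫ t, (1 + ε⁻¹) * (2 * C1) *
        ((Wq T (t + a) * ‖z (t + a)‖ ^ 2) + (Wq T (t + -a) * ‖z (t + -a)‖ ^ 2)) := by
      rw [integral_const_mul, integral_add i1 i2,
        integral_add_right_eq_self (μ := volume) (fun t : ℝ => Wq T t * ‖z t‖ ^ 2) a,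
        integral_add_right_eq_self (μ := volume) (fun t : ℝ => Wq T t * ‖z t‖ ^ 2) (-a)]
      unfold Om
      ring
    rw [e1, ← ind_val hTn, ← integral_const_mul, ← integral_add
      ((ind_bd hUs).const_mul _) ((iadd i1 i2).const_mul _)]
    refine integral_mono hUd.sq (iadd ((ind_bd hUs).const_mul _)
      ((iadd i1 i2).const_mul _)) fun t => ?_
    have h2 := hcl T hT1 t a ha
    have h3 := hcl T hT1 t (-a) (by rwa [abs_neg])
    have h4 := sq_split (x := U a κ (Fn G T 0) t) (y := (ind T t : ℂ) * U a κ z t) hε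
    rw [ind_sq] at h4
    have e5 : U a κ (Fn G T 0) t - (ind T t : ℂ) * U a κ z t =
        (Fn G T 0 (t + a) - ind T t * z (t + a)) +
          cexp (-(κ * I)) * (Fn G T 0 (t + -a) - ind T t * z (t + -a)) := by
      unfold U; ring
    have h5 : ‖U a κ (Fn G T 0) t - (ind T t : ℂ) * U a κ z t‖ ^ 2 ≤
        2 * (‖Fn G T 0 (t + a) - ind T t * z (t + a)‖ ^ 2 +
          ‖Fn G T 0 (t + -a) - ind T t * z (t + -a)‖ ^ 2) := by
      rw [e5]
      have h6 := norm_add_le (Fn G T 0 (t + a) - ind T t * z (t + a))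
        (cexp (-(κ * I)) * (Fn G T 0 (t + -a) - ind T t * z (t + -a)))
      have e7 : ‖cexp (-(κ * I)) * (Fn G T 0 (t + -a) - ind T t * z (t + -a))‖ =
          ‖Fn G T 0 (t + -a) - ind T t * z (t + -a)‖ := by
        rw [norm_mul, Complex.norm_exp]
        simp
      rw [e7] at h6
      have hx := norm_nonneg (Fn G T 0 (t + a) - ind T t * z (t + a))
      have hy := norm_nonneg (Fn G T 0 (t + -a) - ind T t * z (t + -a))
      calc _ ≤ (‖Fn G T 0 (t + a) - ind T t * z (t + a)‖ +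
            ‖Fn G T 0 (t + -a) - ind T t * z (t + -a)‖) ^ 2 := by gcongr
        _ ≤ _ := by
          nlinarith [sq_nonneg (‖Fn G T 0 (t + a) - ind T t * z (t + a)‖ -
            ‖Fn G T 0 (t + -a) - ind T t * z (t + -a)‖)]
    simp only
    calc ‖U a κ (Fn G T 0) t‖ ^ 2 ≤ (1 + ε) * (ind T t * ‖U a κ z t‖ ^ 2) +
          (1 + ε⁻¹) * ‖U a κ (Fn G T 0) t - (ind T t : ℂ) * U a κ z t‖ ^ 2 := h4
      _ ≤ (1 + ε) * (ind T t * ‖U a κ z t‖ ^ 2) + (1 + ε⁻¹) *
          (2 * (C1 * (Wq T (t + a) * ‖z (t + a)‖ ^ 2) +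
            C1 * (Wq T (t + -a) * ‖z (t + -a)‖ ^ 2))) := by
          gcongr
          exact h5.trans (by gcongr)
      _ = _ := by ring
  have h4 := mul_le_mul_of_nonneg_left (hOm T hT) hK.le
  have e5 : (1 + ε⁻¹) * (4 * C1) * (ε / ((1 + ε⁻¹) * (4 * C1)) * M z T + C2 + B z T) =
      ε * M z T + (1 + ε⁻¹) * (4 * C1) * (C2 + B z T) := by
    field_simp
    ring
  rw [e5] at h4
  have hM := M_nonneg z hTn
  have hB := B_nonneg z T
  have h7 : (1 + ε⁻¹) * (4 * C1) * (C2 + B z T) ≤ (1 + ε⁻¹) * (4 * C1) * (C2 + 1) * (1 + B z T) := by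
    rw [mul_assoc ((1 + ε⁻¹) * (4 * C1)) (C2 + 1)]
    refine mul_le_mul_of_nonneg_left ?_ hK.le
    nlinarith [mul_nonneg hC2 hB]
  have h8 : ∫ t in (0:ℝ)..T, ‖U a κ z t‖ ^ 2 ≤ 2 * M z T + 4 * (B z 0 + B z T) +
      2 * (cexp (κ * I) * Cor z a T).re := by
    have hcz := D.zc
    have c1 : Continuous (fun t => ‖z (t + a)‖ ^ 2) := D.sc.comp (by fun_prop)
    have c2 : Continuous (fun t => ‖z (t + -a)‖ ^ 2) := D.sc.comp (by fun_prop)
    have c3 : Continuous (fun t => cexp (κ * I) * (z (t + a) * conj (z (t + -a)))) := by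
      refine continuous_const.mul ((hcz.comp (by fun_prop)).mul ?_)
      exact Complex.continuous_conj.comp (hcz.comp (by fun_prop))
    have e9 : ∫ t in (0:ℝ)..T, ‖U a κ z t‖ ^ 2 = (∫ t in (0:ℝ)..T, ‖z (t + a)‖ ^ 2) +
        (∫ t in (0:ℝ)..T, ‖z (t + -a)‖ ^ 2) + 2 * (cexp (κ * I) * Cor z a T).re := by
      have e10 : (cexp (κ * I) * Cor z a T).re = ∫ t in (0:ℝ)..T,
          (cexp (κ * I) * (z (t + a) * conj (z (t + -a)))).re := by
        unfold Cor
        rw [← intervalIntegral.integral_const_mul]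
        have := Complex.reCLM.intervalIntegral_comp_comm (μ := volume) (a := 0) (b := T)
          (f := fun t => cexp (κ * I) * (z (t + a) * conj (z (t + -a))))
          (c3.intervalIntegrable _ _)
        simpa using this.symm
      have c4 : Continuous (fun t => (cexp (κ * I) * (z (t + a) * conj (z (t + -a)))).re) :=
        Complex.continuous_re.comp c3
      have c5 : Continuous (fun t => ‖z (t + a)‖ ^ 2 + ‖z (t + -a)‖ ^ 2) := c1.add c2
      have c6 : Continuous (fun t => 2 * (cexp (κ * I) * (z (t + a) * conj (z (t + -a)))).re) :=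
        c4.const_mul 2
      rw [e10, ← intervalIntegral.integral_const_mul, ← intervalIntegral.integral_add
        (c1.intervalIntegrable _ _) (c2.intervalIntegrable _ _), ← intervalIntegral.integral_add
        (c5.intervalIntegrable _ _) (c6.intervalIntegrable _ _)]
      refine intervalIntegral.integral_congr fun t _ => ?_
      exact Uz_sq z a κ t
    rw [e9]
    have s1 := shift_le D hTn ha
    have s2 := shift_le D hTn (a := -a) (by rwa [abs_neg])
    linarith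
  have h9 := mul_le_mul_of_nonneg_left h8 (by linarith : (0:ℝ) ≤ 1 + ε)
  have h10 : (1 + ε) * (4 * (B z 0 + B z T)) ≤ 8 * (B z 0 + 1) * (1 + B z T) := by
    nlinarith [mul_nonneg hB00 hB]
  nlinarith

end

end Pool.Agent.TH535.SM
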