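import Pool.Agent.TH535.SM.A6

set_option autoImplicit false

/-! The comparison theorem with the local moment as error term. -/

namespace Pool.Agent.TH535.SM

open Complex MeasureTheory Filter Topology Set
open scoped FourierTransform ComplexConjugate

noncomputable section

variable {z : ℝ → ℂ} {G : ℂ → ℂ} {u K : ℕ}

/-- the mass to the right of `δ L / 2π` -/
lemma out_right (D : Dat z G u K) {δ : ℝ} (hδ : 0 < δ) (hu : 1 ≤ δ * u) : ∃ C : ℝ, 0 ≤ C ∧
    ∀ T : ℝ, 1 ≤ T → ms (Fn G T 0) (Ici (δ * Real.log T / (2 * Real.pi))) ≤ C := by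
  obtain ⟨C, hC, hb⟩ := D.rt
  obtain ⟨D0, hD0, hs⟩ := Fn_sq 0
  refine ⟨D0 * Real.exp (2 * (u:ℝ) ^ 2) * C ^ 2, by positivity, fun T hT => ?_⟩
  have hu0 : (0:ℝ) ≤ u := Nat.cast_nonneg u
  have hT0 : 0 < T := by linarith
  have hL : 0 ≤ Real.log T := Real.log_nonneg hT
  have h1 := mass_right D.pg hT (δ * Real.log T / (2 * Real.pi))
  have h2 := hs G u D.pg T hT u (by linarith) le_rfl C (by linarith) (by simpa using hb)
  have e1 : -(4 * Real.pi * (δ * Real.log T / (2 * Real.pi)) * u) = -(2 * (δ * u)) * Real.log T := by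
    have := Real.pi_pos
    field_simp
    ring
  rw [e1] at h1
  have h3 : Real.exp (-(2 * (δ * u)) * Real.log T) * T ≤ 1 := by
    nth_rewrite 2 [← Real.exp_log hT0]
    rw [← Real.exp_add, Real.exp_le_one_iff]
    nlinarith
  have hE := Real.exp_pos (-(2 * (δ * u)) * Real.log T)
  calc _ ≤ Real.exp (-(2 * (δ * u)) * Real.log T) * ∫ t, ‖Fn G T u t‖ ^ 2 := h1
    _ ≤ Real.exp (-(2 * (δ * u)) * Real.log T) * (D0 * Real.exp (2 * (u:ℝ) ^ 2) * C ^ 2 * T ^ (2 * 0 + 1)) := by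
        gcongr
    _ = (D0 * Real.exp (2 * (u:ℝ) ^ 2) * C ^ 2) * (Real.exp (-(2 * (δ * u)) * Real.log T) * T) := by
        ring
    _ ≤ (D0 * Real.exp (2 * (u:ℝ) ^ 2) * C ^ 2) * 1 := by gcongr
    _ = _ := mul_one _

/-- the mass to the left of `-(K+δ) L / 2π` -/
lemma out_left (D : Dat z G u K) {δ : ℝ} (hδ : 0 < δ) (hu : 1 ≤ δ * u) : ∃ C : ℝ, 0 ≤ C ∧
    ∀ T : ℝ, 1 ≤ T → ms (Fn G T 0) (Iic (-((K + δ) * Real.log T / (2 * Real.pi)))) ≤ C := by
  obtain ⟨C, hC, hb⟩ := D.lt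
  obtain ⟨D0, hD0, hs⟩ := Fn_sq (u * K)
  refine ⟨D0 * Real.exp (2 * (-(u:ℝ)) ^ 2) * C ^ 2, by positivity, fun T hT => ?_⟩
  have hu0 : (0:ℝ) ≤ u := Nat.cast_nonneg u
  have hT0 : 0 < T := by linarith
  have hL : 0 ≤ Real.log T := Real.log_nonneg hT
  have h1 := mass_left D.pg hT (-((K + δ) * Real.log T / (2 * Real.pi)))
  have h2 := hs G u D.pg T hT (-u) le_rfl (by linarith) C (by linarith) (by
    intro t
    have := hb t
    rwa [sub_eq_add_neg] at this)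
  have e1 : 4 * Real.pi * (-((K + δ) * Real.log T / (2 * Real.pi))) * u =
      -(2 * ((K + δ) * u)) * Real.log T := by
    have := Real.pi_pos
    field_simp
    ring
  rw [e1] at h1
  have h3 : Real.exp (-(2 * ((K + δ) * u)) * Real.log T) * T ^ (2 * (u * K) + 1) ≤ 1 := by
    have e2 : T ^ (2 * (u * K) + 1) = Real.exp ((2 * (u * K) + 1 : ℕ) * Real.log T) := by
      rw [Real.exp_nat_mul, Real.exp_log hT0]
    rw [e2, ← Real.exp_add, Real.exp_le_one_iff]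
    push_cast
    nlinarith
  have hE := Real.exp_pos (-(2 * ((K + δ) * u)) * Real.log T)
  calc _ ≤ Real.exp (-(2 * ((K + δ) * u)) * Real.log T) * ∫ t, ‖Fn G T (-u) t‖ ^ 2 := h1
    _ ≤ Real.exp (-(2 * ((K + δ) * u)) * Real.log T) *
        (D0 * Real.exp (2 * (-(u:ℝ)) ^ 2) * C ^ 2 * T ^ (2 * (u * K) + 1)) := by
        gcongr
    _ = (D0 * Real.exp (2 * (-(u:ℝ)) ^ 2) * C ^ 2) *
        (Real.exp (-(2 * ((K + δ) * u)) * Real.log T) * T ^ (2 * (u * K) + 1)) := by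
        ring
    _ ≤ (D0 * Real.exp (2 * (-(u:ℝ)) ^ 2) * C ^ 2) * 1 := by gcongr
    _ = _ := mul_one _

lemma ms_union {F : ℝ → ℂ} (hF : Dec F) {A A1 A2 : Set ℝ} (h1 : MeasurableSet A1)
    (h2 : MeasurableSet A2) (h : A ⊆ A1 ∪ A2) : ms F A ≤ ms F A1 + ms F A2 := by
  unfold ms
  have hI := (planch hF).1
  have h3 : ∫ w in A, ‖𝓕 F w‖ ^ 2 ≤ ∫ w in A1 ∪ A2, ‖𝓕 F w‖ ^ 2 :=
    setIntegral_mono_set hI.integrableOn (Eventually.of_forall fun w => by positivity)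
      (Eventually.of_forall h)
  have e : A1 ∪ A2 = A1 ∪ (A2 \ A1) := union_sdiff_self.symm
  have h4 : ∫ w in A2 \ A1, ‖𝓕 F w‖ ^ 2 ≤ ∫ w in A2, ‖𝓕 F w‖ ^ 2 :=
    setIntegral_mono_set hI.integrableOn (Eventually.of_forall fun w => by positivity)
      (Eventually.of_forall sdiff_subset)
  rw [e, setIntegral_union disjoint_sdiff_right (h2.diff h1) hI.integrableOn hI.integrableOn] at h3
  linarith

/-- the multiplier on the spectral interval -/
lemma mu_lower {α δ L w : ℝ} (hL : 0 < L) (hα : |α| * (K + 2 * δ) ≤ Real.pi)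
    (h1 : -((K + δ) * L / (2 * Real.pi)) < w) (h2 : w < δ * L / (2 * Real.pi)) :
    2 + 2 * Real.cos (|α| * (K + 2 * δ)) ≤ mu (α / L) (K * α) w := by
  unfold mu
  have hp := Real.pi_pos
  have e1 : 4 * Real.pi * (α / L) * w + K * α = α * (4 * Real.pi * w / L + K) := by
    field_simp
  rw [e1, ← Real.cos_abs (α * (4 * Real.pi * w / L + K)), abs_mul]
  have h3 : 4 * Real.pi * w / L < 2 * δ := by
    rw [div_lt_iff₀ hL]
    rw [lt_div_iff₀ (by positivity)] at h2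
    linarith
  have h4 : -(2 * (K + δ)) < 4 * Real.pi * w / L := by
    rw [lt_div_iff₀ hL]
    have h5 : -((K + δ) * L / (2 * Real.pi)) = -((K + δ) * L) / (2 * Real.pi) := by ring
    rw [h5, div_lt_iff₀ (by positivity)] at h1
    linarith
  have h5 : |4 * Real.pi * w / L + K| ≤ K + 2 * δ := abs_le.2 ⟨by linarith, by linarith⟩
  have h6 := Real.cos_le_cos_of_nonneg_of_le_pi (x := |α| * |4 * Real.pi * w / L + K|)
    (y := |α| * (K + 2 * δ)) (by positivity) hα (by gcongr)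
  linarith

/-- the final algebra -/
lemma alg {c0 c ε M B C1 C2 Cm R IF IU ms : ℝ} (hε : 0 < ε) (hε1 : ε < 1) (hM : 0 ≤ M) (hB : 0 ≤ B)
    (hC1 : 0 ≤ C1) (hC2 : 0 ≤ C2) (hCm : 0 ≤ Cm) (c1 : -1 ≤ c) (c2 : c ≤ 1) (c3 : c0 - ε / 4 ≤ c)
    (c4 : c0 ≤ 1) (m1 : (1 - ε / 32) * M - C1 * (1 + B) ≤ IF)
    (m2 : IU ≤ (1 + ε / 32) * (2 * M + 2 * R) + ε / 32 * M + C2 * (1 + B))
    (m3 : (2 + 2 * c) * (IF - ms) ≤ IU) (m4 : ms ≤ Cm) :
    (c0 - ε) * M - (4 * (C1 + Cm) + C2) * (1 + B) ≤ R := by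
  obtain ⟨η, hη⟩ : ∃ η, η = ε / 32 := ⟨_, rfl⟩
  rw [← hη] at m1 m2
  have hη0 : 0 < η := by rw [hη]; positivity
  have hη1 : η < 1 := by rw [hη]; linarith
  have t1 : (2 + 2 * c) * ((1 - η) * M - (C1 * (1 + B) + Cm)) ≤ (2 + 2 * c) * (IF - ms) :=
    mul_le_mul_of_nonneg_left (by linarith) (by linarith)
  have t2 : (2 + 2 * c) * (C1 * (1 + B) + Cm) ≤ 4 * (C1 + Cm) * (1 + B) := by
    have h0 : 0 ≤ C1 * (1 + B) + Cm := by positivity
    have h1 : (2 + 2 * c) * (C1 * (1 + B) + Cm) ≤ 4 * (C1 * (1 + B) + Cm) :=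
      mul_le_mul_of_nonneg_right (by linarith) h0
    have h2 : 0 ≤ Cm * B := mul_nonneg hCm hB
    linarith
  obtain ⟨Y, hY⟩ : ∃ Y, Y = (4 * (C1 + Cm) + C2) * (1 + B) := ⟨_, rfl⟩
  have hY0 : 0 ≤ Y := by rw [hY]; positivity
  obtain ⟨X, hX⟩ : ∃ X, X = 2 * c0 - ε / 2 - 7 * η := ⟨_, rfl⟩
  have t3 : X * M - Y ≤ (1 + η) * (2 * R) := by
    have h10 : X ≤ (2 + 2 * c) * (1 - η) - η - 2 * (1 + η) := by
      have : 0 ≤ (1 - c) * η := mul_nonneg (by linarith) hη0.le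
      rw [hX]
      linarith
    have h11 := mul_le_mul_of_nonneg_right h10 hM
    rw [hY]
    linarith
  have hX4 : X ≤ 4 := by rw [hX]; linarith
  have t4 : (X - 4 * η) * M - Y ≤ 2 * R := by
    have h13 : 0 ≤ η * ((4 - X) * M) := mul_nonneg hη0.le (mul_nonneg (by linarith) hM)
    have h14 : 0 ≤ η * Y := mul_nonneg hη0.le hY0
    have h15 : 0 ≤ η * (η * M) := mul_nonneg hη0.le (mul_nonneg hη0.le hM)
    refine le_of_mul_le_mul_left (a := 1 + η) ?_ (by linarith)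
    linarith
  have t5 : 2 * ((c0 - ε) * M) ≤ (X - 4 * η) * M := by
    rw [← mul_assoc]
    refine mul_le_mul_of_nonneg_right ?_ hM
    rw [hX, hη]
    linarith
  rw [← hY]
  linarith

/-- the comparison theorem -/
theorem stage1 (hz : ∀ u : ℕ, 1 ≤ u → ∃ G, Dat z G u K) {α : ℝ} (hα : |α| * K < Real.pi)
    {ε : ℝ} (hε : 0 < ε) (hε1 : ε < 1) : ∃ C T0 : ℝ, 0 ≤ C ∧ 1 ≤ T0 ∧ ∀ T : ℝ, T0 ≤ T →
      (Real.cos (K * α) - ε) * M z T - C * (1 + B z T) ≤
        (cexp ((K * α : ℝ) * I) * Cor z (α / Real.log T) T).re := by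
  set δ : ℝ := min (ε / (8 * (|α| + 1))) ((Real.pi - |α| * K) / (2 * (|α| + 1))) with hδ
  have habs := abs_nonneg α
  have hδ0 : 0 < δ := by
    refine lt_min (by positivity) (div_pos (by linarith) (by positivity))
  have hδ1 : δ * (8 * (|α| + 1)) ≤ ε := by
    rw [← le_div_iff₀ (by positivity)]; exact min_le_left _ _
  have hδ2 : δ * (2 * (|α| + 1)) ≤ Real.pi - |α| * K := by
    rw [← le_div_iff₀ (by positivity)]; exact min_le_right _ _
  have hpi : |α| * (K + 2 * δ) ≤ Real.pi := by nlinarith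
  obtain ⟨u, hu⟩ := exists_nat_ge (max 1 (1 / δ))
  have hu1 : 1 ≤ u := by
    have : (1:ℝ) ≤ u := (le_max_left _ _).trans hu
    exact_mod_cast this
  have hu2 : 1 ≤ δ * u := by
    have : 1 / δ ≤ u := (le_max_right _ _).trans hu
    rw [div_le_iff₀ hδ0] at this
    linarith
  obtain ⟨G, D⟩ := hz u hu1
  obtain ⟨Cr, hCr, hr⟩ := out_right D hδ0 hu2
  obtain ⟨Cl, hCl, hl⟩ := out_left D hδ0 hu2
  obtain ⟨η, hη⟩ : ∃ η, η = ε / 32 := ⟨_, rfl⟩
  have hη0 : 0 < η := by rw [hη]; positivity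
  have hη1 : η < 1 := by rw [hη]; linarith
  obtain ⟨C1, T1, hC1, hT1, n1⟩ := norm_lower D hη0 hη1
  obtain ⟨C2, T2, hC2, hT2, n2⟩ := norm_upper D hη0 hη1
  rw [hη] at n1 n2

  refine ⟨4 * (C1 + Cr + Cl) + C2, max (max T1 T2) (Real.exp (|α| + 1)), by positivity, ?_,
    fun T hT => ?_⟩
  · exact le_max_of_le_right (Real.one_le_exp (by positivity))
  have hTT1 : T1 ≤ T := ((le_max_left _ _).trans (le_max_left _ _)).trans hT
  have hTT2 : T2 ≤ T := ((le_max_right _ _).trans (le_max_left _ _)).trans hT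
  have hTe : Real.exp (|α| + 1) ≤ T := (le_max_right _ _).trans hT
  have hTp : 1 ≤ T := hT1.trans hTT1
  have hT0 : 0 < T := by linarith
  have hL : |α| + 1 ≤ Real.log T := by rwa [Real.le_log_iff_exp_le hT0]
  have hL0 : 0 < Real.log T := by linarith
  set L := Real.log T with hLd
  have ha : |α / L| ≤ 1 := by
    rw [abs_div, abs_of_pos hL0, div_le_one hL0]
    linarith
  have hdec := Fn_dec D.pg hTp (r := 0) (by simp) (by positivity)
  have m1 := n1 T hTT1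
  have m2 := n2 T hTT2 (α / L) (K * α) ha
  have m3 := lower_set hdec (α / L) (K * α)
    (A := Ioo (-((K + δ) * L / (2 * Real.pi))) (δ * L / (2 * Real.pi))) measurableSet_Ioo
    (m0 := 2 + 2 * Real.cos (|α| * (K + 2 * δ))) (fun w hw => mu_lower hL0 hpi hw.1 hw.2)
  have m4 : ms (Fn G T 0) (Ioo (-((K + δ) * L / (2 * Real.pi))) (δ * L / (2 * Real.pi)))ᶜ ≤
      Cl + Cr := by
    refine (ms_union hdec (A1 := Iic (-((K + δ) * L / (2 * Real.pi))))
      (A2 := Ici (δ * L / (2 * Real.pi))) measurableSet_Iic measurableSet_Ici ?_).trans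
      (add_le_add (hl T hTp) (hr T hTp))
    intro w hw
    simp only [mem_compl_iff, mem_Ioo, not_and_or, not_lt] at hw
    exact hw
  have c1 := Real.neg_one_le_cos (|α| * (K + 2 * δ))
  have c2 := Real.cos_le_one (|α| * (K + 2 * δ))
  have c3 : Real.cos (K * α) - ε / 4 ≤ Real.cos (|α| * (K + 2 * δ)) := by
    have e1 : Real.cos (K * α) = Real.cos (|α| * K) := by
      rw [← Real.cos_abs (K * α), abs_mul, abs_of_nonneg (Nat.cast_nonneg K), mul_comm]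
    have h5 := Real.abs_cos_sub_cos_le (|α| * K) (|α| * (K + 2 * δ))
    have h6 : abs (|α| * K - |α| * (K + 2 * δ)) = 2 * δ * |α| := by
      have : |α| * K - |α| * (K + 2 * δ) = -(2 * δ * |α|) := by ring
      rw [this, abs_neg, abs_of_nonneg (by positivity)]
    rw [h6] at h5
    have h7 := (abs_le.1 h5).2
    rw [e1]
    nlinarith
  have c4 := Real.cos_le_one (K * α)
  have hM := M_nonneg z hT0.le
  have hB := B_nonneg z T
  have h := alg hε hε1 hM hB hC1 hC2 (add_nonneg hCl hCr) c1 c2 c3 c4 m1 m2 m3 m4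
  refine le_trans (le_of_eq ?_) h
  ring

end

end Pool.Agent.TH535.SM
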