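import Pool.Agent.TH535.SM.A7

set_option autoImplicit false

/-! The local moment is small outside a small exceptional set. -/

namespace Pool.Agent.TH535.SM

open Complex MeasureTheory Filter Topology Set
open scoped FourierTransform ComplexConjugate

noncomputable section

variable {z : ℝ → ℂ} {G : ℂ → ℂ} {u K : ℕ}

lemma M_upper (D : Dat z G u K) : ∃ (C : ℝ) (q : ℕ), 1 ≤ C ∧ ∀ T : ℝ, 0 ≤ T →
    M z T ≤ C * (1 + T) ^ q := by
  obtain ⟨C, p, hC, hb⟩ := D.zb
  refine ⟨C, p + 1, hC, fun T hT => ?_⟩
  unfold M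
  calc ∫ t in (0:ℝ)..T, ‖z t‖ ^ 2 ≤ ∫ t in (0:ℝ)..T, C * (1 + T) ^ p := by
        refine intervalIntegral.integral_mono_on hT (D.sc.intervalIntegrable _ _)
          (continuous_const.intervalIntegrable _ _) ?_
        intro t ht
        refine (hb t).trans ?_
        rw [abs_of_nonneg ht.1]
        have := ht.2
        have := ht.1
        gcongr
    _ = T * (C * (1 + T) ^ p) := by
        rw [intervalIntegral.integral_const, smul_eq_mul, sub_zero]
    _ ≤ (1 + T) * (C * (1 + T) ^ p) := by gcongr; linarith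
    _ = _ := by ring

lemma M_cont (D : Dat z G u K) : Continuous (M z) := by
  have := intervalIntegral.continuous_primitive (μ := volume) (f := fun t => ‖z t‖ ^ 2)
    (fun a b => D.sc.intervalIntegrable a b) 0
  exact this

lemma gp8_int (p : ℕ) : Integrable (fun t : ℝ => Real.exp (-t ^ 2 / 8) * (1 + |t|) ^ p) := by
  have h := (gp_int p 0)
  have g16 : Integrable (fun z : ℝ => Real.exp (-z ^ 2 / 16)) := by
    have := integrable_exp_neg_mul_sq (b := 1 / 16) (by norm_num)
    refine this.congr (Eventually.of_forall fun z => ?_)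
    simp only
    congr 1; ring
  refine (g16.const_mul (p.factorial * Real.exp 5)).mono'
    (by fun_prop : Continuous _).aestronglyMeasurable (Eventually.of_forall fun t => ?_)
  rw [Real.norm_of_nonneg (by positivity)]
  have h1 := Real.pow_div_factorial_le_exp (1 + |t|) (by positivity) p
  have hf : (0:ℝ) < p.factorial := by exact_mod_cast Nat.factorial_pos p
  rw [div_le_iff₀ hf] at h1
  calc Real.exp (-t ^ 2 / 8) * (1 + |t|) ^ p ≤ Real.exp (-t ^ 2 / 8) * (Real.exp (1 + |t|) * p.factorial) := by
        gcongr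
    _ = p.factorial * Real.exp (1 + |t| + -t ^ 2 / 8) := by rw [Real.exp_add (1 + |t|)]; ring
    _ ≤ p.factorial * Real.exp (5 + -t ^ 2 / 16) := by
        refine mul_le_mul_of_nonneg_left (Real.exp_le_exp.2 ?_) hf.le
        have : t ^ 2 = |t| ^ 2 := (sq_abs t).symm
        rw [this]
        nlinarith [sq_nonneg (|t| - 8)]
    _ = _ := by rw [Real.exp_add 5]; ring

/-- splitting the local moment -/
lemma B_split (D : Dat z G u K) : ∃ (C : ℝ) (p : ℕ), 1 ≤ C ∧ ∀ T h : ℝ, 0 ≤ T → 0 ≤ h →
    B z T ≤ (M z (T + h) - M z (T - h)) + C * (1 + T) ^ p * Real.exp (-h ^ 2 / 8) := by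
  obtain ⟨C, p, hC, hb⟩ := D.zb
  set J : ℝ := ∫ t : ℝ, Real.exp (-t ^ 2 / 8) * (1 + |t|) ^ p with hJ
  have hJ0 : 0 ≤ J := integral_nonneg fun t => by positivity
  refine ⟨C * (J + 1), p, by nlinarith, fun T h hT hh => ?_⟩
  have e1 : M z (T + h) - M z (T - h) = ∫ t in (T - h)..(T + h), ‖z t‖ ^ 2 := by
    unfold M
    rw [intervalIntegral.integral_interval_sub_left (D.sc.intervalIntegrable _ _)
      (D.sc.intervalIntegrable _ _)]
  have e2 : ∫ t in (T - h)..(T + h), ‖z t‖ ^ 2 = ∫ t, (Ioc (T - h) (T + h)).indicator (fun t => ‖z t‖ ^ 2) t := by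
    rw [intervalIntegral.integral_of_le (by linarith), integral_indicator measurableSet_Ioc]
  have i1 : Integrable ((Ioc (T - h) (T + h)).indicator (fun t => ‖z t‖ ^ 2)) := by
    refine (integrable_indicator_iff measurableSet_Ioc).2 ?_
    exact (D.sc.continuousOn.integrableOn_Icc (a := T - h) (b := T + h)).mono_set Ioc_subset_Icc_self
  have i2 : Integrable (fun t : ℝ => C * (1 + T) ^ p * Real.exp (-h ^ 2 / 8) *
      (Real.exp (-(t - T) ^ 2 / 8) * (1 + |t - T|) ^ p)) :=
    ((gp8_int p).comp_sub_right T).const_mul _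
  rw [e1, e2]
  have e3 : C * (J + 1) * (1 + T) ^ p * Real.exp (-h ^ 2 / 8) =
      (∫ t : ℝ, C * (1 + T) ^ p * Real.exp (-h ^ 2 / 8) *
        (Real.exp (-(t - T) ^ 2 / 8) * (1 + |t - T|) ^ p)) + C * (1 + T) ^ p * Real.exp (-h ^ 2 / 8) := by
    rw [integral_const_mul, integral_sub_right_eq_self (μ := volume)
      (fun t : ℝ => Real.exp (-t ^ 2 / 8) * (1 + |t|) ^ p) T, ← hJ]
    ring
  rw [e3]
  have e4 : B z T ≤ ∫ t, ((Ioc (T - h) (T + h)).indicator (fun t => ‖z t‖ ^ 2) t +
      C * (1 + T) ^ p * Real.exp (-h ^ 2 / 8) * (Real.exp (-(t - T) ^ 2 / 8) * (1 + |t - T|) ^ p)) := by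
    unfold B
    refine integral_mono (B_int D T) (iadd i1 i2) fun t => ?_
    simp only
    have hz := hb t
    have hT1 : 1 + |t| ≤ (1 + T) * (1 + |t - T|) := by
      have := one_add_abs_le t (-T)
      rw [abs_neg, abs_of_nonneg hT, ← sub_eq_add_neg] at this
      linarith
    by_cases ht : t ∈ Ioc (T - h) (T + h)
    · rw [indicator_of_mem ht]
      have h1 : Real.exp (-(t - T) ^ 2 / 4) ≤ 1 :=
        Real.exp_le_one_iff.2 (by nlinarith [sq_nonneg (t - T)])
      have h2 : 0 ≤ C * (1 + T) ^ p * Real.exp (-h ^ 2 / 8) *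
        (Real.exp (-(t - T) ^ 2 / 8) * (1 + |t - T|) ^ p) := by positivity
      have h3 : 0 ≤ ‖z t‖ ^ 2 := by positivity
      nlinarith
    · rw [indicator_of_notMem ht, zero_add]
      have h1 : h ^ 2 ≤ (t - T) ^ 2 := by
        rw [mem_Ioc, not_and_or, not_lt, not_le] at ht
        rcases ht with ht | ht
        · nlinarith
        · nlinarith
      have h2 : Real.exp (-(t - T) ^ 2 / 4) ≤ Real.exp (-h ^ 2 / 8) * Real.exp (-(t - T) ^ 2 / 8) := by
        rw [← Real.exp_add]
        exact Real.exp_le_exp.2 (by linarith)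
      calc Real.exp (-(t - T) ^ 2 / 4) * ‖z t‖ ^ 2 ≤
            (Real.exp (-h ^ 2 / 8) * Real.exp (-(t - T) ^ 2 / 8)) * (C * ((1 + T) * (1 + |t - T|)) ^ p) := by
            gcongr
            exact hz.trans (by gcongr)
        _ = _ := by rw [mul_pow]; ring
  rw [integral_add i1 i2] at e4
  have : 0 ≤ C * (1 + T) ^ p * Real.exp (-h ^ 2 / 8) := by positivity
  linarith

lemma tail_small (C : ℝ) (p : ℕ) (hC : 0 ≤ C) : ∀ᶠ X : ℝ in atTop,
    C * (1 + 2 * X) ^ p * Real.exp (-Real.log X ^ 2 / 8) ≤ 1 := by
  have h1 : Tendsto (fun X : ℝ => Real.log X) atTop atTop := Real.tendsto_log_atTop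
  filter_upwards [h1.eventually_ge_atTop (16 * (p + 1) + 8 * (C + 1)), h1.eventually_ge_atTop 2,
    eventually_ge_atTop 3] with X hX1 hX2 hX3
  have hX0 : 0 < X := by linarith
  have h2 : (1 + 2 * X) ^ p ≤ Real.exp (2 * p * Real.log X) := by
    have h3 : 1 + 2 * X ≤ Real.exp (2 * Real.log X) := by
      have : Real.exp (2 * Real.log X) = X ^ 2 := by
        rw [show 2 * Real.log X = ((2:ℕ):ℝ) * Real.log X by norm_num, Real.exp_nat_mul,
          Real.exp_log hX0]
      rw [this]
      nlinarith
    calc (1 + 2 * X) ^ p ≤ (Real.exp (2 * Real.log X)) ^ p := by gcongr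
      _ = _ := by rw [← Real.exp_nat_mul]; congr 1; ring
  have h4 : C ≤ Real.exp C := by
    have := Real.add_one_le_exp C
    linarith
  calc C * (1 + 2 * X) ^ p * Real.exp (-Real.log X ^ 2 / 8) ≤
        Real.exp C * Real.exp (2 * p * Real.log X) * Real.exp (-Real.log X ^ 2 / 8) := by gcongr
    _ = Real.exp (C + 2 * p * Real.log X - Real.log X ^ 2 / 8) := by
        rw [← Real.exp_add, ← Real.exp_add]; congr 1; ring
    _ ≤ 1 := by
        rw [Real.exp_le_one_iff]
        have hp0 : (0:ℝ) ≤ p := Nat.cast_nonneg p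
        set l := Real.log X
        -- l²/8 ≥ l (p+1) + l (C+1)
        have h5 : (16 * (p + 1) + 8 * (C + 1)) * l ≤ l ^ 2 := by
          rw [pow_two]; exact mul_le_mul_of_nonneg_right hX1 (by linarith)
        nlinarith [mul_nonneg hC (by linarith : (0:ℝ) ≤ l - 1), mul_nonneg hp0 (by linarith : (0:ℝ) ≤ l)]

/-- outside a small exceptional set the local moment is small -/
theorem exc (D : Dat z G u K) {ε : ℝ} (hε : 0 < ε) (hε1 : ε ≤ 1) : ∃ C X0 : ℝ, 0 ≤ C ∧ 1 ≤ X0 ∧
    ∀ X : ℝ, X0 ≤ X → ∃ E : Set ℝ, MeasurableSet E ∧ E ⊆ Icc X (2 * X) ∧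
      (volume : Measure ℝ).real E ≤ C * Real.log X ^ 2 ∧
      ∀ T ∈ Icc X (2 * X), T ∉ E → B z T ≤ ε * M z T + 2 := by
  obtain ⟨C1, q, hC1, hMu⟩ := M_upper D
  obtain ⟨C2, p, hC2, hBs⟩ := B_split D
  have hl1 : 0 < Real.log (1 + ε) := Real.log_pos (by linarith)
  set C' : ℝ := Real.log (2 * C1) + 3 * q with hC'
  have hlC : 0 ≤ Real.log (2 * C1) := Real.log_nonneg (by linarith)
  have hq0 : (0:ℝ) ≤ q := Nat.cast_nonneg q
  have hC'0 : 0 ≤ C' := by positivity
  have ev : ∀ᶠ X : ℝ in atTop, C2 * (1 + 2 * X) ^ p * Real.exp (-Real.log X ^ 2 / 8) ≤ 1 ∧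
      Real.log X ≤ X / 2 ∧ 1 ≤ Real.log X ∧ 1 ≤ X := by
    refine (tail_small C2 p (by linarith)).and (Eventually.and ?_ (Eventually.and
      (Real.tendsto_log_atTop.eventually_ge_atTop 1) (eventually_ge_atTop 1)))
    have h := Real.isLittleO_log_id_atTop.bound (c := 1 / 2) (by norm_num)
    filter_upwards [h, eventually_ge_atTop 1] with X hX hX1
    rw [Real.norm_of_nonneg (Real.log_nonneg hX1), id, Real.norm_of_nonneg (by linarith)] at hX
    linarith
  obtain ⟨X1, hX1⟩ := eventually_atTop.1 ev
  refine ⟨2 * C' / Real.log (1 + ε), max X1 1, by positivity, le_max_right _ _, fun X hX => ?_⟩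
  obtain ⟨t1, t2, t3, t4⟩ := hX1 X ((le_max_left _ _).trans hX)
  set h := Real.log X with hh
  have hh0 : 0 ≤ h := by linarith
  set l : ℝ → ℝ := fun T => Real.log (1 + M z T) with hl
  have hMn : ∀ T, 0 ≤ T → 0 ≤ M z T := fun T hT => M_nonneg z hT
  have hlnn : ∀ T, 0 ≤ T → 0 ≤ l T := fun T hT => Real.log_nonneg (by linarith [hMn T hT])
  have hlmono : ∀ S T, 0 ≤ S → S ≤ T → l S ≤ l T := fun S T hS hST =>
    Real.log_le_log (by linarith [hMn S hS]) (by linarith [M_mono D hST])
  have hlc : ContinuousOn l (Ici 0) := by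
    refine ContinuousOn.log ((continuous_const.add (M_cont D)).continuousOn) fun T hT => ?_
    have := hMn T hT
    positivity
  set φ : ℝ → ℝ := fun T => l (T + h) - l (T - h) with hφ
  have hφc : ContinuousOn φ (Icc X (2 * X)) := by
    refine ContinuousOn.sub (hlc.comp (by fun_prop) fun T hT => ?_)
      (hlc.comp (by fun_prop) fun T hT => ?_)
    · have := hT.1
      show 0 ≤ T + h
      linarith
    · have := hT.1
      show 0 ≤ T - h
      linarith
  have hφm : Measurable (fun T => Real.log (1 + M z (T + h)) - Real.log (1 + M z (T - h))) := by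
    have h1 : Measurable (M z) := (M_cont D).measurable
    have h2 : Measurable (fun T => 1 + M z (T + h)) :=
      measurable_const.add (h1.comp (measurable_id.add_const h))
    have h3 : Measurable (fun T => 1 + M z (T - h)) :=
      measurable_const.add (h1.comp (measurable_id.sub_const h))
    exact h2.log.sub h3.log
  refine ⟨Icc X (2 * X) ∩ {T | Real.log (1 + ε) ≤ φ T},
    measurableSet_Icc.inter (measurableSet_le measurable_const hφm), inter_subset_left, ?_, ?_⟩
  · -- the measure
    have hφ0 : ∀ T ∈ Icc X (2 * X), 0 ≤ φ T := by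
      intro T hT
      have := hlmono (T - h) (T + h) (by linarith [hT.1]) (by linarith)
      simp only [hφ]
      linarith
    have hint : IntegrableOn φ (Icc X (2 * X)) := hφc.integrableOn_Icc
    have hmk := mul_meas_ge_le_integral_of_nonneg (μ := volume.restrict (Icc X (2 * X))) (f := φ)
      ((ae_restrict_iff' measurableSet_Icc).2 (Eventually.of_forall hφ0)) hint (Real.log (1 + ε))
    have e1 : (volume.restrict (Icc X (2 * X))).real {T | Real.log (1 + ε) ≤ φ T} =
        (volume : Measure ℝ).real (Icc X (2 * X) ∩ {T | Real.log (1 + ε) ≤ φ T}) := by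
      rw [measureReal_restrict_apply (measurableSet_le measurable_const hφm), inter_comm]
    rw [e1] at hmk
    have e2 : ∫ T in Icc X (2 * X), φ T ≤ 2 * h * (C' * h) := by
      have hii : ∀ a b : ℝ, 0 ≤ a → 0 ≤ b → IntervalIntegrable l volume a b := by
        intro a b ha hb
        refine (hlc.mono ?_).intervalIntegrable
        intro x hx
        rw [mem_uIcc] at hx
        show 0 ≤ x
        rcases hx with hx | hx <;> linarith [hx.1]
      rw [integral_Icc_eq_integral_Ioc, ← intervalIntegral.integral_of_le (by linarith)]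
      have c1 : IntervalIntegrable (fun T => l (T + h)) volume X (2 * X) := by
        refine (hlc.comp (by fun_prop) fun T hT => ?_).intervalIntegrable
        rw [uIcc_of_le (by linarith)] at hT
        show 0 ≤ T + h
        linarith [hT.1]
      have c2 : IntervalIntegrable (fun T => l (T - h)) volume X (2 * X) := by
        refine (hlc.comp (by fun_prop) fun T hT => ?_).intervalIntegrable
        rw [uIcc_of_le (by linarith)] at hT
        show 0 ≤ T - h
        linarith [hT.1]
      simp only [hφ]
      rw [intervalIntegral.integral_sub c1 c2, intervalIntegral.integral_comp_add_right,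
        intervalIntegral.integral_comp_sub_right]
      have s1 := intervalIntegral.integral_add_adjacent_intervals
        (hii (X + h) (2 * X - h) (by linarith) (by linarith))
        (hii (2 * X - h) (2 * X + h) (by linarith) (by linarith))
      have s2 := intervalIntegral.integral_add_adjacent_intervals
        (hii (X - h) (X + h) (by linarith) (by linarith))
        (hii (X + h) (2 * X - h) (by linarith) (by linarith))
      have s3 : 0 ≤ ∫ x in (X - h)..(X + h), l x :=
        intervalIntegral.integral_nonneg (by linarith) fun x hx => hlnn x (by linarith [hx.1])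
      have s4 : ∫ x in (2 * X - h)..(2 * X + h), l x ≤ ∫ x in (2 * X - h)..(2 * X + h), C' * h := by
        refine intervalIntegral.integral_mono_on (by linarith) (hii _ _ (by linarith) (by linarith))
          (continuous_const.intervalIntegrable _ _) fun x hx => ?_
        have h1 : l x ≤ l (3 * X) := hlmono x (3 * X) (by linarith [hx.1]) (by linarith [hx.2])
        refine h1.trans ?_
        have h2 : 1 + M z (3 * X) ≤ (2 * C1) * (4 * X) ^ q := by
          have h3 := hMu (3 * X) (by linarith)
          have h4 : (1:ℝ) ≤ (4 * X) ^ q := one_le_pow₀ (by linarith)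
          have h5 : (1 + 3 * X) ^ q ≤ (4 * X) ^ q := by gcongr; linarith
          have h6 : C1 * (1 + 3 * X) ^ q ≤ C1 * (4 * X) ^ q := by gcongr
          nlinarith
        have h7 : l (3 * X) ≤ Real.log ((2 * C1) * (4 * X) ^ q) := by
          refine Real.log_le_log ?_ h2
          have := hMn (3 * X) (by linarith)
          linarith
        have e6 : Real.log (4 * X) = Real.log 4 + h := Real.log_mul (by norm_num) (by positivity)
        rw [Real.log_mul (by positivity) (by positivity), Real.log_pow, e6] at h7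
        have h8 : Real.log 4 ≤ 2 := by
          have := Real.log_le_sub_one_of_pos (show (0:ℝ) < 4 / Real.exp 1 by positivity)
          rw [Real.log_div (by norm_num) (by positivity), Real.log_exp] at this
          have h9 : 4 / Real.exp 1 ≤ 2 := by
            rw [div_le_iff₀ (Real.exp_pos 1)]
            have := Real.exp_one_gt_d9
            linarith
          linarith
        refine h7.trans ?_
        rw [hC']
        have h10 : Real.log (2 * C1) ≤ Real.log (2 * C1) * h := by
          nlinarith
        have h11 : (q:ℝ) * (Real.log 4 + h) ≤ q * (3 * h) :=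
          mul_le_mul_of_nonneg_left (by linarith) hq0
        linarith
      rw [intervalIntegral.integral_const, smul_eq_mul] at s4
      have e5 : (2 * X + h - (2 * X - h)) * (C' * h) = 2 * h * (C' * h) := by ring
      rw [e5] at s4
      linarith
    have h3 := hmk.trans e2
    rw [div_mul_eq_mul_div, le_div_iff₀ hl1]
    calc _ = Real.log (1 + ε) * (volume : Measure ℝ).real
          (Icc X (2 * X) ∩ {T | Real.log (1 + ε) ≤ φ T}) := mul_comm _ _
      _ ≤ _ := h3
      _ = _ := by ring
  · intro T hT hTE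
    have h1 : φ T < Real.log (1 + ε) := by
      by_contra hcon
      push Not at hcon
      exact hTE ⟨hT, hcon⟩
    have hT1 : 0 ≤ T - h := by linarith [hT.1]
    have hT0 : 0 ≤ T := by linarith [hT.1]
    have p1 : 0 < 1 + M z (T - h) := by linarith [hMn _ hT1]
    have p2 : 0 < 1 + M z (T + h) := by linarith [hMn (T + h) (by linarith)]
    have h2 : 1 + M z (T + h) ≤ (1 + ε) * (1 + M z (T - h)) := by
      have h3 : Real.log (1 + M z (T + h)) < Real.log ((1 + ε) * (1 + M z (T - h))) := by
        rw [Real.log_mul (by linarith) p1.ne']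
        simp only [hφ, hl] at h1
        linarith
      exact ((Real.log_lt_log_iff p2 (by positivity)).1 h3).le
    have h4 := hBs T h hT0 hh0
    have h5 : C2 * (1 + T) ^ p * Real.exp (-h ^ 2 / 8) ≤ 1 := by
      refine le_trans ?_ t1
      have := hT.2
      gcongr
    have h6 := M_mono D (show T - h ≤ T by linarith)
    nlinarith [mul_le_mul_of_nonneg_left h6 hε.le]

end

end Pool.Agent.TH535.SM
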