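import Pool.Agent.TH535.SM.A8

set_option autoImplicit false

/-! Products and translates; the data for `∏ ζ(1/2+i(t+γ_j))`. -/

namespace Pool.Agent.TH535.SM

open Complex MeasureTheory Filter Topology Set
open scoped FourierTransform ComplexConjugate

noncomputable section

variable {z z1 z2 : ℝ → ℂ} {G G1 G2 : ℂ → ℂ} {u K K1 K2 : ℕ}

lemma PG.mul (h1 : PG G1 u) (h2 : PG G2 u) : PG (fun s => G1 s * G2 s) u := by
  obtain ⟨C1, M1, hC1, hb1⟩ := h1.bd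
  obtain ⟨C2, M2, hC2, hb2⟩ := h2.bd
  refine ⟨fun s a b => (h1.diff s a b).mul (h2.diff s a b), C1 * C2, M1 + M2, by positivity,
    fun s a b => ?_⟩
  rw [norm_mul]
  calc ‖G1 s‖ * ‖G2 s‖ ≤ (C1 * (1 + |s.im|) ^ M1) * (C2 * (1 + |s.im|) ^ M2) :=
        mul_le_mul (hb1 s a b) (hb2 s a b) (norm_nonneg _) (by positivity)
    _ = _ := by rw [pow_add]; ring

lemma one_add_abs_add (t γ : ℝ) : 1 + |t + γ| ≤ (1 + |γ|) * (1 + |t|) := by
  have h := one_add_abs_le (t + γ) (-γ)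
  rw [add_neg_cancel_right, abs_neg] at h
  nlinarith [abs_nonneg t, abs_nonneg γ, abs_add_le t γ, mul_nonneg (abs_nonneg t) (abs_nonneg γ)]

lemma Dat.mul (D1 : Dat z1 G1 u K1) (D2 : Dat z2 G2 u K2) :
    Dat (fun t => z1 t * z2 t) (fun s => G1 s * G2 s) u (K1 + K2) := by
  obtain ⟨C1, p1, hC1, hb1⟩ := D1.zb
  obtain ⟨C2, p2, hC2, hb2⟩ := D2.zb
  obtain ⟨c1, hc1, hl1⟩ := D1.cl
  obtain ⟨c2, hc2, hl2⟩ := D2.cl
  obtain ⟨r1, hr1, hR1⟩ := D1.rt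
  obtain ⟨r2, hr2, hR2⟩ := D2.rt
  obtain ⟨l1, hl1', hL1⟩ := D1.lt
  obtain ⟨l2, hl2', hL2⟩ := D2.lt
  refine ⟨D1.zc.mul D2.zc, ⟨C1 * C2, p1 + p2, ?_, fun t => ?_⟩, D1.pg.mul D2.pg,
    ⟨c1 * (1 + c2) + c2, by positivity, fun t => ?_⟩, ⟨r1 * r2, ?_, fun t => ?_⟩,
    ⟨l1 * l2, ?_, fun t => ?_⟩⟩
  · nlinarith
  · rw [norm_mul, mul_pow]
    calc ‖z1 t‖ ^ 2 * ‖z2 t‖ ^ 2 ≤ (C1 * (1 + |t|) ^ p1) * (C2 * (1 + |t|) ^ p2) :=
          mul_le_mul (hb1 t) (hb2 t) (by positivity) (by positivity)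
      _ = _ := by rw [pow_add]; ring
  · have ht : (1:ℝ) ≤ 1 + |t| := by linarith [abs_nonneg t]
    have h1 := hl1 t
    have h2 := hl2 t
    have hG2 : ‖G2 (1 / 2 + t * I)‖ ≤ (1 + c2) * ‖z2 t‖ := by
      have e : G2 (1 / 2 + t * I) = (G2 (1 / 2 + t * I) - z2 t) + z2 t := by ring
      rw [e]
      refine (norm_add_le _ _).trans ?_
      have h3 : c2 / (1 + |t|) ≤ c2 := div_le_self hc2 ht
      nlinarith [norm_nonneg (z2 t), mul_le_mul_of_nonneg_right h3 (norm_nonneg (z2 t))]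
    have e : G1 (1 / 2 + t * I) * G2 (1 / 2 + t * I) - z1 t * z2 t =
        (G1 (1 / 2 + t * I) - z1 t) * G2 (1 / 2 + t * I) + z1 t * (G2 (1 / 2 + t * I) - z2 t) := by ring
    rw [e]
    refine (norm_add_le _ _).trans ?_
    rw [norm_mul, norm_mul, norm_mul]
    have h4 : ‖G1 (1 / 2 + t * I) - z1 t‖ * ‖G2 (1 / 2 + t * I)‖ ≤
        (c1 / (1 + |t|) * ‖z1 t‖) * ((1 + c2) * ‖z2 t‖) :=
      mul_le_mul h1 hG2 (norm_nonneg _) (by positivity)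
    have h5 : ‖z1 t‖ * ‖G2 (1 / 2 + t * I) - z2 t‖ ≤ ‖z1 t‖ * (c2 / (1 + |t|) * ‖z2 t‖) :=
      mul_le_mul_of_nonneg_left h2 (norm_nonneg _)
    calc _ ≤ (c1 / (1 + |t|) * ‖z1 t‖) * ((1 + c2) * ‖z2 t‖) +
          ‖z1 t‖ * (c2 / (1 + |t|) * ‖z2 t‖) := add_le_add h4 h5
      _ = _ := by ring
  · nlinarith
  · rw [norm_mul]
    exact mul_le_mul (hR1 t) (hR2 t) (norm_nonneg _) (by linarith)
  · nlinarith
  · rw [norm_mul]
    calc _ ≤ (l1 * (1 + |t|) ^ (u * K1)) * (l2 * (1 + |t|) ^ (u * K2)) :=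
          mul_le_mul (hL1 t) (hL2 t) (norm_nonneg _) (by positivity)
      _ = _ := by rw [mul_add, pow_add]; ring

lemma Dat.one (u : ℕ) : Dat (fun _ => (1:ℂ)) (fun _ => (1:ℂ)) u 0 := by
  refine ⟨continuous_const, ⟨1, 0, le_rfl, fun t => by simp⟩,
    ⟨fun s _ _ => differentiableAt_const _, 1, 0, by norm_num, fun s _ _ => by simp⟩,
    ⟨0, le_rfl, fun t => by simp⟩, ⟨1, le_rfl, fun t => by simp⟩, ⟨1, le_rfl, fun t => by simp⟩⟩

lemma Dat.shift (D : Dat z G u K) (γ : ℝ) : Dat (fun t => z (t + γ)) (fun s => G (s + γ * I)) u K := by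
  obtain ⟨C1, p1, hC1, hb1⟩ := D.zb
  obtain ⟨C2, M2, hC2, hb2⟩ := D.pg.bd
  obtain ⟨c1, hc1, hl1⟩ := D.cl
  obtain ⟨r1, hr1, hR1⟩ := D.rt
  obtain ⟨l1, hl1', hL1⟩ := D.lt
  have hγ : (1:ℝ) ≤ 1 + |γ| := by linarith [abs_nonneg γ]
  have hre : ∀ s : ℂ, (s + γ * I).re = s.re := fun s => by simp
  have him : ∀ s : ℂ, (s + γ * I).im = s.im + γ := fun s => by simp
  refine ⟨D.zc.comp (by fun_prop), ⟨C1 * (1 + |γ|) ^ p1, p1, ?_, fun t => ?_⟩,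
    ⟨fun s a b => ?_, C2 * (1 + |γ|) ^ M2, M2, by positivity, fun s a b => ?_⟩,
    ⟨c1 * (1 + |γ|), by positivity, fun t => ?_⟩, ⟨r1, hr1, fun t => ?_⟩,
    ⟨l1 * (1 + |γ|) ^ (u * K), ?_, fun t => ?_⟩⟩
  · have := one_le_pow₀ hγ (n := p1)
    nlinarith
  · refine (hb1 _).trans ?_
    have h := one_add_abs_add t γ
    calc C1 * (1 + |t + γ|) ^ p1 ≤ C1 * ((1 + |γ|) * (1 + |t|)) ^ p1 := by gcongr
      _ = _ := by rw [mul_pow]; ring
  · have h1 := D.pg.diff (s + γ * I) (by rw [hre]; exact a) (by rw [hre]; exact b)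
    exact DifferentiableAt.comp (f := fun s : ℂ => s + γ * I) s h1 (by fun_prop)
  · refine (hb2 _ (by rw [hre]; exact a) (by rw [hre]; exact b)).trans ?_
    rw [him]
    have h := one_add_abs_add s.im γ
    calc C2 * (1 + |s.im + γ|) ^ M2 ≤ C2 * ((1 + |γ|) * (1 + |s.im|)) ^ M2 := by gcongr
      _ = _ := by rw [mul_pow]; ring
  · have e : (1 / 2 + (t : ℂ) * I + γ * I) = 1 / 2 + ((t + γ : ℝ) : ℂ) * I := by push_cast; ring
    rw [e]
    refine (hl1 _).trans ?_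
    have h := one_add_abs_le t γ
    have h1 : c1 / (1 + |t + γ|) ≤ c1 * (1 + |γ|) / (1 + |t|) := by
      rw [div_le_div_iff₀ (by positivity) (by positivity)]
      nlinarith
    exact mul_le_mul_of_nonneg_right h1 (norm_nonneg _)
  · have e : (((1 / 2 + u : ℝ) : ℂ) + (t : ℂ) * I + γ * I) = ((1 / 2 + u : ℝ) : ℂ) + ((t + γ : ℝ) : ℂ) * I := by
      push_cast; ring
    rw [e]
    exact hR1 _
  · have := one_le_pow₀ hγ (n := u * K)
    nlinarith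
  · have e : (((1 / 2 - u : ℝ) : ℂ) + (t : ℂ) * I + γ * I) = ((1 / 2 - u : ℝ) : ℂ) + ((t + γ : ℝ) : ℂ) * I := by
      push_cast; ring
    rw [e]
    refine (hL1 _).trans ?_
    have h := one_add_abs_add t γ
    calc l1 * (1 + |t + γ|) ^ (u * K) ≤ l1 * ((1 + |γ|) * (1 + |t|)) ^ (u * K) := by gcongr
      _ = _ := by rw [mul_pow]; ring

lemma line_ne (t : ℝ) : (1 / 2 + (t : ℂ) * I) ≠ 1 := by
  intro h
  have := congrArg Complex.re h
  simp at this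

/-- zeta on the critical line -/
def ze (t : ℝ) : ℂ := riemannZeta (1 / 2 + t * I)

lemma ze_cont : Continuous ze := by
  rw [continuous_iff_continuousAt]
  intro t
  have h := (differentiableAt_riemannZeta (line_ne t)).continuousAt
  exact ContinuousAt.comp (f := fun t : ℝ => (1 / 2 + (t : ℂ) * I)) h (by fun_prop)

lemma ze_bd : ∃ (C : ℝ) (p : ℕ), 1 ≤ C ∧ ∀ t : ℝ, ‖ze t‖ ^ 2 ≤ C * (1 + |t|) ^ p := by
  refine ⟨24 ^ 2, 4, one_le_pow₀ (by norm_num), fun t => ?_⟩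
  have h := H306R2.zeta_norm_le (s := 1 / 2 + t * I) (by simp) (by
    have h1 := Complex.abs_re_le_norm (1 / 2 + (t : ℂ) * I - 1)
    have h2 : (1 / 2 + (t : ℂ) * I - 1).re = -(1 / 2) := by simp; norm_num
    rw [h2] at h1
    rw [abs_neg, abs_of_pos (by norm_num : (0:ℝ) < 1 / 2)] at h1
    exact h1)
  have h2 : ‖(1 / 2 : ℂ) + t * I‖ ≤ 1 / 2 + |t| := by
    refine (norm_add_le _ _).trans ?_
    rw [norm_mul, norm_I, Complex.norm_real, Real.norm_eq_abs]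
    simp
  have habs := abs_nonneg t
  have h3 : ‖riemannZeta (1 / 2 + t * I)‖ ≤ 24 * (1 + |t|) ^ 2 := by
    refine h.trans ?_
    have : ‖(1 / 2 : ℂ) + t * I‖ + 1 ≤ 2 * (1 + |t|) := by linarith
    calc 6 * (‖(1 / 2 : ℂ) + t * I‖ + 1) ^ 2 ≤ 6 * (2 * (1 + |t|)) ^ 2 := by gcongr
      _ = _ := by ring
  unfold ze
  calc ‖riemannZeta (1 / 2 + t * I)‖ ^ 2 ≤ (24 * (1 + |t|) ^ 2) ^ 2 := by gcongr
    _ = 24 ^ 2 * (1 + |t|) ^ 4 := by ring

lemma ze_dat {u : ℕ} (hu : 1 ≤ u) : Dat ze (H 1 u) u 1 := by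
  obtain ⟨c, hc, hl⟩ := H_line_close 1 u
  refine ⟨ze_cont, ze_bd, H_PG 1 hu, ⟨c, hc, fun t => ?_⟩, H_right 1 hu, H_left 1 hu⟩
  have := hl t
  rw [pow_one, pow_one] at this
  exact this

/-- `∏ ζ(1/2+i(t+γ_j))` -/
def zp {ι : Type*} (s : Finset ι) (γ : ι → ℝ) (t : ℝ) : ℂ := ∏ j ∈ s, ze (t + γ j)

lemma zp_dat {ι : Type*} (s : Finset ι) (γ : ι → ℝ) {u : ℕ} (hu : 1 ≤ u) :
    ∃ G, Dat (zp s γ) G u s.card := by
  classical
  induction s using Finset.induction_on with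
  | empty =>
    have e : zp (∅ : Finset ι) γ = fun _ => 1 := by funext t; simp [zp]
    rw [e]
    exact ⟨_, by simpa using Dat.one u⟩
  | insert a s ha ih =>
    obtain ⟨G, D⟩ := ih
    have h := ((ze_dat hu).shift (γ a)).mul D
    refine ⟨fun w => H 1 u (w + γ a * I) * G w, ?_⟩
    rw [Finset.card_insert_of_notMem ha, add_comm]
    have e : zp (insert a s) γ = fun t => ze (t + γ a) * zp s γ t := by
      funext t
      unfold zp
      rw [Finset.prod_insert ha]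
    rw [e]
    exact h

end

end Pool.Agent.TH535.SM
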