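import Pool.Agent.TH535.SM.B1

set_option autoImplicit false

/-! One-sided strips, and the factor of the functional equation on the critical line. -/

namespace Pool.Agent.TH535.SM

open Complex MeasureTheory Filter Topology Set
open scoped FourierTransform ComplexConjugate

noncomputable section

/-- the modulus of the factor of the functional equation on the critical line -/
lemma XX_unit (y : ℝ) : ‖W182.KO.XX (((1 / 2 : ℝ) : ℂ) + y * I)‖ = 1 := by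
  set s : ℂ := ((1 / 2 : ℝ) : ℂ) + y * I with hs
  have hsre : s.re = 1 / 2 := by simp [hs]
  have hc : conj s = 1 - s := by
    rw [hs]
    apply Complex.ext
    · simp; norm_num
    · simp
  have h2pi : (2 * Real.pi : ℂ) ≠ 0 := mul_ne_zero two_ne_zero (by exact_mod_cast Real.pi_ne_zero)
  have hpi : (Real.pi : ℂ) ≠ 0 := by exact_mod_cast Real.pi_ne_zero
  have hsin : sin (Real.pi * s) ≠ 0 := by
    rw [Ne, Complex.sin_eq_zero_iff]
    rintro ⟨m, hm⟩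
    have h1 : s = m := by
      rw [mul_comm (Real.pi : ℂ) s] at hm
      exact mul_right_cancel₀ hpi hm
    have h2 : (1 / 2 : ℝ) = (m : ℝ) := by
      rw [← hsre, h1]; simp
    have h3 : (1:ℝ) = ((2 * m : ℤ) : ℝ) := by push_cast; linarith
    have h4 : (1:ℤ) = 2 * m := by exact_mod_cast h3
    omega
  have hmul : W182.KO.XX s * W182.KO.XX (1 - s) = 1 := by
    unfold W182.KO.XX
    have e1 : (2 * Real.pi : ℂ) ^ (-s) * (2 * Real.pi : ℂ) ^ (-(1 - s)) = (2 * Real.pi : ℂ)⁻¹ := by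
      rw [← Complex.cpow_add _ _ h2pi]
      have : -s + -(1 - s) = -1 := by ring
      rw [this, Complex.cpow_neg_one]
    have e2 := Complex.Gamma_mul_Gamma_one_sub s
    have e3 : cos (Real.pi * (1 - s) / 2) = sin (Real.pi * s / 2) := by
      rw [← Complex.cos_pi_div_two_sub]
      congr 1; ring
    have e4 : sin (Real.pi * s) = 2 * sin (Real.pi * s / 2) * cos (Real.pi * s / 2) := by
      rw [← Complex.sin_two_mul]
      congr 1; ring
    calc 2 * (2 * Real.pi : ℂ) ^ (-s) * Gamma s * cos (Real.pi * s / 2) *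
          (2 * (2 * Real.pi : ℂ) ^ (-(1 - s)) * Gamma (1 - s) * cos (Real.pi * (1 - s) / 2))
        = 4 * ((2 * Real.pi : ℂ) ^ (-s) * (2 * Real.pi : ℂ) ^ (-(1 - s))) *
          (Gamma s * Gamma (1 - s)) * (cos (Real.pi * s / 2) * cos (Real.pi * (1 - s) / 2)) := by ring
      _ = 4 * (2 * Real.pi : ℂ)⁻¹ * (Real.pi / sin (Real.pi * s)) *
          (cos (Real.pi * s / 2) * sin (Real.pi * s / 2)) := by rw [e1, e2, e3]
      _ = (2 * sin (Real.pi * s / 2) * cos (Real.pi * s / 2)) / sin (Real.pi * s) := by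
          field_simp
          ring
      _ = 1 := by rw [← e4, div_self hsin]
  rw [← hc, W182.KO.XX_conj, Complex.mul_conj, Complex.normSq_eq_norm_sq] at hmul
  have h1 : ‖W182.KO.XX s‖ ^ 2 = 1 := by exact_mod_cast hmul
  have h0 := norm_nonneg (W182.KO.XX s)
  nlinarith

/-- analytic with polynomial growth in the strip `1/2 + a ≤ Re s ≤ 1/2 + b` -/
structure PS (G : ℂ → ℂ) (a b : ℝ) : Prop where
  diff : ∀ s : ℂ, 1 / 2 + a ≤ s.re → s.re ≤ 1 / 2 + b → DifferentiableAt ℂ G s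
  bd : ∃ (C : ℝ) (M : ℕ), 0 ≤ C ∧ ∀ s : ℂ, 1 / 2 + a ≤ s.re → s.re ≤ 1 / 2 + b →
    ‖G s‖ ≤ C * (1 + |s.im|) ^ M

lemma PG.ps {G : ℂ → ℂ} {u : ℕ} (h : PG G u) {a b : ℝ} (ha : -(u:ℝ) ≤ a) (hb : b ≤ u) : PS G a b := by
  obtain ⟨C, M, hC, hbd⟩ := h.bd
  exact ⟨fun s h1 h2 => h.diff s (by linarith) (by linarith), C, M, hC,
    fun s h1 h2 => hbd s (by linarith) (by linarith)⟩

lemma PS.sub {G1 G2 : ℂ → ℂ} {a b : ℝ} (h1 : PS G1 a b) (h2 : PS G2 a b) :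
    PS (fun s => G1 s - G2 s) a b := by
  obtain ⟨C1, M1, hC1, hb1⟩ := h1.bd
  obtain ⟨C2, M2, hC2, hb2⟩ := h2.bd
  refine ⟨fun s u v => (h1.diff s u v).sub (h2.diff s u v), C1 + C2, M1 + M2, by positivity,
    fun s u v => ?_⟩
  have hs : (1:ℝ) ≤ 1 + |s.im| := by linarith [abs_nonneg s.im]
  refine (norm_sub_le _ _).trans ?_
  have e1 : (1 + |s.im|) ^ M1 ≤ (1 + |s.im|) ^ (M1 + M2) := pow_le_pow_right₀ hs (by omega)
  have e2 : (1 + |s.im|) ^ M2 ≤ (1 + |s.im|) ^ (M1 + M2) := pow_le_pow_right₀ hs (by omega)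
  calc ‖G1 s‖ + ‖G2 s‖ ≤ C1 * (1 + |s.im|) ^ M1 + C2 * (1 + |s.im|) ^ M2 :=
        add_le_add (hb1 s u v) (hb2 s u v)
    _ ≤ C1 * (1 + |s.im|) ^ (M1 + M2) + C2 * (1 + |s.im|) ^ (M1 + M2) := by gcongr
    _ = _ := by ring

lemma PS.mul {G1 G2 : ℂ → ℂ} {a b : ℝ} (h1 : PS G1 a b) (h2 : PS G2 a b) :
    PS (fun s => G1 s * G2 s) a b := by
  obtain ⟨C1, M1, hC1, hb1⟩ := h1.bd
  obtain ⟨C2, M2, hC2, hb2⟩ := h2.bd
  refine ⟨fun s u v => (h1.diff s u v).mul (h2.diff s u v), C1 * C2, M1 + M2, by positivity,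
    fun s u v => ?_⟩
  rw [norm_mul]
  calc ‖G1 s‖ * ‖G2 s‖ ≤ (C1 * (1 + |s.im|) ^ M1) * (C2 * (1 + |s.im|) ^ M2) :=
        mul_le_mul (hb1 s u v) (hb2 s u v) (norm_nonneg _) (by positivity)
    _ = _ := by rw [pow_add]; ring

lemma VS_bd {G : ℂ → ℂ} {a b : ℝ} (hG : PS G a b) {T : ℝ} (hT : 1 ≤ T) : ∃ B : ℝ, 0 ≤ B ∧ ∀ s : ℂ,
    1 / 2 + a ≤ s.re → s.re ≤ 1 / 2 + b → ‖V T s * G s‖ ≤ B * ((1 + |s.im|) ^ 2)⁻¹ := by
  obtain ⟨C, M, hC, hb⟩ := hG.bd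
  obtain ⟨D, hD, hv⟩ := v_poly (2 * (M + 2))
  have hT0 : 0 ≤ T := by linarith
  set B1 : ℝ := √(D * T ^ (2 * (M + 2)) * 3) with hB1
  set u : ℝ := |a| + |b| with hu
  refine ⟨Real.exp (u ^ 2) * C * B1, by positivity, fun s h1 h2 => ?_⟩
  have habs := abs_nonneg s.im
  have hgm : gm T s.im ≤ 3 := by
    unfold gm
    have a1 : (Icc (0:ℝ) T).indicator (fun _ => (1:ℝ)) s.im ≤ 1 :=
      indicator_le_self' (fun _ _ => by norm_num) s.im
    have a2 : Real.exp (-s.im ^ 2 / 4) ≤ 1 := Real.exp_le_one_iff.2 (by nlinarith [sq_nonneg s.im])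
    have a3 : Real.exp (-(s.im - T) ^ 2 / 4) ≤ 1 :=
      Real.exp_le_one_iff.2 (by nlinarith [sq_nonneg (s.im - T)])
    linarith
  have h3 : v T s.im * (1 + |s.im|) ^ (M + 2) ≤ B1 := by
    rw [hB1]
    refine Real.le_sqrt_of_sq_le ?_
    calc (v T s.im * (1 + |s.im|) ^ (M + 2)) ^ 2 = v T s.im ^ 2 * (1 + |s.im|) ^ (2 * (M + 2)) := by
          rw [mul_pow, ← pow_mul, mul_comm (M + 2) 2]
      _ ≤ D * T ^ (2 * (M + 2)) * gm T s.im := hv T hT s.im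
      _ ≤ _ := by gcongr
  have h4 := V_norm hT0 s
  have h5 : Real.exp ((s.re - 1 / 2) ^ 2) ≤ Real.exp (u ^ 2) := by
    refine Real.exp_le_exp.2 ?_
    have : |s.re - 1 / 2| ≤ u := by
      have := neg_abs_le a
      have := le_abs_self b
      have := abs_nonneg a
      have := abs_nonneg b
      exact abs_le.2 ⟨by linarith, by linarith⟩
    rw [← sq_abs (s.re - 1 / 2)]
    gcongr
  have hpos : 0 < (1 + |s.im|) ^ 2 := by positivity
  have hv0 := v_nonneg hT0 s.im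
  rw [norm_mul, ← div_eq_mul_inv, le_div_iff₀ hpos]
  calc ‖V T s‖ * ‖G s‖ * (1 + |s.im|) ^ 2 ≤
        (Real.exp (u ^ 2) * v T s.im) * (C * (1 + |s.im|) ^ M) * (1 + |s.im|) ^ 2 := by
        gcongr
        · exact h4.trans (by gcongr)
        · exact hb s h1 h2
    _ = Real.exp (u ^ 2) * C * (v T s.im * (1 + |s.im|) ^ (M + 2)) := by ring
    _ ≤ _ := by gcongr

lemma FS_dec {G : ℂ → ℂ} {a b : ℝ} (hG : PS G a b) {T : ℝ} (hT : 1 ≤ T) {r : ℝ} (h1 : a ≤ r)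
    (h2 : r ≤ b) : Dec (Fn G T r) := by
  have hre : ∀ t : ℝ, (((1 / 2 + r : ℝ) : ℂ) + t * I).re = 1 / 2 + r := fun t => by simp
  have him : ∀ t : ℝ, (((1 / 2 + r : ℝ) : ℂ) + t * I).im = t := fun t => by simp
  refine ⟨?_, ?_⟩
  · rw [continuous_iff_continuousAt]
    intro t
    have hd : ContinuousAt (fun s : ℂ => V T s * G s) (((1 / 2 + r : ℝ) : ℂ) + t * I) :=
      ((V_diff T _).mul (hG.diff _ (by rw [hre]; linarith) (by rw [hre]; linarith))).continuousAt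
    exact ContinuousAt.comp (f := fun t : ℝ => (((1 / 2 + r : ℝ) : ℂ) + t * I)) hd (by fun_prop)
  · obtain ⟨B, hB, hb⟩ := VS_bd hG hT
    refine ⟨B, hB, fun t => ?_⟩
    have := hb (((1 / 2 + r : ℝ) : ℂ) + t * I) (by rw [hre]; linarith) (by rw [hre]; linarith)
    rwa [him] at this

lemma FS_shift {G : ℂ → ℂ} {a b : ℝ} (hG : PS G a b) (hab : a ≤ b) {T : ℝ} (hT : 1 ≤ T) (w : ℝ) :
    cexp (-(2 * Real.pi * w * a : ℝ)) * 𝓕 (Fn G T a) w =
      cexp (-(2 * Real.pi * w * b : ℝ)) * 𝓕 (Fn G T b) w := by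
  obtain ⟨B, hB, hb⟩ := VS_bd hG hT
  set u : ℝ := |a| + |b| with hu
  set f : ℂ → ℂ := fun s => cexp (-(2 * Real.pi * w * (s - 1 / 2))) * (V T s * G s) with hf
  have hline : ∀ r : ℝ, ∫ y : ℝ, f (((1 / 2 + r : ℝ) : ℂ) + y * I) =
      cexp (-(2 * Real.pi * w * r : ℝ)) * 𝓕 (Fn G T r) w := by
    intro r
    rw [ft_eq, ← integral_const_mul]
    refine integral_congr_ae (Eventually.of_forall fun y => ?_)
    simp only [hf, Fn]
    have e : cexp (-(2 * Real.pi * w * ((((1 / 2 + r : ℝ) : ℂ) + y * I) - 1 / 2))) =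
        cexp (-(2 * Real.pi * w * r : ℝ)) * cexp (-(2 * Real.pi * w * y * I)) := by
      rw [← Complex.exp_add]
      congr 1
      push_cast
      ring
    rw [e]
    ring
  rw [← hline, ← hline]
  refine W182.KO.strip_shift (B := Real.exp (2 * Real.pi * |w| * u) * B) (by linarith)
    (by positivity) ?_ ?_
  · intro s h1 h2
    refine DifferentiableAt.mul (by fun_prop) ?_
    exact (V_diff T _).mul (hG.diff s h1 h2)
  · intro s h1 h2
    have h3 := hb s h1 h2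
    rw [hf]
    simp only
    have h7 : ‖cexp (-(2 * (Real.pi:ℂ) * w * (s - 1 / 2)))‖ ≤ Real.exp (2 * Real.pi * |w| * u) := by
      rw [Complex.norm_exp]
      refine Real.exp_le_exp.2 ?_
      have e1 : (-(2 * (Real.pi:ℂ) * w * (s - 1 / 2))).re = -(2 * Real.pi * w * (s.re - 1 / 2)) := by
        have : (-(2 * (Real.pi:ℂ) * w * (s - 1 / 2))) = ((-(2 * Real.pi * w) : ℝ) : ℂ) * (s - 1 / 2) := by
          push_cast; ring
        rw [this, Complex.re_ofReal_mul]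
        simp
      rw [e1]
      have h4 : |s.re - 1 / 2| ≤ u := by
        have := neg_abs_le a
        have := le_abs_self b
        have := abs_nonneg a
        have := abs_nonneg b
        exact abs_le.2 ⟨by linarith, by linarith⟩
      have h5 : |w * (s.re - 1 / 2)| ≤ |w| * u := by
        rw [abs_mul]; gcongr
      have h6 := neg_abs_le (w * (s.re - 1 / 2))
      have hp := Real.pi_pos
      nlinarith [mul_le_mul_of_nonneg_left h5 hp.le, mul_le_mul_of_nonneg_left h6 hp.le]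
    calc ‖cexp (-(2 * (Real.pi:ℂ) * w * (s - 1 / 2))) * (V T s * G s)‖ =
          ‖cexp (-(2 * (Real.pi:ℂ) * w * (s - 1 / 2)))‖ * ‖V T s * G s‖ := norm_mul _ _
      _ ≤ Real.exp (2 * Real.pi * |w| * u) * (B * ((1 + |s.im|) ^ 2)⁻¹) :=
          mul_le_mul h7 h3 (norm_nonneg _) (Real.exp_pos _).le
      _ = _ := by rw [div_eq_mul_inv]; ring

/-- square integral on a line where `G` has a polynomial bound -/
lemma FS_sq (p : ℕ) : ∃ D : ℝ, 1 ≤ D ∧ ∀ (G : ℂ → ℂ) (a b : ℝ), PS G a b → ∀ T : ℝ, 1 ≤ T → ∀ r : ℝ,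
    a ≤ r → r ≤ b → ∀ C : ℝ, 0 ≤ C →
    (∀ t : ℝ, ‖G (((1 / 2 + r : ℝ) : ℂ) + t * I)‖ ≤ C * (1 + |t|) ^ p) →
    ∫ t, ‖Fn G T r t‖ ^ 2 ≤ D * Real.exp (2 * r ^ 2) * C ^ 2 * T ^ (2 * p + 1) := by
  obtain ⟨D, hD, hv⟩ := v_poly (2 * p)
  refine ⟨9 * D, by linarith, fun G a b hG T hT r h1 h2 C hC hb => ?_⟩
  have hT0 : 0 ≤ T := by linarith
  have hle : ∀ t, ‖Fn G T r t‖ ^ 2 ≤ Real.exp (2 * r ^ 2) * C ^ 2 * D * T ^ (2 * p) * gm T t := by
    intro t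
    have habs := abs_nonneg t
    have hv0 := v_nonneg hT0 t
    calc ‖Fn G T r t‖ ^ 2 ≤ (Real.exp (r ^ 2) * v T t * (C * (1 + |t|) ^ p)) ^ 2 := by
          gcongr
          exact (Fn_norm hT r t).trans (by gcongr; exact hb t)
      _ = Real.exp (2 * r ^ 2) * C ^ 2 * (v T t ^ 2 * (1 + |t|) ^ (2 * p)) := by
          have e1 : Real.exp (2 * r ^ 2) = Real.exp (r ^ 2) ^ 2 := by
            rw [← Real.exp_nat_mul]; congr 1
          rw [e1, mul_comm 2 p, pow_mul]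
          ring
      _ ≤ Real.exp (2 * r ^ 2) * C ^ 2 * (D * T ^ (2 * p) * gm T t) :=
          mul_le_mul_of_nonneg_left (hv T hT t) (by positivity)
      _ = _ := by ring
  calc ∫ t, ‖Fn G T r t‖ ^ 2 ≤ ∫ t, Real.exp (2 * r ^ 2) * C ^ 2 * D * T ^ (2 * p) * gm T t :=
        integral_mono (FS_dec hG hT h1 h2).sq ((gm_int T).const_mul _) hle
    _ = Real.exp (2 * r ^ 2) * C ^ 2 * D * T ^ (2 * p) * ∫ t, gm T t := integral_const_mul _ _
    _ ≤ Real.exp (2 * r ^ 2) * C ^ 2 * D * T ^ (2 * p) * (9 * T) := by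
        gcongr
        exact gm_val hT
    _ = _ := by ring

/-- mass on the right: `w ≥ y` -/
lemma massS_right {G : ℂ → ℂ} {u : ℕ} (hG : PS G 0 u) {T : ℝ} (hT : 1 ≤ T) (y : ℝ) :
    ms (Fn G T 0) (Ici y) ≤ Real.exp (-(4 * Real.pi * y * u)) * ∫ t, ‖Fn G T u t‖ ^ 2 := by
  have hu : (0:ℝ) ≤ u := Nat.cast_nonneg u
  refine ms_le_of_shift (u := u) (FS_dec hG hT le_rfl hu) (FS_dec hG hT hu le_rfl)
    (fun w => ?_) measurableSet_Ici (fun w hw => ?_)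
  · have h := FS_shift hG hu hT w
    rw [mul_zero] at h
    simpa using h
  · have : y ≤ w := hw
    have hp := Real.pi_pos
    have := mul_le_mul_of_nonneg_right (mul_le_mul_of_nonneg_left this (by positivity : 0 ≤ 4 * Real.pi)) hu
    linarith

/-- mass on the left: `w ≤ y` -/
lemma massS_left {G : ℂ → ℂ} {u : ℕ} (hG : PS G (-u) 0) {T : ℝ} (hT : 1 ≤ T) (y : ℝ) :
    ms (Fn G T 0) (Iic y) ≤ Real.exp (4 * Real.pi * y * u) * ∫ t, ‖Fn G T (-u) t‖ ^ 2 := by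
  have hu : (0:ℝ) ≤ u := Nat.cast_nonneg u
  refine ms_le_of_shift (u := -u) (FS_dec hG hT (by linarith) le_rfl) (FS_dec hG hT le_rfl (by linarith))
    (fun w => ?_) measurableSet_Iic (fun w hw => ?_)
  · have h := FS_shift hG (by linarith) hT w
    rw [mul_zero] at h
    simpa using h.symm
  · have : w ≤ y := hw
    have hp := Real.pi_pos
    have := mul_le_mul_of_nonneg_right (mul_le_mul_of_nonneg_left this (by positivity : 0 ≤ 4 * Real.pi)) hu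
    linarith

/-- splitting the mass -/
lemma ms_split {F1 F2 F : ℝ → ℂ} (h1 : Dec F1) (h2 : Dec F2) (hF : ∀ t, F t = F1 t + F2 t)
    {A : Set ℝ} {η : ℝ} (hη : 0 < η) :
    ms F A ≤ (1 + η) * (∫ t, ‖F1 t‖ ^ 2) + (1 + η⁻¹) * ms F2 A := by
  have e : F = fun t => F1 t + F2 t := funext hF
  have p1 := planch h1
  have p2 := planch h2
  have hle : ∀ w, ‖𝓕 F w‖ ^ 2 ≤ (1 + η) * ‖𝓕 F1 w‖ ^ 2 + (1 + η⁻¹) * ‖𝓕 F2 w‖ ^ 2 := by
    intro w
    rw [e, ft_add h1 h2]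
    have h3 := norm_add_le (𝓕 F1 w) (𝓕 F2 w)
    have h0 : 0 ≤ (η * ‖𝓕 F1 w‖ - ‖𝓕 F2 w‖) ^ 2 * η⁻¹ := by positivity
    have h4 : (η * ‖𝓕 F1 w‖ - ‖𝓕 F2 w‖) ^ 2 * η⁻¹ = η * ‖𝓕 F1 w‖ ^ 2 -
        2 * ‖𝓕 F1 w‖ * ‖𝓕 F2 w‖ + η⁻¹ * ‖𝓕 F2 w‖ ^ 2 := by
      field_simp
      ring
    calc ‖𝓕 F1 w + 𝓕 F2 w‖ ^ 2 ≤ (‖𝓕 F1 w‖ + ‖𝓕 F2 w‖) ^ 2 := by gcongr
      _ ≤ _ := by nlinarith
  have hI1 : IntegrableOn (fun w => ‖𝓕 F1 w‖ ^ 2) A := p1.1.integrableOn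
  have hI2 : IntegrableOn (fun w => ‖𝓕 F2 w‖ ^ 2) A := p2.1.integrableOn
  unfold ms
  calc ∫ w in A, ‖𝓕 F w‖ ^ 2 ≤ ∫ w in A, ((1 + η) * ‖𝓕 F1 w‖ ^ 2 + (1 + η⁻¹) * ‖𝓕 F2 w‖ ^ 2) := by
        refine integral_mono_of_nonneg (Eventually.of_forall fun w => by positivity) ?_
          (Eventually.of_forall hle)
        exact (hI1.const_mul _).add (hI2.const_mul _)
    _ = (1 + η) * (∫ w in A, ‖𝓕 F1 w‖ ^ 2) + (1 + η⁻¹) * ∫ w in A, ‖𝓕 F2 w‖ ^ 2 := by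
        rw [integral_add (hI1.const_mul _) (hI2.const_mul _), integral_const_mul, integral_const_mul]
    _ ≤ (1 + η) * (∫ t, ‖F1 t‖ ^ 2) + (1 + η⁻¹) * ∫ w in A, ‖𝓕 F2 w‖ ^ 2 := by
        have : ∫ w in A, ‖𝓕 F1 w‖ ^ 2 ≤ ∫ t, ‖F1 t‖ ^ 2 := by
          rw [← p1.2]
          exact setIntegral_le_integral p1.1 (Eventually.of_forall fun w => by positivity)
        gcongr

end

end Pool.Agent.TH535.SM
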