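import Pool.Agent.TH535.SM.B2

set_option autoImplicit false

/-! The masses at the two edges of the spectrum. -/

namespace Pool.Agent.TH535.SM

open Complex MeasureTheory Filter Topology Set
open scoped FourierTransform ComplexConjugate

noncomputable section

/-- the rational factor -/
def qq (k u : ℕ) (s : ℂ) : ℂ := ((s - 1) / (s + (2 * u + 1 : ℕ))) ^ k

lemma qq_norm {k u : ℕ} {s : ℂ} (h : 1 / 2 - (u : ℝ) ≤ s.re) : ‖qq k u s‖ ≤ 1 := by
  unfold qq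
  rw [norm_pow, norm_div]
  refine pow_le_one₀ (by positivity) ?_
  rw [div_le_one (by linarith [den_norm h])]
  exact ratio_le h

lemma qq_diff {k u : ℕ} {s : ℂ} (h : 1 / 2 - (u : ℝ) ≤ s.re) : DifferentiableAt ℂ (qq k u) s := by
  unfold qq
  have h0 : s + (2 * u + 1 : ℕ) ≠ 0 := norm_pos_iff.1 (by linarith [den_norm h])
  have h1 : DifferentiableAt ℂ (fun s : ℂ => (s - 1) / (s + (2 * u + 1 : ℕ))) s :=
    (differentiableAt_id.sub_const 1).div (differentiableAt_id.add_const _) h0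
  exact h1.pow k

lemma H_qq {k u : ℕ} {s : ℂ} (hs : s ≠ 1) : H k u s = qq k u s * riemannZeta s ^ k := by
  unfold H qq
  rw [Y_eq hs, ← mul_pow]
  congr 1
  ring

lemma qq_ps (k u : ℕ) {a b : ℝ} (ha : -(u:ℝ) ≤ a) : PS (qq k u) a b := by
  refine ⟨fun s h1 _ => qq_diff (by linarith), 1, 0, zero_le_one, fun s h1 _ => ?_⟩
  rw [pow_zero, mul_one]
  exact qq_norm (by linarith)

lemma DN_diff (k N : ℕ) : Differentiable ℂ (DN k N) := by
  unfold DN W184.DS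
  intro s
  refine DifferentiableAt.fun_sum fun n hn => ?_
  rw [Finset.mem_Icc] at hn
  have hn0 : (n : ℂ) ≠ 0 := by
    have : n ≠ 0 := by omega
    exact_mod_cast this
  exact (DifferentiableAt.const_cpow (by fun_prop) (Or.inl hn0)).const_mul _

lemma DN_bd (k N : ℕ) {s : ℂ} (hs : 0 ≤ s.re) : ‖DN k N s‖ ≤ ∑ n ∈ Finset.Icc 1 N, dr k n := by
  unfold DN W184.DS
  refine (norm_sum_le _ _).trans (Finset.sum_le_sum fun n hn => ?_)
  rw [Finset.mem_Icc] at hn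
  have hn0 : (0:ℝ) < n := by exact_mod_cast hn.1
  have hn1 : (1:ℝ) ≤ n := by exact_mod_cast hn.1
  rw [norm_mul, Complex.norm_real, Real.norm_of_nonneg (dr_nonneg k n)]
  have e : (n : ℂ) = ((n : ℝ) : ℂ) := by push_cast; rfl
  rw [e, Complex.norm_cpow_eq_rpow_re_of_pos hn0]
  have : (n:ℝ) ^ (-s).re ≤ 1 := Real.rpow_le_one_of_one_le_of_nonpos hn1 (by simpa using hs)
  nlinarith [dr_nonneg k n]

lemma DN_ps (k N : ℕ) {a b : ℝ} (ha : -(1 / 2) ≤ a) : PS (DN k N) a b := by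
  refine ⟨fun s _ _ => DN_diff k N s, ∑ n ∈ Finset.Icc 1 N, dr k n, 0,
    Finset.sum_nonneg fun n _ => dr_nonneg k n, fun s h1 _ => ?_⟩
  rw [pow_zero, mul_one]
  exact DN_bd k N (by linarith)

lemma DN_ps' (k N : ℕ) {a b : ℝ} (hb : b ≤ 1 / 2) : PS (fun s => DN k N (1 - s)) a b := by
  refine ⟨fun s _ _ => ?_, ∑ n ∈ Finset.Icc 1 N, dr k n, 0,
    Finset.sum_nonneg fun n _ => dr_nonneg k n, fun s _ h2 => ?_⟩
  · exact DifferentiableAt.comp (f := fun s : ℂ => 1 - s) s (DN_diff k N _) (by fun_prop)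
  · rw [pow_zero, mul_one]
    exact DN_bd k N (by rw [sub_re, one_re]; linarith)

/-- the factor of the functional equation, to the power `k` -/
def xk (k : ℕ) (s : ℂ) : ℂ := W182.KO.XX (1 - s) ^ k

lemma xk_bd (k u : ℕ) (hu : 1 ≤ u) : ∃ K : ℝ, 1 ≤ K ∧ ∀ s : ℂ, 1 / 2 - (u:ℝ) ≤ s.re → s.re ≤ 1 / 2 →
    ‖xk k s‖ ≤ K * (1 + |s.im|) ^ (u * k) := by
  have hu1 : (1:ℝ) ≤ u := by exact_mod_cast hu
  obtain ⟨K, hK, hX⟩ := W182.KO.XX_bound (c := 1 / 2 + u) (by linarith)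
  refine ⟨K ^ k, one_le_pow₀ hK, fun s h1 h2 => ?_⟩
  unfold xk
  have h3 := hX (1 - s.re) (-s.im) (by linarith) (by linarith)
  have e : (((1 - s.re : ℝ) : ℂ) + ((-s.im : ℝ) : ℂ) * I) = 1 - s := by
    apply Complex.ext <;> simp
  have e2 : (1 / 2 + (u:ℝ) - 1 / 2) = (u : ℕ) := by ring
  rw [e, e2, Real.rpow_natCast, abs_neg] at h3
  rw [norm_pow]
  calc ‖W182.KO.XX (1 - s)‖ ^ k ≤ (K * (1 + |s.im|) ^ u) ^ k := by gcongr
    _ = _ := by rw [mul_pow, ← pow_mul]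

lemma xk_ps (k u : ℕ) (hu : 1 ≤ u) : PS (xk k) (-u) 0 := by
  obtain ⟨K, hK, hb⟩ := xk_bd k u hu
  refine ⟨fun s _ h2 => ?_, K, u * k, by linarith, fun s h1 h2 => hb s (by linarith) (by linarith)⟩
  unfold xk
  refine DifferentiableAt.pow ?_ k
  exact DifferentiableAt.comp (f := fun s : ℂ => 1 - s) s
    (W182.KO.XX_diff (by rw [sub_re, one_re]; linarith)) (by fun_prop)

/-- the two polynomial parts -/
def gR (k u N : ℕ) (s : ℂ) : ℂ := qq k u s * DN k N s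
def gL (k u N : ℕ) (s : ℂ) : ℂ := qq k u s * (xk k s * DN k N (1 - s))

lemma gR_ps (k u N : ℕ) : PS (gR k u N) 0 u :=
  (qq_ps k u (by have : (0:ℝ) ≤ u := Nat.cast_nonneg u; linarith)).mul (DN_ps k N (by norm_num))

lemma gL_ps (k u N : ℕ) (hu : 1 ≤ u) : PS (gL k u N) (-u) 0 :=
  (qq_ps k u le_rfl).mul ((xk_ps k u hu).mul (DN_ps' k N (by norm_num)))

/-- the remainder has little mass near the right edge `w ≥ -(1-δ) L / 2π` -/
lemma rem_right (k : ℕ) {δ : ℝ} (hδ : 0 < δ) {u : ℕ} (hu : 1 ≤ u) (hu3 : 3 ≤ δ * u) :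
    ∃ C : ℝ, 0 ≤ C ∧ ∀ T : ℝ, 1 ≤ T → ∀ N : ℕ, T ^ (1 - δ / 2) ≤ N + 1 → δ ≤ 1 →
      ms (Fn (fun s => H k u s - gR k u N s) T 0) (Ici (-((1 - δ) * Real.log T / (2 * Real.pi)))) ≤ C := by
  obtain ⟨Z, hZ, hz⟩ := tail_bd k
  obtain ⟨D0, hD0, hs⟩ := FS_sq 0
  refine ⟨D0 * Real.exp (2 * (u:ℝ) ^ 2) * Z ^ 2, by positivity, fun T hT N hN hδ1 => ?_⟩
  have hu0 : (0:ℝ) ≤ u := Nat.cast_nonneg u
  have hu1 : (1:ℝ) ≤ u := by exact_mod_cast hu
  have hT0 : 0 < T := by linarith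
  have hL : 0 ≤ Real.log T := Real.log_nonneg hT
  have hps : PS (fun s => H k u s - gR k u N s) 0 u :=
    ((H_PG k hu).ps (by linarith) le_rfl).sub (gR_ps k u N)
  set Y' : ℝ := T ^ (1 - δ / 2) with hY
  have hY1 : 1 ≤ Y' := Real.one_le_rpow hT (by linarith)
  have h1 := massS_right hps hT (-((1 - δ) * Real.log T / (2 * Real.pi)))
  have h2 := hs _ 0 u hps T hT u (by linarith) le_rfl (Z * (Y' ^ (u - 1))⁻¹) (by positivity) (by
    intro t
    rw [pow_zero, mul_one]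
    have hre : (((1 / 2 + u : ℝ) : ℂ) + t * I).re = 1 / 2 + u := by simp
    have hne : (((1 / 2 + u : ℝ) : ℂ) + t * I) ≠ 1 := by
      intro h
      have := congrArg Complex.re h
      rw [hre, one_re] at this
      linarith
    rw [H_qq hne]
    unfold gR
    rw [← mul_sub, norm_mul]
    have h3 := hz N (u - 1) Y' hY1 hN (((1 / 2 + u : ℝ) : ℂ) + t * I) (by
      rw [hre, Nat.cast_sub hu]; push_cast; linarith)
    have h4 : ‖qq k u (((1 / 2 + u : ℝ) : ℂ) + t * I)‖ ≤ 1 := qq_norm (by rw [hre]; linarith)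
    calc _ ≤ 1 * (Z * (Y' ^ (u - 1))⁻¹) := mul_le_mul h4 h3 (norm_nonneg _) zero_le_one
      _ = _ := one_mul _)
  have e1 : -(4 * Real.pi * -((1 - δ) * Real.log T / (2 * Real.pi)) * u) = 2 * (1 - δ) * u * Real.log T := by
    have := Real.pi_pos
    field_simp
    ring
  rw [e1] at h1
  have e4 : Y' ^ (u - 1) = Real.exp ((1 - δ / 2) * (u - 1) * Real.log T) := by
    rw [hY, ← Real.rpow_natCast, ← Real.rpow_mul hT0.le, Real.rpow_def_of_pos hT0]
    congr 1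
    rw [Nat.cast_sub hu]
    push_cast
    ring
  have h3 : Real.exp (2 * (1 - δ) * u * Real.log T) * ((Y' ^ (u - 1))⁻¹ ^ 2 * T) ≤ 1 := by
    rw [e4, ← Real.exp_neg, ← Real.exp_nat_mul]
    nth_rewrite 3 [← Real.exp_log hT0]
    rw [← Real.exp_add, ← Real.exp_add, Real.exp_le_one_iff]
    push_cast
    have : 2 * (1 - δ) * u * Real.log T + (2 * -((1 - δ / 2) * (u - 1) * Real.log T) + Real.log T) =
      -((δ + δ * u - 3) * Real.log T) := by ring
    rw [this]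
    have : 0 ≤ (δ + δ * u - 3) * Real.log T := mul_nonneg (by linarith) hL
    linarith
  have hE := Real.exp_pos (2 * (1 - δ) * u * Real.log T)
  calc _ ≤ Real.exp (2 * (1 - δ) * u * Real.log T) *
        ∫ t, ‖Fn (fun s => H k u s - gR k u N s) T u t‖ ^ 2 := h1
    _ ≤ Real.exp (2 * (1 - δ) * u * Real.log T) *
        (D0 * Real.exp (2 * (u:ℝ) ^ 2) * (Z * (Y' ^ (u - 1))⁻¹) ^ 2 * T ^ (2 * 0 + 1)) := by
        gcongr
    _ = (D0 * Real.exp (2 * (u:ℝ) ^ 2) * Z ^ 2) *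
        (Real.exp (2 * (1 - δ) * u * Real.log T) * ((Y' ^ (u - 1))⁻¹ ^ 2 * T)) := by
        ring
    _ ≤ (D0 * Real.exp (2 * (u:ℝ) ^ 2) * Z ^ 2) * 1 := by gcongr
    _ = _ := mul_one _

/-- the remainder has little mass near the left edge `w ≤ -(k-1+δ) L / 2π` -/
lemma rem_left (k : ℕ) {δ : ℝ} (hδ : 0 < δ) {u : ℕ} (hu : 1 ≤ u) (hu3 : 3 ≤ δ * u) :
    ∃ C : ℝ, 0 ≤ C ∧ ∀ T : ℝ, 1 ≤ T → ∀ N : ℕ, T ^ (1 - δ / 2) ≤ N + 1 → δ ≤ 1 →
      ms (Fn (fun s => H k u s - gL k u N s) T 0)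
        (Iic (-((k - 1 + δ) * Real.log T / (2 * Real.pi)))) ≤ C := by
  obtain ⟨Z, hZ, hz⟩ := tail_bd k
  obtain ⟨K, hK, hx⟩ := xk_bd k u hu
  obtain ⟨D0, hD0, hs⟩ := FS_sq (u * k)
  refine ⟨D0 * Real.exp (2 * (-(u:ℝ)) ^ 2) * (K * Z) ^ 2, by positivity, fun T hT N hN hδ1 => ?_⟩
  have hu0 : (0:ℝ) ≤ u := Nat.cast_nonneg u
  have hu1 : (1:ℝ) ≤ u := by exact_mod_cast hu
  have hT0 : 0 < T := by linarith
  have hL : 0 ≤ Real.log T := Real.log_nonneg hT
  have hps : PS (fun s => H k u s - gL k u N s) (-u) 0 :=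
    ((H_PG k hu).ps le_rfl hu0).sub (gL_ps k u N hu)
  set Y' : ℝ := T ^ (1 - δ / 2) with hY
  have hY1 : 1 ≤ Y' := Real.one_le_rpow hT (by linarith)
  have h1 := massS_left hps hT (-((k - 1 + δ) * Real.log T / (2 * Real.pi)))
  have h2 := hs _ (-u) 0 hps T hT (-u) le_rfl (by linarith) (K * Z * (Y' ^ (u - 1))⁻¹) (by positivity) (by
    intro t
    set s : ℂ := ((1 / 2 + -(u:ℝ) : ℝ) : ℂ) + t * I with hs'
    have hre : s.re = 1 / 2 + -(u:ℝ) := by simp [hs']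
    have him : s.im = t := by simp [hs']
    have hne : s ≠ 1 := by
      intro h
      have := congrArg Complex.re h
      rw [hre, one_re] at this
      linarith
    have hre1 : (1 - s).re = 1 / 2 + u := by rw [sub_re, one_re, hre]; ring
    have hne1 : 1 - s ≠ 1 := by
      intro h
      have := congrArg Complex.re h
      rw [hre1, one_re] at this
      linarith
    have e0 : riemannZeta s ^ k = xk k s * riemannZeta (1 - s) ^ k := by
      unfold xk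
      rw [← mul_pow, ← W182.KO.zeta_XX (by rw [hre1]; linarith) hne1, sub_sub_cancel]
    rw [H_qq hne, e0]
    unfold gL
    rw [← mul_sub, ← mul_sub, norm_mul, norm_mul]
    have h3 := hz N (u - 1) Y' hY1 hN (1 - s) (by
      rw [hre1, Nat.cast_sub hu]; push_cast; linarith)
    have h4 : ‖qq k u s‖ ≤ 1 := qq_norm (by rw [hre]; linarith)
    have h5 := hx s (by rw [hre]; linarith) (by rw [hre]; linarith)
    rw [him] at h5
    calc _ ≤ 1 * ((K * (1 + |t|) ^ (u * k)) * (Z * (Y' ^ (u - 1))⁻¹)) := by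
          refine mul_le_mul h4 ?_ (by positivity) zero_le_one
          exact mul_le_mul h5 h3 (norm_nonneg _) (by positivity)
      _ = _ := by ring)
  have e1 : 4 * Real.pi * -((k - 1 + δ) * Real.log T / (2 * Real.pi)) * u =
      -(2 * (k - 1 + δ) * u * Real.log T) := by
    have := Real.pi_pos
    field_simp
    ring
  rw [e1] at h1
  have e4 : Y' ^ (u - 1) = Real.exp ((1 - δ / 2) * (u - 1) * Real.log T) := by
    rw [hY, ← Real.rpow_natCast, ← Real.rpow_mul hT0.le, Real.rpow_def_of_pos hT0]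
    congr 1
    rw [Nat.cast_sub hu]
    push_cast
    ring
  have h3 : Real.exp (-(2 * (k - 1 + δ) * u * Real.log T)) *
      ((Y' ^ (u - 1))⁻¹ ^ 2 * T ^ (2 * (u * k) + 1)) ≤ 1 := by
    have e2 : T ^ (2 * (u * k) + 1) = Real.exp ((2 * (u * k) + 1 : ℕ) * Real.log T) := by
      rw [Real.exp_nat_mul, Real.exp_log hT0]
    rw [e4, e2, ← Real.exp_neg, ← Real.exp_nat_mul, ← Real.exp_add, ← Real.exp_add, Real.exp_le_one_iff]
    push_cast
    have : -(2 * (k - 1 + δ) * u * Real.log T) + (2 * -((1 - δ / 2) * (u - 1) * Real.log T) +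
        (2 * (u * k) + 1) * Real.log T) = -((δ + δ * u - 3) * Real.log T) := by ring
    rw [this]
    have : 0 ≤ (δ + δ * u - 3) * Real.log T := mul_nonneg (by linarith) hL
    linarith
  have hE := Real.exp_pos (-(2 * (k - 1 + δ) * u * Real.log T))
  calc _ ≤ Real.exp (-(2 * (k - 1 + δ) * u * Real.log T)) *
        ∫ t, ‖Fn (fun s => H k u s - gL k u N s) T (-u) t‖ ^ 2 := h1
    _ ≤ Real.exp (-(2 * (k - 1 + δ) * u * Real.log T)) *
        (D0 * Real.exp (2 * (-(u:ℝ)) ^ 2) * (K * Z * (Y' ^ (u - 1))⁻¹) ^ 2 * T ^ (2 * (u * k) + 1)) := by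
        gcongr
    _ = (D0 * Real.exp (2 * (-(u:ℝ)) ^ 2) * (K * Z) ^ 2) *
        (Real.exp (-(2 * (k - 1 + δ) * u * Real.log T)) *
          ((Y' ^ (u - 1))⁻¹ ^ 2 * T ^ (2 * (u * k) + 1))) := by
        ring
    _ ≤ (D0 * Real.exp (2 * (-(u:ℝ)) ^ 2) * (K * Z) ^ 2) * 1 := by gcongr
    _ = _ := mul_one _

end

end Pool.Agent.TH535.SM
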