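import Pool.Agent.TH535.SM.B3

set_option autoImplicit false

/-! The size of the edge masses. -/

namespace Pool.Agent.TH535.SM

open Complex MeasureTheory Filter Topology Set
open scoped FourierTransform ComplexConjugate

noncomputable section

/-- the constant `a_k / (k²)!` -/
def Ak (k : ℕ) : ℝ := H306R2.aF k / (k ^ 2).factorial

lemma Ak_nonneg {k : ℕ} (hk : 1 ≤ k) : 0 ≤ Ak k := by
  unfold Ak
  have : (0:ℝ) < k := by exact_mod_cast hk
  have := H306R2.aF_pos this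
  positivity

/-- the cut-off weight -/
def cw (η u : ℝ) : ℝ := max 0 (min 1 ((1 + η - u) / η))

lemma cw_cont (η : ℝ) : Continuous (cw η) := by unfold cw; fun_prop

lemma cw_nonneg (η u : ℝ) : 0 ≤ cw η u := le_max_left _ _

lemma cw_le (η u : ℝ) : cw η u ≤ 1 := max_le zero_le_one (min_le_left _ _)

lemma cw_one {η u : ℝ} (hη : 0 < η) (h : u ≤ 1) : cw η u = 1 := by
  unfold cw
  rw [min_eq_left, max_eq_right zero_le_one]
  rw [le_div_iff₀ hη]
  linarith

lemma cw_zero {η u : ℝ} (hη : 0 < η) (h : 1 + η ≤ u) : cw η u = 0 := by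
  unfold cw
  refine max_eq_left ((min_le_right _ _).trans ?_)
  exact div_nonpos_of_nonpos_of_nonneg (by linarith) hη.le

lemma cw_int {k : ℕ} (hk : 1 ≤ k) {η : ℝ} (hη : 0 < η) :
    ∫ u : ℝ, H306R2.gd ((k:ℝ) * k) u * cw η u ≤ (1 + η) ^ (k ^ 2) / (k ^ 2).factorial := by
  rw [W182.KO.gd_int hk]
  have h1 : 1 ≤ k ^ 2 := Nat.one_le_pow _ _ hk
  have e1 : ∫ u in Ioi (0:ℝ), u ^ (k ^ 2 - 1) / (k ^ 2 - 1).factorial * cw η u =
      ∫ u in Ioc (0:ℝ) (1 + η), u ^ (k ^ 2 - 1) / (k ^ 2 - 1).factorial * cw η u := by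
    refine (setIntegral_eq_of_subset_of_forall_sdiff_eq_zero measurableSet_Ioi
      Ioc_subset_Ioi_self fun u hu => ?_)
    simp only [Set.mem_sdiff, mem_Ioi, mem_Ioc, not_and, not_le] at hu
    rw [cw_zero hη (hu.2 hu.1).le, mul_zero]
  rw [e1, ← intervalIntegral.integral_of_le (by linarith)]
  calc ∫ u in (0:ℝ)..(1 + η), u ^ (k ^ 2 - 1) / (k ^ 2 - 1).factorial * cw η u ≤
        ∫ u in (0:ℝ)..(1 + η), u ^ (k ^ 2 - 1) / (k ^ 2 - 1).factorial := by
        refine intervalIntegral.integral_mono_on (by linarith) ?_ ?_ fun u hu => ?_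
        · have hc : Continuous (fun u : ℝ => u ^ (k ^ 2 - 1) / (k ^ 2 - 1).factorial * cw η u) :=
            Continuous.mul (by fun_prop) (cw_cont η)
          exact hc.intervalIntegrable _ _
        · exact Continuous.intervalIntegrable (by fun_prop) _ _
        · have h0 : 0 ≤ u ^ (k ^ 2 - 1) / (k ^ 2 - 1).factorial := by
            have := hu.1; positivity
          calc _ ≤ u ^ (k ^ 2 - 1) / (k ^ 2 - 1).factorial * 1 :=
                mul_le_mul_of_nonneg_left (cw_le η u) h0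
            _ = _ := mul_one _
    _ = (1 + η) ^ (k ^ 2) / (k ^ 2).factorial := by
        rw [intervalIntegral.integral_div, integral_pow]
        have h2 : k ^ 2 - 1 + 1 = k ^ 2 := Nat.sub_add_cancel h1
        have h3 : (((k ^ 2 - 1 : ℕ) : ℝ) + 1) = ((k ^ 2 : ℕ) : ℝ) := by
          rw [Nat.cast_sub h1]; push_cast; ring
        rw [h2, h3, zero_pow (by omega), sub_zero]
        have h4 : (k ^ 2).factorial = k ^ 2 * (k ^ 2 - 1).factorial :=
          (Nat.mul_factorial_pred (by omega)).symm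
        rw [h4]
        push_cast
        rw [div_div]

lemma SN_le {k : ℕ} (hk : 1 ≤ k) {ε : ℝ} (hε : 0 < ε) : ∃ T0 : ℝ, 1 < T0 ∧ ∀ T : ℝ, T0 ≤ T →
    ∀ N : ℕ, (N : ℝ) ≤ T → SN k N ≤ (Ak k + ε) * Real.log T ^ (k ^ 2) := by
  have hk0 : (0:ℝ) < k := by exact_mod_cast hk
  have haF := H306R2.aF_pos hk0
  -- choose η
  have hlim : Tendsto (fun η : ℝ => H306R2.aF k * ((1 + η) ^ (k ^ 2) / (k ^ 2).factorial)) (𝓝[>] 0)
      (𝓝 (Ak k)) := by
    have : Tendsto (fun η : ℝ => H306R2.aF k * ((1 + η) ^ (k ^ 2) / (k ^ 2).factorial)) (𝓝 0)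
        (𝓝 (H306R2.aF k * ((1 + 0) ^ (k ^ 2) / (k ^ 2).factorial))) :=
      Continuous.tendsto (by fun_prop) 0
    rw [add_zero, one_pow, ← mul_div_assoc, mul_one] at this
    exact this.mono_left nhdsWithin_le_nhds
  obtain ⟨η, hη1, hη0⟩ := ((hlim.eventually_lt_const (u := Ak k + ε / 2) (by linarith)).and
    self_mem_nhdsWithin).exists
  have hη : 0 < η := hη0
  have hd := W182.KO.diag_real hk (cw η) (cw_cont η) (1 + η) (by linarith) (fun u hu => cw_zero hη hu)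
  have hb : H306R2.aF k * ∫ u : ℝ, H306R2.gd ((k:ℝ) * k) u * cw η u < Ak k + ε := by
    have := cw_int hk hη
    have := mul_le_mul_of_nonneg_left this haF.le
    linarith
  have hev := hd.eventually_lt_const hb
  obtain ⟨L0, hL0⟩ := (hev.and (eventually_gt_atTop (0:ℝ))).exists_forall_of_atTop
  refine ⟨max (Real.exp L0) 2, lt_max_of_lt_right (by norm_num), fun T hT N hN => ?_⟩
  have hT0 : 0 < T := lt_of_lt_of_le (Real.exp_pos _) ((le_max_left _ _).trans hT)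
  have hLL : L0 ≤ Real.log T := by
    rw [Real.le_log_iff_exp_le hT0]
    exact (le_max_left _ _).trans hT
  obtain ⟨h1, h2⟩ := hL0 (Real.log T) hLL
  set L := Real.log T with hL
  have e1 : L ^ (((k:ℕ):ℝ) ^ 2) = L ^ (k ^ 2) := by
    rw [← Real.rpow_natCast L (k ^ 2)]; push_cast; rfl
  rw [e1, div_lt_iff₀ (by positivity)] at h1
  refine le_trans ?_ h1.le
  unfold SN
  have hsum : Summable (fun n : ℕ => (W182.KO.dk k n : ℝ) * W182.KO.dk k n / n * cw η (Real.log n / L)) := by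
    refine summable_of_hasFiniteSupport ?_
    refine (Set.finite_Iic ⌈Real.exp ((1 + η) * L)⌉₊).subset fun n hn => ?_
    rw [Function.mem_support] at hn
    rw [Set.mem_Iic]
    by_contra h
    push Not at h
    refine hn ?_
    rw [cw_zero hη, mul_zero]
    have h2' : Real.exp ((1 + η) * L) ≤ n := (Nat.le_ceil _).trans (by exact_mod_cast h.le)
    have h3 := Real.log_le_log (Real.exp_pos _) h2'
    rw [Real.log_exp] at h3
    rw [le_div_iff₀ h2]
    linarith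
  refine le_trans (le_of_eq ?_) (hsum.sum_le_tsum (Finset.Icc 1 N) fun n _ =>
    mul_nonneg (by positivity) (cw_nonneg _ _))
  refine Finset.sum_congr rfl fun n hn => ?_
  rw [Finset.mem_Icc] at hn
  have hn0 : (0:ℝ) < n := by exact_mod_cast hn.1
  rw [cw_one hη]
  · unfold dr; ring
  · rw [div_le_one h2, hL]
    refine Real.log_le_log hn0 (le_trans ?_ hN)
    exact_mod_cast hn.2

lemma normR (k u N : ℕ) {T : ℝ} (hT : 1 ≤ T) :
    ∫ t, ‖Fn (gR k u N) T 0 t‖ ^ 2 ≤ ∫ t, v T t ^ 2 * ‖DN k N (((1 / 2 : ℝ) : ℂ) + t * I)‖ ^ 2 := by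
  have hT0 : 0 ≤ T := by linarith
  have hI : Integrable (fun t => v T t ^ 2 * ‖DN k N (((1 / 2 : ℝ) : ℂ) + t * I)‖ ^ 2) := by
    have h := (FS_dec (DN_ps k N (a := 0) (b := 0) (by norm_num)) hT (r := 0) le_rfl le_rfl).sq
    refine h.congr (Eventually.of_forall fun t => ?_)
    simp only
    rw [Fn_zero, norm_mul, Complex.norm_real, Real.norm_of_nonneg (v_nonneg hT0 t), mul_pow]
    congr 3
    push_cast; ring
  refine integral_mono_of_nonneg (Eventually.of_forall fun t => by positivity) hI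
    (Eventually.of_forall fun t => ?_)
  simp only
  rw [Fn_zero, norm_mul, Complex.norm_real, Real.norm_of_nonneg (v_nonneg hT0 t), mul_pow]
  have e : (1 / 2 + (t:ℂ) * I) = ((1 / 2 : ℝ) : ℂ) + t * I := by push_cast; ring
  have hre : (((1 / 2 : ℝ) : ℂ) + t * I).re = 1 / 2 := by simp
  rw [e]
  refine mul_le_mul_of_nonneg_left ?_ (sq_nonneg _)
  unfold gR
  rw [norm_mul]
  have h1 : ‖qq k u (((1 / 2 : ℝ) : ℂ) + t * I)‖ ≤ 1 := qq_norm (by
    rw [hre]
    have : (0:ℝ) ≤ u := Nat.cast_nonneg u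
    linarith)
  have : ‖qq k u (((1 / 2 : ℝ) : ℂ) + t * I)‖ * ‖DN k N (((1 / 2 : ℝ) : ℂ) + t * I)‖ ≤
      ‖DN k N (((1 / 2 : ℝ) : ℂ) + t * I)‖ := by
    nlinarith [norm_nonneg (DN k N (((1 / 2 : ℝ) : ℂ) + t * I))]
  gcongr

lemma DN_neg (k N : ℕ) (t : ℝ) : ‖DN k N (((1 / 2 : ℝ) : ℂ) + (-t : ℝ) * I)‖ ^ 2 =
    ‖DN k N (((1 / 2 : ℝ) : ℂ) + t * I)‖ ^ 2 := by
  unfold DN
  rw [W184.DS_norm_sq, W184.DS_norm_sq]
  refine Finset.sum_congr rfl fun m _ => Finset.sum_congr rfl fun n _ => ?_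
  rw [neg_mul, Real.cos_neg]

lemma normL (k u N : ℕ) {T : ℝ} (hT : 1 ≤ T) :
    ∫ t, ‖Fn (gL k u N) T 0 t‖ ^ 2 ≤ ∫ t, v T t ^ 2 * ‖DN k N (((1 / 2 : ℝ) : ℂ) + t * I)‖ ^ 2 := by
  have hT0 : 0 ≤ T := by linarith
  have hI : Integrable (fun t => v T t ^ 2 * ‖DN k N (((1 / 2 : ℝ) : ℂ) + t * I)‖ ^ 2) := by
    have h := (FS_dec (DN_ps k N (a := 0) (b := 0) (by norm_num)) hT (r := 0) le_rfl le_rfl).sq
    refine h.congr (Eventually.of_forall fun t => ?_)
    simp only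
    rw [Fn_zero, norm_mul, Complex.norm_real, Real.norm_of_nonneg (v_nonneg hT0 t), mul_pow]
    congr 3
    push_cast; ring
  refine integral_mono_of_nonneg (Eventually.of_forall fun t => by positivity) hI
    (Eventually.of_forall fun t => ?_)
  simp only
  rw [Fn_zero, norm_mul, Complex.norm_real, Real.norm_of_nonneg (v_nonneg hT0 t), mul_pow]
  refine mul_le_mul_of_nonneg_left ?_ (sq_nonneg _)
  have e : (1 / 2 + (t:ℂ) * I) = ((1 / 2 : ℝ) : ℂ) + t * I := by push_cast; ring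
  have e2 : 1 - (((1 / 2 : ℝ) : ℂ) + t * I) = ((1 / 2 : ℝ) : ℂ) + (-t : ℝ) * I := by push_cast; ring
  have hre : (((1 / 2 : ℝ) : ℂ) + t * I).re = 1 / 2 := by simp
  rw [e]
  unfold gL xk
  rw [e2, norm_mul, norm_mul, norm_pow, XX_unit, one_pow, one_mul, mul_pow, DN_neg]
  have h1 : ‖qq k u (((1 / 2 : ℝ) : ℂ) + t * I)‖ ≤ 1 := qq_norm (by
    rw [hre]
    have : (0:ℝ) ≤ u := Nat.cast_nonneg u
    linarith)
  have h2 : ‖qq k u (((1 / 2 : ℝ) : ℂ) + t * I)‖ ^ 2 ≤ 1 := pow_le_one₀ (norm_nonneg _) h1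
  have h3 : 0 ≤ ‖DN k N (((1 / 2 : ℝ) : ℂ) + t * I)‖ ^ 2 := by positivity
  nlinarith

/-- the polynomial parts have norm at most `(a_k/(k²)! + ε) T L^{k²}` -/
lemma poly_size {k : ℕ} (hk : 1 ≤ k) {δ : ℝ} (hδ : 0 < δ) (hδ1 : δ ≤ 1) {ε : ℝ} (hε : 0 < ε) :
    ∃ T0 : ℝ, 1 ≤ T0 ∧ ∀ T : ℝ, T0 ≤ T →
      ∫ t, v T t ^ 2 * ‖DN k ⌊T ^ (1 - δ / 2)⌋₊ (((1 / 2 : ℝ) : ℂ) + t * I)‖ ^ 2 ≤
        (Ak k + ε) * (T * Real.log T ^ (k ^ 2)) := by
  have hA := Ak_nonneg hk
  set η : ℝ := min 1 (ε / (2 * (Ak k + 3))) with hη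
  have hη0 : 0 < η := by positivity
  have hη1 : η ≤ 1 := min_le_left _ _
  have hη2 : η * (2 * (Ak k + 3)) ≤ ε := by
    rw [← le_div_iff₀ (by positivity)]; exact min_le_right _ _
  obtain ⟨D, hD, hmv⟩ := mv_v k (κ := δ / 8) (by positivity)
  obtain ⟨T1, hT1, hS⟩ := SN_le hk hη0
  -- decay of the error terms
  have l1 : Tendsto (fun T : ℝ => 16 * T ^ (-(δ / 2))) atTop (𝓝 0) := by
    have := (tendsto_rpow_neg_atTop (y := δ / 2) (by positivity)).const_mul 16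
    rwa [mul_zero] at this
  have l2 : Tendsto (fun T : ℝ => D * (T ^ (-(δ / 4)) * (1 + Real.log T))) atTop (𝓝 0) := by
    have h1 := tendsto_rpow_neg_atTop (y := δ / 4) (by positivity)
    have h2 : Tendsto (fun T : ℝ => T ^ (-(δ / 4)) * Real.log T) atTop (𝓝 0) := by
      have := (isLittleO_log_rpow_atTop (r := δ / 4) (by positivity)).tendsto_div_nhds_zero
      refine this.congr' ?_
      filter_upwards [eventually_gt_atTop 0] with T hT
      rw [Real.rpow_neg hT.le, div_eq_inv_mul]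
    have h3 := (h1.add h2).const_mul D
    rw [add_zero, mul_zero] at h3
    refine h3.congr fun T => ?_
    ring
  obtain ⟨T2, hT2⟩ := (((l1.eventually_lt_const hη0).and (l2.eventually_lt_const hη0)).and
    (eventually_ge_atTop (Real.exp 1))).exists_forall_of_atTop
  refine ⟨max (max T1 T2) 1, le_max_right _ _, fun T hT => ?_⟩
  have hTT1 : T1 ≤ T := ((le_max_left _ _).trans (le_max_left _ _)).trans hT
  have hTT2 : T2 ≤ T := ((le_max_right _ _).trans (le_max_left _ _)).trans hT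
  have hT1' : 1 ≤ T := (le_max_right _ _).trans hT
  have hT0 : 0 < T := by linarith
  obtain ⟨⟨a1, a2⟩, a3⟩ := hT2 T hTT2
  have hL1 : 1 ≤ Real.log T := by rwa [Real.le_log_iff_exp_le hT0]
  set N : ℕ := ⌊T ^ (1 - δ / 2)⌋₊ with hN
  have hY1 : 1 ≤ T ^ (1 - δ / 2) := Real.one_le_rpow hT1' (by linarith)
  have hN1 : 1 ≤ N := by
    rw [hN, Nat.one_le_floor_iff]; exact hY1
  have hN1R : (1:ℝ) ≤ N := by exact_mod_cast hN1
  have hN0 : (0:ℝ) < N := by linarith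
  have hNle : (N : ℝ) ≤ T ^ (1 - δ / 2) := Nat.floor_le (by linarith)
  have hYT : T ^ (1 - δ / 2) = T * T ^ (-(δ / 2)) := by
    rw [sub_eq_add_neg, Real.rpow_add hT0, Real.rpow_one]
  have hNT : (N : ℝ) ≤ T := by
    refine hNle.trans ?_
    calc T ^ (1 - δ / 2) ≤ T ^ (1:ℝ) := Real.rpow_le_rpow_of_exponent_le hT1' (by linarith)
      _ = T := Real.rpow_one T
  have b1 := hmv N hN1 T hT1'
  have b2 := hS T hTT1 N hNT
  have hS0 := SN_nonneg k N
  have b3 : 16 * (N : ℝ) ≤ η * T := by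
    calc 16 * (N : ℝ) ≤ 16 * (T * T ^ (-(δ / 2))) := by rw [← hYT]; gcongr
      _ = (16 * T ^ (-(δ / 2))) * T := by ring
      _ ≤ η * T := by gcongr
  have b4 : D * (N : ℝ) ^ (1 + 2 * (δ / 8)) * (1 + Real.log N) ≤ η * T := by
    have c1 : (N : ℝ) ^ (1 + 2 * (δ / 8)) ≤ T * T ^ (-(δ / 4)) := by
      calc (N : ℝ) ^ (1 + 2 * (δ / 8)) ≤ (T ^ (1 - δ / 2)) ^ (1 + 2 * (δ / 8)) :=
            Real.rpow_le_rpow hN0.le hNle (by positivity)
        _ = T ^ ((1 - δ / 2) * (1 + 2 * (δ / 8))) := by rw [← Real.rpow_mul hT0.le]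
        _ ≤ T ^ (1 + -(δ / 4)) := Real.rpow_le_rpow_of_exponent_le hT1' (by nlinarith)
        _ = _ := by rw [Real.rpow_add hT0, Real.rpow_one]
    have c2 : Real.log N ≤ Real.log T := Real.log_le_log hN0 hNT
    have c3 : 0 ≤ Real.log N := Real.log_nonneg hN1R
    calc D * (N : ℝ) ^ (1 + 2 * (δ / 8)) * (1 + Real.log N) ≤
          D * (T * T ^ (-(δ / 4))) * (1 + Real.log T) := by gcongr
      _ = (D * (T ^ (-(δ / 4)) * (1 + Real.log T))) * T := by ring
      _ ≤ η * T := by gcongr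
  have hLk : 1 ≤ Real.log T ^ (k ^ 2) := one_le_pow₀ hL1
  set X : ℝ := Real.log T ^ (k ^ 2) with hX
  calc ∫ t, v T t ^ 2 * ‖DN k N (((1 / 2 : ℝ) : ℂ) + t * I)‖ ^ 2 ≤
        (T + 16 * N) * SN k N + D * (N : ℝ) ^ (1 + 2 * (δ / 8)) * (1 + Real.log N) := b1
    _ ≤ (T + η * T) * ((Ak k + η) * X) + η * T := by
        have : (T + 16 * N) * SN k N ≤ (T + η * T) * ((Ak k + η) * X) :=
          mul_le_mul (by linarith) b2 hS0 (by positivity)
        linarith
    _ ≤ (T + η * T) * ((Ak k + η) * X) + η * T * X := by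
        have : η * T * 1 ≤ η * T * X := by gcongr
        linarith
    _ = ((1 + η) * (Ak k + η) + η) * (T * X) := by ring
    _ ≤ (Ak k + ε) * (T * X) := by
        have : (1 + η) * (Ak k + η) + η ≤ Ak k + ε := by nlinarith
        have hTX : 0 ≤ T * X := by positivity
        gcongr

/-- the masses near both edges of the spectrum -/
theorem edge_size {k : ℕ} (hk : 1 ≤ k) {δ : ℝ} (hδ : 0 < δ) (hδ1 : δ ≤ 1) {u : ℕ} (hu : 1 ≤ u)
    (hu3 : 3 ≤ δ * u) {ε : ℝ} (hε : 0 < ε) : ∃ T0 : ℝ, 1 ≤ T0 ∧ ∀ T : ℝ, T0 ≤ T →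
      ms (Fn (H k u) T 0) (Ici (-((1 - δ) * Real.log T / (2 * Real.pi)))) ≤
        (Ak k + ε) * (T * Real.log T ^ (k ^ 2)) ∧
      ms (Fn (H k u) T 0) (Iic (-((k - 1 + δ) * Real.log T / (2 * Real.pi)))) ≤
        (Ak k + ε) * (T * Real.log T ^ (k ^ 2)) := by
  have hA := Ak_nonneg hk
  obtain ⟨C1, hC1, hr⟩ := rem_right k hδ hu hu3
  obtain ⟨C2, hC2, hl⟩ := rem_left k hδ hu hu3
  set η : ℝ := min 1 (ε / (2 * (Ak k + 2))) with hη
  have hη0 : 0 < η := by positivity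
  have hη1 : η ≤ 1 := min_le_left _ _
  have hη2 : η * (2 * (Ak k + 2)) ≤ ε := by
    rw [← le_div_iff₀ (by positivity)]; exact min_le_right _ _
  obtain ⟨T1, hT1, hp⟩ := poly_size hk hδ hδ1 hη0
  set B0 : ℝ := (1 + η⁻¹) * (C1 + C2) with hB0
  have hB00 : 0 ≤ B0 := by positivity
  refine ⟨max (max T1 (Real.exp 1)) (B0 * (2 / ε) + 1), ?_, fun T hT => ?_⟩
  · exact le_max_of_le_left (le_max_of_le_left hT1)
  have hTT1 : T1 ≤ T := ((le_max_left _ _).trans (le_max_left _ _)).trans hT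
  have hTe : Real.exp 1 ≤ T := ((le_max_right _ _).trans (le_max_left _ _)).trans hT
  have hTB : B0 * (2 / ε) + 1 ≤ T := (le_max_right _ _).trans hT
  have hT1' : 1 ≤ T := hT1.trans hTT1
  have hT0 : 0 < T := by linarith
  have hL1 : 1 ≤ Real.log T := by rwa [Real.le_log_iff_exp_le hT0]
  have hLk : 1 ≤ Real.log T ^ (k ^ 2) := one_le_pow₀ hL1
  set N : ℕ := ⌊T ^ (1 - δ / 2)⌋₊ with hN
  have hNf : T ^ (1 - δ / 2) ≤ N + 1 := (Nat.lt_floor_add_one _).le
  have hsize := hp T hTT1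
  set X : ℝ := T * Real.log T ^ (k ^ 2) with hX
  have hTX : T ≤ X := by
    rw [hX]; nlinarith
  have hX0 : 0 < X := by linarith
  have hBX : B0 ≤ ε / 2 * X := by
    have h1 : B0 * (2 / ε) ≤ X := by linarith
    have h2 := mul_le_mul_of_nonneg_left h1 (by positivity : 0 ≤ ε / 2)
    have h3 : ε / 2 * (B0 * (2 / ε)) = B0 := by field_simp
    linarith
  have hfin : (1 + η) * ((Ak k + η) * X) + B0 ≤ (Ak k + ε) * X := by
    have h1 : (1 + η) * (Ak k + η) ≤ Ak k + ε / 2 := by nlinarith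
    have h2 := mul_le_mul_of_nonneg_right h1 hX0.le
    nlinarith
  have hu0 : (0:ℝ) ≤ u := Nat.cast_nonneg u
  refine ⟨?_, ?_⟩
  · have hps1 := gR_ps k u N
    have hps2 : PS (fun s => H k u s - gR k u N s) 0 u :=
      ((H_PG k hu).ps (by linarith) le_rfl).sub (gR_ps k u N)
    have h := ms_split (F := Fn (H k u) T 0) (FS_dec hps1 hT1' (r := 0) le_rfl hu0)
      (FS_dec hps2 hT1' (r := 0) le_rfl hu0) (fun t => by
        rw [Fn_zero, Fn_zero, Fn_zero]; ring)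
      (A := Ici (-((1 - δ) * Real.log T / (2 * Real.pi)))) hη0
    have h2 := hr T hT1' N hNf hδ1
    have h3 := (normR k u N hT1').trans hsize
    calc _ ≤ _ := h
      _ ≤ (1 + η) * ((Ak k + η) * X) + (1 + η⁻¹) * C1 := by gcongr
      _ ≤ (1 + η) * ((Ak k + η) * X) + B0 := by
          rw [hB0]
          have : 0 ≤ (1 + η⁻¹) * C2 := by positivity
          nlinarith
      _ ≤ _ := hfin
  · have hps1 := gL_ps k u N hu
    have hps2 : PS (fun s => H k u s - gL k u N s) (-u) 0 :=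
      ((H_PG k hu).ps le_rfl hu0).sub (gL_ps k u N hu)
    have h := ms_split (F := Fn (H k u) T 0) (FS_dec hps1 hT1' (r := 0) (by linarith) le_rfl)
      (FS_dec hps2 hT1' (r := 0) (by linarith) le_rfl) (fun t => by
        rw [Fn_zero, Fn_zero, Fn_zero]; ring)
      (A := Iic (-((k - 1 + δ) * Real.log T / (2 * Real.pi)))) hη0
    have h2 := hl T hT1' N hNf hδ1
    have h3 := (normL k u N hT1').trans hsize
    calc _ ≤ _ := h
      _ ≤ (1 + η) * ((Ak k + η) * X) + (1 + η⁻¹) * C2 := by gcongr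
      _ ≤ (1 + η) * ((Ak k + η) * X) + B0 := by
          rw [hB0]
          have : 0 ≤ (1 + η⁻¹) * C1 := by positivity
          nlinarith
      _ ≤ _ := hfin

end

end Pool.Agent.TH535.SM
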