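import Pool.Agent.TH535.SM.B4

set_option autoImplicit false

/-! The comparison theorem using the edges of the spectrum. -/

namespace Pool.Agent.TH535.SM

open Complex MeasureTheory Filter Topology Set
open scoped FourierTransform ComplexConjugate

noncomputable section

/-- the `k`-th power of zeta on the critical line -/
def zk (k : ℕ) (t : ℝ) : ℂ := ze t ^ k

lemma zk_dat (k : ℕ) {u : ℕ} (hu : 1 ≤ u) : Dat (zk k) (H k u) u k := by
  obtain ⟨C, p, hC, hb⟩ := ze_bd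
  obtain ⟨c, hc, hl⟩ := H_line_close k u
  refine ⟨ze_cont.pow k, ⟨C ^ k, p * k, one_le_pow₀ hC, fun t => ?_⟩, H_PG k hu,
    ⟨c, hc, fun t => ?_⟩, H_right k hu, H_left k hu⟩
  · unfold zk
    rw [norm_pow, ← pow_mul, mul_comm k 2, pow_mul]
    calc (‖ze t‖ ^ 2) ^ k ≤ (C * (1 + |t|) ^ p) ^ k := by gcongr; exact hb t
      _ = _ := by rw [mul_pow, ← pow_mul]
  · have := hl t
    rwa [← norm_pow] at this

/-- the multiplier on the middle part of the spectrum -/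
lemma mu_mid {k : ℕ} {α δ L w : ℝ} (hL : 0 < L) (hk : 2 ≤ k) (hδ : 0 < δ)
    (hα : |α| * (k - 2 + 2 * δ) ≤ Real.pi)
    (h1 : -((k - 1 + δ) * L / (2 * Real.pi)) < w) (h2 : w < -((1 - δ) * L / (2 * Real.pi))) :
    2 + 2 * Real.cos (|α| * (k - 2 + 2 * δ)) ≤ mu (α / L) (k * α) w := by
  unfold mu
  have hp := Real.pi_pos
  have hk2 : (2:ℝ) ≤ k := by exact_mod_cast hk
  have e1 : 4 * Real.pi * (α / L) * w + k * α = α * (4 * Real.pi * w / L + k) := by
    field_simp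
  rw [e1, ← Real.cos_abs (α * (4 * Real.pi * w / L + k)), abs_mul]
  have h3 : 4 * Real.pi * w / L < -(2 * (1 - δ)) := by
    rw [div_lt_iff₀ hL]
    have h5 : -((1 - δ) * L / (2 * Real.pi)) = -((1 - δ) * L) / (2 * Real.pi) := by ring
    rw [h5, lt_div_iff₀ (by positivity)] at h2
    linarith
  have h4 : -(2 * (k - 1 + δ)) < 4 * Real.pi * w / L := by
    rw [lt_div_iff₀ hL]
    have h5 : -((k - 1 + δ) * L / (2 * Real.pi)) = -((k - 1 + δ) * L) / (2 * Real.pi) := by ring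
    rw [h5, div_lt_iff₀ (by positivity)] at h1
    linarith
  have h5 : |4 * Real.pi * w / L + k| ≤ k - 2 + 2 * δ := abs_le.2 ⟨by linarith, by linarith⟩
  have h6 := Real.cos_le_cos_of_nonneg_of_le_pi (x := |α| * |4 * Real.pi * w / L + k|)
    (y := |α| * (k - 2 + 2 * δ)) (by positivity) hα (by gcongr)
  linarith

/-- the final algebra with an edge term -/
lemma alg2 {c0 c ε M B C1 C2 R IF IU ms W : ℝ} (hε : 0 < ε) (hε1 : ε < 1) (hM : 0 ≤ M) (hB : 0 ≤ B)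
    (hC1 : 0 ≤ C1) (hC2 : 0 ≤ C2) (c1 : -1 ≤ c) (c2 : c ≤ 1) (c3 : c0 - ε / 4 ≤ c)
    (c4 : c0 ≤ 1) (c5 : c ≤ c0) (hW : 0 ≤ W) (m1 : (1 - ε / 32) * M - C1 * (1 + B) ≤ IF)
    (m2 : IU ≤ (1 + ε / 32) * (2 * M + 2 * R) + ε / 32 * M + C2 * (1 + B))
    (m3 : (2 + 2 * c) * (IF - ms) ≤ IU) (m4 : ms ≤ W) :
    (c0 - ε) * M - (4 * C1 + C2) * (1 + B) - (1 + c0) * W ≤ R := by
  have h := alg (c0 := c0) (c := c) (R := R + (1 + c) * W) (IF := IF) (IU := IU + (2 + 2 * c) * W)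
    (ms := ms - W) (Cm := 0) hε hε1 hM hB hC1 hC2 le_rfl c1 c2 c3 c4 m1 (by
      have : 0 ≤ ε / 32 * ((2 + 2 * c) * W) :=
        mul_nonneg (by positivity) (mul_nonneg (by linarith) hW)
      linarith) (by linarith) (by linarith)
  have h2 : (1 + c) * W ≤ (1 + c0) * W := mul_le_mul_of_nonneg_right (by linarith) hW
  rw [add_zero] at h
  linarith

theorem stage2 {k : ℕ} (hk : 2 ≤ k) {α : ℝ} (hα : |α| * (k - 2) < Real.pi)
    {ε : ℝ} (hε : 0 < ε) (hε1 : ε < 1) : ∃ C T0 : ℝ, 0 ≤ C ∧ 1 ≤ T0 ∧ ∀ T : ℝ, T0 ≤ T →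
      (Real.cos ((k - 2) * α) - ε) * M (zk k) T - C * (1 + B (zk k) T) -
        (1 + Real.cos ((k - 2) * α)) * (2 * (Ak k + ε)) * (T * Real.log T ^ (k ^ 2)) ≤
        (cexp ((k * α : ℝ) * I) * Cor (zk k) (α / Real.log T) T).re := by
  have hk2 : (2:ℝ) ≤ k := by exact_mod_cast hk
  set δ : ℝ := min (min (ε / (8 * (|α| + 1))) ((Real.pi - |α| * (k - 2)) / (2 * (|α| + 1)))) 1 with hδ
  have habs := abs_nonneg α
  have hδ0 : 0 < δ := by
    refine lt_min (lt_min (by positivity) (div_pos (by linarith) (by positivity))) one_pos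
  have hδ1 : δ * (8 * (|α| + 1)) ≤ ε := by
    rw [← le_div_iff₀ (by positivity)]; exact (min_le_left _ _).trans (min_le_left _ _)
  have hδ2 : δ * (2 * (|α| + 1)) ≤ Real.pi - |α| * (k - 2) := by
    rw [← le_div_iff₀ (by positivity)]; exact (min_le_left _ _).trans (min_le_right _ _)
  have hδ3 : δ ≤ 1 := min_le_right _ _
  have hpi : |α| * (k - 2 + 2 * δ) ≤ Real.pi := by nlinarith
  obtain ⟨u, hu⟩ := exists_nat_ge (max 1 (3 / δ))
  have hu1 : 1 ≤ u := by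
    have : (1:ℝ) ≤ u := (le_max_left _ _).trans hu
    exact_mod_cast this
  have hu2 : 3 ≤ δ * u := by
    have : 3 / δ ≤ u := (le_max_right _ _).trans hu
    rw [div_le_iff₀ hδ0] at this
    linarith
  have D := zk_dat k hu1
  obtain ⟨T3, hT3, hedge⟩ := edge_size (k := k) (by omega) hδ0 hδ3 hu1 hu2 hε
  obtain ⟨η, hη⟩ : ∃ η, η = ε / 32 := ⟨_, rfl⟩
  have hη0 : 0 < η := by rw [hη]; positivity
  have hη1 : η < 1 := by rw [hη]; linarith
  obtain ⟨C1, T1, hC1, hT1, n1⟩ := norm_lower D hη0 hη1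
  obtain ⟨C2, T2, hC2, hT2, n2⟩ := norm_upper D hη0 hη1
  rw [hη] at n1 n2
  refine ⟨4 * C1 + C2, max (max (max T1 T2) T3) (Real.exp (|α| + 1)), by positivity, ?_,
    fun T hT => ?_⟩
  · exact le_max_of_le_right (Real.one_le_exp (by positivity))
  have hTT1 : T1 ≤ T :=
    ((le_max_left _ _).trans ((le_max_left _ _).trans (le_max_left _ _))).trans hT
  have hTT2 : T2 ≤ T :=
    ((le_max_right _ _).trans ((le_max_left _ _).trans (le_max_left _ _))).trans hT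
  have hTT3 : T3 ≤ T := ((le_max_right _ _).trans (le_max_left _ _)).trans hT
  have hTe : Real.exp (|α| + 1) ≤ T := (le_max_right _ _).trans hT
  have hTp : 1 ≤ T := hT1.trans hTT1
  have hT0 : 0 < T := by linarith
  have hL : |α| + 1 ≤ Real.log T := by rwa [Real.le_log_iff_exp_le hT0]
  have hL0 : 0 < Real.log T := by linarith
  obtain ⟨g1, g2⟩ := hedge T hTT3
  set L := Real.log T with hLd
  have ha : |α / L| ≤ 1 := by
    rw [abs_div, abs_of_pos hL0, div_le_one hL0]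
    linarith
  have hdec := Fn_dec D.pg hTp (r := 0) (by simp) (by positivity)
  have m1 := n1 T hTT1
  have m2 := n2 T hTT2 (α / L) (k * α) ha
  have m3 := lower_set hdec (α / L) (k * α)
    (A := Ioo (-((k - 1 + δ) * L / (2 * Real.pi))) (-((1 - δ) * L / (2 * Real.pi)))) measurableSet_Ioo
    (m0 := 2 + 2 * Real.cos (|α| * (k - 2 + 2 * δ))) (fun w hw => mu_mid hL0 hk hδ0 hpi hw.1 hw.2)
  have m4 : ms (Fn (H k u) T 0)
      (Ioo (-((k - 1 + δ) * L / (2 * Real.pi))) (-((1 - δ) * L / (2 * Real.pi))))ᶜ ≤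
      2 * (Ak k + ε) * (T * L ^ (k ^ 2)) := by
    refine (ms_union hdec (A1 := Iic (-((k - 1 + δ) * L / (2 * Real.pi))))
      (A2 := Ici (-((1 - δ) * L / (2 * Real.pi)))) measurableSet_Iic measurableSet_Ici ?_).trans
      ((add_le_add g2 g1).trans (le_of_eq (by ring)))
    intro w hw
    simp only [mem_compl_iff, mem_Ioo, not_and_or, not_lt] at hw
    exact hw
  have c1 := Real.neg_one_le_cos (|α| * (k - 2 + 2 * δ))
  have c2 := Real.cos_le_one (|α| * (k - 2 + 2 * δ))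
  have e1 : Real.cos ((k - 2) * α) = Real.cos (|α| * (k - 2)) := by
    rw [← Real.cos_abs ((k - 2) * α), abs_mul, abs_of_nonneg (by linarith : (0:ℝ) ≤ k - 2), mul_comm]
  have c3 : Real.cos ((k - 2) * α) - ε / 4 ≤ Real.cos (|α| * (k - 2 + 2 * δ)) := by
    have h5 := Real.abs_cos_sub_cos_le (|α| * (k - 2)) (|α| * (k - 2 + 2 * δ))
    have h6 : abs (|α| * (k - 2) - |α| * (k - 2 + 2 * δ)) = 2 * δ * |α| := by
      have : |α| * (k - 2) - |α| * (k - 2 + 2 * δ) = -(2 * δ * |α|) := by ring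
      rw [this, abs_neg, abs_of_nonneg (by positivity)]
    rw [h6] at h5
    have h7 := (abs_le.1 h5).2
    rw [e1]
    nlinarith
  have c4 := Real.cos_le_one ((k - 2) * α)
  have c5 : Real.cos (|α| * (k - 2 + 2 * δ)) ≤ Real.cos ((k - 2) * α) := by
    rw [e1]
    refine Real.cos_le_cos_of_nonneg_of_le_pi (mul_nonneg habs (by linarith)) hpi ?_
    gcongr
    linarith
  have hM := M_nonneg (zk k) hT0.le
  have hB := B_nonneg (zk k) T
  have hW : 0 ≤ 2 * (Ak k + ε) * (T * L ^ (k ^ 2)) := by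
    have := Ak_nonneg (k := k) (by omega)
    positivity
  have h := alg2 hε hε1 hM hB hC1 hC2 c1 c2 c3 c4 c5 hW m1 m2 m3 m4
  refine le_trans (le_of_eq ?_) h
  ring

/-- the same outside a small exceptional set -/
theorem stage2e {k : ℕ} (hk : 2 ≤ k) {α : ℝ} (hα : |α| * (k - 2) < Real.pi)
    {ε : ℝ} (hε : 0 < ε) : ∃ C X0 : ℝ, 0 ≤ C ∧ 1 ≤ X0 ∧ ∀ X : ℝ, X0 ≤ X → ∃ E : Set ℝ,
      MeasurableSet E ∧ E ⊆ Icc X (2 * X) ∧ (volume : Measure ℝ).real E ≤ C * Real.log X ^ 2 ∧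
      ∀ T ∈ Icc X (2 * X), T ∉ E →
        (Real.cos ((k - 2) * α) - ε) * M (zk k) T -
        ((1 + Real.cos ((k - 2) * α)) * (2 * Ak k) + ε) * (T * Real.log T ^ (k ^ 2)) ≤
          (cexp ((k * α : ℝ) * I) * Cor (zk k) (α / Real.log T) T).re := by
  obtain ⟨C, T0, hC, hT0, h1⟩ := stage2 hk hα (ε := min (ε / 8) (1 / 2)) (by positivity)
    (lt_of_le_of_lt (min_le_right _ _) (by norm_num))
  have D := zk_dat k (u := 1) le_rfl
  obtain ⟨C2, X0, hC2, hX0, h2⟩ := exc D (ε := min (ε / (2 * (C + 1))) 1) (by positivity)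
    (min_le_right _ _)
  refine ⟨C2, max (max X0 T0) (max (Real.exp 1) (6 * C / ε)), hC2,
    le_max_of_le_left (le_max_of_le_left hX0), fun X hX => ?_⟩
  have hXX0 : X0 ≤ X := ((le_max_left _ _).trans (le_max_left _ _)).trans hX
  have hXT0 : T0 ≤ X := ((le_max_right _ _).trans (le_max_left _ _)).trans hX
  have hXe : Real.exp 1 ≤ X := ((le_max_left _ _).trans (le_max_right _ _)).trans hX
  have hXC : 6 * C / ε ≤ X := ((le_max_right _ _).trans (le_max_right _ _)).trans hX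
  obtain ⟨E, hE1, hE2, hE3, hE4⟩ := h2 X hXX0
  refine ⟨E, hE1, hE2, hE3, fun T hT hTE => ?_⟩
  have hTX : T0 ≤ T := hXT0.trans hT.1
  have hT0' : 0 < T := by linarith
  have hM : 0 ≤ M (zk k) T := M_nonneg (zk k) hT0'.le
  have hL1 : 1 ≤ Real.log T := by
    rw [Real.le_log_iff_exp_le hT0']
    exact hXe.trans hT.1
  have hLk : 1 ≤ Real.log T ^ (k ^ 2) := one_le_pow₀ hL1
  obtain ⟨Y, hY⟩ : ∃ Y, Y = T * Real.log T ^ (k ^ 2) := ⟨_, rfl⟩
  have hTY : T ≤ Y := by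
    rw [hY]; nlinarith
  have a1 := h1 T hTX
  have a2 := hE4 T hT hTE
  rw [← hY] at a1 ⊢
  obtain ⟨ε1, hε1⟩ : ∃ ε1, ε1 = min (ε / 8) (1 / 2) := ⟨_, rfl⟩
  rw [← hε1] at a1
  have b1 : ε1 ≤ ε / 8 := by rw [hε1]; exact min_le_left _ _
  have b0 : 0 ≤ ε1 := by rw [hε1]; positivity
  have b2 : C * min (ε / (2 * (C + 1))) 1 ≤ ε / 2 := by
    have : min (ε / (2 * (C + 1))) 1 ≤ ε / (2 * (C + 1)) := min_le_left _ _
    calc C * min (ε / (2 * (C + 1))) 1 ≤ C * (ε / (2 * (C + 1))) := by gcongr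
      _ = ε / 2 * (C / (C + 1)) := by field_simp
      _ ≤ ε / 2 * 1 := by
          have : C / (C + 1) ≤ 1 := by rw [div_le_one (by linarith)]; linarith
          gcongr
      _ = _ := mul_one _
  have b3 : C * (1 + B (zk k) T) ≤ ε / 2 * M (zk k) T + 3 * C := by
    calc C * (1 + B (zk k) T) ≤ C * (1 + (min (ε / (2 * (C + 1))) 1 * M (zk k) T + 2)) := by gcongr
      _ = (C * min (ε / (2 * (C + 1))) 1) * M (zk k) T + 3 * C := by ring
      _ ≤ _ := by gcongr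
  have b4 : 3 * C ≤ ε / 2 * Y := by
    have h3 : 6 * C / ε ≤ Y := hXC.trans (hT.1.trans hTY)
    rw [div_le_iff₀ hε] at h3
    linarith
  have b5 : ε1 * M (zk k) T ≤ ε / 8 * M (zk k) T := by gcongr
  have hc1 := Real.cos_le_one ((k - 2) * α)
  have hc2 := Real.neg_one_le_cos ((k - 2) * α)
  have hY0 : 0 ≤ Y := by linarith
  have b6 : (1 + Real.cos ((k - 2) * α)) * (2 * (Ak k + ε1)) * Y ≤
      (1 + Real.cos ((k - 2) * α)) * (2 * Ak k) * Y + ε / 2 * Y := by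
    have : (1 + Real.cos ((k - 2) * α)) * (2 * ε1) ≤ 2 * (2 * (ε / 8)) :=
      mul_le_mul (by linarith) (by linarith) (by positivity) (by norm_num)
    have h7 := mul_le_mul_of_nonneg_right this hY0
    nlinarith
  nlinarith

end

end Pool.Agent.TH535.SM
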