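import Pool.Agent.TH535.SM.B5

set_option autoImplicit false

/-! The correlation of the smoothed function: comparison with the sharp cut-off, Plancherel. -/

namespace Pool.Agent.TH535.SM

open Complex MeasureTheory Filter Topology Set
open scoped FourierTransform ComplexConjugate

noncomputable section

variable {z : ℝ → ℂ} {G : ℂ → ℂ} {u K : ℕ}

/-- the correlation -/
def CF (F : ℝ → ℂ) (a : ℝ) : ℂ := ∫ t : ℝ, F (t + a) * conj (F (t + -a))

lemma prod_split {f1 f2 g1 g2 : ℂ} {η : ℝ} (hη : 0 < η) :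
    ‖f1 * conj f2 - g1 * conj g2‖ ≤ (1 + η⁻¹) / 2 * (‖f1 - g1‖ ^ 2 + ‖f2 - g2‖ ^ 2) +
      η / 2 * (‖g1‖ ^ 2 + ‖g2‖ ^ 2) := by
  have e : f1 * conj f2 - g1 * conj g2 = (f1 - g1) * conj (f2 - g2) + (f1 - g1) * conj g2 +
      g1 * conj (f2 - g2) := by
    rw [map_sub]; ring
  rw [e]
  have h1 := norm_add_le ((f1 - g1) * conj (f2 - g2) + (f1 - g1) * conj g2) (g1 * conj (f2 - g2))
  have h2 := norm_add_le ((f1 - g1) * conj (f2 - g2)) ((f1 - g1) * conj g2)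
  simp only [norm_mul, RCLike.norm_conj] at h1 h2
  obtain ⟨x, hx⟩ : ∃ x, x = ‖f1 - g1‖ := ⟨_, rfl⟩
  obtain ⟨y, hy⟩ : ∃ y, y = ‖f2 - g2‖ := ⟨_, rfl⟩
  obtain ⟨p, hp⟩ : ∃ p, p = ‖g1‖ := ⟨_, rfl⟩
  obtain ⟨q, hq⟩ : ∃ q, q = ‖g2‖ := ⟨_, rfl⟩
  have h12 := h1.trans (add_le_add h2 le_rfl)
  rw [← hx, ← hy, ← hp, ← hq] at h12 ⊢
  have h3 : x * q ≤ η⁻¹ / 2 * x ^ 2 + η / 2 * q ^ 2 := by
    have h0 : 0 ≤ (x - η * q) ^ 2 * η⁻¹ := by positivity
    have h4 : (x - η * q) ^ 2 * η⁻¹ = η⁻¹ * x ^ 2 - 2 * (x * q) + η * q ^ 2 := by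
      field_simp
      ring
    linarith
  have h5 : p * y ≤ η⁻¹ / 2 * y ^ 2 + η / 2 * p ^ 2 := by
    have h0 : 0 ≤ (y - η * p) ^ 2 * η⁻¹ := by positivity
    have h4 : (y - η * p) ^ 2 * η⁻¹ = η⁻¹ * y ^ 2 - 2 * (p * y) + η * p ^ 2 := by
      field_simp
      ring
    linarith
  have h6 : x * y ≤ (x ^ 2 + y ^ 2) / 2 := by nlinarith [sq_nonneg (x - y)]
  refine h12.trans ?_
  have : x * y + x * q + p * y ≤ (1 + η⁻¹) / 2 * (x ^ 2 + y ^ 2) + η / 2 * (p ^ 2 + q ^ 2) := by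
    have e2 : (1 + η⁻¹) / 2 * (x ^ 2 + y ^ 2) + η / 2 * (p ^ 2 + q ^ 2) = (x ^ 2 + y ^ 2) / 2 +
      (η⁻¹ / 2 * x ^ 2 + η / 2 * q ^ 2) + (η⁻¹ / 2 * y ^ 2 + η / 2 * p ^ 2) := by ring
    rw [e2]
    linarith
  exact this

lemma ind_mul_self (T t : ℝ) : ind T t * ind T t = ind T t := by
  by_cases h : t ∈ Icc 0 T
  · rw [ind_mem h]; norm_num
  · rw [ind_not h]; norm_num

/-- comparison of the correlations -/
lemma comp (D : Dat z G u K) {ε : ℝ} (hε : 0 < ε) :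
    ∃ C T0 : ℝ, 0 ≤ C ∧ 1 ≤ T0 ∧ ∀ T : ℝ, T0 ≤ T → ∀ a : ℝ, |a| ≤ 1 →
      ‖CF (Fn G T 0) a - Cor z a T‖ ≤ ε * M z T + C * (1 + B z T) := by
  obtain ⟨C1, hC1, hcl⟩ := close D
  obtain ⟨η, hη⟩ : ∃ η, η = ε / 2 := ⟨_, rfl⟩
  have hη0 : 0 < η := by rw [hη]; positivity
  have hK : 0 < (1 + η⁻¹) * C1 := by positivity
  obtain ⟨C2, T0, hC2, hT0, hOm⟩ := Om_le D (ε := ε / 2 / ((1 + η⁻¹) * C1)) (by positivity)
  have hB00 := B_nonneg z 0
  refine ⟨(1 + η⁻¹) * C1 * (C2 + 1) + ε * (B z 0 + 1), T0, by positivity, hT0, fun T hT a ha => ?_⟩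
  have hT1 : 1 ≤ T := hT0.trans hT
  have hTn : 0 ≤ T := by linarith
  have hdec := Fn_dec D.pg hT1 (r := 0) (by simp) (by positivity)
  have hM := M_nonneg z hTn
  have hB := B_nonneg z T
  obtain ⟨F, hF⟩ : ∃ F, F = Fn G T 0 := ⟨_, rfl⟩
  rw [← hF] at hdec ⊢
  have i1 := (Om_int D T).comp_add_right a
  have i2 := (Om_int D T).comp_add_right (-a)
  have hcz := D.zc
  have c1 : Continuous (fun t => ‖z (t + a)‖ ^ 2) := D.sc.comp (by fun_prop)
  have c2 : Continuous (fun t => ‖z (t + -a)‖ ^ 2) := D.sc.comp (by fun_prop)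
  have c3 : Continuous (fun t => z (t + a) * conj (z (t + -a))) := by
    refine (hcz.comp (by fun_prop)).mul ?_
    exact Complex.continuous_conj.comp (hcz.comp (by fun_prop))
  have cF := hdec.cont
  have cFF : Continuous (fun t => F (t + a) * conj (F (t + -a))) := by
    refine (cF.comp (by fun_prop)).mul ?_
    exact Complex.continuous_conj.comp (cF.comp (by fun_prop))
  have s1 := (hdec.shift a).sq
  have s2 := (hdec.shift (-a)).sq
  have hFI : Integrable (fun t => F (t + a) * conj (F (t + -a))) := by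
    refine (iadd s1 s2).mono' cFF.aestronglyMeasurable (Eventually.of_forall fun t => ?_)
    rw [norm_mul, RCLike.norm_conj]
    nlinarith [sq_nonneg (‖F (t + a)‖ - ‖F (t + -a)‖), sq_nonneg ‖F (t + a)‖, sq_nonneg ‖F (t + -a)‖]
  have hzI : Integrable (fun t => (ind T t : ℂ) * (z (t + a) * conj (z (t + -a)))) := by
    refine (iadd (ind_bd (T := T) c1) (ind_bd (T := T) c2)).mono' ?_ (Eventually.of_forall fun t => ?_)
    · exact ((Complex.measurable_ofReal.comp (ind_meas T)).mul c3.measurable).aestronglyMeasurable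
    · rw [norm_mul, norm_mul, RCLike.norm_conj, Complex.norm_real, Real.norm_of_nonneg (ind_nonneg T t)]
      have := ind_nonneg T t
      have h5 : ‖z (t + a)‖ * ‖z (t + -a)‖ ≤ ‖z (t + a)‖ ^ 2 + ‖z (t + -a)‖ ^ 2 := by
        nlinarith [sq_nonneg (‖z (t + a)‖ - ‖z (t + -a)‖), sq_nonneg ‖z (t + a)‖,
          sq_nonneg ‖z (t + -a)‖]
      calc _ ≤ ind T t * (‖z (t + a)‖ ^ 2 + ‖z (t + -a)‖ ^ 2) := by gcongr
        _ = _ := by ring
  have eCor : Cor z a T = ∫ t, (ind T t : ℂ) * (z (t + a) * conj (z (t + -a))) := by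
    unfold Cor
    rw [intervalIntegral.integral_of_le hTn, ← integral_Icc_eq_integral_Ioc,
      ← integral_indicator measurableSet_Icc]
    refine integral_congr_ae (Eventually.of_forall fun t => ?_)
    simp only
    by_cases h : t ∈ Icc 0 T
    · rw [indicator_of_mem h, ind_mem h, ofReal_one, one_mul]
    · rw [indicator_of_notMem h, ind_not h, ofReal_zero, zero_mul]
  unfold CF
  rw [eCor, ← integral_sub hFI hzI]
  have hbd : ∀ t, ‖F (t + a) * conj (F (t + -a)) - (ind T t : ℂ) * (z (t + a) * conj (z (t + -a)))‖ ≤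
      (1 + η⁻¹) / 2 * C1 * ((Wq T (t + a) * ‖z (t + a)‖ ^ 2) + (Wq T (t + -a) * ‖z (t + -a)‖ ^ 2)) +
      η / 2 * (ind T t * ‖z (t + a)‖ ^ 2 + ind T t * ‖z (t + -a)‖ ^ 2) := by
    intro t
    have h2 := hcl T hT1 t a ha
    have h3 := hcl T hT1 t (-a) (by rwa [abs_neg])
    rw [← hF] at h2 h3
    have h4 := prod_split (f1 := F (t + a)) (f2 := F (t + -a)) (g1 := (ind T t : ℂ) * z (t + a))
      (g2 := (ind T t : ℂ) * z (t + -a)) hη0
    have e1 : ((ind T t : ℂ) * z (t + a)) * conj ((ind T t : ℂ) * z (t + -a)) =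
        (ind T t : ℂ) * (z (t + a) * conj (z (t + -a))) := by
      rw [map_mul, Complex.conj_ofReal]
      have : (ind T t : ℂ) * (ind T t : ℂ) = (ind T t : ℂ) := by
        rw [← ofReal_mul, ind_mul_self]
      linear_combination (z (t + a) * conj (z (t + -a))) * this
    rw [e1, ind_sq, ind_sq] at h4
    refine h4.trans (add_le_add ?_ le_rfl)
    calc _ ≤ (1 + η⁻¹) / 2 * (C1 * (Wq T (t + a) * ‖z (t + a)‖ ^ 2) +
          C1 * (Wq T (t + -a) * ‖z (t + -a)‖ ^ 2)) := by gcongr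
      _ = _ := by ring
  have hI1 : Integrable (fun t => (1 + η⁻¹) / 2 * C1 * ((Wq T (t + a) * ‖z (t + a)‖ ^ 2) +
      (Wq T (t + -a) * ‖z (t + -a)‖ ^ 2))) := (iadd i1 i2).const_mul _
  have hI2 : Integrable (fun t => η / 2 * (ind T t * ‖z (t + a)‖ ^ 2 + ind T t * ‖z (t + -a)‖ ^ 2)) :=
    (iadd (ind_bd c1) (ind_bd c2)).const_mul _
  have hle : ‖∫ t, (F (t + a) * conj (F (t + -a)) - (ind T t : ℂ) * (z (t + a) * conj (z (t + -a))))‖ ≤
      ∫ t, ((1 + η⁻¹) / 2 * C1 * ((Wq T (t + a) * ‖z (t + a)‖ ^ 2) +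
        (Wq T (t + -a) * ‖z (t + -a)‖ ^ 2)) +
      η / 2 * (ind T t * ‖z (t + a)‖ ^ 2 + ind T t * ‖z (t + -a)‖ ^ 2)) :=
    norm_integral_le_of_norm_le (iadd hI1 hI2) (Eventually.of_forall hbd)
  refine hle.trans ?_
  rw [integral_add hI1 hI2, integral_const_mul, integral_const_mul, integral_add i1 i2,
    integral_add (ind_bd c1) (ind_bd c2), ind_val hTn, ind_val hTn,
    integral_add_right_eq_self (μ := volume) (fun t : ℝ => Wq T t * ‖z t‖ ^ 2) a,
    integral_add_right_eq_self (μ := volume) (fun t : ℝ => Wq T t * ‖z t‖ ^ 2) (-a)]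
  have b1 := shift_le D hTn ha
  have b2 := shift_le D hTn (a := -a) (by rwa [abs_neg])
  have b3 := hOm T hT
  have eO : (∫ t, Wq T t * ‖z t‖ ^ 2) = Om z T := rfl
  rw [eO]
  have b4 : (1 + η⁻¹) / 2 * C1 * (Om z T + Om z T) ≤ ε / 2 * M z T + (1 + η⁻¹) * C1 * (C2 + B z T) := by
    have h4 := mul_le_mul_of_nonneg_left b3 hK.le
    have e5 : (1 + η⁻¹) * C1 * (ε / 2 / ((1 + η⁻¹) * C1) * M z T + C2 + B z T) =
        ε / 2 * M z T + (1 + η⁻¹) * C1 * (C2 + B z T) := by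
      field_simp
      ring
    rw [e5] at h4
    linarith
  have b5 : (1 + η⁻¹) * C1 * (C2 + B z T) ≤ (1 + η⁻¹) * C1 * (C2 + 1) * (1 + B z T) := by
    rw [mul_assoc ((1 + η⁻¹) * C1) (C2 + 1)]
    refine mul_le_mul_of_nonneg_left ?_ hK.le
    nlinarith [mul_nonneg hC2 hB]
  have b6 : η / 2 * ((∫ t in (0:ℝ)..T, ‖z (t + a)‖ ^ 2) + ∫ t in (0:ℝ)..T, ‖z (t + -a)‖ ^ 2) ≤
      ε / 2 * M z T + ε * (B z 0 + B z T) := by
    calc _ ≤ η / 2 * ((M z T + 2 * (B z 0 + B z T)) + (M z T + 2 * (B z 0 + B z T))) := by gcongr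
      _ = _ := by rw [hη]; ring
  have b7 : ε * (B z 0 + B z T) ≤ ε * (B z 0 + 1) * (1 + B z T) := by
    rw [mul_assoc]
    refine mul_le_mul_of_nonneg_left ?_ hε.le
    nlinarith [mul_nonneg hB00 hB]
  nlinarith

/-- real parts of the correlation -/
lemma corr_re {F : ℝ → ℂ} (hF : Dec F) (a κ : ℝ) :
    (cexp (κ * I) * CF F a).re = ∫ w, Real.cos (4 * Real.pi * a * w + κ) * ‖𝓕 F w‖ ^ 2 := by
  have hI := (planch hF).1
  have cF := hF.cont
  have cFF : Continuous (fun t => F (t + a) * conj (F (t + -a))) := by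
    refine (cF.comp (by fun_prop)).mul ?_
    exact Complex.continuous_conj.comp (cF.comp (by fun_prop))
  have s1 := (hF.shift a).sq
  have s2 := (hF.shift (-a)).sq
  have hFI : Integrable (fun t => F (t + a) * conj (F (t + -a))) := by
    refine (iadd s1 s2).mono' cFF.aestronglyMeasurable (Eventually.of_forall fun t => ?_)
    rw [norm_mul, RCLike.norm_conj]
    nlinarith [sq_nonneg (‖F (t + a)‖ - ‖F (t + -a)‖), sq_nonneg ‖F (t + a)‖, sq_nonneg ‖F (t + -a)‖]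
  have hre : Integrable (fun t => 2 * (cexp (κ * I) * (F (t + a) * conj (F (t + -a)))).re) :=
    ((hFI.const_mul (cexp (κ * I))).re).const_mul 2
  have h1 : ∫ t, ‖U a κ F t‖ ^ 2 = 2 * (∫ t, ‖F t‖ ^ 2) + 2 * (cexp (κ * I) * CF F a).re := by
    have e1 : ∫ t, ‖U a κ F t‖ ^ 2 = ∫ t, ((‖F (t + a)‖ ^ 2 + ‖F (t + -a)‖ ^ 2) +
        2 * (cexp (κ * I) * (F (t + a) * conj (F (t + -a)))).re) :=
      integral_congr_ae (Eventually.of_forall fun t => Uz_sq F a κ t)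
    have e2 : ∫ t, (cexp (κ * I) * (F (t + a) * conj (F (t + -a)))).re =
        (cexp (κ * I) * CF F a).re := by
      have h := integral_re (hFI.const_mul (cexp (κ * I)))
      simp only [RCLike.re_eq_complex_re] at h
      rw [h, integral_const_mul]
      rfl
    rw [e1, integral_add (iadd s1 s2) hre, integral_add s1 s2, integral_const_mul, e2,
      integral_add_right_eq_self (μ := volume) (fun t : ℝ => ‖F t‖ ^ 2) a,
      integral_add_right_eq_self (μ := volume) (fun t : ℝ => ‖F t‖ ^ 2) (-a)]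
    ring
  have hcosI : Integrable (fun w => Real.cos (4 * Real.pi * a * w + κ) * ‖𝓕 F w‖ ^ 2) := by
    refine hI.mono' ?_ (Eventually.of_forall fun w => ?_)
    · have : Continuous (fun w => Real.cos (4 * Real.pi * a * w + κ) * ‖𝓕 F w‖ ^ 2) := by
        have := ft_cont hF
        fun_prop
      exact this.aestronglyMeasurable
    · rw [norm_mul, Real.norm_of_nonneg (by positivity : 0 ≤ ‖𝓕 F w‖ ^ 2), Real.norm_eq_abs]
      have := Real.abs_cos_le_one (4 * Real.pi * a * w + κ)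
      nlinarith [sq_nonneg ‖𝓕 F w‖]
  have h2 : ∫ w, mu a κ w * ‖𝓕 F w‖ ^ 2 = 2 * (∫ t, ‖F t‖ ^ 2) +
      2 * ∫ w, Real.cos (4 * Real.pi * a * w + κ) * ‖𝓕 F w‖ ^ 2 := by
    rw [← (planch hF).2, ← integral_const_mul, ← integral_const_mul,
      ← integral_add (hI.const_mul 2) (hcosI.const_mul 2)]
    refine integral_congr_ae (Eventually.of_forall fun w => ?_)
    simp only [mu]
    ring
  have h3 := U_norm hF a κ
  linarith

lemma exp_int {F : ℝ → ℂ} (hF : Dec F) (b : ℝ) :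
    Integrable (fun w : ℝ => cexp (b * w * I) * ((‖𝓕 F w‖ ^ 2 : ℝ) : ℂ)) := by
  refine (planch hF).1.mono' ?_ (Eventually.of_forall fun w => ?_)
  · have : Continuous (fun w : ℝ => cexp (b * w * I) * ((‖𝓕 F w‖ ^ 2 : ℝ) : ℂ)) := by
      have := ft_cont hF
      fun_prop
    exact this.aestronglyMeasurable
  · rw [norm_mul, Complex.norm_exp, Complex.norm_real, Real.norm_of_nonneg (by positivity)]
    simp

/-- Plancherel for the correlation -/
lemma corr {F : ℝ → ℂ} (hF : Dec F) (a : ℝ) :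
    CF F a = ∫ w : ℝ, cexp ((4 * Real.pi * a : ℝ) * w * I) * ((‖𝓕 F w‖ ^ 2 : ℝ) : ℂ) := by
  have hE := exp_int hF (4 * Real.pi * a)
  have h1 := corr_re hF a 0
  have h2 := corr_re hF a (-(Real.pi / 2))
  have e1 : (cexp ((0:ℝ) * I) * CF F a).re = (CF F a).re := by simp
  have e2 : (cexp ((-(Real.pi / 2) : ℝ) * I) * CF F a).re = (CF F a).im := by
    have : cexp ((-(Real.pi / 2) : ℝ) * I) = -I := by
      push_cast
      rw [neg_mul, Complex.exp_neg, Complex.exp_pi_div_two_mul_I, Complex.inv_I]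
    rw [this]
    simp
  rw [e1] at h1
  rw [e2] at h2
  have g1 := integral_re hE
  have g2 := integral_im hE
  simp only [RCLike.re_eq_complex_re, RCLike.im_eq_complex_im] at g1 g2
  have r1 : ∀ w : ℝ, (cexp ((4 * Real.pi * a : ℝ) * w * I) * ((‖𝓕 F w‖ ^ 2 : ℝ) : ℂ)).re =
      Real.cos (4 * Real.pi * a * w + 0) * ‖𝓕 F w‖ ^ 2 := by
    intro w
    rw [Complex.re_mul_ofReal, ← ofReal_mul, Complex.exp_ofReal_mul_I_re, add_zero]
  have r2 : ∀ w : ℝ, (cexp ((4 * Real.pi * a : ℝ) * w * I) * ((‖𝓕 F w‖ ^ 2 : ℝ) : ℂ)).im =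
      Real.cos (4 * Real.pi * a * w + -(Real.pi / 2)) * ‖𝓕 F w‖ ^ 2 := by
    intro w
    rw [Complex.im_mul_ofReal, ← ofReal_mul, Complex.exp_ofReal_mul_I_im, ← sub_eq_add_neg,
      Real.cos_sub_pi_div_two]
  apply Complex.ext
  · rw [h1, ← g1]
    exact integral_congr_ae (Eventually.of_forall fun w => (r1 w).symm)
  · rw [h2, ← g2]
    exact integral_congr_ae (Eventually.of_forall fun w => (r2 w).symm)

end

end Pool.Agent.TH535.SM
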