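import Mathlib

set_option autoImplicit false

/-! Convergence of bounded families of entire functions of exponential type, real form. -/

namespace Pool.Agent.TH535.SM

open Complex MeasureTheory Filter Topology Set

noncomputable section

/-- the tail of the exponential series -/
def eJ (J : ℕ) (r : ℝ) : ℝ := ∑' m : ℕ, r ^ (m + J) / ((m + J).factorial : ℝ)

lemma eJ_summable (J : ℕ) (r : ℝ) : Summable (fun m : ℕ => r ^ (m + J) / ((m + J).factorial : ℝ)) :=
  (summable_nat_add_iff J).2 (Real.summable_pow_div_factorial r)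

lemma eJ_nonneg (J : ℕ) {r : ℝ} (hr : 0 ≤ r) : 0 ≤ eJ J r := tsum_nonneg fun m => by positivity

lemma eJ_eq (J : ℕ) (r : ℝ) : eJ J r = Real.exp r - ∑ m ∈ Finset.range J, r ^ m / (m.factorial : ℝ) := by
  have h := (Real.summable_pow_div_factorial r).sum_add_tsum_nat_add J
  have h2 : ∑' i : ℕ, r ^ i / (i.factorial : ℝ) = Real.exp r := by
    rw [Real.exp_eq_exp_ℝ, NormedSpace.exp_eq_tsum_div]
  rw [h2] at h
  unfold eJ
  linarith

lemma eJ_mono (J : ℕ) {r s : ℝ} (hr : 0 ≤ r) (h : r ≤ s) : eJ J r ≤ eJ J s :=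
  (eJ_summable J r).tsum_le_tsum (fun m => by gcongr) (eJ_summable J s)

lemma eJ_tendsto (r : ℝ) : Tendsto (fun J => eJ J r) atTop (𝓝 0) :=
  tendsto_sum_nat_add (fun m : ℕ => r ^ m / (m.factorial : ℝ))

lemma eJ_le (J : ℕ) {r : ℝ} (hr : 0 ≤ r) : eJ J r ≤ r ^ J * Real.exp r := by
  have h := Complex.norm_exp_sub_sum_le_norm_mul_exp (r : ℂ) J
  rw [Complex.norm_real, Real.norm_of_nonneg hr] at h
  refine le_trans ?_ h
  rw [eJ_eq]
  have e : cexp (r : ℂ) - ∑ m ∈ Finset.range J, (r : ℂ) ^ m / (m.factorial : ℂ) =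
      ((Real.exp r - ∑ m ∈ Finset.range J, r ^ m / (m.factorial : ℝ) : ℝ) : ℂ) := by
    push_cast; rfl
  rw [e, Complex.norm_real]
  exact Real.le_norm_self _

lemma exp_taylor (J : ℕ) (θ : ℝ) {r : ℝ} (h : |θ| ≤ r) :
    ‖cexp (θ * I) - ∑ m ∈ Finset.range J, (θ * I : ℂ) ^ m / (m.factorial : ℂ)‖ ≤ eJ J r := by
  have h1 := Complex.norm_exp_sub_sum_le_exp_norm_sub_sum (θ * I : ℂ) J
  have e : ‖(θ * I : ℂ)‖ = |θ| := by rw [norm_mul, norm_I, mul_one, Complex.norm_real, Real.norm_eq_abs]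
  rw [e] at h1
  refine h1.trans ?_
  rw [← eJ_eq]
  exact eJ_mono J (abs_nonneg θ) h

variable {f : ℝ → ℝ → ℂ} {m : ℕ → ℝ → ℂ} {C R : ℝ}

lemma coef_conv (hC : 0 ≤ C) (hR : 0 ≤ R)
    (hf : ∀ᶠ T in atTop, ∀ h : ℝ, ∀ J : ℕ,
      ‖f T h - ∑ j ∈ Finset.range J, m j T * (h : ℂ) ^ j / (j.factorial : ℂ)‖ ≤ C * eJ J (R * |h|))
    (A : Set ℝ) (hA : ∀ δ : ℝ, 0 < δ → ∃ h ∈ A, 0 < |h| ∧ |h| < δ)
    (hc : ∀ h ∈ A, ∃ l : ℂ, Tendsto (fun T => f T h) atTop (𝓝 l)) (j : ℕ) :
    ∃ l : ℂ, Tendsto (m j) atTop (𝓝 l) := by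
  induction j using Nat.strong_induction_on with
  | _ j ih =>
    choose! l hl using ih
    refine cauchySeq_tendsto_of_complete ?_
    rw [Metric.cauchySeq_iff']
    intro ε hε
    set D : ℝ := C * (R ^ (j + 1) * Real.exp R * j.factorial) + 1 with hD
    have hD0 : 0 < D := by positivity
    obtain ⟨h, hhA, hh0, hh1⟩ := hA (min 1 (ε / (4 * D))) (by positivity)
    have hhle : |h| ≤ 1 := hh1.le.trans (min_le_left _ _)
    have hhe : |h| * (4 * D) ≤ ε := by
      rw [← le_div_iff₀ (by positivity)]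
      exact hh1.le.trans (min_le_right _ _)
    have hh : h ≠ 0 := abs_pos.1 hh0
    have hhC : (h : ℂ) ≠ 0 := by exact_mod_cast hh
    have hfac : (j.factorial : ℂ) ≠ 0 := by exact_mod_cast (Nat.factorial_pos j).ne'
    obtain ⟨l0, hl0⟩ := hc h hhA
    have hr : Tendsto (fun T => (f T h - ∑ i ∈ Finset.range j, m i T * (h : ℂ) ^ i / (i.factorial : ℂ)) *
        ((j.factorial : ℂ) / (h : ℂ) ^ j)) atTop
        (𝓝 ((l0 - ∑ i ∈ Finset.range j, l i * (h : ℂ) ^ i / (i.factorial : ℂ)) *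
          ((j.factorial : ℂ) / (h : ℂ) ^ j))) := by
      refine (hl0.sub (tendsto_finsetSum _ fun i hi => ?_)).mul_const _
      exact ((hl i (Finset.mem_range.1 hi)).mul_const _).div_const _
    set L := (l0 - ∑ i ∈ Finset.range j, l i * (h : ℂ) ^ i / (i.factorial : ℂ)) *
          ((j.factorial : ℂ) / (h : ℂ) ^ j) with hL
    have hev : ∀ᶠ T in atTop, ‖m j T - L‖ < ε / 2 := by
      have h1 := Metric.tendsto_nhds.1 hr (ε / 4) (by positivity)
      filter_upwards [hf, h1] with T hT1 hT2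
      rw [dist_eq_norm] at hT2
      have h3 := hT1 h (j + 1)
      rw [Finset.sum_range_succ] at h3
      set S := f T h - ∑ i ∈ Finset.range j, m i T * (h : ℂ) ^ i / (i.factorial : ℂ) with hS
      have e1 : f T h - (∑ i ∈ Finset.range j, m i T * (h : ℂ) ^ i / (i.factorial : ℂ) +
          m j T * (h : ℂ) ^ j / (j.factorial : ℂ)) = S - m j T * (h : ℂ) ^ j / (j.factorial : ℂ) := by
        rw [hS]; ring
      rw [e1] at h3
      have e2 : m j T - S * ((j.factorial : ℂ) / (h : ℂ) ^ j) =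
          -((S - m j T * (h : ℂ) ^ j / (j.factorial : ℂ)) * ((j.factorial : ℂ) / (h : ℂ) ^ j)) := by
        field_simp
        ring
      have e3 : ‖((j.factorial : ℂ) / (h : ℂ) ^ j)‖ = j.factorial / |h| ^ j := by
        rw [norm_div, norm_pow, Complex.norm_natCast, Complex.norm_real, Real.norm_eq_abs]
      have h4 : ‖m j T - S * ((j.factorial : ℂ) / (h : ℂ) ^ j)‖ ≤ ε / 4 := by
        rw [e2, norm_neg, norm_mul, e3]
        calc _ ≤ (C * eJ (j + 1) (R * |h|)) * (j.factorial / |h| ^ j) := by gcongr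
          _ ≤ (C * ((R * |h|) ^ (j + 1) * Real.exp R)) * (j.factorial / |h| ^ j) := by
              have h5 := eJ_le (j + 1) (r := R * |h|) (by positivity)
              have h6 : Real.exp (R * |h|) ≤ Real.exp R := by
                refine Real.exp_le_exp.2 ?_
                nlinarith
              have h7 : eJ (j + 1) (R * |h|) ≤ (R * |h|) ^ (j + 1) * Real.exp R :=
                h5.trans (by gcongr)
              gcongr
          _ = C * (R ^ (j + 1) * Real.exp R * j.factorial) * |h| := by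
              rw [mul_pow, pow_succ |h|]
              field_simp
          _ ≤ D * |h| := by
              rw [hD]
              nlinarith [abs_nonneg h]
          _ ≤ ε / 4 := by nlinarith
      have e5 : m j T - L = (m j T - S * ((j.factorial : ℂ) / (h : ℂ) ^ j)) +
          (S * ((j.factorial : ℂ) / (h : ℂ) ^ j) - L) := by ring
      rw [e5]
      refine lt_of_le_of_lt (norm_add_le _ _) ?_
      linarith
    obtain ⟨N, hN⟩ := hev.exists_forall_of_atTop
    refine ⟨N, fun n hn => ?_⟩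
    have g1 := hN n hn
    have g2 := hN N le_rfl
    rw [dist_eq_norm]
    have : m j n - m j N = (m j n - L) - (m j N - L) := by ring
    rw [this]
    refine lt_of_le_of_lt (norm_sub_le _ _) ?_
    linarith

/-- the limit function -/
def Sl (l : ℕ → ℂ) (s : ℂ) : ℂ := ∑' j : ℕ, l j * s ^ j / (j.factorial : ℂ)

lemma term_bd {l : ℕ → ℂ} (hR : 0 ≤ R) (hl : ∀ j, ‖l j‖ ≤ C * R ^ j) {s : ℂ} {b : ℝ} (hs : ‖s‖ ≤ b)
    (hC : 0 ≤ C) (j : ℕ) :
    ‖l j * s ^ j / (j.factorial : ℂ)‖ ≤ C * ((R * b) ^ j / (j.factorial : ℝ)) := by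
  rw [norm_div, norm_mul, norm_pow, Complex.norm_natCast]
  have hb : 0 ≤ b := (norm_nonneg s).trans hs
  calc ‖l j‖ * ‖s‖ ^ j / (j.factorial : ℝ) ≤ (C * R ^ j) * b ^ j / (j.factorial : ℝ) := by
        gcongr
        exact hl j
    _ = _ := by rw [mul_pow]; ring

lemma Sl_diff {l : ℕ → ℂ} (hC : 0 ≤ C) (hR : 0 ≤ R) (hl : ∀ j, ‖l j‖ ≤ C * R ^ j) :
    Differentiable ℂ (Sl l) := by
  intro s
  have h := differentiableOn_tsum_of_summable_norm (F := fun (j : ℕ) (s : ℂ) => l j * s ^ j / (j.factorial : ℂ))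
    (u := fun j => C * ((R * (‖s‖ + 1)) ^ j / (j.factorial : ℝ)))
    ((Real.summable_pow_div_factorial _).mul_left C)
    (U := Metric.ball (0:ℂ) (‖s‖ + 1)) (fun j => by
      refine Differentiable.differentiableOn ?_
      fun_prop) Metric.isOpen_ball (fun j w hw => by
      refine term_bd hR hl ?_ hC j
      rw [mem_ball_zero_iff] at hw
      exact hw.le)
  exact h.differentiableAt (Metric.isOpen_ball.mem_nhds (by rw [mem_ball_zero_iff]; linarith))

theorem vit (hC : 0 ≤ C) (hR : 0 ≤ R)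
    (hf : ∀ᶠ T in atTop, ∀ h : ℝ, ∀ J : ℕ,
      ‖f T h - ∑ j ∈ Finset.range J, m j T * (h : ℂ) ^ j / (j.factorial : ℂ)‖ ≤ C * eJ J (R * |h|))
    (hm : ∀ᶠ T in atTop, ∀ j : ℕ, ‖m j T‖ ≤ C * R ^ j)
    (A : Set ℝ) (hA : ∀ δ : ℝ, 0 < δ → ∃ h ∈ A, 0 < |h| ∧ |h| < δ)
    (hc : ∀ h ∈ A, ∃ l : ℂ, Tendsto (fun T => f T h) atTop (𝓝 l)) :
    ∃ S : ℂ → ℂ, Differentiable ℂ S ∧ ∀ h : ℝ, Tendsto (fun T => f T h) atTop (𝓝 (S h)) := by
  choose l hl using coef_conv hC hR hf A hA hc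
  have hlb : ∀ j, ‖l j‖ ≤ C * R ^ j := fun j =>
    le_of_tendsto (hl j).norm (hm.mono fun T hT => hT j)
  refine ⟨Sl l, Sl_diff hC hR hlb, fun h => ?_⟩
  rw [Metric.tendsto_nhds]
  intro ε hε
  have h0 : 0 ≤ R * |h| := by positivity
  have hJ : ∀ᶠ J in atTop, C * eJ J (R * |h|) < ε / 3 := by
    have := (eJ_tendsto (R * |h|)).const_mul C
    rw [mul_zero] at this
    exact this.eventually_lt_const (by positivity)
  obtain ⟨J, hJ⟩ := hJ.exists
  have hsum : Summable (fun j : ℕ => l j * (h : ℂ) ^ j / (j.factorial : ℂ)) := by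
    refine Summable.of_norm_bounded ((Real.summable_pow_div_factorial (R * |h|)).mul_left C) fun j => ?_
    exact term_bd hR hlb (by rw [Complex.norm_real, Real.norm_eq_abs]) hC j
  have htail : ‖Sl l h - ∑ j ∈ Finset.range J, l j * (h : ℂ) ^ j / (j.factorial : ℂ)‖ ≤
      C * eJ J (R * |h|) := by
    have h1 := hsum.sum_add_tsum_nat_add J
    have e : Sl l h - ∑ j ∈ Finset.range J, l j * (h : ℂ) ^ j / (j.factorial : ℂ) =
        ∑' i : ℕ, l (i + J) * (h : ℂ) ^ (i + J) / ((i + J).factorial : ℂ) := by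
      unfold Sl
      rw [← h1]
      ring
    rw [e]
    unfold eJ
    rw [← tsum_mul_left]
    exact tsum_of_norm_bounded ((eJ_summable J _).mul_left C).hasSum
      (fun i => term_bd hR hlb (by rw [Complex.norm_real, Real.norm_eq_abs]) hC (i + J))
  have hpart : Tendsto (fun T => ∑ j ∈ Finset.range J, m j T * (h : ℂ) ^ j / (j.factorial : ℂ)) atTop
      (𝓝 (∑ j ∈ Finset.range J, l j * (h : ℂ) ^ j / (j.factorial : ℂ))) :=
    tendsto_finsetSum _ fun j _ => ((hl j).mul_const _).div_const _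
  have h2 := Metric.tendsto_nhds.1 hpart (ε / 3) (by positivity)
  filter_upwards [hf, h2] with T hT1 hT2
  rw [dist_eq_norm] at hT2 ⊢
  have h3 := hT1 h J
  have e : f T h - Sl l h = (f T h - ∑ j ∈ Finset.range J, m j T * (h : ℂ) ^ j / (j.factorial : ℂ)) +
      ((∑ j ∈ Finset.range J, m j T * (h : ℂ) ^ j / (j.factorial : ℂ)) -
        ∑ j ∈ Finset.range J, l j * (h : ℂ) ^ j / (j.factorial : ℂ)) -
      (Sl l h - ∑ j ∈ Finset.range J, l j * (h : ℂ) ^ j / (j.factorial : ℂ)) := by ring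
  rw [e]
  refine lt_of_le_of_lt (norm_sub_le _ _) ?_
  have h4 := norm_add_le (f T h - ∑ j ∈ Finset.range J, m j T * (h : ℂ) ^ j / (j.factorial : ℂ))
    ((∑ j ∈ Finset.range J, m j T * (h : ℂ) ^ j / (j.factorial : ℂ)) -
        ∑ j ∈ Finset.range J, l j * (h : ℂ) ^ j / (j.factorial : ℂ))
  linarith

end

end Pool.Agent.TH535.SM
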