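import Pool.Agent.TH535.SM.C1
import Pool.Agent.TH535.SM.C2

set_option autoImplicit false

/-! Analytic rigidity of the shifted moments. -/

namespace Pool.Agent.TH535.SM

open Complex MeasureTheory Filter Topology Set
open scoped FourierTransform ComplexConjugate

noncomputable section

/-- the normalisation -/
def Yk (k : ℕ) (T : ℝ) : ℝ := T * Real.log T ^ (k ^ 2)

lemma Yk_pos (k : ℕ) {T : ℝ} (hT : 1 < T) : 0 < Yk k T := by
  have := Real.log_pos hT
  unfold Yk
  positivity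

lemma log_div_tendsto : Tendsto (fun T : ℝ => Real.log T / T) atTop (𝓝 0) := by
  have := Real.isLittleO_log_id_atTop.tendsto_div_nhds_zero
  exact this

lemma ratio_aux (c : ℝ) (k : ℕ) :
    Tendsto (fun T : ℝ => Yk k (T + c * Real.log T) / Yk k T) atTop (𝓝 1) := by
  have h1 : Tendsto (fun T : ℝ => 1 + c * (Real.log T / T)) atTop (𝓝 1) := by
    have := (log_div_tendsto.const_mul c).const_add 1
    rwa [mul_zero, add_zero] at this
  have h2 : Tendsto (fun T : ℝ => 1 + Real.log (1 + c * (Real.log T / T)) / Real.log T) atTop (𝓝 1) := by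
    have h3 : Tendsto (fun T : ℝ => Real.log (1 + c * (Real.log T / T))) atTop (𝓝 0) := by
      have := (Real.continuousAt_log (x := 1) one_ne_zero).tendsto.comp h1
      rwa [Real.log_one] at this
    have h4 := (h3.div_atTop Real.tendsto_log_atTop).const_add 1
    rwa [add_zero] at h4
  have h5 := h1.mul (h2.pow (k ^ 2))
  rw [one_pow, mul_one] at h5
  refine h5.congr' ?_
  filter_upwards [eventually_gt_atTop 1, h1.eventually (lt_mem_nhds one_pos)] with T hT hpos
  have hL := Real.log_pos hT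
  have hT0 : 0 < T := by linarith
  have e1 : T + c * Real.log T = T * (1 + c * (Real.log T / T)) := by field_simp
  unfold Yk
  rw [e1, Real.log_mul hT0.ne' hpos.ne']
  have e2 : 1 + Real.log (1 + c * (Real.log T / T)) / Real.log T =
      (Real.log T + Real.log (1 + c * (Real.log T / T))) / Real.log T := by
    field_simp
  rw [e2, div_pow]
  field_simp

lemma shift_atTop (c : ℝ) : Tendsto (fun T : ℝ => T + c * Real.log T) atTop atTop := by
  have h1 : Tendsto (fun T : ℝ => 1 + c * (Real.log T / T)) atTop (𝓝 1) := by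
    have := (log_div_tendsto.const_mul c).const_add 1
    rwa [mul_zero, add_zero] at this
  have h2 := tendsto_id.atTop_mul_pos one_pos h1
  refine h2.congr' ?_
  filter_upwards [eventually_gt_atTop 0] with T hT
  simp only [id]
  field_simp

variable {k : ℕ}

lemma M_ratio {c0 : ℝ} (hM : Tendsto (fun T => M (zk k) T / Yk k T) atTop (𝓝 c0)) (c : ℝ) :
    Tendsto (fun T => M (zk k) (T + c * Real.log T) / Yk k T) atTop (𝓝 c0) := by
  have h1 := (hM.comp (shift_atTop c)).mul (ratio_aux c k)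
  rw [mul_one] at h1
  refine h1.congr' ?_
  filter_upwards [(shift_atTop c).eventually_gt_atTop 1, eventually_gt_atTop 1] with T h2 h3
  have h4 := Yk_pos k h2
  have h5 := Yk_pos k h3
  simp only [Function.comp]
  field_simp

lemma Yk_atTop (k : ℕ) : Tendsto (Yk k) atTop atTop := by
  refine tendsto_atTop_mono' atTop ?_ tendsto_id
  filter_upwards [eventually_ge_atTop (Real.exp 1)] with T hT
  have hT0 : 0 < T := lt_of_lt_of_le (Real.exp_pos 1) hT
  have hL1 : 1 ≤ Real.log T := by rwa [Real.le_log_iff_exp_le hT0]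
  have : 1 ≤ Real.log T ^ (k ^ 2) := one_le_pow₀ hL1
  unfold Yk
  simp only [id]
  nlinarith

lemma B_small {c0 : ℝ} (hM : Tendsto (fun T => M (zk k) T / Yk k T) atTop (𝓝 c0)) :
    Tendsto (fun T => B (zk k) T / Yk k T) atTop (𝓝 0) := by
  have D := zk_dat k (u := 1) le_rfl
  obtain ⟨C, p, hC, hs⟩ := B_split D
  have h1 := (M_ratio hM 1).sub (M_ratio hM (-1))
  rw [sub_self] at h1
  have h2 : Tendsto (fun T => 1 / Yk k T) atTop (𝓝 0) :=
    tendsto_const_nhds.div_atTop (Yk_atTop k)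
  have h3 := h1.add h2
  rw [add_zero] at h3
  refine tendsto_of_tendsto_of_tendsto_of_le_of_le' tendsto_const_nhds h3 ?_ ?_
  · filter_upwards [eventually_gt_atTop 1] with T hT
    exact div_nonneg (B_nonneg _ _) (Yk_pos k hT).le
  · filter_upwards [eventually_gt_atTop 1, tail_small C p (by linarith)] with T hT ht
    have hY := Yk_pos k hT
    have hL := Real.log_pos hT
    have h4 := hs T (Real.log T) (by linarith) hL.le
    have h5 : C * (1 + T) ^ p * Real.exp (-Real.log T ^ 2 / 8) ≤ 1 := by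
      refine le_trans ?_ ht
      have : (1 + T) ^ p ≤ (1 + 2 * T) ^ p := by
        gcongr
        linarith
      gcongr
    rw [← sub_div, ← add_div]
    refine div_le_div_of_nonneg_right ?_ hY.le
    have e1 : T + 1 * Real.log T = T + Real.log T := by ring
    have e2 : T + -1 * Real.log T = T - Real.log T := by ring
    rw [e1, e2]
    linarith

/-- the spectral window -/
def Ww (k : ℕ) (T : ℝ) : Set ℝ := Ioo (-((k + 1) * Real.log T / (2 * Real.pi))) (1 * Real.log T / (2 * Real.pi))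

/-- the smoothed function -/
def FT (k : ℕ) (T : ℝ) : ℝ → ℂ := Fn (H k 1) T 0

lemma FT_dec (k : ℕ) {T : ℝ} (hT : 1 ≤ T) : Dec (FT k T) :=
  Fn_dec (zk_dat k (u := 1) le_rfl).pg hT (r := 0) (by simp) (by positivity)

/-- the spectral form of the shifted moment -/
def ph2 (k : ℕ) (α T : ℝ) : ℂ := ((Yk k T)⁻¹ : ℝ) *
  ∫ w in Ww k T, cexp ((4 * Real.pi * (α / Real.log T) : ℝ) * w * I) * ((‖𝓕 (FT k T) w‖ ^ 2 : ℝ) : ℂ)

/-- total mass -/
lemma mass_bd {c0 : ℝ} (hM : Tendsto (fun T => M (zk k) T / Yk k T) atTop (𝓝 c0)) :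
    ∀ᶠ T in atTop, (∫ w, ‖𝓕 (FT k T) w‖ ^ 2) / Yk k T ≤ 2 * (|c0| + 1) := by
  have D := zk_dat k (u := 1) le_rfl
  obtain ⟨C, T0, hC, hT0, hc⟩ := comp D (ε := 1 / 2) (by norm_num)
  have hB := B_small hM
  have h1 : Tendsto (fun T => (3 / 2) * (M (zk k) T / Yk k T) + C * (1 / Yk k T + B (zk k) T / Yk k T))
      atTop (𝓝 ((3 / 2) * c0 + C * (0 + 0))) :=
    (hM.const_mul _).add (((tendsto_const_nhds.div_atTop (Yk_atTop k)).add hB).const_mul C)
  have h2 : (3 / 2) * c0 + C * (0 + 0) < 2 * (|c0| + 1) := by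
    have := le_abs_self c0
    have := abs_nonneg c0
    linarith
  filter_upwards [h1.eventually_lt_const h2, eventually_ge_atTop T0, eventually_gt_atTop 1] with T h3 h4 h5
  refine le_trans ?_ h3.le
  have hY := Yk_pos k h5
  have hdec := FT_dec k h5.le
  have h6 := hc T h4 0 (by simp)
  have e1 : CF (Fn (H k 1) T 0) 0 = ((∫ w, ‖𝓕 (FT k T) w‖ ^ 2 : ℝ) : ℂ) := by
    rw [(planch hdec).2, ← integral_complex_ofReal]
    unfold CF FT
    refine integral_congr_ae (Eventually.of_forall fun t => ?_)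
    simp only [neg_zero, add_zero]
    rw [Complex.mul_conj, Complex.normSq_eq_norm_sq]
  have e2 : Cor (zk k) 0 T = ((M (zk k) T : ℝ) : ℂ) := by
    unfold Cor M
    rw [← intervalIntegral.integral_ofReal]
    refine intervalIntegral.integral_congr fun t _ => ?_
    simp only [neg_zero, add_zero]
    rw [Complex.mul_conj, Complex.normSq_eq_norm_sq]
  rw [e1, e2, ← ofReal_sub, Complex.norm_real, Real.norm_eq_abs] at h6
  have h7 := (abs_le.1 h6).2
  have h8 : (∫ w, ‖𝓕 (FT k T) w‖ ^ 2) ≤ (3 / 2) * M (zk k) T + C * (1 + B (zk k) T) := by linarith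
  calc (∫ w, ‖𝓕 (FT k T) w‖ ^ 2) / Yk k T ≤ ((3 / 2) * M (zk k) T + C * (1 + B (zk k) T)) / Yk k T := by
        gcongr
    _ = _ := by field_simp

/-- the shifted moment is the spectral form up to `o(1)` -/
lemma close_spec {c0 : ℝ} (hM : Tendsto (fun T => M (zk k) T / Yk k T) atTop (𝓝 c0)) (α : ℝ) :
    Tendsto (fun T => (((Yk k T)⁻¹ : ℝ) : ℂ) * Cor (zk k) (α / Real.log T) T - ph2 k α T) atTop (𝓝 0) := by
  have D := zk_dat k (u := 1) le_rfl
  have hB := B_small hM
  obtain ⟨Cr, hCr, hr⟩ := out_right D (δ := 1) one_pos (by norm_num)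
  obtain ⟨Cl, hCl, hl⟩ := out_left D (δ := 1) one_pos (by norm_num)
  rw [tendsto_zero_iff_norm_tendsto_zero, Metric.tendsto_nhds]
  intro ε hε
  obtain ⟨C, T0, hC, hT0, hc⟩ := comp D (ε := ε / (2 * (|c0| + 1))) (by positivity)
  have h1 : Tendsto (fun T => ε / (2 * (|c0| + 1)) * (M (zk k) T / Yk k T) +
      (C * (1 / Yk k T + B (zk k) T / Yk k T) + (Cl + Cr) * (1 / Yk k T)))
      atTop (𝓝 (ε / (2 * (|c0| + 1)) * c0 + (C * (0 + 0) + (Cl + Cr) * 0))) :=
    (hM.const_mul _).add ((((tendsto_const_nhds.div_atTop (Yk_atTop k)).add hB).const_mul C).add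
      ((tendsto_const_nhds.div_atTop (Yk_atTop k)).const_mul _))
  have h2 : ε / (2 * (|c0| + 1)) * c0 + (C * (0 + 0) + (Cl + Cr) * 0) < ε := by
    have h3 := le_abs_self c0
    have h4 := abs_nonneg c0
    have h5 : ε / (2 * (|c0| + 1)) * c0 ≤ ε / (2 * (|c0| + 1)) * (|c0| + 1) := by gcongr; linarith
    have h6 : ε / (2 * (|c0| + 1)) * (|c0| + 1) = ε / 2 := by field_simp
    linarith
  filter_upwards [h1.eventually_lt_const h2, eventually_ge_atTop T0, eventually_gt_atTop 1,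
    Real.tendsto_log_atTop.eventually_ge_atTop (|α| + 1)] with T h3 h4 h5 h6
  rw [dist_zero_right, Real.norm_of_nonneg (norm_nonneg _)]
  refine lt_of_le_of_lt ?_ h3
  have habs := abs_nonneg α
  have hY := Yk_pos k h5
  have hL : 0 < Real.log T := by linarith
  have hdec := FT_dec k h5.le
  have ha : |α / Real.log T| ≤ 1 := by
    rw [abs_div, abs_of_pos hL, div_le_one hL]
    linarith
  have h7 := hc T h4 (α / Real.log T) ha
  have h8 := corr hdec (α / Real.log T)
  have hE := exp_int hdec (4 * Real.pi * (α / Real.log T))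
  have hm : MeasurableSet (Ww k T) := measurableSet_Ioo
  have h9 := integral_add_compl hm hE
  have h10 : ‖∫ w in (Ww k T)ᶜ, cexp ((4 * Real.pi * (α / Real.log T) : ℝ) * w * I) *
      ((‖𝓕 (FT k T) w‖ ^ 2 : ℝ) : ℂ)‖ ≤ Cl + Cr := by
    refine (norm_integral_le_integral_norm _).trans ?_
    have e1 : ∀ w : ℝ, ‖cexp ((4 * Real.pi * (α / Real.log T) : ℝ) * w * I) *
        ((‖𝓕 (FT k T) w‖ ^ 2 : ℝ) : ℂ)‖ = ‖𝓕 (FT k T) w‖ ^ 2 := by
      intro w
      rw [norm_mul, ← ofReal_mul, Complex.norm_exp_ofReal_mul_I, one_mul, Complex.norm_real,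
        Real.norm_of_nonneg (by positivity)]
    simp_rw [e1]
    refine (ms_union hdec (A1 := Iic (-((k + 1) * Real.log T / (2 * Real.pi))))
      (A2 := Ici (1 * Real.log T / (2 * Real.pi))) measurableSet_Iic measurableSet_Ici ?_).trans
      (add_le_add (hl T h5.le) (hr T h5.le))
    intro w hw
    simp only [Ww, mem_compl_iff, mem_Ioo, not_and_or, not_lt] at hw
    exact hw
  have e2 : (((Yk k T)⁻¹ : ℝ) : ℂ) * Cor (zk k) (α / Real.log T) T - ph2 k α T =
      (((Yk k T)⁻¹ : ℝ) : ℂ) * (-(CF (FT k T) (α / Real.log T) - Cor (zk k) (α / Real.log T) T) +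
        ∫ w in (Ww k T)ᶜ, cexp ((4 * Real.pi * (α / Real.log T) : ℝ) * w * I) *
          ((‖𝓕 (FT k T) w‖ ^ 2 : ℝ) : ℂ)) := by
    unfold ph2
    rw [h8, ← h9]
    ring
  rw [e2, norm_mul, Complex.norm_real, Real.norm_of_nonneg (by positivity)]
  have h11 := norm_add_le (-(CF (FT k T) (α / Real.log T) - Cor (zk k) (α / Real.log T) T))
    (∫ w in (Ww k T)ᶜ, cexp ((4 * Real.pi * (α / Real.log T) : ℝ) * w * I) *
          ((‖𝓕 (FT k T) w‖ ^ 2 : ℝ) : ℂ))
  rw [norm_neg] at h11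
  have h12 : ‖CF (FT k T) (α / Real.log T) - Cor (zk k) (α / Real.log T) T‖ ≤
      ε / (2 * (|c0| + 1)) * M (zk k) T + C * (1 + B (zk k) T) := h7
  calc (Yk k T)⁻¹ * _ ≤ (Yk k T)⁻¹ * ((ε / (2 * (|c0| + 1)) * M (zk k) T + C * (1 + B (zk k) T)) +
        (Cl + Cr)) := by
        refine mul_le_mul_of_nonneg_left ?_ (by positivity)
        linarith
    _ = _ := by field_simp; ring

/-- the moments of the spectral measure -/
def mk2 (k : ℕ) (x0 : ℝ) (j : ℕ) (T : ℝ) : ℂ := ((Yk k T)⁻¹ : ℝ) *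
  ∫ w in Ww k T, ((4 * Real.pi * w / Real.log T : ℝ) * I) ^ j *
    (cexp ((4 * Real.pi * (x0 / Real.log T) : ℝ) * w * I) * ((‖𝓕 (FT k T) w‖ ^ 2 : ℝ) : ℂ))

lemma win_bd {T w : ℝ} (hT : 1 < T) (hw : w ∈ Ww k T) :
    |4 * Real.pi * w / Real.log T| ≤ 2 * (k + 1) := by
  have hL := Real.log_pos hT
  have hp := Real.pi_pos
  have hk : (0:ℝ) ≤ k := Nat.cast_nonneg k
  obtain ⟨h1, h2⟩ := hw
  rw [abs_le]
  refine ⟨?_, ?_⟩
  · rw [le_div_iff₀ hL]
    have h5 : -((k + 1) * Real.log T / (2 * Real.pi)) = -((k + 1) * Real.log T) / (2 * Real.pi) := by ring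
    rw [h5, div_lt_iff₀ (by positivity)] at h1
    linarith
  · rw [div_le_iff₀ hL]
    rw [lt_div_iff₀ (by positivity)] at h2
    nlinarith

lemma mk_int {T : ℝ} (hT : 1 < T) (x0 : ℝ) (j : ℕ) :
    IntegrableOn (fun w : ℝ => ((4 * Real.pi * w / Real.log T : ℝ) * I) ^ j *
    (cexp ((4 * Real.pi * (x0 / Real.log T) : ℝ) * w * I) * ((‖𝓕 (FT k T) w‖ ^ 2 : ℝ) : ℂ))) (Ww k T) := by
  have hdec := FT_dec k hT.le
  have hc : Continuous (fun w : ℝ => ((4 * Real.pi * w / Real.log T : ℝ) * I) ^ j *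
    (cexp ((4 * Real.pi * (x0 / Real.log T) : ℝ) * w * I) * ((‖𝓕 (FT k T) w‖ ^ 2 : ℝ) : ℂ))) := by
    have := ft_cont hdec
    fun_prop
  exact (hc.continuousOn.integrableOn_Icc (a := -((k + 1) * Real.log T / (2 * Real.pi)))
    (b := 1 * Real.log T / (2 * Real.pi))).mono_set Ioo_subset_Icc_self

lemma win_mass {T : ℝ} (hT : 1 < T) {c : ℝ} (h : (∫ w, ‖𝓕 (FT k T) w‖ ^ 2) / Yk k T ≤ c) {e : ℝ}
    (he : 0 ≤ e) : (Yk k T)⁻¹ * ∫ w in Ww k T, e * ‖𝓕 (FT k T) w‖ ^ 2 ≤ c * e := by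
  have hY := Yk_pos k hT
  have hdec := FT_dec k hT.le
  have h1 : ∫ w in Ww k T, ‖𝓕 (FT k T) w‖ ^ 2 ≤ ∫ w, ‖𝓕 (FT k T) w‖ ^ 2 :=
    setIntegral_le_integral (planch hdec).1 (Eventually.of_forall fun w => by positivity)
  rw [integral_const_mul]
  calc (Yk k T)⁻¹ * (e * ∫ w in Ww k T, ‖𝓕 (FT k T) w‖ ^ 2) ≤
        (Yk k T)⁻¹ * (e * ∫ w, ‖𝓕 (FT k T) w‖ ^ 2) := by gcongr
    _ = ((∫ w, ‖𝓕 (FT k T) w‖ ^ 2) / Yk k T) * e := by rw [div_eq_inv_mul]; ring
    _ ≤ c * e := by gcongr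

theorem rigid (k : ℕ) (A : Set ℝ) (h0 : (0:ℝ) ∈ A) (x0 : ℝ)
    (hA : ∀ δ : ℝ, 0 < δ → ∃ α ∈ A, 0 < |α - x0| ∧ |α - x0| < δ)
    (hc : ∀ α ∈ A, ∃ l : ℂ, Tendsto (fun T => (((Yk k T)⁻¹ : ℝ) : ℂ) * Cor (zk k) (α / Real.log T) T)
      atTop (𝓝 l)) :
    ∃ G : ℂ → ℂ, Differentiable ℂ G ∧ ∀ α : ℝ,
      Tendsto (fun T => (((Yk k T)⁻¹ : ℝ) : ℂ) * Cor (zk k) (α / Real.log T) T) atTop (𝓝 (G α)) := by
  -- the unshifted moment
  obtain ⟨l0, hl0⟩ := hc 0 h0
  have hM : Tendsto (fun T => M (zk k) T / Yk k T) atTop (𝓝 l0.re) := by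
    have h1 := (Complex.continuous_re.tendsto l0).comp hl0
    refine h1.congr fun T => ?_
    have e2 : Cor (zk k) (0 / Real.log T) T = ((M (zk k) T : ℝ) : ℂ) := by
      unfold Cor M
      rw [← intervalIntegral.integral_ofReal]
      refine intervalIntegral.integral_congr fun t _ => ?_
      simp only [zero_div, neg_zero, add_zero]
      rw [Complex.mul_conj, Complex.normSq_eq_norm_sq]
    simp only [Function.comp]
    rw [e2, ← ofReal_mul, Complex.ofReal_re, div_eq_inv_mul]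
  set c0 := l0.re with hc0
  have hmass := mass_bd hM
  have hcs := fun α => close_spec hM α
  set C : ℝ := 2 * (|c0| + 1) with hC
  set R : ℝ := 2 * (k + 1) with hR
  have hC0 : 0 ≤ C := by positivity
  have hR0 : 0 ≤ R := by positivity
  obtain ⟨S, hS, hlim⟩ := vit (f := fun T h => ph2 k (x0 + h) T) (m := mk2 k x0) hC0 hR0
    (by
      filter_upwards [hmass, eventually_gt_atTop 1] with T h1 h2 h J
      have hY := Yk_pos k h2
      have hL := Real.log_pos h2
      have hdec := FT_dec k h2.le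
      have hm : MeasurableSet (Ww k T) := measurableSet_Ioo
      have e1 : ph2 k (x0 + h) T - ∑ j ∈ Finset.range J, mk2 k x0 j T * (h : ℂ) ^ j / (j.factorial : ℂ) =
          (((Yk k T)⁻¹ : ℝ) : ℂ) * ∫ w in Ww k T,
            (cexp ((h * (4 * Real.pi * w / Real.log T) : ℝ) * I) -
              ∑ j ∈ Finset.range J, ((h * (4 * Real.pi * w / Real.log T) : ℝ) * I) ^ j / (j.factorial : ℂ)) *
            (cexp ((4 * Real.pi * (x0 / Real.log T) : ℝ) * w * I) * ((‖𝓕 (FT k T) w‖ ^ 2 : ℝ) : ℂ)) := by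
        unfold ph2 mk2
        have e2 : ∑ j ∈ Finset.range J, (((Yk k T)⁻¹ : ℝ) : ℂ) * (∫ w in Ww k T,
            ((4 * Real.pi * w / Real.log T : ℝ) * I) ^ j *
            (cexp ((4 * Real.pi * (x0 / Real.log T) : ℝ) * w * I) * ((‖𝓕 (FT k T) w‖ ^ 2 : ℝ) : ℂ))) *
              (h : ℂ) ^ j / (j.factorial : ℂ) =
            (((Yk k T)⁻¹ : ℝ) : ℂ) * ∫ w in Ww k T, ∑ j ∈ Finset.range J,
              ((h : ℂ) ^ j / (j.factorial : ℂ)) * (((4 * Real.pi * w / Real.log T : ℝ) * I) ^ j *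
            (cexp ((4 * Real.pi * (x0 / Real.log T) : ℝ) * w * I) * ((‖𝓕 (FT k T) w‖ ^ 2 : ℝ) : ℂ))) := by
          rw [integral_finsetSum _ fun j _ => (mk_int h2 x0 j).const_mul _, Finset.mul_sum]
          refine Finset.sum_congr rfl fun j _ => ?_
          rw [integral_const_mul]
          ring
        rw [e2, ← mul_sub, ← integral_sub (exp_int hdec _).integrableOn
          (integrable_finsetSum _ fun j _ => (mk_int h2 x0 j).const_mul _)]
        congr 1
        refine setIntegral_congr_fun hm fun w _ => ?_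
        rw [sub_mul, Finset.sum_mul]
        congr 1
        · rw [← mul_assoc, ← Complex.exp_add]
          congr 2
          push_cast
          field_simp
          ring
        · refine Finset.sum_congr rfl fun j _ => ?_
          push_cast
          rw [mul_assoc (h : ℂ), mul_pow (h : ℂ)]
          ring
      rw [e1, norm_mul, Complex.norm_real, Real.norm_of_nonneg (by positivity)]
      have h3 : ‖∫ w in Ww k T,
            (cexp ((h * (4 * Real.pi * w / Real.log T) : ℝ) * I) -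
              ∑ j ∈ Finset.range J, ((h * (4 * Real.pi * w / Real.log T) : ℝ) * I) ^ j / (j.factorial : ℂ)) *
            (cexp ((4 * Real.pi * (x0 / Real.log T) : ℝ) * w * I) * ((‖𝓕 (FT k T) w‖ ^ 2 : ℝ) : ℂ))‖ ≤
          ∫ w in Ww k T, eJ J (R * |h|) * ‖𝓕 (FT k T) w‖ ^ 2 := by
        refine norm_integral_le_of_norm_le ((planch hdec).1.integrableOn.const_mul _) ?_
        refine (ae_restrict_iff' hm).2 (Eventually.of_forall fun w hw => ?_)
        rw [norm_mul, norm_mul, ← ofReal_mul (4 * Real.pi * (x0 / Real.log T)) w,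
          Complex.norm_exp_ofReal_mul_I, one_mul, Complex.norm_real,
          Real.norm_of_nonneg (by positivity)]
        refine mul_le_mul_of_nonneg_right (exp_taylor J _ ?_) (by positivity)
        rw [abs_mul, mul_comm]
        exact mul_le_mul_of_nonneg_right (win_bd h2 hw) (abs_nonneg h)
      refine (mul_le_mul_of_nonneg_left h3 (by positivity)).trans ?_
      exact win_mass h2 h1 (eJ_nonneg J (by positivity)))
    (by
      filter_upwards [hmass, eventually_gt_atTop 1] with T h1 h2 j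
      have hY := Yk_pos k h2
      have hdec := FT_dec k h2.le
      have hm : MeasurableSet (Ww k T) := measurableSet_Ioo
      unfold mk2
      rw [norm_mul, Complex.norm_real, Real.norm_of_nonneg (by positivity)]
      have h3 : ‖∫ w in Ww k T, ((4 * Real.pi * w / Real.log T : ℝ) * I) ^ j *
            (cexp ((4 * Real.pi * (x0 / Real.log T) : ℝ) * w * I) * ((‖𝓕 (FT k T) w‖ ^ 2 : ℝ) : ℂ))‖ ≤
          ∫ w in Ww k T, R ^ j * ‖𝓕 (FT k T) w‖ ^ 2 := by
        refine norm_integral_le_of_norm_le ((planch hdec).1.integrableOn.const_mul _) ?_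
        refine (ae_restrict_iff' hm).2 (Eventually.of_forall fun w hw => ?_)
        rw [norm_mul, norm_mul, ← ofReal_mul (4 * Real.pi * (x0 / Real.log T)) w,
          Complex.norm_exp_ofReal_mul_I, one_mul, Complex.norm_real,
          Real.norm_of_nonneg (by positivity : 0 ≤ ‖𝓕 (FT k T) w‖ ^ 2), norm_pow, norm_mul, norm_I,
          mul_one, Complex.norm_real, Real.norm_eq_abs]
        have := win_bd h2 hw
        gcongr
      refine (mul_le_mul_of_nonneg_left h3 (by positivity)).trans ?_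
      exact win_mass h2 h1 (by positivity))
    {h : ℝ | x0 + h ∈ A}
    (by
      intro δ hδ
      obtain ⟨α, hα, h1, h2⟩ := hA δ hδ
      refine ⟨α - x0, ?_, h1, h2⟩
      simpa using hα)
    (by
      intro h hh
      obtain ⟨l, hl⟩ := hc (x0 + h) hh
      refine ⟨l, ?_⟩
      have := hl.sub (hcs (x0 + h))
      rw [sub_zero] at this
      refine this.congr fun T => ?_
      ring)
  refine ⟨fun s => S (s - x0), hS.comp (by fun_prop), fun α => ?_⟩
  have h1 := (hlim (α - x0)).add (hcs α)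
  rw [add_zero] at h1
  have e : ((α - x0 : ℝ) : ℂ) = (α : ℂ) - x0 := by push_cast; rfl
  rw [e] at h1
  refine h1.congr fun T => ?_
  rw [add_sub_cancel]
  ring

end

end Pool.Agent.TH535.SM
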