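import Pool.Agent.H667R2.FG.Basic
import Pool.Agent.TH535.SM.C2

set_option autoImplicit false

/-! The limits of the unitary matrix integrals are restrictions of entire functions. -/

namespace Pool.Agent.TH535.SM

open Complex MeasureTheory Filter Topology Set
open Pool.Agent.H667R2.FG (Mat UU haarU)
open scoped ComplexConjugate Polynomial Matrix

noncomputable section

/-- polynomials with continuous coefficients -/
def CP {X : Type*} [TopologicalSpace X] (p : X → ℂ[X]) : Prop := ∀ j, Continuous fun x => (p x).coeff j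

section CP
variable {X : Type*} [TopologicalSpace X]

lemma CP.const (p : ℂ[X]) : CP (fun _ : X => p) := fun _ => continuous_const

lemma CP.C {a : X → ℂ} (ha : Continuous a) : CP (fun x => Polynomial.C (a x)) := by
  intro j
  simp only [Polynomial.coeff_C]
  split_ifs
  · exact ha
  · exact continuous_const

lemma CP.add {p q : X → ℂ[X]} (hp : CP p) (hq : CP q) : CP (fun x => p x + q x) := by
  intro j
  simp only [Polynomial.coeff_add]
  exact (hp j).add (hq j)

lemma CP.mul {p q : X → ℂ[X]} (hp : CP p) (hq : CP q) : CP (fun x => p x * q x) := by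
  intro j
  simp only [Polynomial.coeff_mul]
  exact continuous_finsetSum _ fun i _ => (hp i.1).mul (hq i.2)

lemma CP.sum {ι : Type*} (s : Finset ι) {p : ι → X → ℂ[X]} (hp : ∀ i, CP (p i)) :
    CP (fun x => ∑ i ∈ s, p i x) := by
  intro j
  simp only [Polynomial.finsetSum_coeff]
  exact continuous_finsetSum _ fun i _ => hp i j

lemma CP.prod {ι : Type*} (s : Finset ι) {p : ι → X → ℂ[X]} (hp : ∀ i, CP (p i)) :
    CP (fun x => ∏ i ∈ s, p i x) := by
  classical
  induction s using Finset.induction_on with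
  | empty => simpa using CP.const 1
  | insert a s ha ih =>
    have := (hp a).mul ih
    simpa [Finset.prod_insert ha] using this

lemma CP.pow {p : X → ℂ[X]} (hp : CP p) (k : ℕ) : CP (fun x => p x ^ k) := by
  induction k with
  | zero => simpa using CP.const (X := X) 1
  | succ n ih => simpa [pow_succ] using ih.mul hp

end CP

variable {k N : ℕ}

/-- the polynomial `det (1 - X U)` -/
def pU (N : ℕ) (U : Mat N) : ℂ[X] :=
  Matrix.det ((Polynomial.X : ℂ[X]) • (-U).map Polynomial.C + (1 : Mat N).map Polynomial.C)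

lemma pU_eval (U : Mat N) (z : ℂ) : (pU N U).eval z = Matrix.det (1 - z • U) := by
  unfold pU
  have h := RingHom.map_det (Polynomial.evalRingHom z)
    ((Polynomial.X : ℂ[X]) • (-U).map Polynomial.C + (1 : Mat N).map Polynomial.C)
  rw [Polynomial.coe_evalRingHom] at h
  rw [h]
  congr 1
  ext i j
  simp [Matrix.map_apply, Matrix.one_apply]
  split_ifs <;> simp <;> ring

lemma pU_deg (U : Mat N) : (pU N U).natDegree ≤ N := by
  have := Polynomial.natDegree_det_X_add_C_le (-U) (1 : Mat N)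
  rwa [Fintype.card_fin] at this

lemma pU_cp : CP (fun U : UU N => pU N (U : Mat N)) := by
  have he : ∀ i j : Fin N, CP (fun U : UU N => ((Polynomial.X : ℂ[X]) • (-(U : Mat N)).map Polynomial.C +
      (1 : Mat N).map Polynomial.C) i j) := by
    intro i j
    have h1 : Continuous (fun U : UU N => -((U : Mat N) i j)) := by
      have h2 : Continuous (fun U : UU N => (U : Mat N)) := continuous_subtype_val
      exact (h2.matrix_elem i j).neg
    have := ((CP.const (Polynomial.X : ℂ[X])).mul (CP.C h1)).add (CP.const (X := UU N)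
      (((1 : Mat N).map Polynomial.C) i j))
    exact this
  unfold pU
  simp only [Matrix.det_apply']
  exact CP.sum _ fun σ => (CP.const _).mul (CP.prod _ fun i => he _ _)

/-- the coefficients of the `k`-th power -/
def qc (k N : ℕ) (U : Mat N) (j : ℕ) : ℂ := ((pU N U) ^ k).coeff j

lemma qc_cont (k N j : ℕ) : Continuous (fun U : UU N => qc k N (U : Mat N) j) := (pU_cp.pow k) j

lemma qc_sum (U : Mat N) (z : ℂ) : Matrix.det (1 - z • U) ^ k =
    ∑ j ∈ Finset.range (k * N + 1), qc k N U j * z ^ j := by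
  rw [← pU_eval, ← Polynomial.eval_pow]
  refine Polynomial.eval_eq_sum_range' ?_ z
  have h1 := Polynomial.natDegree_pow_le (p := pU N U) (n := k)
  have h2 := Nat.mul_le_mul_left k (pU_deg U)
  omega

lemma qc_scale (U : Mat N) (ζ : ℂ) (j : ℕ) : qc k N (ζ • U) j = qc k N U j * ζ ^ j := by
  unfold qc
  have h : pU N (ζ • U) = (pU N U).comp (Polynomial.C ζ * Polynomial.X) := by
    refine Polynomial.funext fun z => ?_
    rw [pU_eval, Polynomial.eval_comp, pU_eval]
    congr 2
    simp only [Polynomial.eval_mul, Polynomial.eval_C, Polynomial.eval_X]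
    rw [smul_smul, mul_comm]
  rw [h, ← Polynomial.pow_comp, Polynomial.comp_C_mul_X_coeff]

/-- the scalar unitary matrix -/
def gz (N : ℕ) (θ : ℝ) : UU N := ⟨cexp (θ * I) • (1 : Mat N), by
  rw [Matrix.mem_unitaryGroup_iff, star_smul, star_one, smul_mul_smul_comm, mul_one]
  have : cexp (θ * I) * star (cexp (θ * I)) = 1 := by
    change cexp (θ * I) * conj (cexp (θ * I)) = 1
    rw [Complex.mul_conj, Complex.normSq_eq_norm_sq, Complex.norm_exp_ofReal_mul_I]
    norm_num
  rw [this, one_smul]⟩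

lemma gz_mul (θ : ℝ) (U : UU N) : ((gz N θ * U : UU N) : Mat N) = cexp (θ * I) • (U : Mat N) := by
  change (cexp (θ * I) • (1 : Mat N)) * (U : Mat N) = _
  rw [smul_mul_assoc, one_mul]

lemma int_cont {f : UU N → ℂ} (hf : Continuous f) : Integrable f (haarU N) :=
  hf.integrable_of_hasCompactSupport (HasCompactSupport.of_compactSpace f)

lemma orth {j l : ℕ} (h : j ≠ l) :
    ∫ U : UU N, qc k N (U : Mat N) j * conj (qc k N (U : Mat N) l) ∂(haarU N) = 0 := by
  set E := ∫ U : UU N, qc k N (U : Mat N) j * conj (qc k N (U : Mat N) l) ∂(haarU N) with hE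
  have hne : ((j : ℝ) - l) ≠ 0 := by
    rw [sub_ne_zero]
    exact_mod_cast h
  set θ : ℝ := Real.pi / ((j : ℝ) - l) with hθ
  have h1 := integral_mul_left_eq_self (μ := haarU N)
    (fun U : UU N => qc k N (U : Mat N) j * conj (qc k N (U : Mat N) l)) (gz N θ)
  simp only [gz_mul, qc_scale] at h1
  have h2 : ∀ U : UU N, qc k N (U : Mat N) j * cexp (θ * I) ^ j *
      conj (qc k N (U : Mat N) l * cexp (θ * I) ^ l) =
      (-1) * (qc k N (U : Mat N) j * conj (qc k N (U : Mat N) l)) := by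
    intro U
    have e1 : cexp (θ * I) ^ j * conj (cexp (θ * I) ^ l) = -1 := by
      rw [map_pow, ← Complex.exp_conj, ← Complex.exp_nat_mul, ← Complex.exp_nat_mul, ← Complex.exp_add,
        ← Complex.exp_pi_mul_I]
      congr 1
      rw [map_mul, Complex.conj_ofReal, conj_I, hθ]
      have hneC : ((j : ℂ) - l) ≠ 0 := by
        have : (((j : ℝ) - l : ℝ) : ℂ) ≠ 0 := by exact_mod_cast hne
        push_cast at this
        exact this
      push_cast
      field_simp
      ring
    rw [map_mul]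
    linear_combination (qc k N (U : Mat N) j * conj (qc k N (U : Mat N) l)) * e1
  rw [integral_congr_ae (Eventually.of_forall h2), integral_const_mul, ← hE] at h1
  have h3 : (2:ℂ) * E = 0 := by linear_combination -h1
  simpa using h3

/-- the unitary matrix integral -/
def Wk (k : ℕ) (α : ℝ) (N : ℕ) : ℂ := ((N : ℂ) ^ (k ^ 2))⁻¹ *
  ∫ U : UU N, Matrix.det (1 - cexp (-(I * α / N)) • (U : Mat N)) ^ k *
    Matrix.det (1 - cexp (-(I * α / N)) • (U : Mat N)ᴴ) ^ k ∂(haarU N)

/-- the weights -/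
def cc (k N j : ℕ) : ℝ := ((N : ℝ) ^ (k ^ 2))⁻¹ * ∫ U : UU N, ‖qc k N (U : Mat N) j‖ ^ 2 ∂(haarU N)

lemma cc_nonneg (k N j : ℕ) : 0 ≤ cc k N j :=
  mul_nonneg (by positivity) (integral_nonneg fun _ => by positivity)

lemma star_sum (U : Mat N) (z : ℂ) : Matrix.det (1 - z • Uᴴ) ^ k =
    ∑ l ∈ Finset.range (k * N + 1), conj (qc k N U l) * z ^ l := by
  have h1 : (1 - z • Uᴴ) = (1 - (conj z) • U)ᴴ := by
    rw [Matrix.conjTranspose_sub, Matrix.conjTranspose_one, Matrix.conjTranspose_smul]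
    congr 2
    exact (Complex.conj_conj z).symm
  rw [h1, Matrix.det_conjTranspose, ← star_pow, qc_sum]
  change conj (∑ j ∈ Finset.range (k * N + 1), qc k N U j * (conj z) ^ j) = _
  rw [map_sum]
  refine Finset.sum_congr rfl fun l _ => ?_
  rw [map_mul, map_pow, Complex.conj_conj]

lemma Wk_eq (k : ℕ) (α : ℝ) {N : ℕ} (hN : 1 ≤ N) : Wk k α N =
    ∑ j ∈ Finset.range (k * N + 1), (cc k N j : ℂ) * cexp ((α * (-(2 * j / N)) : ℝ) * I) := by
  unfold Wk
  set z := cexp (-(I * α / N)) with hz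
  have hN0 : (N : ℂ) ≠ 0 := by
    have : N ≠ 0 := by omega
    exact_mod_cast this
  have e1 : ∀ U : UU N, Matrix.det (1 - z • (U : Mat N)) ^ k * Matrix.det (1 - z • (U : Mat N)ᴴ) ^ k =
      ∑ j ∈ Finset.range (k * N + 1), ∑ l ∈ Finset.range (k * N + 1),
        z ^ j * z ^ l * (qc k N (U : Mat N) j * conj (qc k N (U : Mat N) l)) := by
    intro U
    rw [qc_sum, star_sum, Finset.sum_mul_sum]
    refine Finset.sum_congr rfl fun j _ => Finset.sum_congr rfl fun l _ => ?_
    ring
  have hcont : ∀ j l : ℕ, Continuous (fun U : UU N => z ^ j * z ^ l *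
      (qc k N (U : Mat N) j * conj (qc k N (U : Mat N) l))) := fun j l =>
    continuous_const.mul ((qc_cont k N j).mul (Complex.continuous_conj.comp (qc_cont k N l)))
  rw [integral_congr_ae (Eventually.of_forall e1),
    integral_finsetSum _ fun j _ => int_cont (continuous_finsetSum _ fun l _ => hcont j l)]
  rw [Finset.mul_sum]
  refine Finset.sum_congr rfl fun j hj => ?_
  rw [integral_finsetSum _ fun l _ => int_cont (hcont j l)]
  have e2 : ∀ l ∈ Finset.range (k * N + 1), l ≠ j → ∫ U : UU N, z ^ j * z ^ l *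
      (qc k N (U : Mat N) j * conj (qc k N (U : Mat N) l)) ∂(haarU N) = 0 := by
    intro l _ hl
    rw [integral_const_mul, orth (Ne.symm hl), mul_zero]
  rw [Finset.sum_eq_single j (fun l hl hlj => e2 l hl hlj) (fun h => absurd hj h), integral_const_mul]
  have e3 : ∫ U : UU N, qc k N (U : Mat N) j * conj (qc k N (U : Mat N) j) ∂(haarU N) =
      ((∫ U : UU N, ‖qc k N (U : Mat N) j‖ ^ 2 ∂(haarU N) : ℝ) : ℂ) := by
    rw [← integral_complex_ofReal]
    refine integral_congr_ae (Eventually.of_forall fun U => ?_)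
    simp only
    rw [Complex.mul_conj, Complex.normSq_eq_norm_sq]
  have e4 : z ^ j * z ^ j = cexp ((α * (-(2 * j / N)) : ℝ) * I) := by
    rw [hz, ← Complex.exp_nat_mul, ← Complex.exp_add]
    congr 1
    push_cast
    field_simp
    ring
  rw [e3, e4]
  unfold cc
  push_cast
  ring

lemma cc_sum (k : ℕ) {N : ℕ} (hN : 1 ≤ N) :
    Wk k 0 N = ((∑ j ∈ Finset.range (k * N + 1), cc k N j : ℝ) : ℂ) := by
  rw [Wk_eq k 0 hN]
  push_cast
  refine Finset.sum_congr rfl fun j _ => ?_
  simp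

/-- limits of the matrix integrals are restrictions of entire functions -/
theorem W_entire (k : ℕ) (W : ℝ → ℂ) (hW : ∀ α, Tendsto (fun N => Wk k α N) atTop (𝓝 (W α))) :
    ∃ G : ℂ → ℂ, Differentiable ℂ G ∧ ∀ α : ℝ, W α = G α := by
  have hceil : Tendsto (fun T : ℝ => ⌈T⌉₊) atTop atTop := tendsto_nat_ceil_atTop
  have hconv : ∀ h : ℝ, Tendsto (fun T : ℝ => Wk k h ⌈T⌉₊) atTop (𝓝 (W h)) := fun h =>
    (hW h).comp hceil
  set C : ℝ := ‖W 0‖ + 1 with hC
  set R : ℝ := 2 * k with hR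
  have hmass : ∀ᶠ T : ℝ in atTop, ∑ j ∈ Finset.range (k * ⌈T⌉₊ + 1), cc k ⌈T⌉₊ j ≤ C := by
    have h1 := (hconv 0).norm
    filter_upwards [h1.eventually_lt_const (u := ‖W 0‖ + 1) (by linarith),
      hceil.eventually_ge_atTop 1] with T h2 h3
    rw [cc_sum k h3, Complex.norm_real] at h2
    exact (Real.le_norm_self _).trans h2.le
  have hθ : ∀ T : ℝ, 1 ≤ ⌈T⌉₊ → ∀ i ∈ Finset.range (k * ⌈T⌉₊ + 1), |-(2 * (i : ℝ) / ⌈T⌉₊)| ≤ R := by
    intro T hT i hi
    have hN : (0:ℝ) < ⌈T⌉₊ := by exact_mod_cast hT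
    rw [Finset.mem_range] at hi
    have hi' : (i : ℝ) ≤ k * ⌈T⌉₊ := by
      have : i ≤ k * ⌈T⌉₊ := by omega
      exact_mod_cast this
    rw [abs_neg, abs_of_nonneg (by positivity), div_le_iff₀ hN, hR]
    linarith
  obtain ⟨S, hS, hlim⟩ := vit (f := fun T h => Wk k h ⌈T⌉₊)
    (m := fun j T => ∑ i ∈ Finset.range (k * ⌈T⌉₊ + 1), (cc k ⌈T⌉₊ i : ℂ) *
      ((-(2 * (i : ℝ) / ⌈T⌉₊) : ℝ) * I) ^ j) (C := C) (R := R) (by positivity) (by positivity)
    (by
      filter_upwards [hmass, hceil.eventually_ge_atTop 1] with T h1 h2 h J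
      have e1 : Wk k h ⌈T⌉₊ - ∑ j ∈ Finset.range J, (∑ i ∈ Finset.range (k * ⌈T⌉₊ + 1),
          (cc k ⌈T⌉₊ i : ℂ) * ((-(2 * (i : ℝ) / ⌈T⌉₊) : ℝ) * I) ^ j) * (h : ℂ) ^ j / (j.factorial : ℂ) =
          ∑ i ∈ Finset.range (k * ⌈T⌉₊ + 1), (cc k ⌈T⌉₊ i : ℂ) *
            (cexp ((h * (-(2 * (i : ℝ) / ⌈T⌉₊)) : ℝ) * I) -
              ∑ j ∈ Finset.range J, ((h * (-(2 * (i : ℝ) / ⌈T⌉₊)) : ℝ) * I) ^ j / (j.factorial : ℂ)) := by
        rw [Wk_eq k h h2]
        have e2 : ∑ j ∈ Finset.range J, (∑ i ∈ Finset.range (k * ⌈T⌉₊ + 1),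
          (cc k ⌈T⌉₊ i : ℂ) * ((-(2 * (i : ℝ) / ⌈T⌉₊) : ℝ) * I) ^ j) * (h : ℂ) ^ j / (j.factorial : ℂ) =
          ∑ i ∈ Finset.range (k * ⌈T⌉₊ + 1), ∑ j ∈ Finset.range J,
            (cc k ⌈T⌉₊ i : ℂ) * (((h * (-(2 * (i : ℝ) / ⌈T⌉₊)) : ℝ) * I) ^ j / (j.factorial : ℂ)) := by
          rw [Finset.sum_comm]
          refine Finset.sum_congr rfl fun j _ => ?_
          rw [Finset.sum_mul, Finset.sum_div]
          refine Finset.sum_congr rfl fun i _ => ?_
          push_cast
          rw [mul_assoc (h : ℂ), mul_pow (h : ℂ)]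
          ring
        rw [e2, ← Finset.sum_sub_distrib]
        refine Finset.sum_congr rfl fun i _ => ?_
        rw [← Finset.mul_sum, mul_sub]
      rw [e1]
      refine (norm_sum_le _ _).trans ?_
      calc _ ≤ ∑ i ∈ Finset.range (k * ⌈T⌉₊ + 1), cc k ⌈T⌉₊ i * eJ J (R * |h|) := by
            refine Finset.sum_le_sum fun i hi => ?_
            rw [norm_mul, Complex.norm_real, Real.norm_of_nonneg (cc_nonneg _ _ _)]
            refine mul_le_mul_of_nonneg_left (exp_taylor J _ ?_) (cc_nonneg _ _ _)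
            rw [abs_mul, mul_comm]
            exact mul_le_mul_of_nonneg_right (hθ T h2 i hi) (abs_nonneg h)
        _ = (∑ i ∈ Finset.range (k * ⌈T⌉₊ + 1), cc k ⌈T⌉₊ i) * eJ J (R * |h|) := by
            rw [Finset.sum_mul]
        _ ≤ C * eJ J (R * |h|) := mul_le_mul_of_nonneg_right h1 (eJ_nonneg J (by positivity)))
    (by
      filter_upwards [hmass, hceil.eventually_ge_atTop 1] with T h1 h2 j
      refine (norm_sum_le _ _).trans ?_
      calc _ ≤ ∑ i ∈ Finset.range (k * ⌈T⌉₊ + 1), cc k ⌈T⌉₊ i * R ^ j := by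
            refine Finset.sum_le_sum fun i hi => ?_
            rw [norm_mul, Complex.norm_real, Real.norm_of_nonneg (cc_nonneg _ _ _), norm_pow, norm_mul,
              norm_I, mul_one, Complex.norm_real, Real.norm_eq_abs]
            refine mul_le_mul_of_nonneg_left ?_ (cc_nonneg _ _ _)
            have := hθ T h2 i hi
            gcongr
        _ = (∑ i ∈ Finset.range (k * ⌈T⌉₊ + 1), cc k ⌈T⌉₊ i) * R ^ j := by rw [Finset.sum_mul]
        _ ≤ C * R ^ j := mul_le_mul_of_nonneg_right h1 (by positivity))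
    Set.univ
    (fun δ hδ => ⟨δ / 2, mem_univ _, by rw [abs_of_pos (by positivity)]; positivity,
      by rw [abs_of_pos (by positivity)]; linarith⟩)
    (fun h _ => ⟨W h, hconv h⟩)
  exact ⟨S, hS, fun α => tendsto_nhds_unique (hconv α) (hlim α)⟩

end

end Pool.Agent.TH535.SM
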