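import Pool.Agent.TH535.SM.C3
import Pool.Agent.TH535.SM.C4

set_option autoImplicit false

/-! Shifts in an arithmetic progression determine the shifted moments. -/

namespace Pool.Agent.TH535.SM

open Complex MeasureTheory Filter Topology Set
open scoped FourierTransform ComplexConjugate

noncomputable section

/-- approximation of exponentials by exponentials with frequencies in a progression -/
lemma approx {a b h : ℝ} (hab : a ≤ b) (hh : 0 < h) (hb : b - a < 2 * Real.pi / h) (α : ℝ) {ε : ℝ}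
    (hε : 0 < ε) : ∃ c : ℤ →₀ ℂ, ∀ v ∈ Icc a b,
      ‖cexp ((α * v : ℝ) * I) - c.sum (fun n z => z * cexp ((n * h * v : ℝ) * I))‖ ≤ ε := by
  set P : ℝ := 2 * Real.pi / h with hP
  have hP0 : 0 < P := by positivity
  have : Fact (0 < P) := ⟨hP0⟩
  set f : ℝ → ℂ := fun v => cexp ((α * min v b : ℝ) * I) +
    ((max (v - b) 0 / (a + P - b) : ℝ) : ℂ) * (cexp ((α * a : ℝ) * I) - cexp ((α * b : ℝ) * I)) with hf
  have hfc : Continuous f := by
    rw [hf]
    fun_prop
  have hden : 0 < a + P - b := by linarith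
  have hend : f a = f (a + P) := by
    simp only [hf]
    have e1 : min a b = a := min_eq_left hab
    have e2 : max (a - b) 0 = 0 := max_eq_right (by linarith)
    have e3 : min (a + P) b = b := min_eq_right (by linarith)
    have e4 : max (a + P - b) 0 = a + P - b := max_eq_left hden.le
    rw [e1, e2, e3, e4, div_self hden.ne', zero_div]
    push_cast
    ring
  set F : C(AddCircle P, ℂ) := ⟨AddCircle.liftIco P a f, AddCircle.liftIco_continuous hend hfc.continuousOn⟩
    with hF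
  have hdense := span_fourier_closure_eq_top (T := P)
  have hmem : F ∈ (Submodule.span ℂ (range (@fourier P))).topologicalClosure := by
    rw [hdense]; trivial
  rw [← SetLike.mem_coe, Submodule.topologicalClosure_coe, Metric.mem_closure_iff] at hmem
  obtain ⟨g, hg, hgd⟩ := hmem ε hε
  rw [SetLike.mem_coe, Finsupp.mem_span_range_iff_exists_finsupp] at hg
  obtain ⟨c, hc⟩ := hg
  refine ⟨c, fun v hv => ?_⟩
  have h1 : ‖F (v : AddCircle P) - g (v : AddCircle P)‖ ≤ ε := by
    rw [← dist_eq_norm]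
    exact (ContinuousMap.dist_apply_le_dist _).trans hgd.le
  have e1 : F (v : AddCircle P) = cexp ((α * v : ℝ) * I) := by
    have hvI : v ∈ Ico a (a + P) := ⟨hv.1, by linarith [hv.2]⟩
    simp only [hF, ContinuousMap.coe_mk]
    rw [AddCircle.liftIco_coe_apply hvI]
    simp only [hf]
    rw [min_eq_left hv.2, max_eq_right (by linarith [hv.2]), zero_div]
    push_cast
    ring
  have e2 : g (v : AddCircle P) = c.sum (fun n z => z * cexp ((n * h * v : ℝ) * I)) := by
    rw [← hc]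
    simp only [Finsupp.sum, ContinuousMap.coe_sum, Finset.sum_apply, ContinuousMap.coe_smul, Pi.smul_apply,
      smul_eq_mul]
    refine Finset.sum_congr rfl fun n _ => ?_
    rw [fourier_coe_apply]
    congr 2
    have hp : (Real.pi : ℂ) ≠ 0 := by exact_mod_cast Real.pi_ne_zero
    have hh' : (h : ℂ) ≠ 0 := by exact_mod_cast hh.ne'
    rw [hP]
    push_cast
    field_simp
  rw [e1, e2] at h1
  exact h1

variable {k u : ℕ}

/-- the spectral window -/
def Wu (k u : ℕ) (T : ℝ) : Set ℝ :=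
  Ioo (-((k + 1 / (u : ℝ)) * Real.log T / (2 * Real.pi))) ((1 / (u : ℝ)) * Real.log T / (2 * Real.pi))

/-- the smoothed function -/
def Fu (k u : ℕ) (T : ℝ) : ℝ → ℂ := Fn (H k u) T 0

lemma Fu_dec (k : ℕ) (hu : 1 ≤ u) {T : ℝ} (hT : 1 ≤ T) : Dec (Fu k u T) :=
  Fn_dec (zk_dat k hu).pg hT (r := 0) (by simp) (by positivity)

/-- the spectral form of the shifted moment -/
def pu (k u : ℕ) (α T : ℝ) : ℂ := ((Yk k T)⁻¹ : ℝ) *
  ∫ w in Wu k u T, cexp ((4 * Real.pi * (α / Real.log T) : ℝ) * w * I) * ((‖𝓕 (Fu k u T) w‖ ^ 2 : ℝ) : ℂ)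

/-- total mass -/
lemma mass_bdu (hu : 1 ≤ u) {c0 : ℝ} (hM : Tendsto (fun T => M (zk k) T / Yk k T) atTop (𝓝 c0)) :
    ∀ᶠ T in atTop, (∫ w, ‖𝓕 (Fu k u T) w‖ ^ 2) / Yk k T ≤ 2 * (|c0| + 1) := by
  have D := zk_dat k hu
  obtain ⟨C, T0, hC, hT0, hc⟩ := comp D (ε := 1 / 2) (by norm_num)
  have hB := B_small hM
  have h1 : Tendsto (fun T => (3 / 2) * (M (zk k) T / Yk k T) + C * (1 / Yk k T + B (zk k) T / Yk k T))
      atTop (𝓝 ((3 / 2) * c0 + C * (0 + 0))) :=
    (hM.const_mul _).add (((tendsto_const_nhds.div_atTop (Yk_atTop k)).add hB).const_mul C)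
  have h2 : (3 / 2) * c0 + C * (0 + 0) < 2 * (|c0| + 1) := by
    have := le_abs_self c0
    have := abs_nonneg c0
    linarith
  filter_upwards [h1.eventually_lt_const h2, eventually_ge_atTop T0, eventually_gt_atTop 1] with T h3 h4 h5
  refine le_trans ?_ h3.le
  have hY := Yk_pos k h5
  have hdec := Fu_dec k hu h5.le
  have h6 := hc T h4 0 (by simp)
  have e1 : CF (Fn (H k u) T 0) 0 = ((∫ w, ‖𝓕 (Fu k u T) w‖ ^ 2 : ℝ) : ℂ) := by
    rw [(planch hdec).2, ← integral_complex_ofReal]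
    unfold CF Fu
    refine integral_congr_ae (Eventually.of_forall fun t => ?_)
    simp only [neg_zero, add_zero]
    rw [Complex.mul_conj, Complex.normSq_eq_norm_sq]
  have e2 : Cor (zk k) 0 T = ((M (zk k) T : ℝ) : ℂ) := by
    unfold Cor M
    rw [← intervalIntegral.integral_ofReal]
    refine intervalIntegral.integral_congr fun t _ => ?_
    simp only [neg_zero, add_zero]
    rw [Complex.mul_conj, Complex.normSq_eq_norm_sq]
  rw [e1, e2, ← ofReal_sub, Complex.norm_real, Real.norm_eq_abs] at h6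
  have h7 := (abs_le.1 h6).2
  have h8 : (∫ w, ‖𝓕 (Fu k u T) w‖ ^ 2) ≤ (3 / 2) * M (zk k) T + C * (1 + B (zk k) T) := by linarith
  calc (∫ w, ‖𝓕 (Fu k u T) w‖ ^ 2) / Yk k T ≤ ((3 / 2) * M (zk k) T + C * (1 + B (zk k) T)) / Yk k T := by
        gcongr
    _ = _ := by field_simp

/-- the shifted moment is the spectral form up to `o(1)` -/
lemma close_u (hu : 1 ≤ u) {c0 : ℝ} (hM : Tendsto (fun T => M (zk k) T / Yk k T) atTop (𝓝 c0)) (α : ℝ) :
    Tendsto (fun T => (((Yk k T)⁻¹ : ℝ) : ℂ) * Cor (zk k) (α / Real.log T) T - pu k u α T) atTop (𝓝 0) := by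
  have D := zk_dat k hu
  have hB := B_small hM
  have hu0 : (0:ℝ) < u := by exact_mod_cast hu
  obtain ⟨Cr, hCr, hr⟩ := out_right D (δ := 1 / (u : ℝ)) (by positivity) (by field_simp; exact le_rfl)
  obtain ⟨Cl, hCl, hl⟩ := out_left D (δ := 1 / (u : ℝ)) (by positivity) (by field_simp; exact le_rfl)
  rw [tendsto_zero_iff_norm_tendsto_zero, Metric.tendsto_nhds]
  intro ε hε
  obtain ⟨C, T0, hC, hT0, hc⟩ := comp D (ε := ε / (2 * (|c0| + 1))) (by positivity)
  have h1 : Tendsto (fun T => ε / (2 * (|c0| + 1)) * (M (zk k) T / Yk k T) +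
      (C * (1 / Yk k T + B (zk k) T / Yk k T) + (Cl + Cr) * (1 / Yk k T)))
      atTop (𝓝 (ε / (2 * (|c0| + 1)) * c0 + (C * (0 + 0) + (Cl + Cr) * 0))) :=
    (hM.const_mul _).add ((((tendsto_const_nhds.div_atTop (Yk_atTop k)).add hB).const_mul C).add
      ((tendsto_const_nhds.div_atTop (Yk_atTop k)).const_mul _))
  have h2 : ε / (2 * (|c0| + 1)) * c0 + (C * (0 + 0) + (Cl + Cr) * 0) < ε := by
    have h3 := le_abs_self c0
    have h4 := abs_nonneg c0
    have h5 : ε / (2 * (|c0| + 1)) * c0 ≤ ε / (2 * (|c0| + 1)) * (|c0| + 1) := by gcongr; linarith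
    have h6 : ε / (2 * (|c0| + 1)) * (|c0| + 1) = ε / 2 := by field_simp
    linarith
  filter_upwards [h1.eventually_lt_const h2, eventually_ge_atTop T0, eventually_gt_atTop 1,
    Real.tendsto_log_atTop.eventually_ge_atTop (|α| + 1)] with T h3 h4 h5 h6
  rw [dist_zero_right, Real.norm_of_nonneg (norm_nonneg _)]
  refine lt_of_le_of_lt ?_ h3
  have habs := abs_nonneg α
  have hY := Yk_pos k h5
  have hL : 0 < Real.log T := by linarith
  have hdec := Fu_dec k hu h5.le
  have ha : |α / Real.log T| ≤ 1 := by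
    rw [abs_div, abs_of_pos hL, div_le_one hL]
    linarith
  have h7 := hc T h4 (α / Real.log T) ha
  have h8 := corr hdec (α / Real.log T)
  have hE := exp_int hdec (4 * Real.pi * (α / Real.log T))
  have hm : MeasurableSet (Wu k u T) := measurableSet_Ioo
  have h9 := integral_add_compl hm hE
  have h10 : ‖∫ w in (Wu k u T)ᶜ, cexp ((4 * Real.pi * (α / Real.log T) : ℝ) * w * I) *
      ((‖𝓕 (Fu k u T) w‖ ^ 2 : ℝ) : ℂ)‖ ≤ Cl + Cr := by
    refine (norm_integral_le_integral_norm _).trans ?_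
    have e1 : ∀ w : ℝ, ‖cexp ((4 * Real.pi * (α / Real.log T) : ℝ) * w * I) *
        ((‖𝓕 (Fu k u T) w‖ ^ 2 : ℝ) : ℂ)‖ = ‖𝓕 (Fu k u T) w‖ ^ 2 := by
      intro w
      rw [norm_mul, ← ofReal_mul, Complex.norm_exp_ofReal_mul_I, one_mul, Complex.norm_real,
        Real.norm_of_nonneg (by positivity)]
    simp_rw [e1]
    refine (ms_union hdec (A1 := Iic (-((k + 1 / (u : ℝ)) * Real.log T / (2 * Real.pi))))
      (A2 := Ici ((1 / (u : ℝ)) * Real.log T / (2 * Real.pi))) measurableSet_Iic measurableSet_Ici ?_).trans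
      (add_le_add (hl T h5.le) (hr T h5.le))
    intro w hw
    simp only [Wu, mem_compl_iff, mem_Ioo, not_and_or, not_lt] at hw
    exact hw
  have e2 : (((Yk k T)⁻¹ : ℝ) : ℂ) * Cor (zk k) (α / Real.log T) T - pu k u α T =
      (((Yk k T)⁻¹ : ℝ) : ℂ) * (-(CF (Fu k u T) (α / Real.log T) - Cor (zk k) (α / Real.log T) T) +
        ∫ w in (Wu k u T)ᶜ, cexp ((4 * Real.pi * (α / Real.log T) : ℝ) * w * I) *
          ((‖𝓕 (Fu k u T) w‖ ^ 2 : ℝ) : ℂ)) := by
    unfold pu
    rw [h8, ← h9]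
    ring
  rw [e2, norm_mul, Complex.norm_real, Real.norm_of_nonneg (by positivity)]
  have h11 := norm_add_le (-(CF (Fu k u T) (α / Real.log T) - Cor (zk k) (α / Real.log T) T))
    (∫ w in (Wu k u T)ᶜ, cexp ((4 * Real.pi * (α / Real.log T) : ℝ) * w * I) *
          ((‖𝓕 (Fu k u T) w‖ ^ 2 : ℝ) : ℂ))
  rw [norm_neg] at h11
  have h12 : ‖CF (Fu k u T) (α / Real.log T) - Cor (zk k) (α / Real.log T) T‖ ≤
      ε / (2 * (|c0| + 1)) * M (zk k) T + C * (1 + B (zk k) T) := h7
  calc (Yk k T)⁻¹ * _ ≤ (Yk k T)⁻¹ * ((ε / (2 * (|c0| + 1)) * M (zk k) T + C * (1 + B (zk k) T)) +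
        (Cl + Cr)) := by
        refine mul_le_mul_of_nonneg_left ?_ (by positivity)
        linarith
    _ = _ := by field_simp; ring

lemma winu_mem (hu : 1 ≤ u) {T w : ℝ} (hT : 1 < T) (hw : w ∈ Wu k u T) :
    4 * Real.pi * w / Real.log T ∈ Icc (-(2 * (k + 1 / (u : ℝ)))) (2 * (1 / (u : ℝ))) := by
  have hL := Real.log_pos hT
  have hp := Real.pi_pos
  obtain ⟨h1, h2⟩ := hw
  refine ⟨?_, ?_⟩
  · rw [le_div_iff₀ hL]
    have h5 : -((k + 1 / (u : ℝ)) * Real.log T / (2 * Real.pi)) =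
      -((k + 1 / (u : ℝ)) * Real.log T) / (2 * Real.pi) := by ring
    rw [h5, div_lt_iff₀ (by positivity)] at h1
    linarith
  · rw [div_le_iff₀ hL]
    rw [lt_div_iff₀ (by positivity)] at h2
    nlinarith

lemma Eu_int (hu : 1 ≤ u) {T : ℝ} (hT : 1 < T) (b : ℝ) :
    IntegrableOn (fun w : ℝ => cexp (b * w * I) * ((‖𝓕 (Fu k u T) w‖ ^ 2 : ℝ) : ℂ)) (Wu k u T) :=
  (exp_int (Fu_dec k hu hT.le) b).integrableOn

/-- linear relations between exponentials pass to the spectral forms -/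
lemma pu_approx (hu : 1 ≤ u) {T C : ℝ} (hT : 1 < T) (hC : (∫ w, ‖𝓕 (Fu k u T) w‖ ^ 2) / Yk k T ≤ C)
    {α h ε : ℝ} (hε : 0 ≤ ε) (c : ℤ →₀ ℂ)
    (hc : ∀ v ∈ Icc (-(2 * (k + 1 / (u : ℝ)))) (2 * (1 / (u : ℝ))),
      ‖cexp ((α * v : ℝ) * I) - c.sum (fun n z => z * cexp ((n * h * v : ℝ) * I))‖ ≤ ε) :
    ‖pu k u α T - c.sum (fun n z => z * pu k u (n * h) T)‖ ≤ C * ε := by
  have hY := Yk_pos k hT
  have hL := Real.log_pos hT
  have hdec := Fu_dec k hu hT.le
  have hm : MeasurableSet (Wu k u T) := measurableSet_Ioo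
  have e1 : pu k u α T - c.sum (fun n z => z * pu k u (n * h) T) =
      (((Yk k T)⁻¹ : ℝ) : ℂ) * ∫ w in Wu k u T,
        (cexp ((α * (4 * Real.pi * w / Real.log T) : ℝ) * I) -
          c.sum (fun n z => z * cexp ((n * h * (4 * Real.pi * w / Real.log T) : ℝ) * I))) *
          ((‖𝓕 (Fu k u T) w‖ ^ 2 : ℝ) : ℂ) := by
    have e2 : c.sum (fun n z => z * pu k u (n * h) T) = (((Yk k T)⁻¹ : ℝ) : ℂ) *
        ∫ w in Wu k u T, ∑ n ∈ c.support, c n * (cexp ((4 * Real.pi * (n * h / Real.log T) : ℝ) * w * I) *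
          ((‖𝓕 (Fu k u T) w‖ ^ 2 : ℝ) : ℂ)) := by
      rw [integral_finsetSum _ fun n _ => (Eu_int hu hT _).const_mul _, Finset.mul_sum]
      unfold Finsupp.sum
      refine Finset.sum_congr rfl fun n _ => ?_
      rw [integral_const_mul]
      unfold pu
      ring
    rw [e2]
    unfold pu
    rw [← mul_sub, ← integral_sub (Eu_int hu hT _)
      (integrable_finsetSum _ fun n _ => (Eu_int hu hT _).const_mul _)]
    congr 1
    refine setIntegral_congr_fun hm fun w _ => ?_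
    simp only [Finsupp.sum]
    rw [sub_mul, Finset.sum_mul]
    congr 1
    · congr 2
      push_cast
      field_simp
    · refine Finset.sum_congr rfl fun n _ => ?_
      rw [mul_assoc (c n)]
      congr 3
      push_cast
      field_simp
  rw [e1, norm_mul, Complex.norm_real, Real.norm_of_nonneg (by positivity)]
  have h3 : ‖∫ w in Wu k u T,
        (cexp ((α * (4 * Real.pi * w / Real.log T) : ℝ) * I) -
          c.sum (fun n z => z * cexp ((n * h * (4 * Real.pi * w / Real.log T) : ℝ) * I))) *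
          ((‖𝓕 (Fu k u T) w‖ ^ 2 : ℝ) : ℂ)‖ ≤ ∫ w in Wu k u T, ε * ‖𝓕 (Fu k u T) w‖ ^ 2 := by
    refine norm_integral_le_of_norm_le ((planch hdec).1.integrableOn.const_mul _) ?_
    refine (ae_restrict_iff' hm).2 (Eventually.of_forall fun w hw => ?_)
    rw [norm_mul, Complex.norm_real, Real.norm_of_nonneg (by positivity)]
    exact mul_le_mul_of_nonneg_right (hc _ (winu_mem hu hT hw)) (by positivity)
  have h4 : ∫ w in Wu k u T, ‖𝓕 (Fu k u T) w‖ ^ 2 ≤ ∫ w, ‖𝓕 (Fu k u T) w‖ ^ 2 :=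
    setIntegral_le_integral (planch hdec).1 (Eventually.of_forall fun w => by positivity)
  rw [integral_const_mul] at h3
  calc _ ≤ (Yk k T)⁻¹ * (ε * ∫ w in Wu k u T, ‖𝓕 (Fu k u T) w‖ ^ 2) :=
        mul_le_mul_of_nonneg_left h3 (by positivity)
    _ ≤ (Yk k T)⁻¹ * (ε * ∫ w, ‖𝓕 (Fu k u T) w‖ ^ 2) := by gcongr
    _ = ((∫ w, ‖𝓕 (Fu k u T) w‖ ^ 2) / Yk k T) * ε := by rw [div_eq_inv_mul]; ring
    _ ≤ C * ε := by gcongr

lemma pu_conj (α T : ℝ) : pu k u (-α) T = conj (pu k u α T) := by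
  unfold pu
  rw [map_mul, Complex.conj_ofReal, ← integral_conj]
  congr 1
  refine integral_congr_ae (Eventually.of_forall fun w => ?_)
  simp only
  rw [map_mul, Complex.conj_ofReal, ← Complex.exp_conj, map_mul, map_mul, Complex.conj_ofReal,
    Complex.conj_ofReal, conj_I]
  congr 2
  push_cast
  ring

/-- same for the matrix integrals -/
lemma Wk_approx (hu : 1 ≤ u) {N : ℕ} (hN : 1 ≤ N) {α h ε : ℝ} (c : ℤ →₀ ℂ)
    (hc : ∀ v ∈ Icc (-(2 * (k + 1 / (u : ℝ)))) (2 * (1 / (u : ℝ))),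
      ‖cexp ((α * v : ℝ) * I) - c.sum (fun n z => z * cexp ((n * h * v : ℝ) * I))‖ ≤ ε) :
    ‖Wk k α N - c.sum (fun n z => z * Wk k (n * h) N)‖ ≤ ‖Wk k 0 N‖ * ε := by
  have hN0 : (0:ℝ) < N := by exact_mod_cast hN
  have hu0 : (0:ℝ) < u := by exact_mod_cast hu
  have e1 : Wk k α N - c.sum (fun n z => z * Wk k (n * h) N) =
      ∑ j ∈ Finset.range (k * N + 1), (cc k N j : ℂ) * (cexp ((α * (-(2 * j / N)) : ℝ) * I) -
        c.sum (fun n z => z * cexp ((n * h * (-(2 * j / N)) : ℝ) * I))) := by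
    have e2 : c.sum (fun n z => z * Wk k (n * h) N) = ∑ j ∈ Finset.range (k * N + 1), (cc k N j : ℂ) *
        c.sum (fun n z => z * cexp ((n * h * (-(2 * j / N)) : ℝ) * I)) := by
      simp only [Finsupp.sum, Wk_eq k _ hN, Finset.mul_sum]
      rw [Finset.sum_comm]
      refine Finset.sum_congr rfl fun j _ => Finset.sum_congr rfl fun n _ => ?_
      ring
    rw [Wk_eq k α hN, e2, ← Finset.sum_sub_distrib]
    refine Finset.sum_congr rfl fun j _ => ?_
    ring
  rw [e1]
  have e3 : ‖Wk k 0 N‖ = ∑ j ∈ Finset.range (k * N + 1), cc k N j := by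
    rw [cc_sum k hN, Complex.norm_real, Real.norm_of_nonneg (Finset.sum_nonneg fun j _ => cc_nonneg _ _ _)]
  rw [e3, Finset.sum_mul]
  refine (norm_sum_le _ _).trans (Finset.sum_le_sum fun j hj => ?_)
  rw [norm_mul, Complex.norm_real, Real.norm_of_nonneg (cc_nonneg _ _ _)]
  refine mul_le_mul_of_nonneg_left (hc _ ⟨?_, ?_⟩) (cc_nonneg _ _ _)
  · rw [Finset.mem_range] at hj
    have hj' : (j : ℝ) ≤ k * N := by
      have : j ≤ k * N := by omega
      exact_mod_cast this
    have h1 : (2 * j / N : ℝ) ≤ 2 * k := by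
      rw [div_le_iff₀ hN0]
      linarith
    have h2 : (0:ℝ) < 1 / u := by positivity
    linarith
  · have h1 : (0:ℝ) ≤ 2 * j / N := by positivity
    have h2 : (0:ℝ) < 1 / u := by positivity
    linarith

lemma Wk_conj (α : ℝ) {N : ℕ} (hN : 1 ≤ N) : Wk k (-α) N = conj (Wk k α N) := by
  rw [Wk_eq k _ hN, Wk_eq k _ hN, map_sum]
  refine Finset.sum_congr rfl fun j _ => ?_
  rw [map_mul, Complex.conj_ofReal, ← Complex.exp_conj, map_mul, Complex.conj_ofReal, conj_I]
  congr 2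
  push_cast
  ring

/-- `h < π/k` leaves room for the window -/
lemma room (k : ℕ) {h : ℝ} (hh : 0 < h) (hk : k * h < Real.pi) : ∃ u : ℕ, 1 ≤ u ∧
    2 * (1 / (u : ℝ)) - -(2 * (k + 1 / (u : ℝ))) < 2 * Real.pi / h := by
  obtain ⟨u, hu⟩ := exists_nat_gt (2 * h / (Real.pi - k * h))
  have hd : 0 < Real.pi - k * h := by linarith
  have hu0 : (0:ℝ) < u := lt_of_le_of_lt (by positivity) hu
  refine ⟨u, by exact_mod_cast hu0, ?_⟩
  rw [div_lt_iff₀ hd] at hu
  rw [lt_div_iff₀ hh]
  have e : (2 * (1 / (u : ℝ)) - -(2 * (k + 1 / (u : ℝ)))) * h = 2 * (k * h) + 2 * (2 * h / u) := by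
    field_simp
    ring
  rw [e]
  have h1 : 2 * h / u < Real.pi - k * h := by
    rw [div_lt_iff₀ hu0]
    linarith
  linarith

/-- the hypothesis of convergence at `0` -/
lemma hM_of {l0 : ℂ} (hl0 : Tendsto (fun T => (((Yk k T)⁻¹ : ℝ) : ℂ) * Cor (zk k) (0 / Real.log T) T)
      atTop (𝓝 l0)) : Tendsto (fun T => M (zk k) T / Yk k T) atTop (𝓝 l0.re) := by
  have h1 := (Complex.continuous_re.tendsto l0).comp hl0
  refine h1.congr fun T => ?_
  have e2 : Cor (zk k) (0 / Real.log T) T = ((M (zk k) T : ℝ) : ℂ) := by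
    unfold Cor M
    rw [← intervalIntegral.integral_ofReal]
    refine intervalIntegral.integral_congr fun t _ => ?_
    simp only [zero_div, neg_zero, add_zero]
    rw [Complex.mul_conj, Complex.normSq_eq_norm_sq]
  simp only [Function.comp]
  rw [e2, ← ofReal_mul, Complex.ofReal_re, div_eq_inv_mul]

/-- convergence at the points of a progression gives convergence everywhere, and the limits are
controlled by linear combinations -/
theorem disc {h : ℝ} (hh : 0 < h) (hk : k * h < Real.pi)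
    (hc : ∀ n : ℕ, ∃ l : ℂ, Tendsto (fun T => (((Yk k T)⁻¹ : ℝ) : ℂ) * Cor (zk k) (n * h / Real.log T) T)
      atTop (𝓝 l)) :
    ∃ (G : ℝ → ℂ) (u : ℕ) (C : ℝ), 1 ≤ u ∧ 2 * (1 / (u : ℝ)) - -(2 * (k + 1 / (u : ℝ))) < 2 * Real.pi / h ∧
      0 ≤ C ∧ (∀ α, Tendsto (fun T => (((Yk k T)⁻¹ : ℝ) : ℂ) * Cor (zk k) (α / Real.log T) T) atTop
        (𝓝 (G α))) ∧ (∀ α, G (-α) = conj (G α)) ∧
      ∀ (α ε : ℝ) (c : ℤ →₀ ℂ), 0 ≤ ε → (∀ v ∈ Icc (-(2 * (k + 1 / (u : ℝ)))) (2 * (1 / (u : ℝ))),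
        ‖cexp ((α * v : ℝ) * I) - c.sum (fun n z => z * cexp ((n * h * v : ℝ) * I))‖ ≤ ε) →
        ‖G α - c.sum (fun n z => z * G (n * h))‖ ≤ C * ε := by
  obtain ⟨u, hu, hroom⟩ := room k hh hk
  obtain ⟨l0, hl0⟩ := hc 0
  have hM := hM_of (k := k) (l0 := l0) (by simpa using hl0)
  set c0 := l0.re with hc0
  have hmass := mass_bdu (u := u) hu hM
  set C : ℝ := 2 * (|c0| + 1) with hC
  have hC0 : 0 < C := by positivity
  have hcs := fun α => close_u (u := u) hu hM α
  have hu0 : (0:ℝ) < u := by exact_mod_cast hu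
  -- convergence of the spectral forms on the progression
  have hn : ∀ n : ℕ, ∃ l : ℂ, Tendsto (fun T => pu k u (n * h) T) atTop (𝓝 l) := by
    intro n
    obtain ⟨l, hl⟩ := hc n
    refine ⟨l, ?_⟩
    have := hl.sub (hcs (n * h))
    rw [sub_zero] at this
    refine this.congr fun T => ?_
    ring
  have hz : ∀ n : ℤ, ∃ l : ℂ, Tendsto (fun T => pu k u (n * h) T) atTop (𝓝 l) := by
    intro n
    obtain ⟨m, rfl | rfl⟩ := n.eq_nat_or_neg
    · simpa using hn m
    · obtain ⟨l, hl⟩ := hn m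
      refine ⟨conj l, ?_⟩
      have := (Complex.continuous_conj.tendsto l).comp hl
      refine this.congr fun T => ?_
      simp only [Function.comp]
      rw [← pu_conj]
      congr 1
      push_cast
      ring
  choose l hl using hz
  have hsum : ∀ c : ℤ →₀ ℂ, Tendsto (fun T => c.sum (fun n z => z * pu k u (n * h) T)) atTop
      (𝓝 (c.sum (fun n z => z * l n))) := by
    intro c
    simp only [Finsupp.sum]
    exact tendsto_finsetSum _ fun n _ => (hl n).const_mul _
  have hex : ∀ α : ℝ, ∃ g : ℂ, Tendsto (fun T => pu k u α T) atTop (𝓝 g) := by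
    intro α
    refine cauchySeq_tendsto_of_complete ?_
    rw [Metric.cauchySeq_iff]
    intro ε hε
    obtain ⟨c, hcc⟩ := approx (a := -(2 * (k + 1 / (u : ℝ)))) (b := 2 * (1 / (u : ℝ)))
      (by have : (0:ℝ) < 1 / u := by positivity
          have : (0:ℝ) ≤ k := Nat.cast_nonneg k
          linarith) hh hroom α (ε := ε / (4 * C)) (by positivity)
    have h1 := hsum c
    rw [Metric.tendsto_nhds] at h1
    have h2 := (h1 (ε / 4) (by positivity)).and (hmass.and (eventually_gt_atTop 1))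
    rw [eventually_atTop] at h2
    obtain ⟨T0, hT0⟩ := h2
    have key : ∀ T, T0 ≤ T → ‖pu k u α T - c.sum (fun n z => z * l n)‖ < ε / 2 := by
      intro T hT
      obtain ⟨h3, h4, h5⟩ := hT0 T hT
      have h6 := pu_approx hu h5 h4 (α := α) (h := h) (ε := ε / (4 * C)) (by positivity) c hcc
      have e : C * (ε / (4 * C)) = ε / 4 := by field_simp
      rw [e] at h6
      rw [dist_eq_norm] at h3
      have h7 := norm_add_le (pu k u α T - c.sum (fun n z => z * pu k u (n * h) T))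
        (c.sum (fun n z => z * pu k u (n * h) T) - c.sum (fun n z => z * l n))
      rw [sub_add_sub_cancel] at h7
      linarith
    refine ⟨T0, fun m hm n hn => ?_⟩
    rw [dist_eq_norm]
    have h8 := key m hm
    have h9 := key n hn
    have h10 := norm_sub_le (pu k u α m - c.sum (fun n z => z * l n)) (pu k u α n - c.sum (fun n z => z * l n))
    rw [sub_sub_sub_cancel_right] at h10
    linarith
  choose G hG using hex
  refine ⟨G, u, C, hu, hroom, hC0.le, fun α => ?_, fun α => ?_, fun α ε c hε hcc => ?_⟩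
  · have := (hG α).add (hcs α)
    rw [add_zero] at this
    refine this.congr fun T => ?_
    ring
  · have h1 := (Complex.continuous_conj.tendsto (G α)).comp (hG α)
    refine tendsto_nhds_unique (hG (-α)) (h1.congr fun T => ?_)
    simp only [Function.comp]
    rw [pu_conj]
  · have h1 : Tendsto (fun T => c.sum (fun n z => z * pu k u (n * h) T)) atTop
        (𝓝 (c.sum (fun n z => z * G (n * h)))) := by
      simp only [Finsupp.sum]
      exact tendsto_finsetSum _ fun n _ => (hG _).const_mul _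
    refine le_of_tendsto ((hG α).sub h1).norm ?_
    filter_upwards [hmass, eventually_gt_atTop 1] with T h4 h5
    exact pu_approx hu h5 h4 hε c hcc

/-- identification of the limits -/
theorem disc_ident {h : ℝ} (hh : 0 < h) (hk : k * h < Real.pi) {a : ℝ} {W : ℝ → ℂ}
    (hW : ∀ α, Tendsto (fun N => Wk k α N) atTop (𝓝 (W α)))
    (hc : ∀ n : ℕ, Tendsto (fun T => (((Yk k T)⁻¹ : ℝ) : ℂ) * Cor (zk k) (n * h / Real.log T) T)
      atTop (𝓝 (a * W (n * h)))) (α : ℝ) :
    Tendsto (fun T => (((Yk k T)⁻¹ : ℝ) : ℂ) * Cor (zk k) (α / Real.log T) T) atTop (𝓝 (a * W α)) := by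
  obtain ⟨G, u, C, hu, hroom, hC, hG, hGc, hGa⟩ := disc hh hk fun n => ⟨_, hc n⟩
  have hu0 : (0:ℝ) < u := by exact_mod_cast hu
  have hWc : ∀ α, W (-α) = conj (W α) := by
    intro α
    have h1 := (Complex.continuous_conj.tendsto (W α)).comp (hW α)
    refine tendsto_nhds_unique (hW (-α)) (h1.congr' ?_)
    filter_upwards [eventually_ge_atTop 1] with N hN
    simp only [Function.comp]
    rw [Wk_conj α hN]
  have hn : ∀ n : ℕ, G (n * h) = a * W (n * h) := fun n => tendsto_nhds_unique (hG _) (hc n)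
  have hz : ∀ n : ℤ, G (n * h) = a * W (n * h) := by
    intro n
    obtain ⟨m, rfl | rfl⟩ := n.eq_nat_or_neg
    · simpa using hn m
    · have e : (((-(m : ℤ) : ℤ) : ℝ) * h) = -((m : ℝ) * h) := by push_cast; ring
      rw [e, hGc, hWc, hn, map_mul, Complex.conj_ofReal]
  suffices h1 : G α = a * W α by
    rw [← h1]
    exact hG α
  rw [← sub_eq_zero, ← norm_eq_zero]
  refine le_antisymm (le_of_forall_pos_le_add fun η hη => ?_) (norm_nonneg _)
  rw [zero_add]
  set D : ℝ := C + |a| * ‖W 0‖ + 1 with hD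
  have hD0 : 0 < D := by positivity
  obtain ⟨c, hcc⟩ := approx (a := -(2 * (k + 1 / (u : ℝ)))) (b := 2 * (1 / (u : ℝ)))
      (by have : (0:ℝ) < 1 / u := by positivity
          have : (0:ℝ) ≤ k := Nat.cast_nonneg k
          linarith) hh hroom α (ε := η / D) (by positivity)
  have h2 := hGa α (η / D) c (by positivity) hcc
  have h3 : ‖W α - c.sum (fun n z => z * W (n * h))‖ ≤ ‖W 0‖ * (η / D) := by
    have h4 : Tendsto (fun N => c.sum (fun n z => z * Wk k (n * h) N)) atTop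
        (𝓝 (c.sum (fun n z => z * W (n * h)))) := by
      simp only [Finsupp.sum]
      exact tendsto_finsetSum _ fun n _ => (hW _).const_mul _
    refine le_of_tendsto_of_tendsto ((hW α).sub h4).norm ((hW 0).norm.mul_const _) ?_
    filter_upwards [eventually_ge_atTop 1] with N hN
    exact Wk_approx hu hN c hcc
  have e1 : c.sum (fun n z => z * G (n * h)) = a * c.sum (fun n z => z * W (n * h)) := by
    simp only [Finsupp.sum, Finset.mul_sum]
    refine Finset.sum_congr rfl fun n _ => ?_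
    rw [hz]
    ring
  have e2 : G α - a * W α = (G α - c.sum (fun n z => z * G (n * h))) -
      a * (W α - c.sum (fun n z => z * W (n * h))) := by
    rw [e1]
    ring
  rw [e2]
  have h5 := norm_sub_le (G α - c.sum (fun n z => z * G (n * h))) (a * (W α - c.sum (fun n z => z * W (n * h))))
  rw [norm_mul, Complex.norm_real, Real.norm_eq_abs] at h5
  have h6 : |a| * ‖W α - c.sum (fun n z => z * W (n * h))‖ ≤ |a| * (‖W 0‖ * (η / D)) :=
    mul_le_mul_of_nonneg_left h3 (abs_nonneg a)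
  have h7 : C * (η / D) + |a| * (‖W 0‖ * (η / D)) ≤ η := by
    have : C * (η / D) + |a| * (‖W 0‖ * (η / D)) = (C + |a| * ‖W 0‖) / D * η := by ring
    rw [this]
    have h8 : (C + |a| * ‖W 0‖) / D ≤ 1 := by
      rw [div_le_one hD0]
      linarith
    nlinarith
  linarith

end

end Pool.Agent.TH535.SM
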